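import Pool.Agent.H62.Sat.Prob2

set_option autoImplicit false

/-! Probability estimates for the random graph, union bounds. -/

namespace Pool.Agent.H62.Sat

open Finset Classical Pool.Agent.W166.Gnp

variable {n : ℕ} {p : ℝ}

theorem rich_all (h0 : 0 ≤ p) (h1 : p ≤ 1) (W : Finset (Fin n)) (M b : ℕ) :
    Pr (allE n) p (fun E => ∃ S : Finset (Fin n), S.card ≤ M ∧
      (W.filter (fun t => t ∉ S ∧ ∀ z ∈ S, s(t, z) ∈ E)).card < b) ≤
      ((n : ℝ) + 1) ^ M * (2 ^ b * Real.exp (-(p ^ M * ((W.card : ℝ) - M) / 2))) := by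
  apply Pr_small_sets h0 h1 M (fun S E => (W.filter (fun t => t ∉ S ∧
    ∀ z ∈ S, s(t, z) ∈ E)).card < b)
  intro S hS
  have h := rich_prob (n := n) h0 h1 (W \ S) S sdiff_disjoint b
  refine le_trans (le_of_eq ?_) (h.trans ?_)
  · congr 1
    funext E
    congr 2
    ext t
    simp only [mem_filter, mem_sdiff, and_assoc]
  · apply mul_le_mul_of_nonneg_left _ (by positivity)
    apply Real.exp_le_exp.mpr
    have h2 : (W.card : ℝ) - M ≤ (W \ S).card := by
      have h3 : W.card - S.card ≤ (W \ S).card := le_card_sdiff _ _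
      have h4 : W.card ≤ (W \ S).card + M := by omega
      have h5 : (W.card : ℝ) ≤ (W \ S).card + M := by exact_mod_cast h4
      linarith
    have h3 : p ^ M ≤ p ^ S.card := pow_le_pow_of_le_one h0 h1 hS
    have h4 : 0 ≤ p ^ M := by positivity
    by_cases h5 : 0 ≤ (W.card : ℝ) - M
    · have := mul_le_mul h3 h2 h5 (by positivity)
      linarith
    · push Not at h5
      have h6 : p ^ M * ((W.card : ℝ) - M) ≤ 0 := mul_nonpos_of_nonneg_of_nonpos h4 h5.le
      have h7 : 0 ≤ p ^ S.card * ((W \ S).card : ℝ) := by positivity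
      linarith

theorem typ_all (h0 : 0 ≤ p) (h1 : p ≤ 1) (ι κ : Type) [Fintype ι] [Fintype κ] (K : ℕ) :
    Pr (allE n) p (fun E => ∃ Z : ι × κ → Fin n, Function.Injective Z ∧
      K ≤ (univ.filter (fun v => (∀ x, v ≠ Z x) ∧ ∀ a, ∃ b, s(Z (a, b), v) ∉ E)).card) ≤
      (n : ℝ) ^ (Fintype.card ι * Fintype.card κ) * ((1 / 4) ^ K *
        Real.exp (3 * (1 - p ^ (Fintype.card κ)) ^ (Fintype.card ι) * n)) := by
  have hpw : 0 ≤ (1 - p ^ (Fintype.card κ)) ^ (Fintype.card ι) := by
    apply pow_nonneg
    have := pow_le_one₀ h0 h1 (n := Fintype.card κ)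
    linarith
  calc _ ≤ Pr (allE n) p (fun E => ∃ Z ∈ (univ : Finset (ι × κ → Fin n)).filter
        (fun Z => Function.Injective Z), K ≤ (univ.filter (fun v => (∀ x, v ≠ Z x) ∧
          ∀ a, ∃ b, s(Z (a, b), v) ∉ E)).card) := by
        apply Pr_mono h0 h1
        rintro E _ ⟨Z, h2, h3⟩
        exact ⟨Z, mem_filter.mpr ⟨mem_univ _, h2⟩, h3⟩
    _ ≤ ∑ Z ∈ (univ : Finset (ι × κ → Fin n)).filter (fun Z => Function.Injective Z),
        Pr (allE n) p (fun E => K ≤ (univ.filter (fun v => (∀ x, v ≠ Z x) ∧
          ∀ a, ∃ b, s(Z (a, b), v) ∉ E)).card) := Pr_exists_le h0 h1 _ _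
    _ ≤ ∑ _Z ∈ (univ : Finset (ι × κ → Fin n)).filter (fun Z => Function.Injective Z),
        ((1 / 4) ^ K * Real.exp (3 * (1 - p ^ (Fintype.card κ)) ^ (Fintype.card ι) * n)) := by
        apply sum_le_sum
        intro Z hZ
        have hZi := (mem_filter.mp hZ).2
        have h := typ_prob (n := n) h0 h1 (ι := ι)
          (univ.filter (fun v => ∀ x, v ≠ Z x))
          (fun a => univ.image (fun b : κ => Z (a, b)))
          (by
            intro a b hab
            rw [disjoint_left]
            intro v hv1 hv2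
            rw [mem_image] at hv1 hv2
            obtain ⟨c, _, hc⟩ := hv1
            obtain ⟨d, _, hd⟩ := hv2
            have := hZi (hc.trans hd.symm)
            exact hab (Prod.mk.inj this).1)
          (by
            intro a
            rw [disjoint_left]
            intro v hv1 hv2
            rw [mem_image] at hv2
            obtain ⟨c, _, hc⟩ := hv2
            exact (mem_filter.mp hv1).2 _ hc.symm)
          (Fintype.card κ)
          (by
            intro a
            rw [card_image_of_injective, card_univ]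
            intro b c hbc
            exact (Prod.mk.inj (hZi hbc)).2) K
        refine le_trans (le_of_eq ?_) (h.trans ?_)
        · congr 1
          funext E
          congr 2
          ext t
          simp only [mem_filter, mem_univ, true_and, mem_image, exists_exists_eq_and]
          apply and_congr_right
          intro _
          apply forall_congr'
          intro a
          constructor
          · rintro ⟨b, hb⟩
            exact ⟨b, by rwa [Sym2.eq_swap]⟩
          · rintro ⟨b, hb⟩
            exact ⟨b, by rwa [Sym2.eq_swap]⟩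
        · apply mul_le_mul_of_nonneg_left _ (by positivity)
          apply Real.exp_le_exp.mpr
          apply mul_le_mul_of_nonneg_left _ (by positivity)
          have := card_le_univ (univ.filter (fun v : Fin n => ∀ x, v ≠ Z x))
          rw [Fintype.card_fin] at this
          exact_mod_cast this
    _ ≤ _ := by
        rw [sum_const, nsmul_eq_mul]
        apply mul_le_mul_of_nonneg_right _ (by positivity)
        have h2 : ((univ : Finset (ι × κ → Fin n)).filter (fun Z => Function.Injective Z)).card ≤
            n ^ (Fintype.card ι * Fintype.card κ) := by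
          refine (card_filter_le _ _).trans ?_
          rw [card_univ, Fintype.card_fun, Fintype.card_prod, Fintype.card_fin]
        exact_mod_cast h2

theorem lone_all (h0 : 0 ≤ p) (h1 : p ≤ 1) (M b : ℕ) :
    Pr (allE n) p (fun E => ∃ D : Finset (Fin n), D.card ≤ M ∧ ∃ v ∉ D,
      (univ.filter (fun u => u ≠ v ∧ u ∉ D ∧ s(u, v) ∈ E ∧ ∀ d ∈ D, s(u, d) ∉ E)).card < b) ≤
      ((n : ℝ) + 1) ^ M * (n * (2 ^ b *
        Real.exp (-(p * (1 - p) ^ M * ((n : ℝ) - 1 - M) / 2)))) := by
  apply Pr_small_sets h0 h1 M (fun D E => ∃ v ∉ D,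
      (univ.filter (fun u => u ≠ v ∧ u ∉ D ∧ s(u, v) ∈ E ∧ ∀ d ∈ D, s(u, d) ∉ E)).card < b)
  intro D hD
  calc _ ≤ Pr (allE n) p (fun E => ∃ v ∈ (univ : Finset (Fin n)).filter (fun v => v ∉ D),
      (univ.filter (fun u => u ≠ v ∧ u ∉ D ∧ s(u, v) ∈ E ∧ ∀ d ∈ D, s(u, d) ∉ E)).card < b) := by
        apply Pr_mono h0 h1
        rintro E _ ⟨v, h2, h3⟩
        exact ⟨v, mem_filter.mpr ⟨mem_univ _, h2⟩, h3⟩
    _ ≤ ∑ v ∈ (univ : Finset (Fin n)).filter (fun v => v ∉ D), Pr (allE n) p (fun E =>
      (univ.filter (fun u => u ≠ v ∧ u ∉ D ∧ s(u, v) ∈ E ∧ ∀ d ∈ D, s(u, d) ∉ E)).card < b) :=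
        Pr_exists_le h0 h1 _ _
    _ ≤ ∑ _v ∈ (univ : Finset (Fin n)).filter (fun v => v ∉ D), (2 ^ b *
        Real.exp (-(p * (1 - p) ^ M * ((n : ℝ) - 1 - M) / 2))) := by
        apply sum_le_sum
        intro v hv
        refine (lone_prob h0 h1 v D (mem_filter.mp hv).2 b).trans ?_
        apply mul_le_mul_of_nonneg_left _ (by positivity)
        apply Real.exp_le_exp.mpr
        have h2 : (D.card : ℝ) ≤ M := by exact_mod_cast hD
        have h3 : (1 - p) ^ M ≤ (1 - p) ^ D.card :=
          pow_le_pow_of_le_one (by linarith) (by linarith) hD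
        have h4 : 0 ≤ (1 - p) ^ M := pow_nonneg (by linarith) _
        have h4' : 0 ≤ (1 - p) ^ D.card := pow_nonneg (by linarith) _
        by_cases h5 : 0 ≤ (n : ℝ) - 1 - M
        · have h6 : p * (1 - p) ^ M ≤ p * (1 - p) ^ D.card := mul_le_mul_of_nonneg_left h3 h0
          have h7 : (n : ℝ) - 1 - M ≤ (n : ℝ) - 1 - D.card := by linarith
          have := mul_le_mul h6 h7 h5 (by positivity)
          linarith
        · push Not at h5
          have h6 : p * (1 - p) ^ M * ((n : ℝ) - 1 - M) ≤ 0 :=
            mul_nonpos_of_nonneg_of_nonpos (by positivity) h5.le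
          have h7 : (0 : ℝ) ≤ (n : ℝ) - 1 - D.card := by
            have h8 : (insert v D).card ≤ n := by
              have := card_le_univ (insert v D)
              rwa [Fintype.card_fin] at this
            rw [card_insert_of_notMem (mem_filter.mp hv).2] at h8
            have h9 : ((D.card : ℝ) + 1) ≤ n := by exact_mod_cast h8
            linarith
          have h8 : 0 ≤ p * (1 - p) ^ D.card * ((n : ℝ) - 1 - D.card) := by positivity
          linarith
    _ ≤ _ := by
        rw [sum_const, nsmul_eq_mul]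
        apply mul_le_mul_of_nonneg_right _ (by positivity)
        have := card_le_univ ((univ : Finset (Fin n)).filter (fun v => v ∉ D))
        rw [Fintype.card_fin] at this
        exact_mod_cast this

end Pool.Agent.H62.Sat
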