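import Pool.Agent.H62.Sat.Regions
import Pool.Agent.H62.Sat.Prob3

set_option autoImplicit false

/-! From the edge set of a typical random graph to a good graph. -/

namespace Pool.Agent.H62.Sat

open Finset Classical Pool.Agent.W166.Gnp

/-- the graph of a set of pairs -/
abbrev gr {n : ℕ} (E : Finset (Sym2 (Fin n))) : SimpleGraph (Fin n) :=
  SimpleGraph.fromEdgeSet (E : Set (Sym2 (Fin n)))

theorem gr_adj {n : ℕ} {E : Finset (Sym2 (Fin n))} (hE : E ⊆ allE n) {u v : Fin n} :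
    (gr E).Adj u v ↔ s(u, v) ∈ E := by
  rw [SimpleGraph.fromEdgeSet_adj, mem_coe]
  constructor
  · exact fun h => h.1
  · intro h
    exact ⟨h, mem_allE.mp (hE h)⟩

/-- the vertices of the first part -/
noncomputable def A1set {V I J T L Γ : Type} [Fintype V] (reg : V → Reg I J T L Γ) : Finset V :=
  univ.filter (fun v => ∃ i γ, reg v = .c1 i γ)

/-- the vertices of the second part -/
noncomputable def A2set {V I J T L Γ : Type} [Fintype V] (reg : V → Reg I J T L Γ) : Finset V :=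
  univ.filter (fun v => ∃ j γ, reg v = .c2 j γ)

/-- the vertices of a region -/
noncomputable def rset {V I J T L Γ : Type} [Fintype V] (reg : V → Reg I J T L Γ)
    (x : Reg I J T L Γ) : Finset V :=
  univ.filter (fun v => reg v = x)

section events
variable {n : ℕ} (E : Finset (Sym2 (Fin n)))

/-- some set of at most `M` vertices has few common neighbours in `W` -/
def EvRich (W : Finset (Fin n)) (M b : ℕ) : Prop :=
  ∃ S : Finset (Fin n), S.card ≤ M ∧ (W.filter (fun t => t ∉ S ∧ ∀ z ∈ S, s(t, z) ∈ E)).card < b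

/-- some family of hubs leaves many vertices without type -/
def EvTyp (ι κ : Type) (K : ℕ) : Prop :=
  ∃ Z : ι × κ → Fin n, Function.Injective Z ∧
      K ≤ (univ.filter (fun v => (∀ x, v ≠ Z x) ∧ ∀ a, ∃ b, s(Z (a, b), v) ∉ E)).card

/-- some vertex has a large degree -/
def EvDeg (x : ℝ) : Prop := ∃ a : Fin n, x ≤ ((univ.filter (fun v => v ≠ a ∧ s(a, v) ∈ E)).card : ℝ)

/-- normal vertices -/
def Nrm {I : Type} (C : I → Finset (Fin n)) (x : ℝ) (t : Fin n) : Prop :=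
  ∀ i, x ≤ (((C i).filter (fun x => s(t, x) ∈ E)).card : ℝ)

/-- many vertices are not normal -/
def EvNrm {I : Type} (C : I → Finset (Fin n)) (x : ℝ) (K : ℕ) : Prop :=
  K ≤ (univ.filter (fun t => (∀ i, t ∉ C i) ∧ ¬ Nrm E C x t)).card

/-- many bad pairs -/
def EvPair (A : Finset (Fin n)) (m0 : ℕ) (K Q : ℝ) : Prop :=
  Q < (((univ : Finset (Fin n × Fin n)).filter (fun y => y.1 ≠ y.2 ∧
      y.1 ∉ A ∧ y.2 ∉ A ∧ m0 ≤ (A.filter (fun w => s(y.2, w) ∈ E)).card ∧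
      ((A.filter (fun w => s(y.1, w) ∈ E ∧ s(y.2, w) ∈ E)).card : ℝ) < K)).card : ℝ)

/-- a sparse pair inside a class -/
def EvDens (C : Finset (Fin n)) (m1 : ℕ) (x : ℝ) : Prop :=
  ∃ Y Y' : Finset (Fin n), Y ⊆ C ∧ Y' ⊆ C ∧ Disjoint Y Y' ∧
      m1 ≤ Y.card ∧ m1 ≤ Y'.card ∧
      ∀ v ∈ Y', ((Y.filter (fun x => s(v, x) ∈ E)).card : ℝ) < x * Y.card

end events

/-- the parameters of the construction -/
structure Par where
  (N' s0 s1 b1 b2 b3 m0 m1 bi mt : ℕ)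
  (p δ1 ε' ε'' Q : ℝ)

/-- the properties of a typical set of edges -/
structure Typ (k q : ℕ) {n : ℕ} {I J T L Γ : Type} [Fintype I] [Fintype J] [Fintype T] [Fintype L]
    [Fintype Γ] (c : Par) (reg : Fin n → Reg I J T L Γ) (E : Finset (Sym2 (Fin n))) : Prop where
  hE : E ⊆ allE n
  ha : ¬ EvDeg E ((1 + 2 * c.ε') * (c.p * ((n : ℝ) - 1)))
  hb : ¬ EvRich E (rset reg .pool) c.s0 c.s1
  hc : ¬ EvTyp E T (LI I J q k) (c.b1 + 1)
  hd : ¬ EvTyp E L (Fin k) (c.b2 + 1)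
  he : ∀ τ, ¬ EvRich E (rset reg (.bet τ))
    (Fintype.card (LI I J q k) + Fintype.card I * (q * k)) (c.b3 + k + 1)
  he' : ∀ σ, ¬ EvRich E (rset reg (.lam σ)) (k + Fintype.card I * (q * k)) (k + 1)
  hf : ¬ EvNrm E (C1 reg) ((1 - c.ε'') * (c.p * (Fintype.card Γ * c.N' : ℕ))) (c.b3 + 1)
  hg : ¬ EvPair E (A1set reg) c.mt (Fintype.card I * (c.δ1 * (Fintype.card Γ * c.N' : ℕ))) c.Q
  hh1 : ∀ i, ¬ EvDens E (C1 reg i) c.m1 (c.p / 2)
  hh2 : ∀ i, ¬ EvDens E (C2 reg i) c.m1 (c.p / 2)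
  hi : ¬ EvRich E (A2set reg) k c.bi

end Pool.Agent.H62.Sat
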