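import Pool.Agent.H62.Sat.Assemble

set_option autoImplicit false

/-! From the edge set of a typical random graph to a good graph, second part. -/

namespace Pool.Agent.H62.Sat

open Finset Classical Pool.Agent.W166.Gnp

variable {k q n : ℕ} {I J T L Γ : Type} [Fintype I] [Fintype J] [Fintype T] [Fintype L]
    [Fintype Γ] {c : Par} {reg : Fin n → Reg I J T L Γ} {E : Finset (Sym2 (Fin n))}

theorem Typ.adj (h : Typ k q c reg E) {u v : Fin n} : (gr E).Adj u v ↔ s(u, v) ∈ E := gr_adj h.hE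

theorem rich_of_not {W : Finset (Fin n)} {M b : ℕ} (h : ¬ EvRich E W M b) (S : Finset (Fin n))
    (hS : S.card ≤ M) : b ≤ (W.filter (fun t => t ∉ S ∧ ∀ z ∈ S, s(t, z) ∈ E)).card := by
  by_contra hcon
  push Not at hcon
  exact h ⟨S, hS, hcon⟩

theorem nrm_of_not {C : I → Finset (Fin n)} {x : ℝ} {K : ℕ} (h : ¬ EvNrm E C x (K + 1)) :
    (univ.filter (fun t => (∀ i, t ∉ C i) ∧ ¬ Nrm E C x t)).card ≤ K := by
  by_contra hcon
  push Not at hcon
  apply h
  unfold EvNrm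
  refine (Nat.succ_le_of_lt hcon).trans (le_of_eq ?_)
  congr

/-- richness of a class, from the density property -/
theorem class_rich' (E0 : SimpleGraph Γ) (hE : E ⊆ allE n) (C : Finset (Fin n)) (bl : Fin n → Γ)
    (N' : ℕ) (hN' : 0 < N') (hbl : ∀ γ, (C.filter (fun v => bl v = γ)).card = N')
    (p : ℝ) (h0 : 0 ≤ p) (h1 : p ≤ 1) (m1 m0 : ℕ) (δΓ : ℝ)
    (hd : ¬ EvDens E C m1 (p / 2))
    (hΓ : ∀ A : Finset Γ, δΓ * Fintype.card Γ ≤ A.card → ∃ x : Fin q → Γ, (∀ c, x c ∈ A) ∧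
        ∀ c c', c ≠ c' → E0.Adj (x c) (x c'))
    (hbig : (q * m1 + q * k + m1 + 1 : ℝ) ≤ (p / 2) ^ (q * k) * (δΓ * N'))
    (hm0 : 2 * δΓ * (Fintype.card Γ * N') ≤ m0)
    (R : SimpleGraph (Fin n))
    (hR : ∀ u ∈ C, ∀ v ∈ C, (gr E).Adj u v → E0.Adj (bl u) (bl v) → R.Adj u v)
    (W : Finset (Fin n)) (hWC : W ⊆ C) (hW : m0 ≤ W.card) : KQ q k R W := by
  apply class_rich (gr E) R C (p / 2) m1 q k (by linarith) (by linarith) ?_ Γ E0 δΓ hΓ bl N' hN'
    hbl hR hbig W hWC (hm0.trans (by exact_mod_cast hW))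
  intro Y Y' hY hY' hdis hc1 hc2
  by_contra hcon
  push Not at hcon
  apply hd
  refine ⟨Y, Y', hY, hY', hdis, hc1, hc2, ?_⟩
  intro v hv
  have := hcon v hv
  refine lt_of_le_of_lt (le_of_eq ?_) this
  congr 2
  ext x
  simp only [mem_filter]
  rw [gr_adj hE]

/-- the block of a vertex -/
def blk (γ0 : Γ) : Reg I J T L Γ → Γ
  | .c1 _ γ => γ
  | .c2 _ γ => γ
  | _ => γ0

theorem Typ.good [Nonempty Γ] (h : Typ k q c reg E) (E0 : SimpleGraph Γ)
    (hcol : ∀ W : Finset Γ, W.card ≤ k → ∃ c : Γ → Fin q, ∀ u ∈ W, ∀ v ∈ W, E0.Adj u v →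
      c u ≠ c v)
    (δΓ : ℝ) (hΓ : ∀ A : Finset Γ, δΓ * Fintype.card Γ ≤ A.card → ∃ x : Fin q → Γ,
      (∀ c, x c ∈ A) ∧ ∀ c c', c ≠ c' → E0.Adj (x c) (x c'))
    (hN' : 0 < c.N')
    (size1 : ∀ i γ, (univ.filter (fun v => reg v = .c1 i γ)).card = c.N')
    (size2 : ∀ i γ, (univ.filter (fun v => reg v = .c2 i γ)).card = c.N')
    (h0 : 0 ≤ c.p) (h1 : c.p ≤ 1)
    (hbig : (q * c.m1 + q * k + c.m1 + 1 : ℝ) ≤ (c.p / 2) ^ (q * k) * (δΓ * c.N'))
    (hm0 : 2 * δΓ * (Fintype.card Γ * c.N') ≤ c.m0)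
    (hs0 : Fintype.card Γ * c.N' ≤ c.s0)
    (hs0' : Fintype.card (T × Fin q × Fin k) ≤ c.s0)
    (hs1 : Fintype.card ((T × I × Fin k) ⊕ ((T × J × Fin k) ⊕ (L × Fin k))) +
      Fintype.card (T × Fin q × Fin k) ≤ c.s1)
    (hbi : Fintype.card J * c.m0 ≤ c.bi) (hbi1 : 1 ≤ c.bi)
    (b4 : ℕ) (hlam : (univ.filter (fun v => ∃ σ, reg v = .lam σ)).card ≤ b4) :
    ∃ D : Good (Fin n) I J T L Γ q k, D.G = gr E ∧ D.reg = reg ∧
      D.nrm = Nrm E (C1 reg) ((1 - c.ε'') * (c.p * (Fintype.card Γ * c.N' : ℕ))) ∧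
      D.N' = c.N' ∧ D.m0 = c.m0 ∧ D.K3 = Fintype.card I * (q * k) ∧ D.s1 = c.s1 ∧
      D.b1 = c.b1 ∧ D.b2 = c.b2 ∧ D.b3 = c.b3 ∧ D.b4 = b4 := by
  obtain ⟨γ0⟩ := ‹Nonempty Γ›
  refine ⟨{
    G := gr E
    E := E0
    E_col := hcol
    reg := reg
    nrm := Nrm E (C1 reg) ((1 - c.ε'') * (c.p * (Fintype.card Γ * c.N' : ℕ)))
    N' := c.N'
    size1 := size1
    size2 := size2
    m0 := c.m0
    K3 := Fintype.card I * (q * k)
    rich1 := ?_
    rich2 := ?_
    s0 := c.s0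
    s1 := c.s1
    common := ?_
    hs0 := hs0
    hs0' := hs0'
    hs1 := hs1
    b1 := c.b1
    typM := ?_
    b2 := c.b2
    typL := ?_
    richM := ?_
    richL := ?_
    P2 := ?_
    b3 := c.b3
    abn := ?_
    b4 := b4
    lamc := hlam }, rfl, rfl, rfl, rfl, rfl, rfl, rfl, rfl, rfl, rfl, rfl⟩
  · intro i W hWC hW R hR
    refine class_rich' E0 h.hE (C1 reg i) (fun v => blk γ0 (reg v)) c.N' hN' ?_ c.p h0 h1 c.m1
      c.m0 δΓ (h.hh1 i) hΓ hbig hm0 R ?_ W hWC hW
    · intro γ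
      rw [← size1 i γ]
      congr 1
      ext v
      simp only [C1, mem_filter, mem_univ, true_and]
      constructor
      · rintro ⟨⟨γ', h2⟩, h3⟩
        rw [h2] at h3 ⊢
        simp only [blk] at h3
        rw [h3]
      · intro h2
        rw [h2]
        exact ⟨⟨γ, rfl⟩, rfl⟩
    · intro u hu v hv h2 h3
      simp only [C1, mem_filter, mem_univ, true_and] at hu hv
      obtain ⟨γ, hγ⟩ := hu
      obtain ⟨γ', hγ'⟩ := hv
      rw [hγ, hγ'] at h3
      exact hR u (by simp [C1, hγ]) v (by simp [C1, hγ']) γ γ' hγ hγ' h2 h3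
  · intro i W hWC hW R hR
    refine class_rich' E0 h.hE (C2 reg i) (fun v => blk γ0 (reg v)) c.N' hN' ?_ c.p h0 h1 c.m1
      c.m0 δΓ (h.hh2 i) hΓ hbig hm0 R ?_ W hWC hW
    · intro γ
      rw [← size2 i γ]
      congr 1
      ext v
      simp only [C2, mem_filter, mem_univ, true_and]
      constructor
      · rintro ⟨⟨γ', h2⟩, h3⟩
        rw [h2] at h3 ⊢
        simp only [blk] at h3
        rw [h3]
      · intro h2
        rw [h2]
        exact ⟨⟨γ, rfl⟩, rfl⟩
    · intro u hu v hv h2 h3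
      simp only [C2, mem_filter, mem_univ, true_and] at hu hv
      obtain ⟨γ, hγ⟩ := hu
      obtain ⟨γ', hγ'⟩ := hv
      rw [hγ, hγ'] at h3
      exact hR u (by simp [C2, hγ]) v (by simp [C2, hγ']) γ γ' hγ hγ' h2 h3
  · intro S hS
    refine (rich_of_not h.hb S hS).trans (card_le_card ?_)
    intro v hv
    simp only [mem_filter, rset, mem_univ, true_and] at hv ⊢
    refine ⟨hv.1, hv.2.1, fun s hs => ?_⟩
    rw [h.adj, Sym2.eq_swap]
    exact hv.2.2 s hs
  · intro Z hZ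
    by_contra hcon
    push Not at hcon
    apply h.hc
    refine ⟨Z, hZ, hcon.trans_le (card_le_card ?_)⟩
    intro v hv
    simp only [mem_filter, mem_univ, true_and] at hv ⊢
    refine ⟨hv.1, fun a => ?_⟩
    obtain ⟨b, hb⟩ := hv.2 a
    exact ⟨b, fun h2 => hb (h.adj.mpr h2)⟩
  · intro Z hZ
    by_contra hcon
    push Not at hcon
    apply h.hd
    refine ⟨Z, hZ, hcon.trans_le (card_le_card ?_)⟩
    intro v hv
    simp only [mem_filter, mem_univ, true_and] at hv ⊢
    refine ⟨hv.1, fun a => ?_⟩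
    obtain ⟨b, hb⟩ := hv.2 a
    exact ⟨b, fun h2 => hb (h.adj.mpr h2)⟩
  · intro τ Z S hZ hS hSp
    have h2 := rich_of_not (h.he τ) (univ.image Z ∪ S) (by
      refine (card_union_le _ _).trans (Nat.add_le_add ?_ hS)
      refine card_image_le.trans ?_
      rw [card_univ])
    have h3 : ((rset reg (.bet τ)).filter (fun t => t ∉ (univ.image Z ∪ S) ∧
        ∀ z ∈ univ.image Z ∪ S, s(t, z) ∈ E)) ⊆
        (univ.filter (fun v => reg v = .bet τ ∧
          Nrm E (C1 reg) ((1 - c.ε'') * (c.p * (Fintype.card Γ * c.N' : ℕ))) v ∧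
          (∀ a, (gr E).Adj (Z a) v) ∧ ∀ s ∈ S, (gr E).Adj s v)) ∪
        (univ.filter (fun t => (∀ i, t ∉ C1 reg i) ∧
          ¬ Nrm E (C1 reg) ((1 - c.ε'') * (c.p * (Fintype.card Γ * c.N' : ℕ))) t)) := by
      intro t ht
      simp only [mem_filter, rset, mem_univ, true_and] at ht
      obtain ⟨ht1, ht2, ht3⟩ := ht
      rw [mem_union, mem_filter, mem_filter]
      by_cases hn : Nrm E (C1 reg) ((1 - c.ε'') * (c.p * (Fintype.card Γ * c.N' : ℕ))) t
      · left
        refine ⟨mem_univ _, ht1, hn, ?_, ?_⟩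
        · intro a
          rw [h.adj, Sym2.eq_swap]
          exact ht3 _ (mem_union_left _ (mem_image_of_mem _ (mem_univ _)))
        · intro s hs
          rw [h.adj, Sym2.eq_swap]
          exact ht3 _ (mem_union_right _ hs)
      · right
        refine ⟨mem_univ _, ?_, hn⟩
        intro i hi
        simp only [C1, mem_filter, mem_univ, true_and] at hi
        obtain ⟨γ, hγ⟩ := hi
        rw [ht1] at hγ
        simp at hγ
    have h4 := (card_le_card h3).trans (card_union_le _ _)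
    have h5 := nrm_of_not h.hf
    have h7 : k + 1 ≤ (univ.filter (fun v => reg v = .bet τ ∧
          Nrm E (C1 reg) ((1 - c.ε'') * (c.p * (Fintype.card Γ * c.N' : ℕ))) v ∧
          (∀ a, (gr E).Adj (Z a) v) ∧ ∀ s ∈ S, (gr E).Adj s v)).card := by omega
    refine h7.trans (card_le_card ?_)
    intro v hv
    simp only [mem_filter] at hv ⊢
    exact hv
  · intro τ Z S hZ hS hSp
    have h2 := rich_of_not (h.he' τ) (univ.image Z ∪ S) (by
      refine (card_union_le _ _).trans (Nat.add_le_add ?_ hS)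
      refine card_image_le.trans ?_
      rw [card_univ, Fintype.card_fin])
    refine h2.trans (card_le_card ?_)
    intro t ht
    simp only [mem_filter, rset, mem_univ, true_and] at ht ⊢
    obtain ⟨ht1, ht2, ht3⟩ := ht
    refine ⟨ht1, ?_, ?_⟩
    · intro a
      rw [h.adj, Sym2.eq_swap]
      exact ht3 _ (mem_union_left _ (mem_image_of_mem _ (mem_univ _)))
    · intro s hs
      rw [h.adj, Sym2.eq_swap]
      exact ht3 _ (mem_union_right _ hs)
  · intro S hS hSA
    have h2 := rich_of_not h.hi S hS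
    by_contra hcon
    push Not at hcon
    have h3 : ((A2set reg).filter (fun t => t ∉ S ∧ ∀ z ∈ S, s(t, z) ∈ E)) ⊆
        (univ : Finset J).biUnion (fun j => (C2 reg j).filter (fun v => ∀ s ∈ S,
          (gr E).Adj s v)) := by
      intro v hv
      simp only [A2set, mem_filter, mem_univ, true_and] at hv
      obtain ⟨⟨j, γ, hγ⟩, _, hv2⟩ := hv
      rw [mem_biUnion]
      refine ⟨j, mem_univ _, ?_⟩
      simp only [C2, mem_filter, mem_univ, true_and]
      refine ⟨⟨γ, hγ⟩, fun s hs => ?_⟩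
      rw [h.adj, Sym2.eq_swap]
      exact hv2 s hs
    have h4 := (card_le_card h3).trans card_biUnion_le
    rcases isEmpty_or_nonempty J with hJ | hJ
    · have : (univ : Finset J) = ∅ := univ_eq_empty
      rw [this, sum_empty] at h4
      omega
    · have h5 : ∑ j : J, ((C2 reg j).filter (fun v => ∀ s ∈ S, (gr E).Adj s v)).card <
          ∑ _j : J, c.m0 := sum_lt_sum_of_nonempty univ_nonempty
            (fun j _ => lt_of_le_of_lt (card_le_card (by
              intro v hv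
              simp only [mem_filter] at hv ⊢
              exact hv)) (hcon j))
      rw [sum_const, card_univ, smul_eq_mul] at h5
      omega
  · have h5 := nrm_of_not h.hf
    have h6 : (univ.filter (fun v => (∀ i γ, reg v ≠ .c1 i γ) ∧
        ¬ Nrm E (C1 reg) ((1 - c.ε'') * (c.p * (Fintype.card Γ * c.N' : ℕ))) v)) ⊆
        (univ.filter (fun t => (∀ i, t ∉ C1 reg i) ∧
          ¬ Nrm E (C1 reg) ((1 - c.ε'') * (c.p * (Fintype.card Γ * c.N' : ℕ))) t)) := by
      intro v hv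
      rw [mem_filter] at hv ⊢
      refine ⟨mem_univ _, ?_, hv.2.2⟩
      intro i hi
      simp only [C1, mem_filter, mem_univ, true_and] at hi
      obtain ⟨γ, hγ⟩ := hi
      exact hv.2.1 i γ hγ
    have := card_le_card h6
    omega

end Pool.Agent.H62.Sat
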