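import Pool.Agent.H62.Sat.Assemble2

set_option autoImplicit false

/-! The sparse saturated subgraph for a typical set of edges. -/

namespace Pool.Agent.H62.Sat

open Finset Classical Pool.Agent.W166.Gnp

variable {k q n : ℕ} {I J T L Γ : Type} [Fintype I] [Fintype J] [Fintype T] [Fintype L]
    [Fintype Γ] {c : Par} {reg : Fin n → Reg I J T L Γ} {E : Finset (Sym2 (Fin n))}

theorem card_A1_filter (reg : Fin n → Reg I J T L Γ) (P : Fin n → Prop) [DecidablePred P] :
    ((A1set reg).filter P).card = ∑ i : I, ((C1 reg i).filter P).card := by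
  have h : (A1set reg).filter P = (univ : Finset I).biUnion (fun i => (C1 reg i).filter P) := by
    ext v
    simp only [A1set, C1, mem_filter, mem_univ, true_and, mem_biUnion]
    constructor
    · rintro ⟨⟨i, γ, h⟩, h2⟩
      exact ⟨i, ⟨γ, h⟩, h2⟩
    · rintro ⟨i, ⟨γ, h⟩, h2⟩
      exact ⟨⟨i, γ, h⟩, h2⟩
  rw [h, card_biUnion]
  intro i _ j _ hij
  rw [Function.onFun, disjoint_left]
  intro v h1 h2
  simp only [C1, mem_filter, mem_univ, true_and] at h1 h2
  obtain ⟨⟨γ, h3⟩, _⟩ := h1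
  obtain ⟨⟨γ', h4⟩, _⟩ := h2
  rw [h3] at h4
  simp only [Reg.c1.injEq] at h4
  exact hij h4.1

theorem card_A1 (reg : Fin n → Reg I J T L Γ) :
    (A1set reg).card = ∑ i : I, (C1 reg i).card := by
  have h := card_A1_filter reg (fun _ => True)
  simpa using h

/-- all the conditions on the parameters -/
structure ParOK (k q n : ℕ) (I J T L Γ : Type) [Fintype I] [Fintype J] [Fintype T] [Fintype L]
    [Fintype Γ] (c : Par) (δΓ δ1' ε2 δ2 : ℝ) (M1 M2 b4 : ℕ) : Prop where
  hN' : 0 < c.N'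
  h0 : 0 ≤ c.p
  h1 : c.p ≤ 1
  hbig : (q * c.m1 + q * k + c.m1 + 1 : ℝ) ≤ (c.p / 2) ^ (q * k) * (δΓ * c.N')
  hm0 : 2 * δΓ * (Fintype.card Γ * c.N') ≤ c.m0
  hs0 : Fintype.card Γ * c.N' ≤ c.s0
  hs0' : Fintype.card (T × Fin q × Fin k) ≤ c.s0
  hs1 : Fintype.card ((T × I × Fin k) ⊕ ((T × J × Fin k) ⊕ (L × Fin k))) +
      Fintype.card (T × Fin q × Fin k) ≤ c.s1
  hs1' : 1 ≤ c.s1
  hbi : Fintype.card J * c.m0 ≤ c.bi
  hbi1 : 1 ≤ c.bi
  hδ1 : c.δ1 ≤ (1 - c.ε'') * c.p
  hmt : (c.mt : ℝ) ≤ Fintype.card I * ((1 - c.ε'') * (c.p * (Fintype.card Γ * c.N' : ℕ)))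
  hε2 : 0 ≤ ε2
  hI1 : InterMP c.δ1 I k M1 δ1'
  hI2 : InterP ε2 k M2 δ2
  hm1 : (c.m0 : ℝ) ≤ δ1' * (Fintype.card Γ * c.N' : ℕ)
  hm2 : (c.m0 : ℝ) ≤ δ2 * (Fintype.card Γ * c.N' : ℕ)
  hm3 : (k : ℝ) ≤ δ2 * (Fintype.card L * k : ℕ)

theorem Typ.upper [Nonempty Γ] [Nonempty L] [Nonempty I] (h : Typ k q c reg E)
    {δΓ δ1' ε2 δ2 : ℝ} {M1 M2 b4 : ℕ} (hc : ParOK k q n I J T L Γ c δΓ δ1' ε2 δ2 M1 M2 b4)
    (E0 : SimpleGraph Γ)
    (hcol : ∀ W : Finset Γ, W.card ≤ k → ∃ c : Γ → Fin q, ∀ u ∈ W, ∀ v ∈ W, E0.Adj u v →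
      c u ≠ c v)
    (hΓ : ∀ A : Finset Γ, δΓ * Fintype.card Γ ≤ A.card → ∃ x : Fin q → Γ,
      (∀ c, x c ∈ A) ∧ ∀ c c', c ≠ c' → E0.Adj (x c) (x c'))
    (size1 : ∀ i γ, (univ.filter (fun v => reg v = .c1 i γ)).card = c.N')
    (size2 : ∀ i γ, (univ.filter (fun v => reg v = .c2 i γ)).card = c.N')
    (hlam : (univ.filter (fun v => ∃ σ, reg v = .lam σ)).card ≤ b4)
    (F : SimpleGraph (Fin k))
    (htri : ∀ u v : Fin k, F.Adj u v → ∃ w : Fin k, F.Adj u w ∧ F.Adj v w)
    (hF1 : ¬ F.Colorable (q + 1)) (hF2 : F.Colorable (q + 2)) :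
    ∃ H : SimpleGraph (Fin n), H ≤ gr E ∧ ¬ F.IsContained H ∧
      (∀ u v, (gr E).Adj u v → ¬ H.Adj u v →
        F.IsContained (H ⊔ SimpleGraph.fromEdgeSet {s(u, v)})) ∧
      (H.edgeSet.ncard : ℝ) ≤ (Fintype.card I * (Fintype.card Γ * c.N' : ℕ) : ℝ) *
          ((1 + 2 * c.ε') * (c.p * ((n : ℝ) - 1))) +
        (Fintype.card (T × Fin q × Fin k) +
          Fintype.card ((T × I × Fin k) ⊕ (T × J × Fin k)) : ℕ) * (n : ℝ) +
        (Fintype.card J * (Fintype.card Γ * c.N') + Fintype.card L * k : ℕ) *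
          ((Fintype.card J * (Fintype.card Γ * c.N') + Fintype.card L * k : ℕ) +
            (c.b1 + c.b3 + b4 : ℕ) : ℝ) +
        (Fintype.card J * (n * (ε2 * (Fintype.card Γ * c.N' : ℕ)) +
          Fintype.card T * M2 * (Fintype.card Γ * c.N' : ℕ))) +
        (n * (ε2 * (Fintype.card L * k : ℕ)) +
          Fintype.card T * M2 * (Fintype.card L * k : ℕ)) +
        (n * (Fintype.card T * (Fintype.card I * M1)) + c.Q) +
        (c.b1 + c.b3 + b4 : ℕ) * (Fintype.card L * k : ℝ) +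
        (c.b2 : ℝ) ^ 2 := by
  obtain ⟨D, hDG, hDr, hDn, hDN, hDm, hDK, hDs, hDb1, hDb2, hDb3, hDb4⟩ := h.good E0 hcol δΓ hΓ
    hc.hN' size1 size2 hc.h0 hc.h1 hc.hbig hc.hm0 hc.hs0 hc.hs0' hc.hs1 hc.hbi hc.hbi1 b4 hlam
  set N : ℕ := Fintype.card Γ * c.N' with hN
  have hA1card : ∀ s : Finset (Fin n), (∀ v, v ∈ s ↔ ∃ i γ, reg v = .c1 i γ) →
      s.card = Fintype.card I * N := by
    intro s hs
    have h3 : ∀ i, (C1 reg i).card = N := by
      intro i
      have := D.card_C1 i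
      rwa [hDr, hDN] at this
    have h4 : s = A1set reg := by
      ext v
      simp only [hs, A1set, mem_filter, mem_univ, true_and]
    rw [h4, card_A1, sum_congr rfl (fun i _ => h3 i), sum_const, card_univ, smul_eq_mul]
  have key := D.upper (by rw [hDs]; exact hc.hs1') F htri hF1 hF2
    (by rw [hDK]) N (by rw [hDN]) c.δ1 M1 δ1' hc.hI1 (by rw [hDm]; exact hc.hm1)
    (by
      intro v hv i
      rw [hDn] at hv
      rw [hDr, hDG]
      have h2 := hv i
      refine le_trans ?_ (h2.trans (le_of_eq ?_))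
      · have := mul_le_mul_of_nonneg_right hc.hδ1 (Nat.cast_nonneg N : (0 : ℝ) ≤ N)
        linarith
      · congr 2
        ext x
        simp only [mem_filter]
        rw [h.adj])
    c.Q
    (by
      have hg := h.hg
      unfold EvPair at hg
      push Not at hg
      refine le_trans (Nat.cast_le.mpr (card_le_card ?_)) hg
      · rintro ⟨z, t⟩ hx
        simp only [mem_filter, mem_univ, true_and] at hx ⊢
        obtain ⟨h2, h3, h4, h5, h6⟩ := hx
        rw [hDr] at h3 h4
        refine ⟨h2, ?_, ?_, ?_, ?_⟩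
        · simp only [A1set, mem_filter, mem_univ, true_and]
          rintro ⟨i, γ, h7⟩
          exact h3 i γ h7
        · simp only [A1set, mem_filter, mem_univ, true_and]
          rintro ⟨i, γ, h7⟩
          exact h4 i γ h7
        · rw [hDn] at h5
          have h7 : (c.mt : ℝ) ≤ ((A1set reg).filter (fun w => s(t, w) ∈ E)).card := by
            rw [card_A1_filter]
            push_cast
            refine hc.hmt.trans ?_
            calc Fintype.card I * ((1 - c.ε'') * (c.p * (Fintype.card Γ * c.N' : ℕ)))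
                = ∑ _i : I, ((1 - c.ε'') * (c.p * (Fintype.card Γ * c.N' : ℕ))) := by
                  rw [sum_const, card_univ, nsmul_eq_mul]
              _ ≤ _ := sum_le_sum (fun i _ => by
                  have := h5 i
                  convert this using 3)
          exact_mod_cast h7
        · rw [card_A1_filter]
          push_cast
          have h7 : ∀ i ∈ (univ : Finset I),
              (((C1 reg i).filter (fun w => s(z, w) ∈ E ∧ s(t, w) ∈ E)).card : ℝ) <
                c.δ1 * (Fintype.card Γ * c.N' : ℕ) := by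
            intro i _
            by_contra hcon
            push Not at hcon
            apply h6
            refine ⟨i, ?_⟩
            rw [hDr, hDG]
            rw [← hN] at hcon
            refine hcon.trans (le_of_eq ?_)
            congr 2
            ext x
            simp only [mem_filter]
            rw [h.adj, h.adj]
          have h8 := sum_lt_sum_of_nonempty univ_nonempty h7
          rw [sum_const, card_univ, nsmul_eq_mul] at h8
          exact_mod_cast h8)
    ε2 hc.hε2 M2 δ2 hc.hI2 (by rw [hDm]; exact hc.hm2) hc.hm3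
    ((Fintype.card I * N : ℕ) * ((1 + 2 * c.ε') * (c.p * ((n : ℝ) - 1))))
    (by
      rw [hDr, hDG]
      refine le_trans (sum_le_sum (g := fun _ => (1 + 2 * c.ε') * (c.p * ((n : ℝ) - 1)))
        (fun a _ => ?_)) ?_
      · by_contra hcon
        push Not at hcon
        apply h.ha
        refine ⟨a, hcon.le.trans (Nat.cast_le.mpr (card_le_card ?_))⟩
        intro v hv
        simp only [mem_filter, mem_univ, true_and] at hv ⊢
        exact ⟨hv.ne.symm, h.adj.mp hv⟩
      · rw [sum_const, hA1card _ (by intro v; simp only [mem_filter, mem_univ, true_and]),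
          nsmul_eq_mul])
  obtain ⟨H, hH1, hH2, hH3, hH4⟩ := key
  rw [hDG] at hH1 hH3
  refine ⟨H, hH1, hH2, hH3, ?_⟩
  rw [hDb1, hDb2, hDb3, hDb4, Fintype.card_fin] at hH4
  push_cast at hH4 ⊢
  exact hH4

end Pool.Agent.H62.Sat
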