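import Mathlib

set_option autoImplicit false

/-! Asymptotic facts. -/

namespace Pool.Agent.H62.Sat

open Filter Topology

theorem tlog : Tendsto (fun n : ℕ => Real.log n) atTop atTop :=
  Real.tendsto_log_atTop.comp tendsto_natCast_atTop_atTop

theorem ev_log (C : ℝ) : ∀ᶠ n : ℕ in atTop, C ≤ Real.log n := tlog.eventually_ge_atTop C

theorem ev_n (C : ℝ) : ∀ᶠ n : ℕ in atTop, C ≤ (n : ℝ) :=
  tendsto_natCast_atTop_atTop.eventually_ge_atTop C

theorem ev_log_pow (C : ℝ) (m : ℕ) {a : ℝ} (ha : 0 < a) :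
    ∀ᶠ n : ℕ in atTop, C * Real.log n ^ m ≤ (n : ℝ) ^ a := by
  have h := (isLittleO_log_rpow_rpow_atTop (m : ℝ) ha)
  have h2 := h.def (c := 1 / (|C| + 1)) (by positivity)
  have h3 := tendsto_natCast_atTop_atTop (R := ℝ) |>.eventually h2
  filter_upwards [h3, ev_log 0] with n hn hl
  rw [Real.norm_of_nonneg (by positivity), Real.norm_of_nonneg (by positivity),
    Real.rpow_natCast] at hn
  have h4 : C * Real.log n ^ m ≤ (|C| + 1) * Real.log n ^ m := by
    apply mul_le_mul_of_nonneg_right _ (by positivity)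
    have := le_abs_self C
    linarith
  refine h4.trans ?_
  calc (|C| + 1) * Real.log n ^ m ≤ (|C| + 1) * (1 / (|C| + 1) * (n : ℝ) ^ a) :=
        mul_le_mul_of_nonneg_left hn (by positivity)
    _ = (n : ℝ) ^ a := by field_simp

theorem ev_rpow (C : ℝ) {a b : ℝ} (hab : a < b) :
    ∀ᶠ n : ℕ in atTop, C * (n : ℝ) ^ a ≤ (n : ℝ) ^ b := by
  have h : Tendsto (fun n : ℕ => (n : ℝ) ^ (b - a)) atTop atTop :=
    (tendsto_rpow_atTop (by linarith)).comp tendsto_natCast_atTop_atTop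
  filter_upwards [h.eventually_ge_atTop C, eventually_gt_atTop 0] with n hn h0
  have hpos : (0 : ℝ) < n := by exact_mod_cast h0
  calc C * (n : ℝ) ^ a ≤ (n : ℝ) ^ (b - a) * (n : ℝ) ^ a :=
        mul_le_mul_of_nonneg_right hn (by positivity)
    _ = (n : ℝ) ^ b := by rw [← Real.rpow_add hpos]; congr 1; ring

theorem ev_log_sqrt (C : ℝ) (m : ℕ) :
    ∀ᶠ n : ℕ in atTop, C * Real.log n ^ m ≤ Real.sqrt n := by
  filter_upwards [ev_log_pow C m (a := 1 / 2) (by norm_num)] with n hn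
  rwa [Real.sqrt_eq_rpow]

theorem ev_sqrt_n (C : ℝ) : ∀ᶠ n : ℕ in atTop, C * Real.sqrt n ≤ (n : ℝ) := by
  filter_upwards [ev_rpow C (a := 1 / 2) (b := 1) (by norm_num)] with n hn
  rwa [Real.rpow_one, ← Real.sqrt_eq_rpow] at hn

theorem ev_log_n (C : ℝ) (m : ℕ) : ∀ᶠ n : ℕ in atTop, C * Real.log n ^ m ≤ (n : ℝ) := by
  filter_upwards [ev_log_pow C m (a := 1) one_pos] with n hn
  rwa [Real.rpow_one] at hn

theorem ev_log_succ : ∀ᶠ n : ℕ in atTop, Real.log ((n : ℝ) + 1) ≤ 2 * Real.log n := by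
  filter_upwards [eventually_ge_atTop 2] with n hn
  have h2 : (2 : ℝ) ≤ n := by exact_mod_cast hn
  have h3 : 2 * Real.log n = Real.log ((n : ℝ) ^ 2) := by rw [Real.log_pow]; norm_num
  rw [h3]
  apply Real.log_le_log (by positivity)
  nlinarith

/-- squeezing by an exponential -/
theorem lim_exp {f X : ℕ → ℝ} (h0 : ∀ᶠ n in atTop, 0 ≤ f n) (h : ∀ᶠ n in atTop, f n ≤ Real.exp (X n))
    (hX : Tendsto X atTop atBot) : Tendsto f atTop (𝓝 0) :=
  squeeze_zero' h0 h (Real.tendsto_exp_atBot.comp hX)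

theorem lim_bot {X : ℕ → ℝ} {c C : ℝ} (hc : 0 < c) (h : ∀ᶠ n : ℕ in atTop, X n ≤ C - c * Real.log n) :
    Tendsto X atTop atBot := by
  refine tendsto_atBot_mono' atTop h ?_
  exact tendsto_atBot_add_const_left _ C (tendsto_neg_atTop_atBot.comp
    (tlog.const_mul_atTop hc)) |>.congr (fun n => by simp [sub_eq_add_neg])

end Pool.Agent.H62.Sat
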