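import Pool.Agent.H62.Sat.Setup

set_option autoImplicit false

/-! Greedy embedding of complete multipartite graphs. -/

namespace Pool.Agent.H62.Sat

open Finset

variable {V : Type} [DecidableEq V]

/-- density property between disjoint parts of `C` -/
def PR (G : SimpleGraph V) [DecidableRel G.Adj] (C : Finset V) (ρ : ℝ) (m1 : ℕ) : Prop :=
  ∀ Y Y' : Finset V, Y ⊆ C → Y' ⊆ C → Disjoint Y Y' → m1 ≤ Y.card → m1 ≤ Y'.card →
    ∃ v ∈ Y', ρ * Y.card ≤ ((Y.filter (fun x => G.Adj v x)).card : ℝ)

theorem embed_aux (G : SimpleGraph V) [DecidableRel G.Adj] (C : Finset V) (ρ : ℝ) (m1 q k : ℕ)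
    (hρ : 0 ≤ ρ) (hρ1 : ρ ≤ 1) (hPR : PR G C ρ m1) (W : Fin q → Finset V)
    (hWC : ∀ c, W c ⊆ C) (hdis : ∀ c c', c ≠ c' → Disjoint (W c) (W c'))
    (hbig : ∀ c, (q * m1 + q * k + m1 + 1 : ℝ) ≤ ρ ^ (q * k) * (W c).card)
    (D : Finset (Fin q × Fin k)) :
    ∃ (r : Fin q × Fin k → V) (W' : Fin q → Finset V),
      (∀ c, W' c ⊆ W c ∧ ρ ^ D.card * (W c).card ≤ (W' c).card) ∧
      (∀ x ∈ D, r x ∈ W x.1) ∧ (∀ x ∈ D, ∀ y ∈ D, x ≠ y → r x ≠ r y) ∧
      (∀ x ∈ D, ∀ y ∈ D, x.1 ≠ y.1 → G.Adj (r x) (r y)) ∧
      (∀ x ∈ D, ∀ c, c ≠ x.1 → ∀ v ∈ W' c, G.Adj (r x) v) := by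
  classical
  by_cases hq : 0 < q
  swap
  · have : q = 0 := by omega
    subst this
    have hD : D = ∅ := by
      ext x; exact x.1.elim0
    subst hD
    refine ⟨fun x => x.1.elim0, fun c => c.elim0, fun c => c.elim0, by simp, by simp, by simp,
      by simp⟩
  induction D using Finset.induction_on with
  | empty =>
    have hne : (W ⟨0, hq⟩).Nonempty := by
      rw [← card_pos]
      have h1 := hbig ⟨0, hq⟩
      have h2 : (0 : ℝ) < ρ ^ (q * k) * (W ⟨0, hq⟩).card := lt_of_lt_of_le (by positivity) h1
      by_contra h3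
      push Not at h3
      have h4 : (W ⟨0, hq⟩).card = 0 := by omega
      rw [h4] at h2
      simp at h2
    obtain ⟨v, _⟩ := hne
    exact ⟨fun _ => v, W, fun c => ⟨subset_rfl, by simp⟩, by simp, by simp, by simp, by simp⟩
  | insert a D ha ih =>
    obtain ⟨r, W', h1, h2, h3, h4, h5⟩ := ih
    have hDc : D.card + 1 ≤ q * k := by
      have : (insert a D).card ≤ Fintype.card (Fin q × Fin k) := card_le_univ _
      rw [card_insert_of_notMem ha] at this
      simpa [Fintype.card_prod] using this
    have hpow : ∀ c, ρ ^ (q * k) * ((W c).card : ℝ) ≤ ρ ^ D.card * (W c).card := by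
      intro c
      apply mul_le_mul_of_nonneg_right _ (Nat.cast_nonneg _)
      exact pow_le_pow_of_le_one hρ hρ1 (by omega)
    -- bad vertices
    set Z := W' a.1 \ D.image r with hZ
    let Bad : Fin q → Finset V := fun c =>
      if c = a.1 then ∅ else Z.filter (fun v => ((W' c).filter (fun x => G.Adj v x)).card <
        ρ * (W' c).card)
    have hBad : ∀ c, (Bad c).card ≤ m1 := by
      intro c
      by_cases hc : c = a.1
      · simp [Bad, hc]
      · by_contra hcon
        push Not at hcon
        have hb : Bad c = Z.filter (fun v => ((W' c).filter (fun x => G.Adj v x)).card <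
          ρ * (W' c).card) := if_neg hc
        have hsub : Bad c ⊆ W' a.1 := by
          rw [hb]; exact (filter_subset _ _).trans sdiff_subset
        obtain ⟨v, hv1, hv2⟩ := hPR (W' c) (Bad c) ((h1 c).1.trans (hWC c))
          (hsub.trans ((h1 a.1).1.trans (hWC a.1)))
          ((hdis c a.1 hc).mono (h1 c).1 (hsub.trans (h1 a.1).1))
          (by
            have e1 := hbig c
            have e2 := hpow c
            have e3 := (h1 c).2
            have e4 : (0 : ℝ) ≤ q * m1 + q * k := by positivity
            have e5 : (m1 : ℝ) ≤ (W' c).card := by linarith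
            exact_mod_cast e5) hcon.le
        rw [hb, mem_filter] at hv1
        exact absurd hv1.2 (not_lt.mpr hv2)
    obtain ⟨v, hvZ, hvB⟩ : ∃ v ∈ Z, ∀ c, v ∉ Bad c := by
      by_contra hcon
      push Not at hcon
      have hsub : Z ⊆ (univ : Finset (Fin q)).biUnion Bad := by
        intro v hv
        obtain ⟨c, hc⟩ := hcon v hv
        exact mem_biUnion.mpr ⟨c, mem_univ _, hc⟩
      have e1 : Z.card ≤ q * m1 := by
        refine (card_le_card hsub).trans (card_biUnion_le.trans ?_)
        refine (sum_le_sum (fun c _ => hBad c)).trans ?_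
        simp
      have e2 : (W' a.1).card ≤ Z.card + D.card := by
        have : (W' a.1).card - (D.image r).card ≤ Z.card := by
          rw [hZ]; exact le_card_sdiff _ _
        have e3 : (D.image r).card ≤ D.card := card_image_le
        omega
      have e4 := hbig a.1
      have e5 := hpow a.1
      have e6 := (h1 a.1).2
      have e7 : ((W' a.1).card : ℝ) ≤ q * m1 + q * k := by
        have : (W' a.1).card ≤ q * m1 + q * k := by omega
        exact_mod_cast this
      have e8 : (0 : ℝ) ≤ m1 := Nat.cast_nonneg _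
      linarith
    rw [hZ, mem_sdiff] at hvZ
    have hva : v ∈ W a.1 := (h1 a.1).1 hvZ.1
    have hvr : ∀ x ∈ D, r x ≠ v := fun x hx h => hvZ.2 (h ▸ mem_image_of_mem r hx)
    refine ⟨Function.update r a v, fun c => if c = a.1 then W' c else
      (W' c).filter (fun x => G.Adj v x), ?_, ?_, ?_, ?_, ?_⟩
    · intro c
      rw [card_insert_of_notMem ha]
      beta_reduce
      by_cases hc : c = a.1
      · rw [if_pos hc]
        refine ⟨(h1 c).1, le_trans ?_ (h1 c).2⟩
        apply mul_le_mul_of_nonneg_right _ (Nat.cast_nonneg _)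
        exact pow_le_pow_of_le_one hρ hρ1 (Nat.le_succ _)
      · rw [if_neg hc]
        refine ⟨(filter_subset _ _).trans (h1 c).1, ?_⟩
        have e1 := hvB c
        have hb : Bad c = Z.filter (fun v => ((W' c).filter (fun x => G.Adj v x)).card <
          ρ * (W' c).card) := if_neg hc
        rw [hb, mem_filter] at e1
        push Not at e1
        have e2 := e1 (by rw [hZ, mem_sdiff]; exact hvZ)
        refine le_trans ?_ e2
        rw [pow_succ]
        have := mul_le_mul_of_nonneg_left (h1 c).2 hρ
        linarith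
    · intro x hx
      rw [mem_insert] at hx
      rcases hx with rfl | hx
      · rw [Function.update_self]; exact hva
      · rw [Function.update_of_ne (ne_of_mem_of_not_mem hx ha)]
        exact h2 x hx
    · intro x hx y hy hxy
      rw [mem_insert] at hx hy
      rcases hx with rfl | hx <;> rcases hy with rfl | hy
      · exact absurd rfl hxy
      · rw [Function.update_self, Function.update_of_ne (ne_of_mem_of_not_mem hy ha)]
        exact (hvr y hy).symm
      · rw [Function.update_self, Function.update_of_ne (ne_of_mem_of_not_mem hx ha)]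
        exact hvr x hx
      · rw [Function.update_of_ne (ne_of_mem_of_not_mem hx ha),
          Function.update_of_ne (ne_of_mem_of_not_mem hy ha)]
        exact h3 x hx y hy hxy
    · intro x hx y hy hxy
      rw [mem_insert] at hx hy
      rcases hx with rfl | hx <;> rcases hy with rfl | hy
      · exact absurd rfl hxy
      · rw [Function.update_self, Function.update_of_ne (ne_of_mem_of_not_mem hy ha)]
        exact (h5 y hy x.1 hxy v hvZ.1).symm
      · rw [Function.update_self, Function.update_of_ne (ne_of_mem_of_not_mem hx ha)]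
        exact h5 x hx y.1 hxy.symm v hvZ.1
      · rw [Function.update_of_ne (ne_of_mem_of_not_mem hx ha),
          Function.update_of_ne (ne_of_mem_of_not_mem hy ha)]
        exact h4 x hx y hy hxy
    · intro x hx c hc w hw
      beta_reduce at hw
      rw [mem_insert] at hx
      rcases hx with rfl | hx
      · rw [if_neg hc, mem_filter] at hw
        rw [Function.update_self]
        exact hw.2
      · rw [Function.update_of_ne (ne_of_mem_of_not_mem hx ha)]
        apply h5 x hx c hc
        by_cases hc2 : c = a.1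
        · rwa [if_pos hc2] at hw
        · rw [if_neg hc2, mem_filter] at hw
          exact hw.1

theorem embed (G : SimpleGraph V) [DecidableRel G.Adj] (C : Finset V) (ρ : ℝ) (m1 q k : ℕ)
    (hρ : 0 ≤ ρ) (hρ1 : ρ ≤ 1) (hPR : PR G C ρ m1) (W : Fin q → Finset V)
    (hWC : ∀ c, W c ⊆ C) (hdis : ∀ c c', c ≠ c' → Disjoint (W c) (W c'))
    (hbig : ∀ c, (q * m1 + q * k + m1 + 1 : ℝ) ≤ ρ ^ (q * k) * (W c).card) :
    ∃ r : Fin q → Fin k → V, (∀ c m, r c m ∈ W c) ∧
      (∀ c m c' m', r c m = r c' m' → c = c' ∧ m = m') ∧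
      (∀ c m c' m', c ≠ c' → G.Adj (r c m) (r c' m')) := by
  obtain ⟨r, _, _, h2, h3, h4, _⟩ := embed_aux G C ρ m1 q k hρ hρ1 hPR W hWC hdis hbig univ
  refine ⟨fun c m => r (c, m), fun c m => h2 _ (mem_univ _), ?_, ?_⟩
  · intro c m c' m' h
    by_contra hne
    exact h3 (c, m) (mem_univ _) (c', m') (mem_univ _) (by simpa [Prod.ext_iff] using hne) h
  · intro c m c' m' h
    exact h4 (c, m) (mem_univ _) (c', m') (mem_univ _) h

/-- a large subset of a class contains a complete multipartite graph of `R` -/
theorem class_rich (G R : SimpleGraph V) [DecidableRel G.Adj] (C : Finset V) (ρ : ℝ)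
    (m1 q k : ℕ) (hρ : 0 ≤ ρ) (hρ1 : ρ ≤ 1) (hPR : PR G C ρ m1)
    (Γ : Type) [Fintype Γ] [DecidableEq Γ] (E : SimpleGraph Γ) (δ : ℝ)
    (hE : ∀ A : Finset Γ, δ * Fintype.card Γ ≤ A.card → ∃ x : Fin q → Γ, (∀ c, x c ∈ A) ∧
        ∀ c c', c ≠ c' → E.Adj (x c) (x c'))
    (bl : V → Γ) (N' : ℕ) (hN' : 0 < N') (hbl : ∀ γ, (C.filter (fun v => bl v = γ)).card = N')
    (hR : ∀ u ∈ C, ∀ v ∈ C, G.Adj u v → E.Adj (bl u) (bl v) → R.Adj u v)
    (hbig : (q * m1 + q * k + m1 + 1 : ℝ) ≤ ρ ^ (q * k) * (δ * N'))
    (S : Finset V) (hSC : S ⊆ C) (hS : 2 * δ * (Fintype.card Γ * N') ≤ S.card) :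
    KQ q k R S := by
  classical
  set A : Finset Γ := univ.filter (fun γ => δ * N' ≤ ((S.filter (fun v => bl v = γ)).card : ℝ))
    with hA
  have hN'r : (0 : ℝ) < N' := by exact_mod_cast hN'
  have hle : ∀ γ, (S.filter (fun v => bl v = γ)).card ≤ N' := by
    intro γ
    rw [← hbl γ]
    exact card_le_card (filter_subset_filter _ hSC)
  have hsum : (S.card : ℝ) = ∑ γ : Γ, ((S.filter (fun v => bl v = γ)).card : ℝ) := by
    have := card_eq_sum_card_fiberwise (f := bl) (s := S) (t := univ) (fun _ _ => mem_univ _)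
    exact_mod_cast this
  have hub : (S.card : ℝ) ≤ A.card * N' + Fintype.card Γ * (δ * N') := by
    rw [hsum]
    calc ∑ γ : Γ, ((S.filter (fun v => bl v = γ)).card : ℝ)
        ≤ ∑ γ : Γ, ((if δ * N' ≤ ((S.filter (fun v => bl v = γ)).card : ℝ) then (N' : ℝ) else 0)
            + δ * N') := by
          apply sum_le_sum
          intro γ _
          have h1 : ((S.filter (fun v => bl v = γ)).card : ℝ) ≤ N' := by exact_mod_cast hle γ
          split_ifs with h
          · by_cases hδ : 0 ≤ δ
            · have : 0 ≤ δ * N' := by positivity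
              linarith
            · push Not at hδ
              -- then the hypothesis `hbig` is impossible
              exfalso
              have h2 : ρ ^ (q * k) * (δ * N') ≤ 0 := by
                apply mul_nonpos_of_nonneg_of_nonpos (by positivity)
                exact mul_nonpos_of_nonpos_of_nonneg hδ.le hN'r.le
              have h3 : (0 : ℝ) < q * m1 + q * k + m1 + 1 := by positivity
              linarith
          · push Not at h
            linarith
      _ = _ := by
          rw [sum_add_distrib, sum_const, card_univ, nsmul_eq_mul, ← sum_filter, sum_const,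
            nsmul_eq_mul]
  have hAc : δ * Fintype.card Γ ≤ A.card := by
    have h1 : δ * Fintype.card Γ * N' ≤ A.card * N' := by nlinarith
    exact le_of_mul_le_mul_right h1 hN'r
  obtain ⟨x, hx1, hx2⟩ := hE A hAc
  obtain ⟨r, hr1, hr2, hr3⟩ := embed G C ρ m1 q k hρ hρ1 hPR
    (fun c => S.filter (fun v => bl v = x c)) (fun c => (filter_subset _ _).trans hSC)
    (by
      intro c c' hcc
      rw [disjoint_left]
      intro v h1 h2
      rw [mem_filter] at h1 h2
      exact (hx2 c c' hcc).ne (h1.2.symm.trans h2.2))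
    (by
      intro c
      refine hbig.trans ?_
      apply mul_le_mul_of_nonneg_left _ (by positivity)
      have := hx1 c
      rw [hA, mem_filter] at this
      exact this.2)
  refine ⟨r, fun c m => (mem_filter.mp (hr1 c m)).1, hr2, ?_⟩
  intro c m c' m' hcc
  have h1 := mem_filter.mp (hr1 c m)
  have h2 := mem_filter.mp (hr1 c' m')
  apply hR _ (hSC h1.1) _ (hSC h2.1) (hr3 c m c' m' hcc)
  rw [h1.2, h2.2]
  exact hx2 c c' hcc

end Pool.Agent.H62.Sat
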