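import Pool.Agent.H62.Sat.Count
import Pool.Agent.H62.Sat.Embed

set_option autoImplicit false

/-! From a good graph to the construction. -/

namespace Pool.Agent.H62.Sat

open Finset Classical

/-- regions of the vertex set that are fixed in advance -/
inductive Reg (I J T L Γ : Type) : Type
  | c1 (i : I) (γ : Γ) : Reg I J T L Γ
  | c2 (j : J) (γ : Γ) : Reg I J T L Γ
  | bet (τ : T) : Reg I J T L Γ
  | lam (σ : L) : Reg I J T L Γ
  | pool : Reg I J T L Γ

/-- index set of the hub vertices of one type -/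
abbrev LI (I J : Type) (q k : ℕ) : Type := (I × Fin k) ⊕ ((Fin q × Fin k) ⊕ (J × Fin k))

variable {V I J T L Γ : Type} [Fintype V] [Fintype I] [Fintype J] [Fintype T] [Fintype L]
  [Fintype Γ] {q k : ℕ}

section cls
variable (reg : V → Reg I J T L Γ)

/-- first kind of classes -/
noncomputable def C1 (i : I) : Finset V := univ.filter (fun v => ∃ γ, reg v = .c1 i γ)

/-- second kind of classes -/
noncomputable def C2 (j : J) : Finset V := univ.filter (fun v => ∃ γ, reg v = .c2 j γ)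

end cls

/-- a graph with all the properties that are needed -/
structure Good (V I J T L Γ : Type) [Fintype V] [Fintype I] [Fintype J] [Fintype T] [Fintype L]
    [Fintype Γ] (q k : ℕ) where
  G : SimpleGraph V
  E : SimpleGraph Γ
  E_col : ∀ W : Finset Γ, W.card ≤ k → ∃ c : Γ → Fin q, ∀ u ∈ W, ∀ v ∈ W, E.Adj u v → c u ≠ c v
  reg : V → Reg I J T L Γ
  nrm : V → Prop
  N' : ℕ
  size1 : ∀ i γ, (univ.filter (fun v => reg v = .c1 i γ)).card = N'
  size2 : ∀ j γ, (univ.filter (fun v => reg v = .c2 j γ)).card = N'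
  m0 : ℕ
  K3 : ℕ
  rich1 : ∀ i (W : Finset V), W ⊆ C1 reg i → m0 ≤ W.card →
    ∀ R : SimpleGraph V, (∀ u ∈ C1 reg i, ∀ v ∈ C1 reg i, ∀ γ γ', reg u = .c1 i γ →
      reg v = .c1 i γ' → G.Adj u v → E.Adj γ γ' → R.Adj u v) → KQ q k R W
  rich2 : ∀ j (W : Finset V), W ⊆ C2 reg j → m0 ≤ W.card →
    ∀ R : SimpleGraph V, (∀ u ∈ C2 reg j, ∀ v ∈ C2 reg j, ∀ γ γ', reg u = .c2 j γ →
      reg v = .c2 j γ' → G.Adj u v → E.Adj γ γ' → R.Adj u v) → KQ q k R W
  s0 : ℕ
  s1 : ℕ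
  common : ∀ S : Finset V, S.card ≤ s0 →
    s1 ≤ (univ.filter (fun v => reg v = .pool ∧ v ∉ S ∧ ∀ s ∈ S, G.Adj s v)).card
  hs0 : Fintype.card Γ * N' ≤ s0
  hs0' : Fintype.card (T × Fin q × Fin k) ≤ s0
  hs1 : Fintype.card ((T × I × Fin k) ⊕ ((T × J × Fin k) ⊕ (L × Fin k))) +
    Fintype.card (T × Fin q × Fin k) ≤ s1
  b1 : ℕ
  typM : ∀ Z : T × LI I J q k → V, Function.Injective Z →
    (univ.filter (fun v => (∀ x, v ≠ Z x) ∧ ∀ τ, ∃ a, ¬ G.Adj (Z (τ, a)) v)).card ≤ b1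
  b2 : ℕ
  typL : ∀ Z : L × Fin k → V, Function.Injective Z →
    (univ.filter (fun v => (∀ x, v ≠ Z x) ∧ ∀ σ, ∃ a, ¬ G.Adj (Z (σ, a)) v)).card ≤ b2
  richM : ∀ τ (Z : LI I J q k → V) (S : Finset V), (∀ a, reg (Z a) = .pool) → S.card ≤ K3 →
    (∀ s ∈ S, ∃ i γ, reg s = .c1 i γ) →
    k + 1 ≤ (univ.filter (fun v => reg v = .bet τ ∧ nrm v ∧ (∀ a, G.Adj (Z a) v) ∧
      ∀ s ∈ S, G.Adj s v)).card
  richL : ∀ σ (Z : Fin k → V) (S : Finset V), (∀ a, reg (Z a) = .pool) → S.card ≤ K3 →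
    (∀ s ∈ S, ∃ i γ, reg s = .c1 i γ) →
    k + 1 ≤ (univ.filter (fun v => reg v = .lam σ ∧ (∀ a, G.Adj (Z a) v) ∧
      ∀ s ∈ S, G.Adj s v)).card
  P2 : ∀ S : Finset V, S.card ≤ k → (∀ s ∈ S, ∀ j γ, reg s ≠ .c2 j γ) →
    ∃ j, m0 ≤ ((C2 reg j).filter (fun v => ∀ s ∈ S, G.Adj s v)).card
  b3 : ℕ
  abn : (univ.filter (fun v => (∀ i γ, reg v ≠ .c1 i γ) ∧ ¬ nrm v)).card ≤ b3
  b4 : ℕ
  lamc : (univ.filter (fun v => ∃ σ, reg v = .lam σ)).card ≤ b4

namespace Good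

theorem exists_enum' {α : Type} [Fintype α] (C : Finset V) (h : C.card = Fintype.card α) :
    ∃ f : α → V, Function.Injective f ∧ ∀ a, f a ∈ C := by
  have : Fintype.card α = Fintype.card C := by rw [Fintype.card_coe]; exact h.symm
  let e := Fintype.equivOfCardEq this
  refine ⟨fun a => (e a : V), ?_, fun a => (e a).2⟩
  intro a b hab
  exact e.injective (Subtype.ext hab)

variable (D : Good V I J T L Γ q k)

theorem clique (m : ℕ) (hm : m ≤ D.s0) (h1 : 1 ≤ D.s1) : ∃ C : Finset V, C.card = m ∧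
    (∀ v ∈ C, D.reg v = .pool) ∧ ∀ u ∈ C, ∀ v ∈ C, u ≠ v → D.G.Adj u v := by
  induction m with
  | zero => exact ⟨∅, by simp, by simp, by simp⟩
  | succ m ih =>
    obtain ⟨C, hC1, hC2, hC3⟩ := ih (by omega)
    have h2 := D.common C (by omega)
    obtain ⟨v, hv⟩ := card_pos.mp (lt_of_lt_of_le (Nat.lt_of_lt_of_le Nat.zero_lt_one h1) h2)
    rw [mem_filter] at hv
    refine ⟨insert v C, by rw [card_insert_of_notMem hv.2.2.1, hC1], ?_, ?_⟩
    · intro u hu
      rw [mem_insert] at hu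
      rcases hu with rfl | hu
      · exact hv.2.1
      · exact hC2 u hu
    · intro u hu w hw huw
      rw [mem_insert] at hu hw
      rcases hu with rfl | hu <;> rcases hw with rfl | hw
      · exact absurd rfl huw
      · exact (hv.2.2.2 w hw).symm
      · exact hv.2.2.2 u hu
      · exact hC3 u hu w hw huw

theorem card_C1 (i : I) : (C1 D.reg i).card = Fintype.card Γ * D.N' := by
  have h : C1 D.reg i = (univ : Finset Γ).biUnion (fun γ => univ.filter (fun v =>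
      D.reg v = .c1 i γ)) := by
    ext v; simp [C1]
  rw [h, card_biUnion]
  · simp [D.size1]
  · intro γ _ γ' _ hne
    rw [Function.onFun, disjoint_left]
    intro v h1 h2
    rw [mem_filter] at h1 h2
    rw [h1.2] at h2
    simp only [Reg.c1.injEq, true_and] at h2
    exact hne h2.2

theorem card_C2 (j : J) : (C2 D.reg j).card = Fintype.card Γ * D.N' := by
  have h : C2 D.reg j = (univ : Finset Γ).biUnion (fun γ => univ.filter (fun v =>
      D.reg v = .c2 j γ)) := by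
    ext v; simp [C2]
  rw [h, card_biUnion]
  · simp [D.size2]
  · intro γ _ γ' _ hne
    rw [Function.onFun, disjoint_left]
    intro v h1 h2
    rw [mem_filter] at h1 h2
    rw [h1.2] at h2
    simp only [Reg.c2.injEq, true_and] at h2
    exact hne h2.2

/-- the special vertices -/
theorem special (h1 : 1 ≤ D.s1) : ∃ (Y : T × Fin q × Fin k → V)
    (X : (T × I × Fin k) ⊕ ((T × J × Fin k) ⊕ (L × Fin k)) → V),
    Function.Injective Y ∧ Function.Injective X ∧ (∀ a b, Y a ≠ X b) ∧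
    (∀ a, D.reg (Y a) = .pool) ∧ (∀ a, D.reg (X a) = .pool) ∧
    (∀ a b, a ≠ b → D.G.Adj (Y a) (Y b)) ∧
    (∀ a v, (∃ γ, D.reg v = .c1 a.2.1 γ) → D.G.Adj (X (Sum.inl a)) v) ∧
    (∀ a v, (∃ γ, D.reg v = .c2 a.2.1 γ) → D.G.Adj (X (Sum.inr (Sum.inl a))) v) ∧
    (∀ a b, D.G.Adj (Y b) (X (Sum.inr (Sum.inr a)))) := by
  obtain ⟨C, hC1, hC2, hC3⟩ := D.clique _ D.hs0' h1
  obtain ⟨Y, hY1, hY2⟩ := exists_enum' (α := T × Fin q × Fin k) C hC1
  let S : (T × I × Fin k) ⊕ ((T × J × Fin k) ⊕ (L × Fin k)) → Finset V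
    | Sum.inl a => C1 D.reg a.2.1
    | Sum.inr (Sum.inl a) => C2 D.reg a.2.1
    | Sum.inr (Sum.inr _) => C
  have hS : ∀ a, (S a).card ≤ D.s0 := by
    intro a
    rcases a with a | a | a
    · change (C1 D.reg a.2.1).card ≤ _
      rw [D.card_C1]; exact D.hs0
    · change (C2 D.reg a.2.1).card ≤ _
      rw [D.card_C2]; exact D.hs0
    · change C.card ≤ _
      rw [hC1]; exact D.hs0'
  let W : (T × I × Fin k) ⊕ ((T × J × Fin k) ⊕ (L × Fin k)) → Finset V := fun a =>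
    (univ.filter (fun v => D.reg v = .pool ∧ v ∉ S a ∧ ∀ s ∈ S a, D.G.Adj s v)) \ C
  have hW : ∀ a, Fintype.card ((T × I × Fin k) ⊕ ((T × J × Fin k) ⊕ (L × Fin k))) ≤
      (W a).card := by
    intro a
    have h2 := D.common (S a) (hS a)
    have h3 : (univ.filter (fun v => D.reg v = .pool ∧ v ∉ S a ∧ ∀ s ∈ S a, D.G.Adj s v)).card -
      C.card ≤ (W a).card := le_card_sdiff _ _
    have h4 := D.hs1
    omega
  have hall : ∀ s : Finset ((T × I × Fin k) ⊕ ((T × J × Fin k) ⊕ (L × Fin k))),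
      s.card ≤ (s.biUnion W).card := by
    intro s
    rcases s.eq_empty_or_nonempty with rfl | ⟨a, ha⟩
    · simp
    · calc s.card ≤ _ := card_le_univ s
        _ ≤ (W a).card := hW a
        _ ≤ _ := card_le_card (subset_biUnion_of_mem W ha)
  obtain ⟨X, hX1, hX2⟩ := (Finset.all_card_le_biUnion_card_iff_exists_injective W).mp hall
  have hX3 : ∀ a, D.reg (X a) = .pool ∧ (∀ s ∈ S a, D.G.Adj s (X a)) ∧ X a ∉ C := by
    intro a
    have := hX2 a
    simp only [W, mem_sdiff, mem_filter] at this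
    exact ⟨this.1.2.1, this.1.2.2.2, this.2⟩
  refine ⟨Y, X, hY1, hX1, ?_, fun a => hC2 _ (hY2 a), fun a => (hX3 a).1, ?_, ?_, ?_, ?_⟩
  · intro a b h
    exact (hX3 b).2.2 (h ▸ hY2 a)
  · intro a b hab
    exact hC3 _ (hY2 a) _ (hY2 b) (fun h => hab (hY1 h))
  · intro a v hv
    exact ((hX3 (Sum.inl a)).2.1 v (mem_filter.mpr ⟨mem_univ _, hv⟩)).symm
  · intro a v hv
    exact ((hX3 (Sum.inr (Sum.inl a))).2.1 v (mem_filter.mpr ⟨mem_univ _, hv⟩)).symm
  · intro a b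
    exact (hX3 (Sum.inr (Sum.inr a))).2.1 _ (hY2 b)

end Good

end Pool.Agent.H62.Sat
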