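import Pool.Agent.H62.Sat.Build

set_option autoImplicit false

/-! From a good graph to the construction, second part. -/

namespace Pool.Agent.H62.Sat

open Finset Classical

variable {V I J T L Γ : Type} [Fintype V] [Fintype I] [Fintype J] [Fintype T] [Fintype L]
  [Fintype Γ] {q k : ℕ}

/-- labels of the first special family -/
def lY (a : T × Fin q × Fin k) : Pos I J T L q k := .y a.1 a.2.1 a.2.2

/-- labels of the second special family -/
def lX : (T × I × Fin k) ⊕ ((T × J × Fin k) ⊕ (L × Fin k)) → Pos I J T L q k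
  | Sum.inl a => .xM a.1 a.2.1 a.2.2
  | Sum.inr (Sum.inl a) => .x2 a.1 a.2.1 a.2.2
  | Sum.inr (Sum.inr a) => .xL a.1 a.2

/-- position of an ordinary vertex -/
def basePos (r : Reg I J T L Γ) (tM : Option T) (tL : Option L) : Pos I J T L q k :=
  match r, tM with
  | .c1 i _, _ => .a1 i
  | .c2 j _, _ => .a2 j
  | .lam _, _ => .bL tL
  | .bet _, some τ => .bM τ
  | .bet _, none => .bL tL
  | .pool, some τ => .bM τ
  | .pool, none => .bL tL

theorem kd_sp {a : Pos I J T L q k} (h : kd a = 2) : (∃ τ c m, a = .y τ c m) ∨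
    (∃ τ i u, a = .xM τ i u) ∨ (∃ τ j u, a = .x2 τ j u) := by
  rcases a with _ | _ | _ | _ | _ | _ | _ | (_ | _) <;> simp_all [kd]

theorem basePos_bM {r : Reg I J T L Γ} {tM : Option T} {tL : Option L} {τ : T}
    (h : (basePos r tM tL : Pos I J T L q k) = .bM τ) : tM = some τ ∧ (∀ i γ, r ≠ .c1 i γ) := by
  rcases r with ⟨i', γ'⟩ | ⟨j', γ'⟩ | τ' | σ' | _ <;> rcases tM with _ | τ'' <;>
    simp_all [basePos]

theorem basePos_bL {r : Reg I J T L Γ} {tM : Option T} {tL : Option L} {o : Option L}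
    (h : (basePos r tM tL : Pos I J T L q k) = .bL o) : tL = o ∧ (∀ i γ, r ≠ .c1 i γ) ∧
      ((∃ σ, r = .lam σ) ∨ tM = none) := by
  rcases r with ⟨i', γ'⟩ | ⟨j', γ'⟩ | τ' | σ' | _ <;> rcases tM with _ | τ'' <;>
    simp_all [basePos]

theorem basePos_y {r : Reg I J T L Γ} {tM : Option T} {tL : Option L} {τ : T} {c : Fin q}
    {m : Fin k} : (basePos r tM tL : Pos I J T L q k) ≠ .y τ c m := by
  rcases r with ⟨i', γ'⟩ | ⟨j', γ'⟩ | τ' | σ' | _ <;> rcases tM with _ | τ'' <;>
    simp [basePos]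

theorem basePos_xM {r : Reg I J T L Γ} {tM : Option T} {tL : Option L} {τ : T} {i : I}
    {m : Fin k} : (basePos r tM tL : Pos I J T L q k) ≠ .xM τ i m := by
  rcases r with ⟨i', γ'⟩ | ⟨j', γ'⟩ | τ' | σ' | _ <;> rcases tM with _ | τ'' <;>
    simp [basePos]

theorem basePos_x2 {r : Reg I J T L Γ} {tM : Option T} {tL : Option L} {τ : T} {j : J}
    {m : Fin k} : (basePos r tM tL : Pos I J T L q k) ≠ .x2 τ j m := by
  rcases r with ⟨i', γ'⟩ | ⟨j', γ'⟩ | τ' | σ' | _ <;> rcases tM with _ | τ'' <;>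
    simp [basePos]

theorem basePos_xL {r : Reg I J T L Γ} {tM : Option T} {tL : Option L} {σ : L}
    {m : Fin k} : (basePos r tM tL : Pos I J T L q k) ≠ .xL σ m := by
  rcases r with ⟨i', γ'⟩ | ⟨j', γ'⟩ | τ' | σ' | _ <;> rcases tM with _ | τ'' <;>
    simp [basePos]

namespace Good

variable (D : Good V I J T L Γ q k)

theorem exists_setup [Nonempty Γ] (h1 : 1 ≤ D.s1) : ∃ S : Setup V I J T L q k, S.G = D.G ∧ S.m0 = D.m0 ∧
    S.K3 = D.K3 ∧ (∀ i, S.cls1 i = C1 D.reg i) ∧ (∀ j, S.cls2 j = C2 D.reg j) ∧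
    (∀ τ v, S.pos v = .bM τ → D.nrm v) ∧
    (∀ v, 4 ≤ kd (S.pos v) → ∀ i γ, D.reg v ≠ .c1 i γ) ∧
    (S.kset (fun x => x = 0)) = univ.filter (fun v => ∃ i γ, D.reg v = .c1 i γ) ∧
    (S.kset (fun x => x = 1)).card ≤ Fintype.card J * (Fintype.card Γ * D.N') ∧
    (S.kset (fun x => x = 2)).card ≤ Fintype.card (T × Fin q × Fin k) +
      Fintype.card ((T × I × Fin k) ⊕ (T × J × Fin k)) ∧
    (S.kset (fun x => x = 3)).card = Fintype.card L * k ∧
    (S.kset (fun x => 5 ≤ x)).card ≤ D.b1 + D.b3 + D.b4 ∧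
    (S.kset (fun x => x = 6)).card ≤ D.b2 := by
  obtain ⟨Y, X, hYi, hXi, hYX, hYp, hXp, hYY, hX1, hX2, hX3⟩ := D.special h1
  -- the hub vertices of type `τ`
  let Z : T × LI I J q k → V := fun x => match x with
    | (τ, Sum.inl a) => X (Sum.inl (τ, a.1, a.2))
    | (τ, Sum.inr (Sum.inl a)) => Y (τ, a.1, a.2)
    | (τ, Sum.inr (Sum.inr a)) => X (Sum.inr (Sum.inl (τ, a.1, a.2)))
  have hZi : Function.Injective Z := by
    rintro ⟨τ, a | a | a⟩ ⟨τ', b | b | b⟩ h
    · have := hXi h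
      simp only [Sum.inl.injEq, Prod.mk.injEq] at this
      obtain ⟨rfl, h2, h3⟩ := this
      rw [show a = b from Prod.ext h2 h3]
    · exact absurd h.symm (hYX _ _)
    · have := hXi h
      simp at this
    · exact absurd h (hYX _ _)
    · have := hYi h
      simp only [Prod.mk.injEq] at this
      obtain ⟨rfl, h2, h3⟩ := this
      rw [show a = b from Prod.ext h2 h3]
    · exact absurd h (hYX _ _)
    · have := hXi h
      simp at this
    · exact absurd h.symm (hYX _ _)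
    · have := hXi h
      simp only [Sum.inr.injEq, Sum.inl.injEq, Prod.mk.injEq] at this
      obtain ⟨rfl, h2, h3⟩ := this
      rw [show a = b from Prod.ext h2 h3]
  have hZp : ∀ x, D.reg (Z x) = .pool := by
    rintro ⟨τ, a | a | a⟩
    · exact hXp _
    · exact hYp _
    · exact hXp _
  let XL : L × Fin k → V := fun x => X (Sum.inr (Sum.inr x))
  have hXLi : Function.Injective XL := by
    intro a b h
    have := hXi h
    simpa using this
  obtain ⟨tyM, tM1, tM2, tM3⟩ : ∃ tyM : V → Option T,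
      (∀ v τ, tyM v = some τ → D.nrm v ∧ ∀ a, D.G.Adj (Z (τ, a)) v) ∧
      (∀ v τ, D.reg v = .bet τ → D.nrm v → (∀ a, D.G.Adj (Z (τ, a)) v) → tyM v = some τ) ∧
      (∀ v, tyM v = none → D.nrm v → ∀ τ, ∃ a, ¬ D.G.Adj (Z (τ, a)) v) := by
    have h2 : ∀ v, ∃ o : Option T, (∀ τ, o = some τ → D.nrm v ∧ ∀ a, D.G.Adj (Z (τ, a)) v) ∧
      (∀ τ, D.reg v = .bet τ → D.nrm v → (∀ a, D.G.Adj (Z (τ, a)) v) → o = some τ) ∧
      (o = none → D.nrm v → ∀ τ, ∃ a, ¬ D.G.Adj (Z (τ, a)) v) := by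
      intro v
      by_cases hc : ∃ τ, D.reg v = .bet τ ∧ D.nrm v ∧ ∀ a, D.G.Adj (Z (τ, a)) v
      · obtain ⟨τ, h3, h4, h5⟩ := hc
        refine ⟨some τ, ?_, ?_, ?_⟩
        · intro τ' h
          rw [Option.some.injEq] at h
          subst h
          exact ⟨h4, h5⟩
        · intro τ' h _ _
          rw [h3] at h
          simp only [Reg.bet.injEq] at h
          rw [h]
        · simp
      · by_cases hc2 : D.nrm v ∧ ∃ τ, ∀ a, D.G.Adj (Z (τ, a)) v
        · obtain ⟨h4, τ, h5⟩ := hc2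
          refine ⟨some τ, ?_, ?_, ?_⟩
          · intro τ' h
            rw [Option.some.injEq] at h
            subst h
            exact ⟨h4, h5⟩
          · intro τ' h h' h''
            exact absurd ⟨τ', h, h', h''⟩ hc
          · simp
        · refine ⟨none, by simp, ?_, ?_⟩
          · intro τ' h h' h''
            exact absurd ⟨τ', h, h', h''⟩ hc
          · intro _ h' τ
            by_contra hcon
            push Not at hcon
            exact hc2 ⟨h', τ, hcon⟩
    choose o ho1 ho2 ho3 using h2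
    exact ⟨o, ho1, ho2, ho3⟩
  obtain ⟨tyL, tL1, tL2, tL3⟩ : ∃ tyL : V → Option L,
      (∀ v σ, tyL v = some σ → ∀ a, D.G.Adj (XL (σ, a)) v) ∧
      (∀ v σ, D.reg v = .lam σ → (∀ a, D.G.Adj (XL (σ, a)) v) → tyL v = some σ) ∧
      (∀ v, tyL v = none → ∀ σ, ∃ a, ¬ D.G.Adj (XL (σ, a)) v) := by
    have h2 : ∀ v, ∃ o : Option L, (∀ σ, o = some σ → ∀ a, D.G.Adj (XL (σ, a)) v) ∧
      (∀ σ, D.reg v = .lam σ → (∀ a, D.G.Adj (XL (σ, a)) v) → o = some σ) ∧
      (o = none → ∀ σ, ∃ a, ¬ D.G.Adj (XL (σ, a)) v) := by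
      intro v
      by_cases hc : ∃ σ, D.reg v = .lam σ ∧ ∀ a, D.G.Adj (XL (σ, a)) v
      · obtain ⟨σ, h3, h5⟩ := hc
        refine ⟨some σ, ?_, ?_, ?_⟩
        · intro τ' h
          rw [Option.some.injEq] at h
          subst h
          exact h5
        · intro τ' h _
          rw [h3] at h
          simp only [Reg.lam.injEq] at h
          rw [h]
        · simp
      · by_cases hc2 : ∃ σ, ∀ a, D.G.Adj (XL (σ, a)) v
        · obtain ⟨σ, h5⟩ := hc2
          refine ⟨some σ, ?_, ?_, ?_⟩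
          · intro τ' h
            rw [Option.some.injEq] at h
            subst h
            exact h5
          · intro τ' h h''
            exact absurd ⟨τ', h, h''⟩ hc
          · simp
        · refine ⟨none, by simp, ?_, ?_⟩
          · intro τ' h h''
            exact absurd ⟨τ', h, h''⟩ hc
          · intro _ τ
            by_contra hcon
            push Not at hcon
            exact hc2 ⟨τ, hcon⟩
    choose o ho1 ho2 ho3 using h2
    exact ⟨o, ho1, ho2, ho3⟩
  -- the positions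
  obtain ⟨pos, pY, pX, pB⟩ : ∃ pos : V → Pos I J T L q k, (∀ a, pos (Y a) = lY a) ∧
      (∀ b, pos (X b) = lX b) ∧
      (∀ v, (∀ a, v ≠ Y a) → (∀ b, v ≠ X b) → pos v = basePos (D.reg v) (tyM v) (tyL v)) := by
    have h2 : ∀ v, ∃ x : Pos I J T L q k, (∀ a, v = Y a → x = lY a) ∧
      (∀ b, v = X b → x = lX b) ∧
      ((∀ a, v ≠ Y a) → (∀ b, v ≠ X b) → x = basePos (D.reg v) (tyM v) (tyL v)) := by
      intro v
      by_cases hc : ∃ a, v = Y a
      · obtain ⟨a, rfl⟩ := hc
        refine ⟨lY a, fun a' h => by rw [hYi h], fun b h => absurd h (hYX _ _), fun h => ?_⟩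
        exact absurd rfl (h a)
      · push Not at hc
        by_cases hc2 : ∃ b, v = X b
        · obtain ⟨b, rfl⟩ := hc2
          refine ⟨lX b, fun a' h => absurd h (hc a'), fun b' h => by rw [hXi h], fun _ h => ?_⟩
          exact absurd rfl (h b)
        · push Not at hc2
          exact ⟨_, fun a h => absurd h (hc a), fun b h => absurd h (hc2 b), fun _ _ => rfl⟩
    choose x hx1 hx2 hx3 using h2
    exact ⟨x, fun a => hx1 _ a rfl, fun b => hx2 _ b rfl, hx3⟩
  have trich : ∀ v, (∃ a, v = Y a) ∨ (∃ b, v = X b) ∨ ((∀ a, v ≠ Y a) ∧ (∀ b, v ≠ X b) ∧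
      pos v = basePos (D.reg v) (tyM v) (tyL v)) := by
    intro v
    by_cases hc : ∃ a, v = Y a
    · exact Or.inl hc
    · by_cases hc2 : ∃ b, v = X b
      · exact Or.inr (Or.inl hc2)
      · push Not at hc hc2
        exact Or.inr (Or.inr ⟨hc, hc2, pB v hc hc2⟩)
  -- reading the position
  have qa1 : ∀ v i, pos v = .a1 i ↔ ∃ γ, D.reg v = .c1 i γ := by
    intro v i
    rcases trich v with ⟨a, rfl⟩ | ⟨b, rfl⟩ | ⟨h2, h3, h4⟩
    · rw [pY, hYp]; simp [lY]
    · rw [pX, hXp]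
      rcases b with b | b | b <;> simp [lX]
    · rw [h4]
      rcases h5 : D.reg v with ⟨i', γ'⟩ | ⟨j', γ'⟩ | τ' | σ' | _ <;> rcases tyM v with _ | τ'' <;>
        simp [basePos]
  have qa2 : ∀ v j, pos v = .a2 j ↔ ∃ γ, D.reg v = .c2 j γ := by
    intro v i
    rcases trich v with ⟨a, rfl⟩ | ⟨b, rfl⟩ | ⟨h2, h3, h4⟩
    · rw [pY, hYp]; simp [lY]
    · rw [pX, hXp]
      rcases b with b | b | b <;> simp [lX]
    · rw [h4]
      rcases h5 : D.reg v with ⟨i', γ'⟩ | ⟨j', γ'⟩ | τ' | σ' | _ <;> rcases tyM v with _ | τ'' <;>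
        simp [basePos]
  have qbM : ∀ v τ, pos v = .bM τ → tyM v = some τ ∧ (∀ a, v ≠ Y a) ∧ (∀ b, v ≠ X b) ∧
      (∀ i γ, D.reg v ≠ .c1 i γ) := by
    intro v τ h
    rcases trich v with ⟨a, rfl⟩ | ⟨b, rfl⟩ | ⟨h2, h3, h4⟩
    · rw [pY] at h; simp [lY] at h
    · rw [pX] at h
      rcases b with b | b | b <;> simp [lX] at h
    · rw [h4] at h
      have := basePos_bM h
      exact ⟨this.1, h2, h3, this.2⟩
  have qbL : ∀ v o, pos v = .bL o → tyL v = o ∧ (∀ a, v ≠ Y a) ∧ (∀ b, v ≠ X b) ∧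
      (∀ i γ, D.reg v ≠ .c1 i γ) ∧ ((∃ σ, D.reg v = .lam σ) ∨ tyM v = none) := by
    intro v o h
    rcases trich v with ⟨a, rfl⟩ | ⟨b, rfl⟩ | ⟨h2, h3, h4⟩
    · rw [pY] at h; simp [lY] at h
    · rw [pX] at h
      rcases b with b | b | b <;> simp [lX] at h
    · rw [h4] at h
      have := basePos_bL h
      exact ⟨this.1, h2, h3, this.2.1, this.2.2⟩
  have qY : ∀ v τ c m, pos v = .y τ c m ↔ v = Y (τ, c, m) := by
    intro v τ c m
    constructor
    · intro h
      rcases trich v with ⟨a, rfl⟩ | ⟨b, rfl⟩ | ⟨h2, h3, h4⟩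
      · rw [pY] at h
        simp only [lY, Pos.y.injEq] at h
        obtain ⟨rfl, rfl, rfl⟩ := h
        rfl
      · rw [pX] at h
        rcases b with b | b | b <;> simp [lX] at h
      · rw [h4] at h
        exact absurd h basePos_y
    · rintro rfl
      rw [pY]; rfl
  have qXM : ∀ v τ i u, pos v = .xM τ i u ↔ v = X (Sum.inl (τ, i, u)) := by
    intro v τ i u
    constructor
    · intro h
      rcases trich v with ⟨a, rfl⟩ | ⟨b, rfl⟩ | ⟨h2, h3, h4⟩
      · rw [pY] at h; simp [lY] at h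
      · rw [pX] at h
        rcases b with b | b | b
        · simp only [lX, Pos.xM.injEq] at h
          obtain ⟨rfl, rfl, rfl⟩ := h
          rfl
        · simp [lX] at h
        · simp [lX] at h
      · rw [h4] at h
        exact absurd h basePos_xM
    · rintro rfl
      rw [pX]; rfl
  have qX2 : ∀ v τ i u, pos v = .x2 τ i u ↔ v = X (Sum.inr (Sum.inl (τ, i, u))) := by
    intro v τ i u
    constructor
    · intro h
      rcases trich v with ⟨a, rfl⟩ | ⟨b, rfl⟩ | ⟨h2, h3, h4⟩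
      · rw [pY] at h; simp [lY] at h
      · rw [pX] at h
        rcases b with b | b | b
        · simp [lX] at h
        · simp only [lX, Pos.x2.injEq] at h
          obtain ⟨rfl, rfl, rfl⟩ := h
          rfl
        · simp [lX] at h
      · rw [h4] at h
        exact absurd h basePos_x2
    · rintro rfl
      rw [pX]; rfl
  have qXL : ∀ v σ u, pos v = .xL σ u ↔ v = X (Sum.inr (Sum.inr (σ, u))) := by
    intro v σ u
    constructor
    · intro h
      rcases trich v with ⟨a, rfl⟩ | ⟨b, rfl⟩ | ⟨h2, h3, h4⟩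
      · rw [pY] at h; simp [lY] at h
      · rw [pX] at h
        rcases b with b | b | b
        · simp [lX] at h
        · simp [lX] at h
        · simp only [lX, Pos.xL.injEq] at h
          obtain ⟨rfl, rfl⟩ := h
          rfl
      · rw [h4] at h
        exact absurd h basePos_xL
    · rintro rfl
      rw [pX]; rfl
  -- the graph inside the classes
  let R : SimpleGraph V :=
    { Adj := fun u v => D.G.Adj u v ∧
        ((∃ i γ γ', D.reg u = .c1 i γ ∧ D.reg v = .c1 i γ' ∧ D.E.Adj γ γ') ∨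
          (∃ j γ γ', D.reg u = .c2 j γ ∧ D.reg v = .c2 j γ' ∧ D.E.Adj γ γ'))
      symm := ⟨fun u v h => by
        refine ⟨h.1.symm, ?_⟩
        rcases h.2 with ⟨i, γ, γ', h2, h3, h4⟩ | ⟨i, γ, γ', h2, h3, h4⟩
        · exact Or.inl ⟨i, γ', γ, h3, h2, h4.symm⟩
        · exact Or.inr ⟨i, γ', γ, h3, h2, h4.symm⟩⟩
      loopless := ⟨fun u h => h.1.ne rfl⟩ }
  have qnotS : ∀ v, (∀ a, v ≠ Y a) → (∀ b, v ≠ X b) → ∀ x, v ≠ Z x := by
    rintro v h2 h3 ⟨τ, a | a | a⟩
    · exact h3 _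
    · exact h2 _
    · exact h3 _
  -- the construction
  let S : Setup V I J T L q k :=
    { G := D.G
      R := R
      pos := pos
      Y := fun τ c m => Y (τ, c, m)
      XM := fun τ i u => X (Sum.inl (τ, i, u))
      X2 := fun τ j u => X (Sum.inr (Sum.inl (τ, j, u)))
      XL := fun σ u => X (Sum.inr (Sum.inr (σ, u)))
      pos_Y := qY
      pos_XM := qXM
      pos_X2 := qX2
      pos_XL := qXL
      R_le := fun u v h => h.1
      R_cls := by
        rintro u v ⟨_, ⟨i, γ, γ', h2, h3, _⟩ | ⟨i, γ, γ', h2, h3, _⟩⟩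
        · exact Or.inl ⟨i, (qa1 u i).mpr ⟨γ, h2⟩, (qa1 v i).mpr ⟨γ', h3⟩⟩
        · exact Or.inr ⟨i, (qa2 u i).mpr ⟨γ, h2⟩, (qa2 v i).mpr ⟨γ', h3⟩⟩
      R_col := by
        intro W hW
        -- the block of a vertex
        obtain ⟨γ0⟩ := ‹Nonempty Γ›
        let bl : V → Γ := fun v => match D.reg v with
          | .c1 _ γ => γ
          | .c2 _ γ => γ
          | _ => γ0
        obtain ⟨c, hc⟩ := D.E_col (W.image bl) (card_image_le.trans hW)
        refine ⟨fun v => c (bl v), ?_⟩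
        rintro u hu v hv ⟨_, ⟨i, γ, γ', h2, h3, h4⟩ | ⟨i, γ, γ', h2, h3, h4⟩⟩
        · apply hc _ (mem_image_of_mem _ hu) _ (mem_image_of_mem _ hv)
          simp only [bl, h2, h3]
          exact h4
        · apply hc _ (mem_image_of_mem _ hu) _ (mem_image_of_mem _ hv)
          simp only [bl, h2, h3]
          exact h4
      m0 := D.m0
      R_rich1 := by
        intro i W hW hWc
        apply D.rich1 i W (fun v hv => mem_filter.mpr ⟨mem_univ _, (qa1 v i).mp (hW v hv)⟩) hWc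
        intro u _ v _ γ γ' h2 h3 h4 h5
        exact ⟨h4, Or.inl ⟨i, γ, γ', h2, h3, h5⟩⟩
      R_rich2 := by
        intro i W hW hWc
        apply D.rich2 i W (fun v hv => mem_filter.mpr ⟨mem_univ _, (qa2 v i).mp (hW v hv)⟩) hWc
        intro u _ v _ γ γ' h2 h3 h4 h5
        exact ⟨h4, Or.inr ⟨i, γ, γ', h2, h3, h5⟩⟩
      G_XM_a1 := fun τ i u v h => hX1 (τ, i, u) v ((qa1 v i).mp h)
      G_XM_bM := fun τ i u v h => (tM1 v τ (qbM v τ h).1).2 (Sum.inl (i, u))
      G_X2_a2 := fun τ i u v h => hX2 (τ, i, u) v ((qa2 v i).mp h)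
      G_X2_bM := fun τ i u v h => (tM1 v τ (qbM v τ h).1).2 (Sum.inr (Sum.inr (i, u)))
      G_Y_Y := fun τ c m c' m' h => hYY _ _ (by simp [h])
      G_Y_bM := fun τ c m v h => (tM1 v τ (qbM v τ h).1).2 (Sum.inr (Sum.inl (c, m)))
      G_Y_XL := fun τ c m σ u => hX3 _ _
      G_XL_bL := fun σ u v h => tL1 v σ (qbL v _ h).1 u
      P2 := by
        intro S hS hS2
        obtain ⟨j, hj⟩ := D.P2 S hS (fun s hs j γ h => hS2 s hs j ((qa2 s j).mpr ⟨γ, h⟩))
        refine ⟨j, _, ?_, hj⟩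
        intro v hv
        rw [mem_filter] at hv
        exact ⟨(qa2 v j).mpr (mem_filter.mp hv.1).2, hv.2⟩
      K3 := D.K3
      richM := by
        intro τ S z hS hSp
        have h2 := D.richM τ (fun a => Z (τ, a)) S (fun a => hZp _) hS
          (fun s hs => by
            obtain ⟨i, hi⟩ := hSp s hs
            exact ⟨i, (qa1 s i).mp hi⟩)
        have h3 : k ≤ ((univ.filter (fun v => D.reg v = .bet τ ∧ D.nrm v ∧
            (∀ a, D.G.Adj (Z (τ, a)) v) ∧ ∀ s ∈ S, D.G.Adj s v)).erase z).card := by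
          have := pred_card_le_card_erase (s := univ.filter (fun v => D.reg v = .bet τ ∧ D.nrm v ∧
            (∀ a, D.G.Adj (Z (τ, a)) v) ∧ ∀ s ∈ S, D.G.Adj s v)) (a := z)
          omega
        obtain ⟨W, hW, hWc⟩ := exists_subset_card_eq h3
        obtain ⟨b, hb1, hb2⟩ := exists_enum W hWc
        refine ⟨b, hb1, fun m => ?_⟩
        have h4 := hW (hb2 m)
        rw [mem_erase, mem_filter] at h4
        obtain ⟨h5, _, h6, h7, h8, h9⟩ := h4
        refine ⟨?_, h5, h9⟩
        rw [pB, h6, tM2 _ τ h6 h7 h8]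
        · rfl
        · intro a h; rw [h, hYp] at h6; simp at h6
        · intro a h; rw [h, hXp] at h6; simp at h6
      richL := by
        intro τ S z hS hSp
        have h2 := D.richL τ (fun a => XL (τ, a)) S (fun a => hXp _) hS
          (fun s hs => by
            obtain ⟨i, hi⟩ := hSp s hs
            exact ⟨i, (qa1 s i).mp hi⟩)
        have h3 : k ≤ ((univ.filter (fun v => D.reg v = .lam τ ∧
            (∀ a, D.G.Adj (XL (τ, a)) v) ∧ ∀ s ∈ S, D.G.Adj s v)).erase z).card := by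
          have := pred_card_le_card_erase (s := univ.filter (fun v => D.reg v = .lam τ ∧
            (∀ a, D.G.Adj (XL (τ, a)) v) ∧ ∀ s ∈ S, D.G.Adj s v)) (a := z)
          omega
        obtain ⟨W, hW, hWc⟩ := exists_subset_card_eq h3
        obtain ⟨b, hb1, hb2⟩ := exists_enum W hWc
        refine ⟨b, hb1, fun m => ?_⟩
        have h4 := hW (hb2 m)
        rw [mem_erase, mem_filter] at h4
        obtain ⟨h5, _, h6, h8, h9⟩ := h4
        refine ⟨?_, h5, h9⟩
        rw [pB, h6, tL2 _ τ h6 h8]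
        · rfl
        · intro a h; rw [h, hYp] at h6; simp at h6
        · intro a h; rw [h, hXp] at h6; simp at h6 }
  refine ⟨S, rfl, rfl, rfl, ?_, ?_, ?_, ?_, ?_, ?_, ?_, ?_, ?_, ?_⟩
  · intro i
    ext v
    simp only [Setup.cls1, C1, mem_filter, mem_univ, true_and]
    exact qa1 v i
  · intro i
    ext v
    simp only [Setup.cls2, C2, mem_filter, mem_univ, true_and]
    exact qa2 v i
  · intro τ v h
    exact (tM1 v τ (qbM v τ h).1).1
  · intro v hv
    rcases kd_B hv with ⟨τ, h⟩ | ⟨o, h⟩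
    · exact (qbM v τ h).2.2.2
    · exact (qbL v o h).2.2.2.1
  · ext v
    simp only [Setup.kset, mem_filter, mem_univ, true_and]
    constructor
    · intro h
      obtain ⟨i, hi⟩ := kd_a1 h
      exact ⟨i, (qa1 v i).mp hi⟩
    · rintro ⟨i, hi⟩
      have : S.pos v = .a1 i := (qa1 v i).mpr hi
      rw [this]; rfl
  · have h2 : S.kset (fun x => x = 1) ⊆ (univ : Finset J).biUnion (fun j => C2 D.reg j) := by
      intro v hv
      obtain ⟨j, hj⟩ := kd_a2 (S.mem_kset.mp hv)
      rw [mem_biUnion]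
      exact ⟨j, mem_univ _, mem_filter.mpr ⟨mem_univ _, (qa2 v j).mp hj⟩⟩
    refine (card_le_card h2).trans (card_biUnion_le.trans ?_)
    simp [card_C2]
  · have h2 : S.kset (fun x => x = 2) ⊆ (univ.image Y) ∪ (univ.image
        (fun a : (T × I × Fin k) ⊕ (T × J × Fin k) => X (Sum.elim (fun a => Sum.inl a)
          (fun a => Sum.inr (Sum.inl a)) a))) := by
      intro v hv
      have hv := S.mem_kset.mp hv
      rw [mem_union, mem_image, mem_image]
      have hp : (∃ τ c m, pos v = .y τ c m) ∨ (∃ τ i u, pos v = .xM τ i u) ∨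
          (∃ τ j u, pos v = .x2 τ j u) := by
        exact kd_sp hv
      rcases hp with ⟨τ, c, m, h⟩ | ⟨τ, i, u, h⟩ | ⟨τ, j, u, h⟩
      · exact Or.inl ⟨_, mem_univ _, ((qY v τ c m).mp h).symm⟩
      · exact Or.inr ⟨Sum.inl (τ, i, u), mem_univ _, ((qXM v τ i u).mp h).symm⟩
      · exact Or.inr ⟨Sum.inr (τ, j, u), mem_univ _, ((qX2 v τ j u).mp h).symm⟩
    refine (card_le_card h2).trans ((card_union_le _ _).trans ?_)
    exact Nat.add_le_add (card_image_le.trans (by rw [card_univ])) (card_image_le.trans (by rw [card_univ]))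
  · have h2 : S.kset (fun x => x = 3) = univ.image XL := by
      ext v
      rw [S.mem_kset, mem_image]
      constructor
      · intro h
        obtain ⟨σ, u, h3⟩ := kd_xL h
        exact ⟨(σ, u), mem_univ _, ((qXL v σ u).mp h3).symm⟩
      · rintro ⟨a, _, rfl⟩
        have : S.pos (XL a) = .xL a.1 a.2 := (qXL _ _ _).mpr rfl
        rw [this]; rfl
    rw [h2, card_image_of_injective _ hXLi, card_univ]
    simp
  · have h2 : S.kset (fun x => 5 ≤ x) ⊆ (univ.filter (fun v => (∀ x, v ≠ Z x) ∧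
        ∀ τ, ∃ a, ¬ D.G.Adj (Z (τ, a)) v)) ∪ (univ.filter (fun v => (∀ i γ, D.reg v ≠ .c1 i γ) ∧
          ¬ D.nrm v)) ∪ (univ.filter (fun v => ∃ σ, D.reg v = .lam σ)) := by
      intro v hv
      obtain ⟨o, ho⟩ := kd_bL (S.mem_kset.mp hv)
      obtain ⟨h3, h4, h5, h6, h7⟩ := qbL v o ho
      simp only [mem_union, mem_filter, mem_univ, true_and]
      rcases h7 with h7 | h7
      · exact Or.inr h7
      · by_cases hn : D.nrm v
        · exact Or.inl (Or.inl ⟨qnotS v h4 h5, tM3 v h7 hn⟩)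
        · exact Or.inl (Or.inr ⟨h6, hn⟩)
    refine (card_le_card h2).trans ((card_union_le _ _).trans ?_)
    refine Nat.add_le_add ((card_union_le _ _).trans ?_) D.lamc
    exact Nat.add_le_add (D.typM Z hZi) D.abn
  · have h2 : S.kset (fun x => x = 6) ⊆ (univ.filter (fun v => (∀ x, v ≠ XL x) ∧
        ∀ τ, ∃ a, ¬ D.G.Adj (XL (τ, a)) v)) := by
      intro v hv
      have hv := S.mem_kset.mp hv
      obtain ⟨o, ho⟩ := kd_bL (a := pos v) (by change kd (pos v) = 6 at hv; rw [hv]; decide)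
      have ho' : o = none := by
        change kd (pos v) = 6 at hv
        rw [ho] at hv
        rcases o with _ | σ
        · rfl
        · simp [kd] at hv
      subst ho'
      obtain ⟨h3, h4, h5, h6, h7⟩ := qbL v _ ho
      simp only [mem_filter, mem_univ, true_and]
      exact ⟨fun x => h5 _, tL3 v h3⟩
    exact (card_le_card h2).trans (D.typL XL hXLi)

end Good

end Pool.Agent.H62.Sat
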