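import Mathlib

set_option autoImplicit false

/-! Many dense subsets of a finite set have a large common part. -/

namespace Pool.Agent.H62.Sat

open Finset

theorem inter_lemma (δ : ℝ) (hδ : 0 < δ) (M' : ℕ) : ∃ (M : ℕ) (δ' : ℝ), 0 < δ' ∧ 0 < M ∧
    ∀ (ι V : Type) (S : Finset ι) (A : Finset V) (D : ι → Finset V), M ≤ S.card →
      (∀ t ∈ S, D t ⊆ A ∧ δ * A.card ≤ (D t).card) →
      ∃ S' ⊆ S, S'.card = M' ∧ ∃ W ⊆ A, δ' * A.card ≤ W.card ∧ ∀ t ∈ S', W ⊆ D t := by
  classical
  obtain ⟨M, hM⟩ : ∃ M : ℕ, 2 * M' / δ < M ∧ 0 < M ∧ M' ≤ M := by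
    obtain ⟨M, hM⟩ := exists_nat_gt (2 * M' / δ)
    exact ⟨M + M' + 1, by push_cast; linarith [(Nat.cast_nonneg M' : (0 : ℝ) ≤ M')],
      by omega, by omega⟩
  refine ⟨M, δ / 2 / 2 ^ M, by positivity, hM.2.1, ?_⟩
  intro ι V S0 A D hS0 hD0
  obtain ⟨S, hSS, hSM⟩ := exists_subset_card_eq hS0
  have hD := fun t ht => hD0 t (hSS ht)
  have hMpos : (0 : ℝ) < M := by exact_mod_cast hM.2.1
  have h2M : 2 * (M' : ℝ) < δ * M := by
    have := hM.1
    rw [div_lt_iff₀ hδ] at this
    linarith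
  -- the pattern of a point
  let s : V → Finset ι := fun x => S.filter (fun t => x ∈ D t)
  let Gd : Finset V := A.filter (fun x => M' ≤ (s x).card)
  have hsum : ∑ x ∈ A, (s x).card = ∑ t ∈ S, (D t).card := by
    have h1 : ∀ x, (s x).card = ∑ t ∈ S, if x ∈ D t then 1 else 0 := by
      intro x
      simp only [s]
      rw [card_filter]
    have h2 : ∀ t ∈ S, (D t).card = ∑ x ∈ A, if x ∈ D t then 1 else 0 := by
      intro t ht
      rw [← card_filter]
      congr 1
      ext x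
      simp only [mem_filter]
      exact ⟨fun h => ⟨(hD t ht).1 h, h⟩, fun h => h.2⟩
    rw [sum_congr rfl h2, sum_comm]
    exact sum_congr rfl (fun x _ => h1 x)
  have hsum2 : (M : ℝ) * (δ * A.card) ≤ ∑ x ∈ A, ((s x).card : ℝ) := by
    have h3 : (∑ x ∈ A, ((s x).card : ℝ)) = ∑ t ∈ S, ((D t).card : ℝ) := by exact_mod_cast hsum
    rw [h3]
    calc (M : ℝ) * (δ * A.card) = ∑ _t ∈ S, δ * A.card := by rw [sum_const, hSM, nsmul_eq_mul]
      _ ≤ _ := sum_le_sum (fun t ht => (hD t ht).2)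
  have hup : ∑ x ∈ A, ((s x).card : ℝ) ≤ Gd.card * M + A.card * M' := by
    calc ∑ x ∈ A, ((s x).card : ℝ) ≤ ∑ x ∈ A, ((if M' ≤ (s x).card then (M : ℝ) else 0) + M') := by
          apply sum_le_sum
          intro x _
          have h4 : (s x).card ≤ M := by rw [← hSM]; exact card_filter_le _ _
          split_ifs with h5
          · have : ((s x).card : ℝ) ≤ M := by exact_mod_cast h4
            have h6 : (0 : ℝ) ≤ M' := Nat.cast_nonneg _
            linarith
          · push Not at h5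
            have : ((s x).card : ℝ) ≤ M' := by exact_mod_cast h5.le
            linarith
      _ = _ := by
          rw [sum_add_distrib, sum_const, nsmul_eq_mul, ← sum_filter, sum_const, nsmul_eq_mul]
  have hG : δ / 2 * A.card ≤ Gd.card := by
    have h5 : (M : ℝ) * (δ * A.card) ≤ Gd.card * M + A.card * M' := hsum2.trans hup
    have h6 : (A.card : ℝ) * M' ≤ A.card * (δ * M / 2) :=
      mul_le_mul_of_nonneg_left (by linarith) (Nat.cast_nonneg _)
    have h7 : (δ / 2 * A.card) * M ≤ Gd.card * M := by nlinarith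
    exact le_of_mul_le_mul_right h7 hMpos
  by_cases hA : A.card = 0
  · -- trivial case
    obtain ⟨S', hS', hc⟩ : ∃ S' ⊆ S, S'.card = M' := by
      apply exists_subset_card_eq
      rw [hSM]
      exact hM.2.2
    exact ⟨S', hS'.trans hSS, hc, ∅, by simp, by simp [hA], by simp⟩
  · have hApos : (0 : ℝ) < A.card := by
      have : 0 < A.card := Nat.pos_of_ne_zero hA
      exact_mod_cast this
    -- pigeonhole on the patterns
    have hmaps : ∀ x ∈ Gd, s x ∈ S.powerset := fun x _ => by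
      simp only [s]; exact mem_powerset.mpr (filter_subset _ _)
    obtain ⟨S1, hS1, hc1⟩ : ∃ y ∈ S.powerset, δ / 2 / 2 ^ M * A.card ≤
        ((Gd.filter (fun x => s x = y)).card : ℝ) := by
      by_contra hcon
      push Not at hcon
      have h9 : (Gd.card : ℝ) = ∑ y ∈ S.powerset, ((Gd.filter (fun x => s x = y)).card : ℝ) := by
        have := card_eq_sum_card_fiberwise (f := s) (s := Gd) (t := S.powerset) hmaps
        exact_mod_cast this
      have h10 : ∑ y ∈ S.powerset, ((Gd.filter (fun x => s x = y)).card : ℝ) <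
          ∑ _y ∈ S.powerset, δ / 2 / 2 ^ M * A.card :=
        sum_lt_sum_of_nonempty ⟨S, mem_powerset_self S⟩ hcon
      rw [sum_const, card_powerset, hSM, nsmul_eq_mul, ← h9] at h10
      have h11 : ((2 ^ M : ℕ) : ℝ) * (δ / 2 / 2 ^ M * A.card) = δ / 2 * A.card := by
        push_cast
        field_simp
      linarith
    have hne : (Gd.filter (fun x => s x = S1)).Nonempty := by
      rw [← card_pos]
      have h12 : 0 < δ / 2 / 2 ^ M * A.card := by positivity
      have h13 : (0 : ℝ) < ((Gd.filter (fun x => s x = S1)).card : ℝ) := lt_of_lt_of_le h12 hc1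
      exact_mod_cast h13
    obtain ⟨x0, hx0⟩ := hne
    simp only [mem_filter, Gd] at hx0
    obtain ⟨S', hS', hc'⟩ := exists_subset_card_eq (hx0.2 ▸ hx0.1.2 : M' ≤ S1.card)
    refine ⟨S', (hS'.trans (mem_powerset.mp hS1)).trans hSS, hc', Gd.filter (fun x => s x = S1),
      ?_, hc1, ?_⟩
    · intro x hx
      simp only [mem_filter, Gd] at hx
      exact hx.1.1
    · intro t ht x hx
      simp only [mem_filter] at hx
      have : t ∈ s x := by rw [hx.2]; exact hS' ht
      simp only [s, mem_filter] at this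
      exact this.2

/-- simultaneous version -/
theorem inter_multi (δ : ℝ) (hδ : 0 < δ) (I : Type) [DecidableEq I] (J : Finset I) :
    ∀ (M' : ℕ), ∃ (M : ℕ) (δ' : ℝ), 0 < δ' ∧
    ∀ (ι V : Type) (S : Finset ι) (A : I → Finset V) (D : I → ι → Finset V), M ≤ S.card →
      (∀ i ∈ J, ∀ t ∈ S, D i t ⊆ A i ∧ δ * (A i).card ≤ (D i t).card) →
      ∃ S' ⊆ S, S'.card = M' ∧ ∀ i ∈ J, ∃ W ⊆ A i, δ' * (A i).card ≤ W.card ∧
        ∀ t ∈ S', W ⊆ D i t := by
  induction J using Finset.induction_on with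
  | empty =>
    intro M'
    refine ⟨M', 1, one_pos, ?_⟩
    intro ι V S A D hS _
    obtain ⟨S', h1, h2⟩ := exists_subset_card_eq hS
    exact ⟨S', h1, h2, by simp⟩
  | insert i J hi ih =>
    intro M'
    obtain ⟨M1, δ1, hδ1, h1⟩ := ih M'
    obtain ⟨M2, δ2, hδ2, _, h2⟩ := inter_lemma δ hδ M1
    refine ⟨M2, min δ1 δ2, lt_min hδ1 hδ2, ?_⟩
    intro ι V S A D hS hD
    obtain ⟨S1, hS1, hc1, W, hW1, hW2, hW3⟩ := h2 ι V S (A i) (D i) hS
      (fun t ht => hD i (mem_insert_self i J) t ht)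
    obtain ⟨S', hS', hc', h3⟩ := h1 ι V S1 A D hc1.ge
      (fun j hj t ht => hD j (mem_insert_of_mem hj) t (hS1 ht))
    refine ⟨S', hS'.trans hS1, hc', ?_⟩
    intro j hj
    rw [mem_insert] at hj
    rcases hj with rfl | hj
    · exact ⟨W, hW1, (mul_le_mul_of_nonneg_right (min_le_right _ _) (Nat.cast_nonneg _)).trans hW2,
        fun t ht => hW3 t (hS' ht)⟩
    · obtain ⟨W', hw1, hw2, hw3⟩ := h3 j hj
      exact ⟨W', hw1, (mul_le_mul_of_nonneg_right (min_le_left _ _) (Nat.cast_nonneg _)).trans hw2,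
        hw3⟩

end Pool.Agent.H62.Sat
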