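import Pool.Agent.H62.Sat.StarM
import Pool.Agent.H62.Sat.Inter

set_option autoImplicit false

/-! The number of edges of an `F`-free graph above the initial graph. -/

namespace Pool.Agent.H62.Sat

open Finset

/-- property of the constants of `inter_lemma` -/
def InterP (δ : ℝ) (M' M : ℕ) (δ' : ℝ) : Prop :=
  ∀ (ι V : Type) (S : Finset ι) (A : Finset V) (D : ι → Finset V), M ≤ S.card →
      (∀ t ∈ S, D t ⊆ A ∧ δ * A.card ≤ (D t).card) →
      ∃ S' ⊆ S, S'.card = M' ∧ ∃ W ⊆ A, δ' * A.card ≤ W.card ∧ ∀ t ∈ S', W ⊆ D t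

/-- property of the constants of `inter_multi` -/
def InterMP (δ : ℝ) (I : Type) (M' M : ℕ) (δ' : ℝ) : Prop :=
  ∀ (ι V : Type) (S : Finset ι) (A : I → Finset V) (D : I → ι → Finset V), M ≤ S.card →
      (∀ i, ∀ t ∈ S, D i t ⊆ A i ∧ δ * (A i).card ≤ (D i t).card) →
      ∃ S' ⊆ S, S'.card = M' ∧ ∀ i, ∃ W ⊆ A i, δ' * (A i).card ≤ W.card ∧
        ∀ t ∈ S', W ⊆ D i t

theorem exists_InterMP (δ : ℝ) (hδ : 0 < δ) (I : Type) [Fintype I] (M' : ℕ) :
    ∃ (M : ℕ) (δ' : ℝ), 0 < δ' ∧ InterMP δ I M' M δ' := by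
  classical
  obtain ⟨M, δ', h1, h2⟩ := inter_multi δ hδ I univ M'
  refine ⟨M, δ', h1, ?_⟩
  intro ι V S A D hS hD
  obtain ⟨S', h3, h4, h5⟩ := h2 ι V S A D hS (fun i _ => hD i)
  exact ⟨S', h3, h4, fun i => h5 i (mem_univ i)⟩

section enum
variable {V : Type}

/-- enumeration of a finite set of `k` elements -/
theorem exists_enum {k : ℕ} (S : Finset V) (h : S.card = k) :
    ∃ b : Fin k → V, Function.Injective b ∧ ∀ m, b m ∈ S := by
  refine ⟨fun m => ((S.equivFinOfCardEq h).symm m : V), ?_, fun m => Subtype.mem _⟩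
  intro a b hab
  exact (S.equivFinOfCardEq h).symm.injective (Subtype.ext hab)

variable [DecidableEq V]

/-- the pairs with one end `b` in `B` and the other in `N b` -/
def starE (B : Finset V) (N : V → Finset V) : Finset (Sym2 V) :=
  B.biUnion (fun b => (N b).image (fun u => s(u, b)))

theorem mem_starE {B : Finset V} {N : V → Finset V} {u b : V} (hb : b ∈ B) (hu : u ∈ N b) :
    s(u, b) ∈ starE B N :=
  mem_biUnion.mpr ⟨b, hb, mem_image_of_mem _ hu⟩

theorem card_starE (B : Finset V) (N : V → Finset V) :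
    ((starE B N).card : ℝ) ≤ ∑ b ∈ B, ((N b).card : ℝ) := by
  have : (starE B N).card ≤ ∑ b ∈ B, (N b).card :=
    card_biUnion_le.trans (sum_le_sum (fun b _ => card_image_le))
  exact_mod_cast this

end enum

variable {V I J T L : Type} {q k : ℕ}

/-- the kind of a position -/
def kd : Pos I J T L q k → Fin 7
  | .a1 _ => 0
  | .a2 _ => 1
  | .y _ _ _ => 2
  | .xM _ _ _ => 2
  | .x2 _ _ _ => 2
  | .xL _ _ => 3
  | .bM _ => 4
  | .bL (some _) => 5
  | .bL none => 6

/-- which pairs are counted -/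
def CC (x y : Fin 7) : Prop :=
  x = 0 ∨ x = 2 ∨ ((x = 1 ∨ x = 3) ∧ (y = 1 ∨ y = 3 ∨ 5 ≤ y)) ∨ (x = 4 ∧ y = 1) ∨ (x = 4 ∧ y = 3) ∨
    (4 ≤ x ∧ y = 4) ∨ (5 ≤ x ∧ y = 5) ∨ (x = 6 ∧ y = 6)

instance : ∀ x y, Decidable (CC x y) := fun x y => by unfold CC; infer_instance

theorem CC_total : ∀ x y : Fin 7, CC x y ∨ CC y x := by decide

theorem kd_a1 {a : Pos I J T L q k} (h : kd a = 0) : ∃ i, a = .a1 i := by
  rcases a with _ | _ | _ | _ | _ | _ | _ | (_ | _) <;> simp_all [kd]

theorem kd_a2 {a : Pos I J T L q k} (h : kd a = 1) : ∃ j, a = .a2 j := by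
  rcases a with _ | _ | _ | _ | _ | _ | _ | (_ | _) <;> simp_all [kd]

theorem kd_xL {a : Pos I J T L q k} (h : kd a = 3) : ∃ σ u, a = .xL σ u := by
  rcases a with _ | _ | _ | _ | _ | _ | _ | (_ | _) <;> simp_all [kd]

theorem kd_bM {a : Pos I J T L q k} (h : kd a = 4) : ∃ τ, a = .bM τ := by
  rcases a with _ | _ | _ | _ | _ | _ | _ | (_ | _) <;> simp_all [kd]

theorem kd_bLs {a : Pos I J T L q k} (h : kd a = 5) : ∃ σ, a = .bL (some σ) := by
  rcases a with _ | _ | _ | _ | _ | _ | _ | (_ | _) <;> simp_all [kd]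

theorem kd_bL {a : Pos I J T L q k} (h : 5 ≤ kd a) : ∃ o, a = .bL o := by
  rcases a with _ | _ | _ | _ | _ | _ | _ | (_ | _) <;> simp_all [kd]

theorem kd_B {a : Pos I J T L q k} (h : 4 ≤ kd a) : (∃ τ, a = .bM τ) ∨ (∃ o, a = .bL o) := by
  rcases a with _ | _ | _ | _ | _ | _ | _ | (_ | _) <;> simp_all [kd]

theorem sum_heavy {W : Type} [DecidableEq W] (B Hv : Finset W) (c : W → ℕ) (N : ℕ) (x : ℝ)
    (hx : 0 ≤ x) (hc : ∀ b ∈ B, c b ≤ N) (h : ∀ b ∈ B, b ∉ Hv → (c b : ℝ) ≤ x) :
    ∑ b ∈ B, (c b : ℝ) ≤ B.card * x + Hv.card * N := by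
  calc ∑ b ∈ B, (c b : ℝ) ≤ ∑ b ∈ B, (x + if b ∈ Hv then (N : ℝ) else 0) := by
        apply sum_le_sum
        intro b hb
        by_cases h1 : b ∈ Hv
        · rw [if_pos h1]
          have : (c b : ℝ) ≤ N := by exact_mod_cast hc b hb
          linarith
        · rw [if_neg h1]
          have := h b hb h1
          linarith
    _ = B.card * x + ((B.filter (fun b => b ∈ Hv)).card : ℝ) * N := by
        rw [sum_add_distrib, sum_const, nsmul_eq_mul, ← sum_filter, sum_const, nsmul_eq_mul]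
    _ ≤ B.card * x + Hv.card * N := by
        have h1 : (B.filter (fun b => b ∈ Hv)).card ≤ Hv.card := by
          apply card_le_card
          intro b hb
          exact (mem_filter.mp hb).2
        have h2 : ((B.filter (fun b => b ∈ Hv)).card : ℝ) ≤ Hv.card := by exact_mod_cast h1
        have h3 : (0 : ℝ) ≤ N := Nat.cast_nonneg _
        nlinarith

namespace Setup

open Classical

variable [Fintype V]
variable (D : Setup V I J T L q k)

/-- a class of the first part -/
noncomputable def cls1 (i : I) : Finset V := univ.filter (fun v => D.pos v = .a1 i)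

/-- a class of the second part -/
noncomputable def cls2 (j : J) : Finset V := univ.filter (fun v => D.pos v = .a2 j)

/-- vertices of a kind -/
noncomputable def kset (P : Fin 7 → Prop) : Finset V := univ.filter (fun v => P (kd (D.pos v)))

theorem mem_kset {P : Fin 7 → Prop} {v : V} : v ∈ D.kset P ↔ P (kd (D.pos v)) := by
  simp [kset]

/-- robust pairs -/
def Rob (δ : ℝ) (N : ℕ) (z t : V) : Prop :=
  ∃ i, δ * N ≤ (((D.cls1 i).filter (fun x => D.G.Adj z x ∧ D.G.Adj t x)).card : ℝ)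

end Setup

section main

open Classical

variable [Fintype V] [Fintype I] [Fintype J] [Fintype T] [Fintype L]
variable (D : Setup V I J T L q k) (sM : T × I → ℕ) (sL : L → ℕ) (F : SimpleGraph (Fin k))
  (H : SimpleGraph V)

theorem heavy_A2 (hF : F.Colorable (q + 2)) (hH : D.H0 sM sL ≤ H) (hfree : ¬ F.IsContained H)
    (N : ℕ) (hN2 : ∀ j, (D.cls2 j).card = N) (ε2 : ℝ) (M2 : ℕ) (δ2 : ℝ)
    (hI : InterP ε2 k M2 δ2) (hm : (D.m0 : ℝ) ≤ δ2 * N) (τ : T) (j : J) :
    (univ.filter (fun b => D.pos b = .bM τ ∧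
      ε2 * N ≤ (((D.cls2 j).filter (fun x => H.Adj b x)).card : ℝ))).card ≤ M2 := by
  by_contra hcon
  push Not at hcon
  obtain ⟨S', hS', hc, W, hW1, hW2, hW3⟩ := hI V V _ (D.cls2 j)
    (fun b => (D.cls2 j).filter (fun x => H.Adj b x)) hcon.le (by
      intro t ht
      rw [mem_filter] at ht
      rw [hN2]
      exact ⟨filter_subset _ _, ht.2.2⟩)
  obtain ⟨b, hb1, hb2⟩ := exists_enum S' hc
  apply hfree
  refine ctrl_A2 D sM sL F H hF hH τ j b hb1 ?_ W ?_ ?_
  · intro m
    exact (mem_filter.mp (hS' (hb2 m))).2.1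
  · intro v hv
    refine ⟨(mem_filter.mp (hW1 hv)).2, fun m => ?_⟩
    exact ((mem_filter.mp (hW3 _ (hb2 m) hv)).2).symm
  · rw [hN2] at hW2
    exact_mod_cast hm.trans hW2

theorem heavy_XL (hF : F.Colorable (q + 2)) (hH : D.H0 sM sL ≤ H) (hfree : ¬ F.IsContained H)
    (ε2 : ℝ) (M2 : ℕ) (δ2 : ℝ)
    (hI : InterP ε2 k M2 δ2) (hm : (k : ℝ) ≤ δ2 * (D.kset (fun x => x = 3)).card) (τ : T) :
    (univ.filter (fun b => D.pos b = .bM τ ∧
      ε2 * (D.kset (fun x => x = 3)).card ≤
        (((D.kset (fun x => x = 3)).filter (fun x => H.Adj b x)).card : ℝ))).card ≤ M2 := by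
  by_contra hcon
  push Not at hcon
  obtain ⟨S', hS', hc, W, hW1, hW2, hW3⟩ := hI V V _ (D.kset (fun x => x = 3))
    (fun b => (D.kset (fun x => x = 3)).filter (fun x => H.Adj b x)) hcon.le (by
      intro t ht
      rw [mem_filter] at ht
      exact ⟨filter_subset _ _, ht.2.2⟩)
  obtain ⟨b, hb1, hb2⟩ := exists_enum S' hc
  have hkW : k ≤ W.card := by exact_mod_cast hm.trans hW2
  obtain ⟨W', hW', hWc'⟩ := exists_subset_card_eq hkW
  obtain ⟨w, hw1, hw2⟩ := exists_enum W' hWc'
  apply hfree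
  refine ctrl_XL D sM sL F H hF hH τ w b hw1 hb1 ?_ ?_ ?_
  · intro m
    exact kd_xL (D.mem_kset.mp (hW1 (hW' (hw2 m))))
  · intro m
    exact (mem_filter.mp (hS' (hb2 m))).2.1
  · intro m m'
    exact ((mem_filter.mp (hW3 _ (hb2 m') (hW' (hw2 m)))).2).symm

theorem star_M (hH : D.H0 sM sL ≤ H) (hfree : ¬ F.IsContained H)
    (hK : Fintype.card I * (q * k) ≤ D.K3)
    (hψ : ∀ τ, ∃ ψ : Fin k → Lab I T L q k, IsHom F (Function.update sM τ (sM τ + 1)) sL ψ)
    (N : ℕ) (hN1 : ∀ i, (D.cls1 i).card = N) (δ1 : ℝ) (M1 : ℕ) (δ1' : ℝ)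
    (hI : InterMP δ1 I k M1 δ1') (hm : (D.m0 : ℝ) ≤ δ1' * N)
    (hnorm : ∀ τ v, D.pos v = .bM τ → ∀ i,
      δ1 * N ≤ (((D.cls1 i).filter (fun x => D.G.Adj v x)).card : ℝ))
    (z : V) (hz : 4 ≤ kd (D.pos z)) (τ : T) :
    (univ.filter (fun t => D.pos t = .bM τ ∧ H.Adj z t ∧ D.Rob δ1 N z t)).card ≤
      Fintype.card I * M1 := by
  by_contra hcon
  push Not at hcon
  set S0 := univ.filter (fun t => D.pos t = .bM τ ∧ H.Adj z t ∧ D.Rob δ1 N z t) with hS0
  -- choose a class for each vertex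
  have hex : ∀ t, ∃ i : I, t ∈ S0 →
      δ1 * N ≤ (((D.cls1 i).filter (fun x => D.G.Adj z x ∧ D.G.Adj t x)).card : ℝ) := by
    intro t
    by_cases ht : t ∈ S0
    · have := ht
      rw [hS0, mem_filter] at this
      obtain ⟨i, hi⟩ := this.2.2.2
      exact ⟨i, fun _ => hi⟩
    · have hne : S0.Nonempty := by
        rw [← card_pos]; exact lt_of_le_of_lt (Nat.zero_le _) hcon
      obtain ⟨t', ht'⟩ := hne
      rw [hS0, mem_filter] at ht'
      obtain ⟨i, _⟩ := ht'.2.2.2
      exact ⟨i, fun h => absurd h ht⟩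
  choose cl hcl using hex
  obtain ⟨i, _, hi⟩ := exists_lt_card_fiber_of_mul_lt_card_of_maps_to (s := S0) (t := (univ : Finset I))
    (f := cl) (n := M1) (fun _ _ => mem_univ _) (by rwa [card_univ])
  obtain ⟨S', hS', hc, hW⟩ := hI V V (S0.filter (fun t => cl t = i)) (fun i' => D.cls1 i')
    (fun i' t => (D.cls1 i').filter (fun x => (i' = i → D.G.Adj z x) ∧ D.G.Adj t x)) hi.le (by
      intro i' t ht
      rw [mem_filter] at ht
      rw [hN1]
      refine ⟨filter_subset _ _, ?_⟩
      by_cases h : i' = i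
      · subst h
        have := hcl t ht.1
        rw [ht.2] at this
        simpa using this
      · have h1 := (mem_filter.mp ht.1).2.1
        have := hnorm τ t h1 i'
        simpa [h] using this)
  obtain ⟨t, ht1, ht2⟩ := exists_enum S' hc
  choose W hW1 hW2 hW3 using hW
  apply hfree
  obtain ⟨ψ, hψ'⟩ := hψ (τ, i)
  have hmem : ∀ m, t m ∈ S0 := fun m => (mem_filter.mp (hS' (ht2 m))).1
  refine Mstar D sM sL F H hH hK τ i ψ hψ' z (kd_B hz) t ht1 ?_ ?_ W ?_ ?_ ?_
  · intro m; exact (mem_filter.mp (hmem m)).2.1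
  · intro m; exact (mem_filter.mp (hmem m)).2.2.1
  · intro i' v hv
    refine ⟨(mem_filter.mp (hW1 i' hv)).2, fun m => ?_⟩
    exact ((mem_filter.mp (hW3 i' _ (ht2 m) hv)).2.2).symm
  · intro v hv
    -- use any leaf
    by_cases hk : 0 < k
    · exact ((mem_filter.mp (hW3 i _ (ht2 ⟨0, hk⟩) hv)).2.1 rfl).symm
    · exfalso
      have hk0 : k = 0 := by omega
      subst hk0
      apply hfree
      exact ⟨⟨⟨fun x => x.elim0, fun {a} => a.elim0⟩, fun a => a.elim0⟩⟩
  · intro i'
    have := hW2 i'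
    rw [hN1] at this
    exact_mod_cast hm.trans this

theorem star_L (hH : D.H0 sM sL ≤ H) (hfree : ¬ F.IsContained H)
    (hψ : ∀ σ, ∃ ψ : Fin k → Lab I T L q k, IsHom F 0 (Function.update sL σ (sL σ + 1)) ψ)
    (z : V) (hz : 5 ≤ kd (D.pos z)) (σ : L) :
    (univ.filter (fun t => D.pos t = .bL (some σ) ∧ H.Adj z t)).card ≤ k := by
  by_contra hcon
  push Not at hcon
  obtain ⟨S', hS', hc⟩ := exists_subset_card_eq hcon.le
  obtain ⟨t, ht1, ht2⟩ := exists_enum S' hc
  obtain ⟨ψ, hψ'⟩ := hψ σ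
  apply hfree
  refine Lstar D sM sL F H hH σ ψ hψ' z (kd_bL hz) t ht1 ?_ ?_
  · intro m; exact (mem_filter.mp (hS' (ht2 m))).2.1
  · intro m; exact (mem_filter.mp (hS' (ht2 m))).2.2

theorem count_main (hF : F.Colorable (q + 2)) (hH : D.H0 sM sL ≤ H) (hHG : H ≤ D.G)
    (hfree : ¬ F.IsContained H) (hK : Fintype.card I * (q * k) ≤ D.K3)
    (hψM : ∀ τ, ∃ ψ : Fin k → Lab I T L q k, IsHom F (Function.update sM τ (sM τ + 1)) sL ψ)
    (hψL : ∀ σ, ∃ ψ : Fin k → Lab I T L q k, IsHom F 0 (Function.update sL σ (sL σ + 1)) ψ)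
    (N : ℕ) (hN1 : ∀ i, (D.cls1 i).card = N) (hN2 : ∀ j, (D.cls2 j).card = N)
    (δ1 : ℝ) (M1 : ℕ) (δ1' : ℝ)
    (hI1 : InterMP δ1 I k M1 δ1') (hm1 : (D.m0 : ℝ) ≤ δ1' * N)
    (hnorm : ∀ τ v, D.pos v = .bM τ → ∀ i,
      δ1 * N ≤ (((D.cls1 i).filter (fun x => D.G.Adj v x)).card : ℝ))
    (Q : ℝ) (hQ : (((univ : Finset (V × V)).filter (fun x => x.1 ≠ x.2 ∧ 4 ≤ kd (D.pos x.1) ∧
      kd (D.pos x.2) = 4 ∧ ¬ D.Rob δ1 N x.1 x.2)).card : ℝ) ≤ Q)
    (ε2 : ℝ) (hε2 : 0 ≤ ε2) (M2 : ℕ) (δ2 : ℝ) (hI2 : InterP ε2 k M2 δ2)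
    (hm2 : (D.m0 : ℝ) ≤ δ2 * N) (hm3 : (k : ℝ) ≤ δ2 * (D.kset (fun x => x = 3)).card) :
    (H.edgeSet.ncard : ℝ) ≤
      ∑ a ∈ D.kset (fun x => x = 0), ((univ.filter (fun v => D.G.Adj a v)).card : ℝ) +
      (D.kset (fun x => x = 2)).card * (Fintype.card V : ℝ) +
      ((D.kset (fun x => x = 1)).card + (D.kset (fun x => x = 3)).card : ℝ) *
        ((D.kset (fun x => x = 1)).card + (D.kset (fun x => x = 3)).card +
          (D.kset (fun x => 5 ≤ x)).card : ℝ) +
      (Fintype.card J * (Fintype.card V * (ε2 * N) + Fintype.card T * M2 * N)) +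
      (Fintype.card V * (ε2 * (D.kset (fun x => x = 3)).card) +
        Fintype.card T * M2 * (D.kset (fun x => x = 3)).card) +
      (Fintype.card V * (Fintype.card T * (Fintype.card I * M1)) + Q) +
      (D.kset (fun x => 5 ≤ x)).card * (Fintype.card L * k : ℝ) +
      ((D.kset (fun x => x = 6)).card : ℝ) ^ 2 := by
  set K0 := D.kset (fun x => x = 0) with hK0
  set K1 := D.kset (fun x => x = 1) with hK1
  set K2 := D.kset (fun x => x = 2) with hK2
  set K3 := D.kset (fun x => x = 3) with hK3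
  set K4 := D.kset (fun x => x = 4) with hK4
  set K5 := D.kset (fun x => x = 5) with hK5
  set K6 := D.kset (fun x => x = 6) with hK6
  set B5 := D.kset (fun x => 5 ≤ x) with hB5
  set B4 := D.kset (fun x => 4 ≤ x) with hB4
  let E1 := starE K0 (fun a => univ.filter (fun v => D.G.Adj a v))
  let E2 := starE K2 (fun _ => univ)
  let E3 := starE (K1 ∪ K3) (fun _ => K1 ∪ K3 ∪ B5)
  let E4 := starE K4 (fun b => K1.filter (fun x => H.Adj b x))
  let E5 := starE K4 (fun b => K3.filter (fun x => H.Adj b x))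
  let E6 := starE B4 (fun z => K4.filter (fun t => H.Adj z t))
  let E7 := starE B5 (fun z => K5.filter (fun t => H.Adj z t))
  let E8 := starE K6 (fun _ => K6)
  have hcov : H.edgeSet ⊆ ((E1 ∪ E2 ∪ E3 ∪ E4 ∪ E5 ∪ E6 ∪ E7 ∪ E8 : Finset (Sym2 V)) :
      Set (Sym2 V)) := by
    intro e
    induction e using Sym2.inductionOn with
    | hf u v =>
      intro huv
      rw [SimpleGraph.mem_edgeSet] at huv
      have main : ∀ u v : V, H.Adj u v → CC (kd (D.pos u)) (kd (D.pos v)) →
          s(v, u) ∈ E1 ∪ E2 ∪ E3 ∪ E4 ∪ E5 ∪ E6 ∪ E7 ∪ E8 := by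
        intro u v huv hC
        simp only [mem_union]
        rcases hC with h | h | ⟨h, h'⟩ | ⟨h, h'⟩ | ⟨h, h'⟩ | ⟨h, h'⟩ | ⟨h, h'⟩ | ⟨h, h'⟩
        · have h1 : s(v, u) ∈ E1 := mem_starE (D.mem_kset.mpr h)
            (mem_filter.mpr ⟨mem_univ _, hHG huv⟩)
          simp only [h1, true_or, or_true]
        · have h1 : s(v, u) ∈ E2 := mem_starE (D.mem_kset.mpr h) (mem_univ _)
          simp only [h1, true_or, or_true]
        · have h1 : s(v, u) ∈ E3 := by
            apply mem_starE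
            · rw [mem_union]
              exact h.imp (fun h => D.mem_kset.mpr h) (fun h => D.mem_kset.mpr h)
            · simp only [mem_union]
              rcases h' with h' | h' | h'
              · exact Or.inl (Or.inl (D.mem_kset.mpr h'))
              · exact Or.inl (Or.inr (D.mem_kset.mpr h'))
              · exact Or.inr (D.mem_kset.mpr h')
          simp only [h1, true_or, or_true]
        · have h1 : s(v, u) ∈ E4 := mem_starE (D.mem_kset.mpr h)
            (mem_filter.mpr ⟨D.mem_kset.mpr h', huv⟩)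
          simp only [h1, true_or, or_true]
        · have h1 : s(v, u) ∈ E5 := mem_starE (D.mem_kset.mpr h)
            (mem_filter.mpr ⟨D.mem_kset.mpr h', huv⟩)
          simp only [h1, true_or, or_true]
        · have h1 : s(v, u) ∈ E6 := mem_starE (D.mem_kset.mpr h)
            (mem_filter.mpr ⟨D.mem_kset.mpr h', huv⟩)
          simp only [h1, true_or, or_true]
        · have h1 : s(v, u) ∈ E7 := mem_starE (D.mem_kset.mpr h)
            (mem_filter.mpr ⟨D.mem_kset.mpr h', huv⟩)
          simp only [h1, true_or, or_true]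
        · have h1 : s(v, u) ∈ E8 := mem_starE (D.mem_kset.mpr h) (D.mem_kset.mpr h')
          simp only [h1, true_or, or_true]
      rcases CC_total (kd (D.pos u)) (kd (D.pos v)) with h | h
      · rw [Sym2.eq_swap]
        exact mem_coe.mpr (main u v huv h)
      · exact mem_coe.mpr (main v u huv.symm h)
  have h1 : (H.edgeSet.ncard : ℝ) ≤ E1.card + E2.card + E3.card + E4.card + E5.card + E6.card +
      E7.card + E8.card := by
    have h2 := Set.ncard_le_ncard hcov (Finset.finite_toSet _)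
    rw [Set.ncard_coe_finset] at h2
    have h3 : (E1 ∪ E2 ∪ E3 ∪ E4 ∪ E5 ∪ E6 ∪ E7 ∪ E8).card ≤ E1.card + E2.card + E3.card +
        E4.card + E5.card + E6.card + E7.card + E8.card := by
      refine (card_union_le _ _).trans (Nat.add_le_add_right ?_ _)
      refine (card_union_le _ _).trans (Nat.add_le_add_right ?_ _)
      refine (card_union_le _ _).trans (Nat.add_le_add_right ?_ _)
      refine (card_union_le _ _).trans (Nat.add_le_add_right ?_ _)
      refine (card_union_le _ _).trans (Nat.add_le_add_right ?_ _)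
      refine (card_union_le _ _).trans (Nat.add_le_add_right ?_ _)
      exact card_union_le _ _
    exact_mod_cast h2.trans h3
  have e1 : (E1.card : ℝ) ≤ ∑ a ∈ K0, ((univ.filter (fun v => D.G.Adj a v)).card : ℝ) :=
    card_starE _ _
  have e2 : (E2.card : ℝ) ≤ K2.card * (Fintype.card V : ℝ) := by
    refine (card_starE _ _).trans ?_
    rw [sum_const, nsmul_eq_mul, card_univ]
  have e3 : (E3.card : ℝ) ≤ (K1.card + K3.card : ℝ) * (K1.card + K3.card + B5.card : ℝ) := by
    refine (card_starE _ _).trans ?_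
    rw [sum_const, nsmul_eq_mul]
    have h2 : ((K1 ∪ K3).card : ℝ) ≤ K1.card + K3.card := by exact_mod_cast card_union_le _ _
    have h3 : ((K1 ∪ K3 ∪ B5).card : ℝ) ≤ K1.card + K3.card + B5.card := by
      have : (K1 ∪ K3 ∪ B5).card ≤ K1.card + K3.card + B5.card :=
        (card_union_le _ _).trans (Nat.add_le_add_right (card_union_le _ _) _)
      exact_mod_cast this
    exact mul_le_mul h2 h3 (Nat.cast_nonneg _) (by positivity)
  have e4 : (E4.card : ℝ) ≤ Fintype.card J * (Fintype.card V * (ε2 * N) +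
      Fintype.card T * M2 * N) := by
    refine (card_starE _ _).trans ?_
    have h2 : ∀ b ∈ K4, ((K1.filter (fun x => H.Adj b x)).card : ℝ) ≤
        ∑ j : J, (((D.cls2 j).filter (fun x => H.Adj b x)).card : ℝ) := by
      intro b _
      have h3 : K1.filter (fun x => H.Adj b x) ⊆
          (univ : Finset J).biUnion (fun j => (D.cls2 j).filter (fun x => H.Adj b x)) := by
        intro x hx
        rw [mem_filter] at hx
        obtain ⟨j, hj⟩ := kd_a2 (D.mem_kset.mp hx.1)
        rw [mem_biUnion]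
        exact ⟨j, mem_univ _, mem_filter.mpr ⟨mem_filter.mpr ⟨mem_univ _, hj⟩, hx.2⟩⟩
      have h4 := (card_le_card h3).trans card_biUnion_le
      exact_mod_cast h4
    refine (sum_le_sum h2).trans ?_
    rw [sum_comm]
    have h5 : ∀ j ∈ (univ : Finset J), ∑ b ∈ K4, (((D.cls2 j).filter (fun x => H.Adj b x)).card : ℝ)
        ≤ Fintype.card V * (ε2 * N) + Fintype.card T * M2 * N := by
      intro j _
      have h6 := sum_heavy K4 ((univ : Finset T).biUnion (fun τ => univ.filter (fun b =>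
        D.pos b = .bM τ ∧ ε2 * N ≤ (((D.cls2 j).filter (fun x => H.Adj b x)).card : ℝ))))
        (fun b => ((D.cls2 j).filter (fun x => H.Adj b x)).card) N (ε2 * N)
        (mul_nonneg hε2 (Nat.cast_nonneg _))
        (fun b _ => by rw [← hN2 j]; exact card_filter_le _ _)
        (by
          intro b hb hnb
          by_contra hlt
          push Not at hlt
          apply hnb
          obtain ⟨τ, hτ⟩ := kd_bM (D.mem_kset.mp hb)
          rw [mem_biUnion]
          exact ⟨τ, mem_univ _, mem_filter.mpr ⟨mem_univ _, hτ, hlt.le⟩⟩)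
      refine h6.trans ?_
      have h7 : (((univ : Finset T).biUnion (fun τ => univ.filter (fun b =>
        D.pos b = .bM τ ∧ ε2 * N ≤ (((D.cls2 j).filter (fun x => H.Adj b x)).card : ℝ)))).card : ℝ)
          ≤ Fintype.card T * M2 := by
        have h8 : ((univ : Finset T).biUnion (fun τ => univ.filter (fun b =>
          D.pos b = .bM τ ∧ ε2 * N ≤ (((D.cls2 j).filter (fun x => H.Adj b x)).card : ℝ)))).card
            ≤ Fintype.card T * M2 := by
          refine card_biUnion_le.trans ?_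
          refine (sum_le_sum (fun τ _ => heavy_A2 D sM sL F H hF hH hfree N hN2 ε2 M2 δ2 hI2 hm2
            τ j)).trans ?_
          rw [sum_const, card_univ, smul_eq_mul]
        exact_mod_cast h8
      have h9 : (K4.card : ℝ) ≤ Fintype.card V := by exact_mod_cast card_le_univ _
      have h10 : (K4.card : ℝ) * (ε2 * N) ≤ Fintype.card V * (ε2 * N) :=
        mul_le_mul_of_nonneg_right h9 (mul_nonneg hε2 (Nat.cast_nonneg _))
      have h11 := mul_le_mul_of_nonneg_right h7 (Nat.cast_nonneg N : (0 : ℝ) ≤ N)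
      linarith
    refine (sum_le_sum h5).trans ?_
    rw [sum_const, card_univ, nsmul_eq_mul]
  have e5 : (E5.card : ℝ) ≤ Fintype.card V * (ε2 * K3.card) + Fintype.card T * M2 * K3.card := by
    refine (card_starE _ _).trans ?_
    have h6 := sum_heavy K4 ((univ : Finset T).biUnion (fun τ => univ.filter (fun b =>
      D.pos b = .bM τ ∧ ε2 * K3.card ≤ ((K3.filter (fun x => H.Adj b x)).card : ℝ))))
      (fun b => (K3.filter (fun x => H.Adj b x)).card) K3.card (ε2 * K3.card)
      (mul_nonneg hε2 (Nat.cast_nonneg _))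
      (fun b _ => card_filter_le _ _)
      (by
        intro b hb hnb
        by_contra hlt
        push Not at hlt
        apply hnb
        obtain ⟨τ, hτ⟩ := kd_bM (D.mem_kset.mp hb)
        rw [mem_biUnion]
        exact ⟨τ, mem_univ _, mem_filter.mpr ⟨mem_univ _, hτ, hlt.le⟩⟩)
    refine h6.trans ?_
    have h7 : (((univ : Finset T).biUnion (fun τ => univ.filter (fun b =>
      D.pos b = .bM τ ∧ ε2 * K3.card ≤ ((K3.filter (fun x => H.Adj b x)).card : ℝ)))).card : ℝ)
        ≤ Fintype.card T * M2 := by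
      have h8 : ((univ : Finset T).biUnion (fun τ => univ.filter (fun b =>
        D.pos b = .bM τ ∧ ε2 * K3.card ≤ ((K3.filter (fun x => H.Adj b x)).card : ℝ)))).card
          ≤ Fintype.card T * M2 := by
        refine card_biUnion_le.trans ?_
        refine (sum_le_sum (fun τ _ => heavy_XL D sM sL F H hF hH hfree ε2 M2 δ2 hI2 hm3
          τ)).trans ?_
        rw [sum_const, card_univ, smul_eq_mul]
      exact_mod_cast h8
    have h9 : (K4.card : ℝ) ≤ Fintype.card V := by exact_mod_cast card_le_univ _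
    have h10 : (K4.card : ℝ) * (ε2 * K3.card) ≤ Fintype.card V * (ε2 * K3.card) :=
      mul_le_mul_of_nonneg_right h9 (mul_nonneg hε2 (Nat.cast_nonneg _))
    have h11 := mul_le_mul_of_nonneg_right h7 (Nat.cast_nonneg K3.card : (0 : ℝ) ≤ K3.card)
    linarith
  have e6 : (E6.card : ℝ) ≤ Fintype.card V * (Fintype.card T * (Fintype.card I * M1)) + Q := by
    refine (card_starE _ _).trans ?_
    have h2 : ∀ z ∈ B4, ((K4.filter (fun t => H.Adj z t)).card : ℝ) ≤
        (Fintype.card T * (Fintype.card I * M1) : ℝ) +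
          ((K4.filter (fun t => z ≠ t ∧ ¬ D.Rob δ1 N z t)).card : ℝ) := by
      intro z hz
      have h3 : K4.filter (fun t => H.Adj z t) ⊆
          ((univ : Finset T).biUnion (fun τ => univ.filter (fun t => D.pos t = .bM τ ∧ H.Adj z t ∧
            D.Rob δ1 N z t))) ∪ K4.filter (fun t => z ≠ t ∧ ¬ D.Rob δ1 N z t) := by
        intro t ht
        rw [mem_filter] at ht
        rw [mem_union]
        by_cases hr : D.Rob δ1 N z t
        · left
          obtain ⟨τ, hτ⟩ := kd_bM (D.mem_kset.mp ht.1)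
          rw [mem_biUnion]
          exact ⟨τ, mem_univ _, mem_filter.mpr ⟨mem_univ _, hτ, ht.2, hr⟩⟩
        · right
          exact mem_filter.mpr ⟨ht.1, ht.2.ne, hr⟩
      have h4 : ((univ : Finset T).biUnion (fun τ => univ.filter (fun t => D.pos t = .bM τ ∧
          H.Adj z t ∧ D.Rob δ1 N z t))).card ≤ Fintype.card T * (Fintype.card I * M1) := by
        refine card_biUnion_le.trans ?_
        refine (sum_le_sum (fun τ _ => star_M D sM sL F H hH hfree hK hψM N hN1 δ1 M1 δ1' hI1 hm1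
          hnorm z (D.mem_kset.mp hz) τ)).trans ?_
        rw [sum_const, card_univ, smul_eq_mul]
      have h5 := (card_le_card h3).trans ((card_union_le _ _).trans (Nat.add_le_add_right h4 _))
      exact_mod_cast h5
    refine (sum_le_sum h2).trans ?_
    rw [sum_add_distrib, sum_const, nsmul_eq_mul]
    have h6 : (B4.card : ℝ) ≤ Fintype.card V := by exact_mod_cast card_le_univ _
    have h7 : ∑ z ∈ B4, ((K4.filter (fun t => z ≠ t ∧ ¬ D.Rob δ1 N z t)).card : ℝ) ≤ Q := by
      refine le_trans (le_of_eq ?_) hQ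
      have h8 : (univ : Finset (V × V)).filter (fun x => x.1 ≠ x.2 ∧ 4 ≤ kd (D.pos x.1) ∧
          kd (D.pos x.2) = 4 ∧ ¬ D.Rob δ1 N x.1 x.2) =
          B4.biUnion (fun z => (K4.filter (fun t => z ≠ t ∧ ¬ D.Rob δ1 N z t)).image
            (fun t => (z, t))) := by
        ext ⟨z, t⟩
        simp only [mem_filter, mem_univ, true_and, mem_biUnion, mem_image, Prod.mk.injEq]
        constructor
        · rintro ⟨h1, h2, h3, h4⟩
          exact ⟨z, D.mem_kset.mpr h2, t, ⟨D.mem_kset.mpr h3, h1, h4⟩, rfl, rfl⟩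
        · rintro ⟨z', h1, t', ⟨h2, h3, h4⟩, rfl, rfl⟩
          exact ⟨h3, D.mem_kset.mp h1, D.mem_kset.mp h2, h4⟩
      rw [h8, card_biUnion]
      · push_cast
        apply sum_congr rfl
        intro z _
        rw [card_image_of_injective]
        intro a b hab
        exact (Prod.mk.inj hab).2
      · intro z _ z' _ hne
        rw [Function.onFun, disjoint_left]
        rintro ⟨a, b⟩ h1 h2
        rw [mem_image] at h1 h2
        obtain ⟨_, _, h3⟩ := h1
        obtain ⟨_, _, h4⟩ := h2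
        exact hne ((Prod.mk.inj h3).1.trans (Prod.mk.inj h4).1.symm)
    have h9 : (B4.card : ℝ) * (Fintype.card T * (Fintype.card I * M1) : ℝ) ≤
        Fintype.card V * (Fintype.card T * (Fintype.card I * M1)) :=
      mul_le_mul_of_nonneg_right h6 (by positivity)
    linarith
  have e7 : (E7.card : ℝ) ≤ B5.card * (Fintype.card L * k : ℝ) := by
    refine (card_starE _ _).trans ?_
    have h2 : ∀ z ∈ B5, ((K5.filter (fun t => H.Adj z t)).card : ℝ) ≤ (Fintype.card L * k : ℝ) := by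
      intro z hz
      have h3 : K5.filter (fun t => H.Adj z t) ⊆
          (univ : Finset L).biUnion (fun σ => univ.filter (fun t => D.pos t = .bL (some σ) ∧
            H.Adj z t)) := by
        intro t ht
        rw [mem_filter] at ht
        obtain ⟨σ, hσ⟩ := kd_bLs (D.mem_kset.mp ht.1)
        rw [mem_biUnion]
        exact ⟨σ, mem_univ _, mem_filter.mpr ⟨mem_univ _, hσ, ht.2⟩⟩
      have h4 : (K5.filter (fun t => H.Adj z t)).card ≤ Fintype.card L * k := by
        refine (card_le_card h3).trans (card_biUnion_le.trans ?_)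
        refine (sum_le_sum (fun σ _ => star_L D sM sL F H hH hfree hψL z (D.mem_kset.mp hz)
          σ)).trans ?_
        rw [sum_const, card_univ, smul_eq_mul]
      exact_mod_cast h4
    refine (sum_le_sum h2).trans ?_
    rw [sum_const, nsmul_eq_mul]
  have e8 : (E8.card : ℝ) ≤ (K6.card : ℝ) ^ 2 := by
    refine (card_starE _ _).trans ?_
    rw [sum_const, nsmul_eq_mul, sq]
  linarith

end main

end Pool.Agent.H62.Sat
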