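import Pool.Agent.H62.Sat.Assemble3

set_option autoImplicit false

/-! The probability that the random set of edges is not typical. -/

namespace Pool.Agent.H62.Sat

open Finset Classical Pool.Agent.W166.Gnp

variable {k q n : ℕ} {I J T L Γ : Type} [Fintype I] [Fintype J] [Fintype T] [Fintype L]
    [Fintype Γ] {c : Par} {reg : Fin n → Reg I J T L Γ}

/-- the bound for `EvRich` -/
noncomputable def fR (p : ℝ) (n M b : ℕ) (W : ℝ) : ℝ :=
  ((n : ℝ) + 1) ^ M * (2 ^ b * Real.exp (-(p ^ M * (W - M) / 2)))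

/-- the bound for `EvTyp` -/
noncomputable def fT (p : ℝ) (n m l K : ℕ) : ℝ :=
  (n : ℝ) ^ (m * l) * ((1 / 4) ^ K * Real.exp (3 * (1 - p ^ l) ^ m * n))

theorem evRich_le {p : ℝ} (h0 : 0 ≤ p) (h1 : p ≤ 1) (W : Finset (Fin n)) (M b : ℕ) :
    Pr (allE n) p (fun E => EvRich E W M b) ≤ fR p n M b W.card := rich_all h0 h1 W M b

theorem evTyp_le {p : ℝ} (h0 : 0 ≤ p) (h1 : p ≤ 1) (ι κ : Type) [Fintype ι] [Fintype κ] (K : ℕ) :
    Pr (allE n) p (fun E => EvTyp E ι κ K) ≤ fT p n (Fintype.card ι) (Fintype.card κ) K := by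
  unfold fT
  refine le_trans (Pr_mono h0 h1 ?_) (typ_all h0 h1 ι κ K)
  rintro E _ ⟨Z, hZ, hK⟩
  refine ⟨Z, hZ, hK.trans (card_le_card ?_)⟩
  intro v hv
  simp only [mem_filter] at hv ⊢
  exact hv

theorem evNrm_le {p : ℝ} (h0 : 0 ≤ p) (h1 : p ≤ 1) {ε : ℝ} (he : 0 ≤ ε) (he1 : ε ≤ 1)
    (C : I → Finset (Fin n)) (N : ℕ) (hN : ∀ i, (C i).card = N) (K : ℕ) :
    Pr (allE n) p (fun E => EvNrm E C ((1 - ε) * (p * N)) K) ≤
      (1 / 4) ^ K * Real.exp (3 * (Fintype.card I * Real.exp (-(ε ^ 2 / 2 * (p * N)))) * n) := by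
  refine le_trans (le_of_eq ?_) (nrm_prob h0 h1 he he1 C N hN K)
  congr 1
  funext E
  unfold EvNrm Nrm
  congr

theorem evPair_le {p : ℝ} (h0 : 0 ≤ p) (h1 : p ≤ 1) {x : ℝ} (hx : 0 < x) (hx1 : x ≤ 1)
    (A : Finset (Fin n)) (m0 : ℕ) (K Q : ℝ) (hQ : 0 < Q) :
    Pr (allE n) p (fun E => EvPair E A m0 K Q) ≤
      (n : ℝ) ^ 2 * (Real.exp (K * Real.log (1 / x)) * (p * x + (1 - p)) ^ m0) / Q :=
  pairs_prob h0 h1 hx hx1 A m0 K Q hQ

theorem evDens_le {p : ℝ} (h0 : 0 ≤ p) (h1 : p ≤ 1) (C : Finset (Fin n)) (m1 : ℕ) :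
    Pr (allE n) p (fun E => EvDens E C m1 (p / 2)) ≤
      4 ^ C.card * Real.exp (-(p / 8 * m1 ^ 2)) := dens_prob h0 h1 C m1

theorem evDeg_le {p : ℝ} (h0 : 0 ≤ p) (h1 : p ≤ 1) {ε : ℝ} (he : 0 ≤ ε) (he1 : ε ≤ 1) :
    Pr (allE n) p (fun E => EvDeg E ((1 + 2 * ε) * (p * ((n : ℝ) - 1)))) ≤
      n * Real.exp (-(ε ^ 2 * (p * ((n : ℝ) - 1)))) := deg_prob h0 h1 he he1

/-- the total failure bound -/
noncomputable def failB (p ε' ε'' x δ1 Q : ℝ) (n k q cI cJ cT cL g N' B Λ P s0 s1 b1 b2 b3 m1 bi
    mt lI : ℕ) : ℝ :=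
  n * Real.exp (-(ε' ^ 2 * (p * ((n : ℝ) - 1)))) +
  fR p n s0 s1 P +
  fT p n cT lI (b1 + 1) +
  fT p n cL k (b2 + 1) +
  cT * fR p n (lI + cI * (q * k)) (b3 + k + 1) B +
  cL * fR p n (k + cI * (q * k)) (k + 1) Λ +
  (1 / 4) ^ (b3 + 1) * Real.exp (3 * (cI * Real.exp (-(ε'' ^ 2 / 2 * (p * (g * N' : ℕ))))) * n) +
  (n : ℝ) ^ 2 * (Real.exp ((cI * (δ1 * (g * N' : ℕ))) * Real.log (1 / x)) *
    (p * x + (1 - p)) ^ mt) / Q +
  (cI + cJ) * (4 ^ (g * N') * Real.exp (-(p / 8 * m1 ^ 2))) +
  fR p n k bi (cJ * (g * N') : ℕ)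

theorem typ_fail (h0 : 0 ≤ c.p) (h1 : c.p ≤ 1) (he' : 0 ≤ c.ε') (he'1 : c.ε' ≤ 1)
    (he'' : 0 ≤ c.ε'') (he''1 : c.ε'' ≤ 1) {x : ℝ} (hx : 0 < x) (hx1 : x ≤ 1) (hQ : 0 < c.Q)
    (B Λ P : ℕ)
    (size1 : ∀ i γ, (univ.filter (fun v => reg v = .c1 i γ)).card = c.N')
    (size2 : ∀ i γ, (univ.filter (fun v => reg v = .c2 i γ)).card = c.N')
    (hB : ∀ τ, (univ.filter (fun v => reg v = .bet τ)).card = B)
    (hΛ : ∀ τ, (univ.filter (fun v => reg v = .lam τ)).card = Λ)
    (hP : (univ.filter (fun v => reg v = .pool)).card = P) :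
    Pr (allE n) c.p (fun E => ¬ Typ k q c reg E) ≤
      failB c.p c.ε' c.ε'' x c.δ1 c.Q n k q (Fintype.card I) (Fintype.card J) (Fintype.card T)
        (Fintype.card L) (Fintype.card Γ) c.N' B Λ P c.s0 c.s1 c.b1 c.b2 c.b3 c.m1 c.bi c.mt
        (Fintype.card (LI I J q k)) := by
  have hC1 : ∀ i, (C1 reg i).card = Fintype.card Γ * c.N' := by
    intro i
    have h : C1 reg i = (univ : Finset Γ).biUnion (fun γ => univ.filter (fun v =>
        reg v = .c1 i γ)) := by
      ext v; simp [C1]
    rw [h, card_biUnion]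
    · simp [size1]
    · intro γ _ γ' _ hne
      rw [Function.onFun, disjoint_left]
      intro v h1 h2
      rw [mem_filter] at h1 h2
      rw [h1.2] at h2
      simp only [Reg.c1.injEq, true_and] at h2
      exact hne h2.2
  have hC2 : ∀ i, (C2 reg i).card = Fintype.card Γ * c.N' := by
    intro i
    have h : C2 reg i = (univ : Finset Γ).biUnion (fun γ => univ.filter (fun v =>
        reg v = .c2 i γ)) := by
      ext v; simp [C2]
    rw [h, card_biUnion]
    · simp [size2]
    · intro γ _ γ' _ hne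
      rw [Function.onFun, disjoint_left]
      intro v h1 h2
      rw [mem_filter] at h1 h2
      rw [h1.2] at h2
      simp only [Reg.c2.injEq, true_and] at h2
      exact hne h2.2
  have hA2 : (A2set reg).card = Fintype.card J * (Fintype.card Γ * c.N') := by
    have h : A2set reg = (univ : Finset J).biUnion (fun j => C2 reg j) := by
      ext v; simp [A2set, C2]
    rw [h, card_biUnion]
    · rw [sum_congr rfl (fun j _ => hC2 j), sum_const, card_univ, smul_eq_mul]
    · intro j _ j' _ hne
      rw [Function.onFun, disjoint_left]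
      intro v h1 h2
      simp only [C2, mem_filter, mem_univ, true_and] at h1 h2
      obtain ⟨γ, h3⟩ := h1
      obtain ⟨γ', h4⟩ := h2
      rw [h3] at h4
      simp only [Reg.c2.injEq] at h4
      exact hne h4.1
  calc Pr (allE n) c.p (fun E => ¬ Typ k q c reg E)
      ≤ Pr (allE n) c.p (fun E => (((((((((
        EvDeg E ((1 + 2 * c.ε') * (c.p * ((n : ℝ) - 1))) ∨
        EvRich E (rset reg .pool) c.s0 c.s1) ∨
        EvTyp E T (LI I J q k) (c.b1 + 1)) ∨
        EvTyp E L (Fin k) (c.b2 + 1)) ∨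
        ∃ τ ∈ (univ : Finset T), EvRich E (rset reg (.bet τ))
          (Fintype.card (LI I J q k) + Fintype.card I * (q * k)) (c.b3 + k + 1)) ∨
        ∃ σ ∈ (univ : Finset L), EvRich E (rset reg (.lam σ)) (k + Fintype.card I * (q * k))
          (k + 1)) ∨
        EvNrm E (C1 reg) ((1 - c.ε'') * (c.p * (Fintype.card Γ * c.N' : ℕ))) (c.b3 + 1)) ∨
        EvPair E (A1set reg) c.mt (Fintype.card I * (c.δ1 * (Fintype.card Γ * c.N' : ℕ))) c.Q) ∨
        ((∃ i ∈ (univ : Finset I), EvDens E (C1 reg i) c.m1 (c.p / 2)) ∨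
          ∃ i ∈ (univ : Finset J), EvDens E (C2 reg i) c.m1 (c.p / 2))) ∨
        EvRich E (A2set reg) k c.bi)) := by
        apply Pr_mono h0 h1
        intro E hE hnot
        by_contra hcon
        apply hnot
        simp only [not_or, not_exists, not_and] at hcon
        obtain ⟨⟨⟨⟨⟨⟨⟨⟨⟨a1, a2⟩, a3⟩, a4⟩, a5⟩, a6⟩, a7⟩, a8⟩, a9, a9'⟩, a10⟩ := hcon
        exact ⟨hE, a1, a2, a3, a4, fun τ => a5 τ (mem_univ _), fun τ => a6 τ (mem_univ _), a7, a8,
          fun τ => a9 τ (mem_univ _), fun τ => a9' τ (mem_univ _), a10⟩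
    _ ≤ _ := by
        unfold failB
        refine (Pr_or_le h0 h1 _ _).trans (add_le_add ?_ ?_)
        · refine (Pr_or_le h0 h1 _ _).trans (add_le_add ?_ ?_)
          · refine (Pr_or_le h0 h1 _ _).trans (add_le_add ?_ ?_)
            · refine (Pr_or_le h0 h1 _ _).trans (add_le_add ?_ ?_)
              · refine (Pr_or_le h0 h1 _ _).trans (add_le_add ?_ ?_)
                · refine (Pr_or_le h0 h1 _ _).trans (add_le_add ?_ ?_)
                  · refine (Pr_or_le h0 h1 _ _).trans (add_le_add ?_ ?_)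
                    · refine (Pr_or_le h0 h1 _ _).trans (add_le_add ?_ ?_)
                      · refine (Pr_or_le h0 h1 _ _).trans (add_le_add ?_ ?_)
                        · exact evDeg_le h0 h1 he' he'1
                        · refine (evRich_le h0 h1 _ _ _).trans (le_of_eq ?_)
                          congr 1
                          rw [← hP]; rfl
                      · exact evTyp_le h0 h1 _ _ _
                    · refine (evTyp_le h0 h1 _ _ _).trans (le_of_eq ?_)
                      rw [Fintype.card_fin]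
                  · refine (Pr_exists_le h0 h1 _ _).trans ?_
                    calc _ ≤ ∑ _τ ∈ (univ : Finset T), fR c.p n
                          (Fintype.card (LI I J q k) + Fintype.card I * (q * k))
                          (c.b3 + k + 1) B := by
                          apply sum_le_sum
                          intro τ _
                          refine (evRich_le h0 h1 _ _ _).trans (le_of_eq ?_)
                          congr 1
                          rw [← hB τ]; rfl
                      _ = _ := by rw [sum_const, card_univ, nsmul_eq_mul]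
                · refine (Pr_exists_le h0 h1 _ _).trans ?_
                  calc _ ≤ ∑ _τ ∈ (univ : Finset L), fR c.p n
                        (k + Fintype.card I * (q * k)) (k + 1) Λ := by
                        apply sum_le_sum
                        intro τ _
                        refine (evRich_le h0 h1 _ _ _).trans (le_of_eq ?_)
                        congr 1
                        rw [← hΛ τ]; rfl
                    _ = _ := by rw [sum_const, card_univ, nsmul_eq_mul]
              · exact evNrm_le h0 h1 he'' he''1 (C1 reg) _ hC1 _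
            · exact evPair_le h0 h1 hx hx1 _ _ _ _ hQ
          · refine (Pr_or_le h0 h1 _ _).trans ?_
            rw [add_mul]
            apply add_le_add
            · refine (Pr_exists_le h0 h1 _ _).trans ?_
              calc _ ≤ ∑ _i ∈ (univ : Finset I), 4 ^ (Fintype.card Γ * c.N') *
                    Real.exp (-(c.p / 8 * c.m1 ^ 2)) := by
                    apply sum_le_sum
                    intro i _
                    refine (evDens_le h0 h1 _ _).trans (le_of_eq ?_)
                    rw [hC1]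
                _ = _ := by rw [sum_const, card_univ, nsmul_eq_mul]
            · refine (Pr_exists_le h0 h1 _ _).trans ?_
              calc _ ≤ ∑ _i ∈ (univ : Finset J), 4 ^ (Fintype.card Γ * c.N') *
                    Real.exp (-(c.p / 8 * c.m1 ^ 2)) := by
                    apply sum_le_sum
                    intro i _
                    refine (evDens_le h0 h1 _ _).trans (le_of_eq ?_)
                    rw [hC2]
                _ = _ := by rw [sum_const, card_univ, nsmul_eq_mul]
        · refine (evRich_le h0 h1 _ _ _).trans (le_of_eq ?_)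
          congr 1
          rw [hA2]

end Pool.Agent.H62.Sat
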