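import Pool.Agent.H62.Sat.Lim

set_option autoImplicit false

/-! The constants of the construction and the functions of `n`. -/

namespace Pool.Agent.H62.Sat

open Filter Topology

/-- the constants of the construction -/
structure Cs where
  (p e ζ x δ1 δ1' ε2 δ2 δΓ CL e1 e3 : ℝ)
  (k q k1 k2 g T0 M1 M2 l1 : ℕ)

namespace Cs

/-- the logarithm -/
noncomputable def ell (c : Cs) : ℝ := Real.log (1 / (1 - c.p))

/-- the constant in the size of the middle sets -/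
noncomputable def Wc (c : Cs) : ℝ := c.k2 * c.ζ + c.k * (c.CL + 1) + 1

/-- the conditions on the constants -/
structure OK (c : Cs) : Prop where
  p0 : 0 < c.p
  p1 : c.p < 1
  e0 : 0 < c.e
  e01 : c.e ≤ 1 / 10
  k0 : 1 ≤ c.k
  k10 : 1 ≤ c.k1
  g0 : 1 ≤ c.g
  ζ0 : 0 < c.ζ
  ζ1 : c.ζ * (c.p * c.ell * c.k1) = 1 + 3 / 2 * c.e
  ζ2 : c.ζ * Real.log (1 / c.p) ≤ 1 / 16
  x0 : 0 < c.x
  x1 : c.x ≤ 1
  x2 : Real.log (c.p * c.x + (1 - c.p)) = -((1 - c.e / 8) * c.ell)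
  d1 : 0 < c.δ1
  d1' : c.δ1 ≤ (1 - c.e / 4) * c.p
  d1'' : c.δ1 * (1 + 3 / 2 * c.e) * Real.log (1 / c.x) ≤ c.e / 2 * (c.p * c.ell)
  d2 : 0 < c.δ1'
  d3 : 0 < c.δ2
  g1 : 0 < c.δΓ
  g2 : c.δΓ ≤ c.δ1' / 32
  g3 : c.δΓ ≤ c.δ2 / 32
  g4 : c.δΓ ≤ c.p ^ c.k / 32
  kk2 : 2 * c.k + 1 ≤ c.p ^ c.k / 4 * (c.k2 * c.ζ)
  CL0 : 0 < c.CL
  CL1 : 1 ≤ c.CL * -Real.log (1 - c.p ^ c.k)
  ε20 : 0 < c.ε2
  ε21 : c.ε2 * (c.ell * c.Wc) = c.e
  e10 : 0 < c.e1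
  e11 : c.e1 * (6 * (c.ell * c.Wc)) = c.e
  T1 : 3 * (1 - c.p ^ c.l1) ^ c.T0 ≤ c.e1 / 2
  e30 : 0 < c.e3
  e31 : c.e3 ≤ c.e1
  e32 : c.e3 ≤ c.p ^ (c.l1 + c.k1 * (c.q * c.k)) * (1 / (8 * (c.T0 + 1))) / 4

variable (c : Cs)

/-- block size -/
noncomputable def fN (n : ℕ) : ℕ := ⌊c.ζ * Real.log n / c.g⌋₊
/-- richness of a class -/
noncomputable def fm0 (n : ℕ) : ℕ := ⌈2 * c.δΓ * (c.g * c.fN n : ℕ)⌉₊
/-- common neighbours -/
noncomputable def fbi (n : ℕ) : ℕ := c.k2 * c.fm0 n + 1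
/-- the density factor -/
noncomputable def θ : ℝ := (c.p / 2) ^ (c.q * c.k) * c.δΓ / (2 * (c.q + 1))
/-- the size of the sets in the density condition -/
noncomputable def fm1 (n : ℕ) : ℕ := ⌊c.θ * c.fN n⌋₊
/-- degree into the first part -/
noncomputable def fmt (n : ℕ) : ℕ :=
  ⌊(c.k1 : ℝ) * ((1 - c.e / 4) * (c.p * (c.g * c.fN n : ℕ)))⌋₊
/-- the number of the second kind of types -/
noncomputable def fTL (n : ℕ) : ℕ := ⌈c.CL * Real.log n⌉₊ + 1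
/-- sizes -/
noncomputable def fs0 (n : ℕ) : ℕ := ⌊1 / (8 * Real.log (1 / c.p)) * Real.log n⌋₊
/-- sizes -/
noncomputable def fs1 (n : ℕ) : ℕ := ⌈Real.sqrt n⌉₊ + 1
/-- sizes -/
noncomputable def fb1 (n : ℕ) : ℕ := ⌊c.e1 * n⌋₊
/-- sizes -/
noncomputable def fb2 (n : ℕ) : ℕ := ⌈Real.sqrt n⌉₊
/-- sizes -/
noncomputable def fb3 (n : ℕ) : ℕ := ⌊c.e3 * n⌋₊
/-- sizes -/
noncomputable def fB (n : ℕ) : ℕ := ⌊(n : ℝ) / (4 * (c.T0 + 1))⌋₊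
/-- the size of everything except the pool -/
noncomputable def frest (n : ℕ) : ℕ := c.k1 * c.g * c.fN n + (c.k2 * c.g * c.fN n +
  (c.T0 * c.fB n + c.fTL n * fb2 n))

variable {c}

theorem OK.ell0 (h : c.OK) : 0 < c.ell := by
  apply Real.log_pos
  rw [lt_div_iff₀ (by linarith [h.p1])]
  linarith [h.p0]

theorem OK.lp0 (h : c.OK) : 0 < Real.log (1 / c.p) := by
  apply Real.log_pos
  rw [lt_div_iff₀ h.p0]
  linarith [h.p1]

theorem OK.Wc1 (h : c.OK) : 1 ≤ c.Wc := by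
  unfold Wc
  have h1 := h.ζ0
  have h2 := h.CL0
  have : (0 : ℝ) ≤ c.k2 * c.ζ := by positivity
  have : (0 : ℝ) ≤ c.k * (c.CL + 1) := by positivity
  linarith

theorem OK.gpos (h : c.OK) : (0 : ℝ) < c.g := by
  have := h.g0
  exact_mod_cast this

theorem OK.N_le (h : c.OK) (n : ℕ) : ((c.g * c.fN n : ℕ) : ℝ) ≤ c.ζ * Real.log n := by
  have h1 : (c.fN n : ℝ) ≤ c.ζ * Real.log n / c.g :=
    Nat.floor_le (div_nonneg (mul_nonneg h.ζ0.le (Real.log_natCast_nonneg n)) h.gpos.le)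
  rw [le_div_iff₀ h.gpos] at h1
  push_cast
  linarith

theorem OK.N_ge (h : c.OK) (n : ℕ) : c.ζ * Real.log n - c.g ≤ ((c.g * c.fN n : ℕ) : ℝ) := by
  have h1 : c.ζ * Real.log n / c.g < c.fN n + 1 := Nat.lt_floor_add_one _
  rw [div_lt_iff₀ h.gpos] at h1
  push_cast
  linarith

theorem OK.N'_ge (_h : c.OK) (n : ℕ) : c.ζ * Real.log n / c.g - 1 ≤ (c.fN n : ℝ) := by
  have h1 : c.ζ * Real.log n / c.g < c.fN n + 1 := Nat.lt_floor_add_one _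
  linarith

theorem OK.N_top (h : c.OK) : Tendsto (fun n => ((c.g * c.fN n : ℕ) : ℝ)) atTop atTop := by
  refine tendsto_atTop_mono (h.N_ge) ?_
  exact tendsto_atTop_add_const_right _ _ (tlog.const_mul_atTop h.ζ0)

theorem OK.N'_ev (h : c.OK) (C : ℝ) : ∀ᶠ n in atTop, C ≤ (c.fN n : ℝ) := by
  have h1 : Tendsto (fun n => (c.fN n : ℝ)) atTop atTop := by
    refine tendsto_atTop_mono (h.N'_ge) ?_
    refine tendsto_atTop_add_const_right _ _ ?_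
    have := tlog.const_mul_atTop (div_pos h.ζ0 h.gpos)
    refine this.congr (fun n => by ring)
  exact h1.eventually_ge_atTop C

theorem OK.θ0 (h : c.OK) : 0 < c.θ := by
  unfold θ
  have := h.p0
  have := h.g1
  positivity

theorem OK.m1_ge (h : c.OK) : ∀ᶠ n : ℕ in atTop, c.θ * c.ζ / (2 * c.g) * Real.log n ≤ c.fm1 n := by
  have hg := h.gpos
  have hθ := h.θ0
  have hζ := h.ζ0
  filter_upwards [ev_log ((c.θ + 1) / (c.θ * c.ζ / (2 * c.g)))] with n hn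
  have h1 := h.N'_ge n
  have h2 : c.θ * c.fN n < c.fm1 n + 1 := Nat.lt_floor_add_one _
  have h3 : c.θ * (c.ζ * Real.log n / c.g - 1) ≤ c.θ * c.fN n :=
    mul_le_mul_of_nonneg_left h1 hθ.le
  have hpos : 0 < c.θ * c.ζ / (2 * c.g) := by positivity
  rw [div_le_iff₀ hpos] at hn
  have h4 : c.θ * (c.ζ * Real.log n / c.g - 1) =
      2 * (c.θ * c.ζ / (2 * c.g) * Real.log n) - c.θ := by field_simp
  linarith

theorem OK.m0_le (h : c.OK) (n : ℕ) :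
    (c.fm0 n : ℝ) ≤ 2 * c.δΓ * (c.g * c.fN n : ℕ) + 1 := by
  have := h.g1
  exact (Nat.ceil_lt_add_one (by positivity)).le

theorem OK.TL_le (h : c.OK) (n : ℕ) : (c.fTL n : ℝ) ≤ c.CL * Real.log n + 2 := by
  have h1 : (⌈c.CL * Real.log n⌉₊ : ℝ) < c.CL * Real.log n + 1 :=
    Nat.ceil_lt_add_one (mul_nonneg h.CL0.le (Real.log_natCast_nonneg n))
  unfold fTL
  push_cast
  linarith

theorem OK.TL_ge (_h : c.OK) (n : ℕ) : c.CL * Real.log n ≤ (c.fTL n : ℝ) := by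
  have h1 : c.CL * Real.log n ≤ (⌈c.CL * Real.log n⌉₊ : ℝ) := Nat.le_ceil _
  unfold fTL
  push_cast
  linarith

theorem OK.pk0 (h : c.OK) : 0 < 1 - c.p ^ c.k ∧ 1 - c.p ^ c.k < 1 := by
  have h1 : c.p ^ c.k < 1 := pow_lt_one₀ h.p0.le h.p1 (by have := h.k0; omega)
  have h2 : 0 < c.p ^ c.k := pow_pos h.p0 _
  exact ⟨by linarith, by linarith⟩

theorem OK.TL_pow (h : c.OK) : ∀ᶠ n : ℕ in atTop, (1 - c.p ^ c.k) ^ (c.fTL n) * n ≤ 1 := by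
  filter_upwards [eventually_gt_atTop 0] with n hn
  have hn' : (0 : ℝ) < n := by exact_mod_cast hn
  obtain ⟨h1, h2⟩ := h.pk0
  have h3 : Real.log (1 - c.p ^ c.k) < 0 := Real.log_neg h1 h2
  have h4 : (1 - c.p ^ c.k) ^ (c.fTL n) = Real.exp (c.fTL n * Real.log (1 - c.p ^ c.k)) := by
    rw [Real.exp_nat_mul, Real.exp_log h1]
  rw [h4, ← Real.exp_log hn', ← Real.exp_add, Real.exp_le_one_iff]
  have h5 := mul_le_mul_of_nonneg_right (h.TL_ge n) (by linarith : 0 ≤ -Real.log (1 - c.p ^ c.k))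
  have h6 := mul_le_mul_of_nonneg_right h.CL1 (Real.log_natCast_nonneg n)
  nlinarith

theorem OK.s0_le (h : c.OK) (n : ℕ) :
    (c.fs0 n : ℝ) ≤ 1 / (8 * Real.log (1 / c.p)) * Real.log n := by
  have h1 := h.lp0
  exact Nat.floor_le (mul_nonneg (by positivity) (Real.log_natCast_nonneg n))

theorem s1_le (n : ℕ) : (fs1 n : ℝ) ≤ Real.sqrt n + 2 := by
  have h1 : (⌈Real.sqrt n⌉₊ : ℝ) < Real.sqrt n + 1 := Nat.ceil_lt_add_one (Real.sqrt_nonneg _)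
  unfold fs1
  push_cast
  linarith

theorem b2_le (n : ℕ) : (fb2 n : ℝ) ≤ Real.sqrt n + 1 :=
  (Nat.ceil_lt_add_one (Real.sqrt_nonneg _)).le

theorem b2_ge (n : ℕ) : Real.sqrt n ≤ (fb2 n : ℝ) := Nat.le_ceil _

theorem OK.B_ge (_h : c.OK) :
    ∀ᶠ n : ℕ in atTop, 1 / (8 * ((c.T0 : ℝ) + 1)) * n ≤ (c.fB n : ℝ) := by
  filter_upwards [ev_n (8 * ((c.T0 : ℝ) + 1))] with n hn
  have h1 : (n : ℝ) / (4 * (c.T0 + 1)) < c.fB n + 1 := Nat.lt_floor_add_one _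
  have h2 : (n : ℝ) / (4 * (c.T0 + 1)) = 2 * (1 / (8 * ((c.T0 : ℝ) + 1)) * n) := by
    field_simp; ring
  have h3 : 1 ≤ 1 / (8 * ((c.T0 : ℝ) + 1)) * n := by
    rw [one_div, ← div_eq_inv_mul, le_div_iff₀ (by positivity)]
    linarith
  linarith

theorem OK.B_le (_h : c.OK) (n : ℕ) : (c.T0 : ℝ) * c.fB n ≤ n / 4 := by
  have h1 : (c.fB n : ℝ) ≤ (n : ℝ) / (4 * (c.T0 + 1)) := Nat.floor_le (by positivity)
  have h2 : (c.T0 : ℝ) * c.fB n ≤ c.T0 * ((n : ℝ) / (4 * (c.T0 + 1))) :=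
    mul_le_mul_of_nonneg_left h1 (Nat.cast_nonneg _)
  refine h2.trans ?_
  rw [mul_div_assoc', div_le_div_iff₀ (by positivity) (by norm_num)]
  have : (0 : ℝ) ≤ n := Nat.cast_nonneg _
  have : (0 : ℝ) ≤ c.T0 := Nat.cast_nonneg _
  nlinarith

theorem OK.rest_le (h : c.OK) : ∀ᶠ n : ℕ in atTop, (c.frest n : ℝ) ≤ n / 2 := by
  filter_upwards [ev_log_n (32 * ((c.k1 + c.k2) * c.ζ)) 1, ev_log_pow (64 * (c.CL + 2)) 1
    (a := 1 / 2) (by norm_num), ev_log 1, ev_n 1] with n h1 h2 h3 h4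
  have e1 := h.N_le n
  have e2 := h.B_le n
  have e3 := h.TL_le n
  have e4 := b2_le n
  have hs : 1 ≤ Real.sqrt n := by rwa [Real.one_le_sqrt]
  have hsq : Real.sqrt n * Real.sqrt n = n := Real.mul_self_sqrt (Nat.cast_nonneg n)
  rw [← Real.sqrt_eq_rpow, pow_one] at h2
  rw [pow_one] at h1
  have e5 : (c.fTL n : ℝ) ≤ (c.CL + 2) * Real.log n := by nlinarith
  have e6 : (c.fTL n : ℝ) * fb2 n ≤ ((c.CL + 2) * Real.log n) * (2 * Real.sqrt n) :=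
    mul_le_mul e5 (by linarith) (Nat.cast_nonneg _) (by have := h.CL0; positivity)
  have e7 : (64 * (c.CL + 2) * Real.log n) * Real.sqrt n ≤ Real.sqrt n * Real.sqrt n :=
    mul_le_mul_of_nonneg_right h2 (Real.sqrt_nonneg _)
  have e8 : (c.k1 : ℝ) * ((c.g * c.fN n : ℕ) : ℝ) ≤ c.k1 * (c.ζ * Real.log n) :=
    mul_le_mul_of_nonneg_left e1 (Nat.cast_nonneg _)
  have e9 : (c.k2 : ℝ) * ((c.g * c.fN n : ℕ) : ℝ) ≤ c.k2 * (c.ζ * Real.log n) :=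
    mul_le_mul_of_nonneg_left e1 (Nat.cast_nonneg _)
  unfold frest
  push_cast at e8 e9 ⊢
  nlinarith

end Cs

end Pool.Agent.H62.Sat
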