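import Pool.Agent.H62.Sat.Final

set_option autoImplicit false

/-! The failure probability tends to zero. -/

namespace Pool.Agent.H62.Sat

open Filter Topology

namespace Cs

variable {c : Cs}

/-- the failure bound for the constants -/
noncomputable def fail (c : Cs) (n : ℕ) : ℝ :=
  failB c.p (c.e / 2) (c.e / 4) c.x c.δ1 n n c.k c.q c.k1 c.k2 c.T0 (c.fTL n) c.g (c.fN n)
    (c.fB n) (fb2 n) (n - c.frest n : ℕ) (c.fs0 n) (fs1 n) (c.fb1 n) (fb2 n) (c.fb3 n) (c.fm1 n)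
    (c.fbi n) (c.fmt n) c.l1

theorem OK.pair_bound (h : c.OK) : ∃ C : ℝ, ∀ n : ℕ,
    ((c.k1 : ℝ) * (c.δ1 * (c.g * c.fN n : ℕ))) * Real.log (1 / c.x) +
      c.fmt n * Real.log (c.p * c.x + (1 - c.p)) ≤ C - (1 + c.e / 2) * Real.log n := by
  have hell := h.ell0
  have hlx : 0 ≤ Real.log (1 / c.x) := by
    apply Real.log_nonneg
    rw [le_div_iff₀ h.x0]
    linarith [h.x1]
  have hp := h.p0
  have he := h.e0
  have he1 := h.e01
  have hk1 : (0 : ℝ) < c.k1 := by have := h.k10; exact_mod_cast this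
  refine ⟨(1 - c.e / 8) * c.ell * (c.k1 * ((1 - c.e / 4) * (c.p * c.g)) + 1), fun n => ?_⟩
  have hlog := Real.log_natCast_nonneg n
  have hN := h.N_le n
  have hN2 := h.N_ge n
  set N : ℝ := ((c.g * c.fN n : ℕ) : ℝ) with hNdef
  -- the first term
  have h1 : (c.k1 : ℝ) * (c.δ1 * N) * Real.log (1 / c.x) ≤ c.e / 2 * Real.log n := by
    have e1 : (c.k1 : ℝ) * (c.δ1 * N) * Real.log (1 / c.x) ≤
        (c.k1 : ℝ) * (c.δ1 * (c.ζ * Real.log n)) * Real.log (1 / c.x) := by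
      apply mul_le_mul_of_nonneg_right _ hlx
      apply mul_le_mul_of_nonneg_left _ hk1.le
      exact mul_le_mul_of_nonneg_left hN h.d1.le
    refine e1.trans ?_
    have e2 : (c.p * c.ell) * ((c.k1 : ℝ) * (c.δ1 * (c.ζ * Real.log n)) * Real.log (1 / c.x)) ≤
        (c.p * c.ell) * (c.e / 2 * Real.log n) := by
      have e3 : (c.p * c.ell) * ((c.k1 : ℝ) * (c.δ1 * (c.ζ * Real.log n)) * Real.log (1 / c.x)) =
          (c.ζ * (c.p * c.ell * c.k1)) * (c.δ1 * Real.log (1 / c.x)) * Real.log n := by ring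
      rw [e3, h.ζ1]
      have e4 := mul_le_mul_of_nonneg_right h.d1'' hlog
      calc (1 + 3 / 2 * c.e) * (c.δ1 * Real.log (1 / c.x)) * Real.log n =
          c.δ1 * (1 + 3 / 2 * c.e) * Real.log (1 / c.x) * Real.log n := by ring
        _ ≤ _ := e4
        _ = _ := by ring
    exact le_of_mul_le_mul_left e2 (by positivity)
  -- the second term
  have h2 : (c.k1 : ℝ) * ((1 - c.e / 4) * (c.p * N)) - 1 ≤ c.fmt n := by
    have : (c.k1 : ℝ) * ((1 - c.e / 4) * (c.p * N)) < c.fmt n + 1 := Nat.lt_floor_add_one _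
    linarith
  have h3 : (c.k1 : ℝ) * ((1 - c.e / 4) * (c.p * (c.ζ * Real.log n - c.g))) ≤
      (c.k1 : ℝ) * ((1 - c.e / 4) * (c.p * N)) := by
    apply mul_le_mul_of_nonneg_left _ hk1.le
    apply mul_le_mul_of_nonneg_left _ (by linarith)
    exact mul_le_mul_of_nonneg_left hN2 hp.le
  rw [h.x2]
  have h4 : ((1 - c.e / 8) * c.ell) * ((c.k1 : ℝ) * ((1 - c.e / 4) *
      (c.p * (c.ζ * Real.log n - c.g))) - 1) ≤ ((1 - c.e / 8) * c.ell) * c.fmt n := by
    apply mul_le_mul_of_nonneg_left _ (mul_nonneg (by linarith) hell.le)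
    linarith
  have h5 : ((1 - c.e / 8) * c.ell) * ((c.k1 : ℝ) * ((1 - c.e / 4) *
      (c.p * (c.ζ * Real.log n - c.g))) - 1) =
      (1 - c.e / 8) * (1 - c.e / 4) * (c.ζ * (c.p * c.ell * c.k1)) * Real.log n -
        (1 - c.e / 8) * c.ell * (c.k1 * ((1 - c.e / 4) * (c.p * c.g)) + 1) := by ring
  rw [h5, h.ζ1] at h4
  have h6 : 1 + c.e ≤ (1 - c.e / 8) * (1 - c.e / 4) * (1 + 3 / 2 * c.e) := by
    nlinarith [mul_nonneg he.le he.le, mul_nonneg (mul_nonneg he.le he.le) he.le]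
  have h7 := mul_le_mul_of_nonneg_right h6 hlog
  linarith

theorem OK.fail_lim (h : c.OK) : Tendsto c.fail atTop (𝓝 0) := by
  have hp := h.p0
  have hp1 := h.p1
  have he := h.e0
  have he1 := h.e01
  have hlp := h.lp0
  have hζ := h.ζ0
  -- the terms
  have t1 : Tendsto (fun n : ℕ => (n : ℝ) * Real.exp (-((c.e / 2) ^ 2 * (c.p * ((n : ℝ) - 1)))))
      atTop (𝓝 0) := by
    refine (lim_deg (c := (c.e / 2) ^ 2 * c.p) (by positivity)).congr (fun n => ?_)
    rw [mul_assoc]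
  have t2 : Tendsto (fun n : ℕ => fR c.p n (c.fs0 n) (fs1 n) (n - c.frest n : ℕ)) atTop (𝓝 0) := by
    refine lim_common (a := 1 / (8 * Real.log (1 / c.p))) hp hp1 (by positivity) ?_ c.fs0 fs1
      (fun n => (n - c.frest n : ℕ)) (Eventually.of_forall h.s0_le)
      (Eventually.of_forall s1_le) ?_
    · apply le_of_eq
      field_simp
    · filter_upwards [h.rest_le] with n hn
      have h1 : n ≤ (n - c.frest n : ℕ) + c.frest n := by omega
      have h2 : (n : ℝ) ≤ (n - c.frest n : ℕ) + c.frest n := by exact_mod_cast h1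
      linarith
  have t3 : Tendsto (fun n : ℕ => fT c.p n c.T0 c.l1 (c.fb1 n + 1)) atTop (𝓝 0) := by
    refine lim_typM c.T0 c.l1 c.e1 h.e10 h.T1 (fun n => c.fb1 n + 1) ?_
    refine Eventually.of_forall (fun n => ?_)
    push_cast
    exact (Nat.lt_floor_add_one _).le
  have t4 : Tendsto (fun n : ℕ => fT c.p n (c.fTL n) c.k (fb2 n + 1)) atTop (𝓝 0) := by
    refine lim_typL c.k c.CL c.fTL (fun n => fb2 n + 1) (Eventually.of_forall h.TL_le) h.TL_pow ?_
    refine Eventually.of_forall (fun n => ?_)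
    push_cast
    linarith [b2_ge n]
  have t5 : Tendsto (fun n : ℕ => (c.T0 : ℝ) * fR c.p n (c.l1 + c.k1 * (c.q * c.k))
      (c.fb3 n + c.k + 1) (c.fB n)) atTop (𝓝 0) := by
    have := lim_richM hp hp1 (c.l1 + c.k1 * (c.q * c.k)) (c.k + 1) c.e3
      (1 / (8 * ((c.T0 : ℝ) + 1))) (by positivity) h.e32 (fun n => c.fb3 n + c.k + 1)
      (fun n => (c.fB n : ℝ)) (Eventually.of_forall (fun n => ?_)) h.B_ge
    · simpa using this.const_mul (c.T0 : ℝ)
    · have h1 : (c.fb3 n : ℝ) ≤ c.e3 * n := Nat.floor_le (mul_nonneg h.e30.le (Nat.cast_nonneg _))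
      push_cast
      linarith
  have t6 : Tendsto (fun n : ℕ => (c.fTL n : ℝ) * fR c.p n (c.k + c.k1 * (c.q * c.k))
      (c.k + 1) (fb2 n)) atTop (𝓝 0) := by
    refine lim_richL hp hp1 (c.k + c.k1 * (c.q * c.k)) (c.k + 1) (fun n => (fb2 n : ℝ)) c.fTL
      ?_ (Eventually.of_forall b2_ge)
    filter_upwards [ev_log_n (c.CL + 2) 1, ev_log 1] with n h1 h2
    rw [pow_one] at h1
    have := h.TL_le n
    nlinarith
  have t7 : Tendsto (fun n : ℕ => (1 / 4 : ℝ) ^ (c.fb3 n + 1) * Real.exp (3 * (c.k1 *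
      Real.exp (-((c.e / 4) ^ 2 / 2 * (c.p * (c.g * c.fN n : ℕ))))) * n)) atTop (𝓝 0) := by
    refine (lim_nrm (c := (c.e / 4) ^ 2 / 2 * c.p) (e3 := c.e3) (by positivity) h.e30 c.k1
      (fun n => c.g * c.fN n) (fun n => c.fb3 n + 1) h.N_top
      (Eventually.of_forall (fun n => ?_))).congr (fun n => ?_)
    · push_cast
      exact (Nat.lt_floor_add_one _).le
    · rw [mul_assoc ((c.e / 4) ^ 2 / 2)]
  have t8 : Tendsto (fun n : ℕ => (n : ℝ) ^ 2 * (Real.exp ((c.k1 * (c.δ1 * (c.g * c.fN n : ℕ))) *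
      Real.log (1 / c.x)) * (c.p * c.x + (1 - c.p)) ^ (c.fmt n)) / n) atTop (𝓝 0) := by
    obtain ⟨C, hC⟩ := h.pair_bound
    exact lim_pair (e := c.e / 2) (C := C) (by positivity)
      (fun n => c.k1 * (c.δ1 * (c.g * c.fN n : ℕ))) c.fmt
      (by have := mul_pos hp h.x0; linarith) (Eventually.of_forall hC)
  have t9 : Tendsto (fun n : ℕ => ((c.k1 : ℝ) + c.k2) * (4 ^ (c.g * c.fN n) *
      Real.exp (-(c.p / 8 * (c.fm1 n : ℝ) ^ 2)))) atTop (𝓝 0) := by
    have hg := h.gpos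
    have hθ := h.θ0
    exact lim_dens hp (c := c.θ * c.ζ / (2 * c.g)) (C := c.ζ) (by positivity) _
      (fun n => c.g * c.fN n) c.fm1 (Eventually.of_forall h.N_le) h.m1_ge
  have t10 : Tendsto (fun n : ℕ => fR c.p n c.k (c.fbi n) (c.k2 * (c.g * c.fN n) : ℕ)) atTop
      (𝓝 0) := by
    refine lim_P2 hp hp1 c.k c.fbi (fun n => ((c.k2 * (c.g * c.fN n) : ℕ) : ℝ))
      ((c.k2 : ℝ) * c.g + c.k2 + 1) (c.k2 * c.ζ) (Eventually.of_forall (fun n => ?_)) h.kk2
      (Eventually.of_forall (fun n => ?_))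
    · have h1 := h.m0_le n
      have h2 : c.δΓ ≤ c.p ^ c.k / 8 := by
        have := h.g4
        have : 0 < c.p ^ c.k := pow_pos hp _
        linarith
      have h3 : (c.k2 : ℝ) * c.fm0 n ≤ c.k2 * (2 * c.δΓ * (c.g * c.fN n : ℕ) + 1) :=
        mul_le_mul_of_nonneg_left h1 (Nat.cast_nonneg _)
      have h4 : c.δΓ * ((c.k2 : ℝ) * (c.g * c.fN n : ℕ)) ≤
          c.p ^ c.k / 8 * ((c.k2 : ℝ) * (c.g * c.fN n : ℕ)) :=
        mul_le_mul_of_nonneg_right h2 (by positivity)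
      have h5 : (0 : ℝ) ≤ c.k2 * c.g := by positivity
      unfold fbi
      push_cast at h3 h4 ⊢
      linarith
    · have h1 := mul_le_mul_of_nonneg_left (h.N_ge n) (Nat.cast_nonneg c.k2 : (0 : ℝ) ≤ c.k2)
      have h2 : (0 : ℝ) ≤ c.k2 := Nat.cast_nonneg _
      push_cast at h1 ⊢
      linarith
  have := ((((((((t1.add t2).add t3).add t4).add t5).add t6).add t7).add t8).add t9).add t10
  simp only [add_zero] at this
  exact this

end Cs

end Pool.Agent.H62.Sat
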