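import Pool.Agent.H62.Sat.Final2

set_option autoImplicit false

/-! The conditions on the parameters hold for large `n`, and the bound for the number of edges. -/

namespace Pool.Agent.H62.Sat

open Filter Topology

namespace Cs

variable {c : Cs}

/-- the parameters for `n` -/
noncomputable def par (c : Cs) (n : ℕ) : Par where
  N' := c.fN n
  s0 := c.fs0 n
  s1 := fs1 n
  b1 := c.fb1 n
  b2 := fb2 n
  b3 := c.fb3 n
  m0 := c.fm0 n
  m1 := c.fm1 n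
  bi := c.fbi n
  mt := c.fmt n
  p := c.p
  δ1 := c.δ1
  ε' := c.e / 2
  ε'' := c.e / 4
  Q := n

theorem OK.big (h : c.OK) : ∀ᶠ n : ℕ in atTop,
    (c.q * c.fm1 n + c.q * c.k + c.fm1 n + 1 : ℝ) ≤
      (c.p / 2) ^ (c.q * c.k) * (c.δΓ * c.fN n) := by
  have hp := h.p0
  have hg := h.g1
  have hpos : 0 < (c.p / 2) ^ (c.q * c.k) * c.δΓ := by positivity
  filter_upwards [h.N'_ev ((c.q * c.k + 1) * 2 / ((c.p / 2) ^ (c.q * c.k) * c.δΓ))] with n hn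
  rw [div_le_iff₀ hpos] at hn
  have hθ := h.θ0
  have h1 : (c.fm1 n : ℝ) ≤ c.θ * c.fN n := Nat.floor_le (by positivity)
  have hq : (0 : ℝ) < c.q + 1 := by positivity
  have h2 : (c.q + 1 : ℝ) * c.fm1 n ≤ (c.q + 1) * (c.θ * c.fN n) :=
    mul_le_mul_of_nonneg_left h1 hq.le
  have h3 : (c.q + 1 : ℝ) * (c.θ * c.fN n) =
      (c.p / 2) ^ (c.q * c.k) * c.δΓ * c.fN n / 2 := by
    unfold θ
    field_simp
  linarith

theorem OK.s0_ge (h : c.OK) (C : ℝ) : ∀ᶠ n : ℕ in atTop,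
    C ≤ c.fs0 n ∧ c.ζ * Real.log n ≤ c.fs0 n := by
  have hlp := h.lp0
  filter_upwards [ev_log (16 * Real.log (1 / c.p)), ev_log ((C + 1) * (8 * Real.log (1 / c.p)))]
    with n h1 h2
  have h3 : 1 / (8 * Real.log (1 / c.p)) * Real.log n < c.fs0 n + 1 := Nat.lt_floor_add_one _
  have h4 : C + 1 ≤ 1 / (8 * Real.log (1 / c.p)) * Real.log n := by
    rw [one_div, ← div_eq_inv_mul, le_div_iff₀ (by positivity)]
    exact h2
  have h5 : c.ζ * Real.log n + 1 ≤ 1 / (8 * Real.log (1 / c.p)) * Real.log n := by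
    rw [one_div, ← div_eq_inv_mul, le_div_iff₀ (by positivity)]
    have h6 := mul_le_mul_of_nonneg_right h.ζ2 (Real.log_natCast_nonneg n)
    nlinarith
  exact ⟨by linarith, by linarith⟩

theorem OK.m0_small (h : c.OK) {δ : ℝ} (hδ : 0 < δ) (hd : c.δΓ ≤ δ / 32) :
    ∀ᶠ n : ℕ in atTop, (c.fm0 n : ℝ) ≤ δ * (c.g * c.fN n : ℕ) := by
  filter_upwards [h.N_top.eventually_ge_atTop (2 / δ)] with n hn
  rw [div_le_iff₀ hδ] at hn
  have h1 := h.m0_le n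
  have h2 := mul_le_mul_of_nonneg_right hd (Nat.cast_nonneg (c.g * c.fN n) : (0 : ℝ) ≤ _)
  linarith

theorem OK.parOK (h : c.OK) (Γ : Type) [Fintype Γ] (hΓ : Fintype.card Γ = c.g)
    (hI1 : InterMP c.δ1 (Fin c.k1) c.k c.M1 c.δ1') (hI2 : InterP c.ε2 c.k c.M2 c.δ2) :
    ∀ᶠ n : ℕ in atTop, ParOK c.k c.q n (Fin c.k1) (Fin c.k2) (Fin c.T0) (Fin (c.fTL n)) Γ
      (c.par n) c.δΓ c.δ1' c.ε2 c.δ2 c.M1 c.M2 (c.fTL n * fb2 n) := by
  filter_upwards [h.big, h.s0_ge ((c.T0 * (c.q * c.k) : ℕ)), h.N'_ev 1, h.m0_small h.d2 h.g2,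
    h.m0_small h.d3 h.g3, ev_log (1 / (c.CL * c.δ2)),
    ev_log_sqrt (c.T0 * (c.k1 * c.k) + c.T0 * (c.k2 * c.k) + (c.CL + 2) * c.k +
      c.T0 * (c.q * c.k)) 1, ev_log 1] with n h1 h2 h3 h4 h5 h6 h7 h8
  have hCL := h.CL0
  have hd3 := h.d3
  refine ⟨?_, h.p0.le, h.p1.le, h1, ?_, ?_, ?_, ?_, ?_, ?_, ?_, h.d1', ?_, h.ε20.le, hI1, hI2,
    ?_, ?_, ?_⟩
  · have : (0 : ℝ) < c.fN n := by linarith
    exact_mod_cast this
  · rw [hΓ]
    have h9 : 2 * c.δΓ * ((c.g * c.fN n : ℕ) : ℝ) ≤ (c.fm0 n : ℝ) := Nat.le_ceil _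
    rw [Nat.cast_mul] at h9
    exact h9
  · rw [hΓ]
    have := (h.N_le n).trans h2.2
    exact_mod_cast this
  · simp only [Fintype.card_prod, Fintype.card_fin]
    have := h2.1
    exact_mod_cast this
  · simp only [Fintype.card_prod, Fintype.card_fin, Fintype.card_sum]
    have e1 := h.TL_le n
    have e2 : (c.fTL n : ℝ) ≤ (c.CL + 2) * Real.log n := by nlinarith
    have e3 : (c.fTL n : ℝ) * c.k ≤ (c.CL + 2) * Real.log n * c.k :=
      mul_le_mul_of_nonneg_right e2 (Nat.cast_nonneg _)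
    have e4 : (c.T0 * (c.k1 * c.k) + c.T0 * (c.k2 * c.k) + c.T0 * (c.q * c.k) : ℝ) * 1 ≤
        (c.T0 * (c.k1 * c.k) + c.T0 * (c.k2 * c.k) + c.T0 * (c.q * c.k) : ℝ) * Real.log n :=
      mul_le_mul_of_nonneg_left h8 (by positivity)
    rw [pow_one] at h7
    have e5 : ((c.T0 * (c.k1 * c.k) + (c.T0 * (c.k2 * c.k) + c.fTL n * c.k) +
        c.T0 * (c.q * c.k) : ℕ) : ℝ) ≤ (⌈Real.sqrt n⌉₊ : ℝ) := by
      refine le_trans ?_ (Nat.le_ceil _)
      push_cast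
      linarith
    have e6 : (c.T0 * (c.k1 * c.k) + (c.T0 * (c.k2 * c.k) + c.fTL n * c.k) +
        c.T0 * (c.q * c.k) : ℕ) ≤ ⌈Real.sqrt n⌉₊ := by exact_mod_cast e5
    exact e6.trans (Nat.le_succ _)
  · exact Nat.le_add_left _ _
  · rw [Fintype.card_fin]
    exact Nat.le_succ _
  · exact Nat.le_add_left _ _
  · rw [hΓ, Fintype.card_fin]
    refine Nat.floor_le ?_
    have := h.e01
    have := h.p0
    have : 0 ≤ 1 - c.e / 4 := by linarith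
    positivity
  · rw [hΓ]; exact h4
  · rw [hΓ]; exact h5
  · rw [Fintype.card_fin]
    have e1 := h.TL_ge n
    rw [div_le_iff₀ (by positivity)] at h6
    have e2 : 1 ≤ c.δ2 * c.fTL n := by
      have := mul_le_mul_of_nonneg_left e1 hd3.le
      linarith
    have e3 := mul_le_mul_of_nonneg_right e2 (Nat.cast_nonneg c.k : (0 : ℝ) ≤ c.k)
    push_cast
    linarith

/-- the bound for the number of edges -/
noncomputable def edges (c : Cs) (n : ℕ) : ℝ :=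
  (c.k1 * (c.g * c.fN n : ℕ) : ℝ) * ((1 + 2 * (c.e / 2)) * (c.p * ((n : ℝ) - 1))) +
        (c.T0 * (c.q * c.k) + (c.T0 * (c.k1 * c.k) + c.T0 * (c.k2 * c.k)) : ℕ) * (n : ℝ) +
        (c.k2 * (c.g * c.fN n) + c.fTL n * c.k : ℕ) *
          ((c.k2 * (c.g * c.fN n) + c.fTL n * c.k : ℕ) +
            (c.fb1 n + c.fb3 n + c.fTL n * fb2 n : ℕ) : ℝ) +
        (c.k2 * (n * (c.ε2 * (c.g * c.fN n : ℕ)) +
          c.T0 * c.M2 * (c.g * c.fN n : ℕ))) +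
        (n * (c.ε2 * (c.fTL n * c.k : ℕ)) +
          c.T0 * c.M2 * (c.fTL n * c.k : ℕ)) +
        (n * (c.T0 * (c.k1 * c.M1)) + n) +
        (c.fb1 n + c.fb3 n + c.fTL n * fb2 n : ℕ) * (c.fTL n * c.k : ℝ) +
        (fb2 n : ℝ) ^ 2

theorem OK.w_le (h : c.OK) : ∀ᶠ n : ℕ in atTop,
    ((c.k2 * (c.g * c.fN n) + c.fTL n * c.k : ℕ) : ℝ) ≤ c.Wc * Real.log n := by
  filter_upwards [ev_log 2] with n hn
  have h1 := mul_le_mul_of_nonneg_left (h.N_le n) (Nat.cast_nonneg c.k2 : (0 : ℝ) ≤ c.k2)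
  have h2 := h.TL_le n
  have h3 : (c.fTL n : ℝ) ≤ (c.CL + 1) * Real.log n := by linarith
  have h4 := mul_le_mul_of_nonneg_right h3 (Nat.cast_nonneg c.k : (0 : ℝ) ≤ c.k)
  unfold Wc
  push_cast at h1 ⊢
  linarith

theorem OK.bt_le (h : c.OK) : ∀ᶠ n : ℕ in atTop,
    ((c.fb1 n + c.fb3 n + c.fTL n * fb2 n : ℕ) : ℝ) ≤ 3 * c.e1 * n := by
  have he1 := h.e10
  filter_upwards [ev_log_sqrt (2 * (c.CL + 2) / c.e1) 1, ev_log 1, ev_n 1] with n h1 h2 h3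
  rw [pow_one] at h1
  have hs : 1 ≤ Real.sqrt n := by rwa [Real.one_le_sqrt]
  have hsq : Real.sqrt n * Real.sqrt n = n := Real.mul_self_sqrt (Nat.cast_nonneg n)
  have e1 : (c.fb1 n : ℝ) ≤ c.e1 * n := Nat.floor_le (by positivity)
  have e3 : (c.fb3 n : ℝ) ≤ c.e3 * n :=
    Nat.floor_le (mul_nonneg h.e30.le (Nat.cast_nonneg _))
  have e3' : c.e3 * n ≤ c.e1 * n := mul_le_mul_of_nonneg_right h.e31 (Nat.cast_nonneg _)
  have e4 := h.TL_le n
  have hCL := h.CL0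
  have e5 : (c.fTL n : ℝ) ≤ (c.CL + 2) * Real.log n := by nlinarith
  have e6 : (c.fTL n : ℝ) * fb2 n ≤ ((c.CL + 2) * Real.log n) * (2 * Real.sqrt n) :=
    mul_le_mul e5 (by linarith [b2_le n]) (Nat.cast_nonneg _) (by positivity)
  have e7 : c.e1 * ((2 * (c.CL + 2) / c.e1 * Real.log n) * Real.sqrt n) ≤
      c.e1 * (Real.sqrt n * Real.sqrt n) :=
    mul_le_mul_of_nonneg_left (mul_le_mul_of_nonneg_right h1 (Real.sqrt_nonneg _)) he1.le
  have e8 : c.e1 * ((2 * (c.CL + 2) / c.e1 * Real.log n) * Real.sqrt n) =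
      ((c.CL + 2) * Real.log n) * (2 * Real.sqrt n) := by field_simp
  rw [hsq] at e7
  push_cast
  linarith

theorem OK.edges_le (h : c.OK) : ∀ᶠ n : ℕ in atTop,
    c.edges n ≤ (1 + 6 * c.e) * (n * Real.logb (1 / (1 - c.p)) n) := by
  have hell := h.ell0
  have he := h.e0
  have he01 := h.e01
  have hW := h.Wc1
  have hε2 := h.ε20
  have he1 := h.e10
  have hp := h.p0
  -- the constants of the smaller terms
  set K1 : ℝ := (c.T0 * (c.q * c.k) + (c.T0 * (c.k1 * c.k) + c.T0 * (c.k2 * c.k)) : ℕ) +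
    c.T0 * (c.k1 * c.M1) + 5 with hK1
  set K2 : ℝ := c.Wc ^ 2 + c.T0 * c.M2 * c.Wc with hK2
  have hK1pos : 0 ≤ K1 := by positivity
  have hK2pos : 0 ≤ K2 := by positivity
  filter_upwards [h.w_le, h.bt_le, ev_n 1, ev_log 1, ev_log (2 * K1 / (c.e / c.ell)),
    ev_log_n (2 * K2 / (c.e / c.ell)) 1] with n h1 h2 h3 h4 h5 h6
  have hec : 0 < c.e / c.ell := by positivity
  rw [pow_one] at h6
  rw [div_le_iff₀ hec] at h5
  set y := Real.log n with hy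
  have hn0 : (0 : ℝ) ≤ n := Nat.cast_nonneg _
  set N : ℝ := ((c.g * c.fN n : ℕ) : ℝ) with hN
  set w : ℝ := ((c.k2 * (c.g * c.fN n) + c.fTL n * c.k : ℕ) : ℝ) with hw
  set Bt : ℝ := ((c.fb1 n + c.fb3 n + c.fTL n * fb2 n : ℕ) : ℝ) with hBt
  have hw' : w = c.k2 * N + ((c.fTL n * c.k : ℕ) : ℝ) := by
    rw [hw, hN]; push_cast; ring
  have hwnn : 0 ≤ w := Nat.cast_nonneg _
  have hBnn : 0 ≤ Bt := Nat.cast_nonneg _
  have hTLk : ((c.fTL n * c.k : ℕ) : ℝ) ≤ w := by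
    rw [hw']
    have : (0 : ℝ) ≤ c.k2 * N := by positivity
    linarith
  have hTLk' : ((c.fTL n * c.k : ℕ) : ℝ) = (c.fTL n : ℝ) * c.k := by push_cast; ring
  -- the main term
  have t1 : (c.k1 * N : ℝ) * ((1 + 2 * (c.e / 2)) * (c.p * ((n : ℝ) - 1))) ≤
      (1 + 3 * c.e) * (n * y / c.ell) := by
    have e1 : (c.k1 * N : ℝ) ≤ c.k1 * (c.ζ * y) :=
      mul_le_mul_of_nonneg_left (h.N_le n) (Nat.cast_nonneg _)
    have e2 : (1 + 2 * (c.e / 2)) * (c.p * ((n : ℝ) - 1)) ≤ (1 + c.e) * (c.p * n) := by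
      have : 0 ≤ (1 + c.e) * c.p := by positivity
      nlinarith
    have hζ := h.ζ0
    have e3 : (c.k1 * N : ℝ) * ((1 + 2 * (c.e / 2)) * (c.p * ((n : ℝ) - 1))) ≤
        (c.k1 * (c.ζ * y)) * ((1 + c.e) * (c.p * n)) :=
      mul_le_mul e1 e2 (by
        have : 0 ≤ (n : ℝ) - 1 := by linarith
        positivity) (by positivity)
    have e4 : (c.k1 * (c.ζ * y)) * ((1 + c.e) * (c.p * n)) =
        (c.ζ * (c.p * c.ell * c.k1)) * (1 + c.e) * (n * y / c.ell) := by field_simp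
    rw [e4, h.ζ1] at e3
    have e5 : (1 + 3 / 2 * c.e) * (1 + c.e) ≤ 1 + 3 * c.e := by nlinarith
    exact e3.trans (mul_le_mul_of_nonneg_right e5 (by positivity))
  have t3 : w * (w + Bt) ≤ c.Wc ^ 2 * y ^ 2 + c.Wc * y * (3 * c.e1 * n) := by
    have e1 : w * w ≤ (c.Wc * y) * (c.Wc * y) := mul_le_mul h1 h1 hwnn (by positivity)
    have e2 : w * Bt ≤ (c.Wc * y) * (3 * c.e1 * n) := mul_le_mul h1 h2 hBnn (by positivity)
    nlinarith
  have t45 : (c.k2 * (n * (c.ε2 * N) + c.T0 * c.M2 * N)) +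
        (n * (c.ε2 * (c.fTL n * c.k : ℕ)) + c.T0 * c.M2 * (c.fTL n * c.k : ℕ)) ≤
      n * (c.ε2 * (c.Wc * y)) + c.T0 * c.M2 * (c.Wc * y) := by
    have e1 : (c.k2 * (n * (c.ε2 * N) + c.T0 * c.M2 * N)) +
        (n * (c.ε2 * (c.fTL n * c.k : ℕ)) + c.T0 * c.M2 * (c.fTL n * c.k : ℕ)) =
        n * (c.ε2 * w) + c.T0 * c.M2 * w := by rw [hw']; ring
    rw [e1]
    apply add_le_add
    · exact mul_le_mul_of_nonneg_left (mul_le_mul_of_nonneg_left h1 hε2.le) hn0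
    · exact mul_le_mul_of_nonneg_left h1 (by positivity)
  have t7 : Bt * (c.fTL n * c.k : ℝ) ≤ 3 * c.e1 * n * (c.Wc * y) := by
    rw [← hTLk']
    exact mul_le_mul h2 (hTLk.trans h1) (Nat.cast_nonneg _) (by positivity)
  have t8 : (fb2 n : ℝ) ^ 2 ≤ 4 * n := by
    have hs : 1 ≤ Real.sqrt n := by rwa [Real.one_le_sqrt]
    have hsq : Real.sqrt n * Real.sqrt n = n := Real.mul_self_sqrt (Nat.cast_nonneg n)
    have := b2_le n
    have e1 : (fb2 n : ℝ) ^ 2 ≤ (2 * Real.sqrt n) ^ 2 :=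
      pow_le_pow_left₀ (Nat.cast_nonneg _) (by linarith) 2
    nlinarith
  -- small terms
  have s1 : c.Wc * y * (3 * c.e1 * n) + 3 * c.e1 * n * (c.Wc * y) = c.e * (n * y / c.ell) := by
    rw [← h.e11]; field_simp; ring
  have s2 : n * (c.ε2 * (c.Wc * y)) = c.e * (n * y / c.ell) := by
    rw [← h.ε21]; field_simp
  have s3 : K1 * n ≤ c.e / 2 * (n * y / c.ell) := by
    have := mul_le_mul_of_nonneg_right h5 hn0
    have e1 : y * (c.e / c.ell) * n = c.e * (n * y / c.ell) := by ring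
    rw [e1] at this
    linarith
  have s4 : K2 * y ^ 2 ≤ c.e / 2 * (n * y / c.ell) := by
    have e0 := mul_le_mul_of_nonneg_right h6 (by positivity : 0 ≤ y * (c.e / c.ell))
    have e1 : 2 * K2 / (c.e / c.ell) * y * (y * (c.e / c.ell)) = 2 * K2 * y ^ 2 := by
      field_simp
    have e2 : (n : ℝ) * (y * (c.e / c.ell)) = c.e * (n * y / c.ell) := by ring
    rw [e1, e2] at e0
    linarith
  have s5 : c.Wc ^ 2 * y ^ 2 + c.T0 * c.M2 * (c.Wc * y) ≤ K2 * y ^ 2 := by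
    have e1 : y ≤ y ^ 2 := by nlinarith
    have e2 : (c.T0 * c.M2 * c.Wc : ℝ) * y ≤ (c.T0 * c.M2 * c.Wc) * y ^ 2 :=
      mul_le_mul_of_nonneg_left e1 (by positivity)
    rw [hK2]
    nlinarith
  have hlogb : Real.logb (1 / (1 - c.p)) n = y / c.ell := rfl
  rw [hlogb]
  have hfin : (1 + 6 * c.e) * (n * (y / c.ell)) = (1 + 3 * c.e) * (n * y / c.ell) +
      3 * (c.e * (n * y / c.ell)) := by ring
  rw [hfin]
  unfold edges
  rw [← hN, ← hw, ← hBt]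
  have s6 : ((c.T0 * (c.q * c.k) + (c.T0 * (c.k1 * c.k) + c.T0 * (c.k2 * c.k)) : ℕ) : ℝ) *
      (n : ℝ) + (n * (c.T0 * (c.k1 * c.M1)) + n) + 4 * n = K1 * n := by rw [hK1]; ring
  linarith

end Cs

end Pool.Agent.H62.Sat
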