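import Mathlib

set_option autoImplicit false

/-! A finite graph all of whose small subgraphs are `q`-colourable and all of whose dense sets
contain a complete graph on `q` vertices. -/

namespace Pool.Agent.H62.Sat

open Finset

section variance

variable {Ω : Type} [Fintype Ω] [Nonempty Ω]

/-- the mean of a function -/
noncomputable def mean {X : Type} [Fintype X] (f : X → ℝ) : ℝ := (∑ x, f x) / Fintype.card X

theorem sum_sq_shift {X : Type} [Fintype X] [Nonempty X] (f : X → ℝ) (c : ℝ) :
    ∑ x, (f x - c) ^ 2 = ∑ x, (f x - mean f) ^ 2 + Fintype.card X * (mean f - c) ^ 2 := by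
  have hn : (Fintype.card X : ℝ) ≠ 0 := by
    have : Fintype.card X ≠ 0 := Fintype.card_ne_zero
    exact_mod_cast this
  have h1 : ∑ x, f x = Fintype.card X * mean f := by
    rw [mean]; field_simp
  have h2 : ∀ c : ℝ, ∑ x, (f x - c) ^ 2 = ∑ x, f x ^ 2 - 2 * c * ∑ x, f x +
      Fintype.card X * c ^ 2 := by
    intro c
    have : ∀ x, (f x - c) ^ 2 = f x ^ 2 - 2 * c * f x + c ^ 2 := fun x => by ring
    simp_rw [this]
    rw [sum_add_distrib, sum_sub_distrib, ← mul_sum, sum_const, card_univ, nsmul_eq_mul]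
  rw [h2, h2, h1]
  ring

theorem variance_le (d : ℕ) (f : (Fin d → Ω) → ℝ)
    (hf : ∀ x i v, |f (Function.update x i v) - f x| ≤ 1) :
    ∑ x, (f x - mean f) ^ 2 ≤ d * (Fintype.card Ω : ℝ) ^ d := by
  classical
  induction d with
  | zero =>
    have : ∀ x : Fin 0 → Ω, f x = mean f := by
      intro x
      rw [mean]
      have h1 : ∀ y : Fin 0 → Ω, f y = f x := fun y => by rw [Subsingleton.elim y x]
      simp [h1]
    simp [this]
  | succ d ih =>
    have hcard : ∀ d : ℕ, (Fintype.card (Fin d → Ω) : ℝ) = (Fintype.card Ω : ℝ) ^ d := by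
      intro d; simp
    have hpos : (0 : ℝ) < Fintype.card Ω := by
      have : 0 < Fintype.card Ω := Fintype.card_pos
      exact_mod_cast this
    let g : Ω → (Fin d → Ω) → ℝ := fun a x => f (Fin.cons a x)
    have hsum : ∀ h : (Fin (d + 1) → Ω) → ℝ, ∑ x, h x = ∑ a : Ω, ∑ x : Fin d → Ω, h (Fin.cons a x) := by
      intro h
      rw [← Fintype.sum_prod_type']
      exact (Fintype.sum_equiv (Fin.consEquiv (fun _ => Ω)) _ _ (fun x => rfl)).symm
    have hg : ∀ a, ∑ x, (g a x - mean (g a)) ^ 2 ≤ d * (Fintype.card Ω : ℝ) ^ d := by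
      intro a
      apply ih
      intro x i v
      have := hf (Fin.cons a x) i.succ v
      rwa [← Fin.cons_update] at this
    have hmean : mean f = mean (fun a => mean (g a)) := by
      simp only [mean]
      rw [hsum, ← sum_div, hcard, hcard, pow_succ, div_div]
    have hdiff : ∀ a b, |mean (g a) - mean (g b)| ≤ 1 := by
      intro a b
      simp only [mean]
      rw [← sub_div, ← sum_sub_distrib, abs_div, hcard]
      have hc : (0 : ℝ) < (Fintype.card Ω : ℝ) ^ d := by positivity
      rw [abs_of_pos hc, div_le_one hc]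
      calc |∑ x, (g a x - g b x)| ≤ ∑ x, |g a x - g b x| := abs_sum_le_sum_abs _ _
        _ ≤ ∑ _x : Fin d → Ω, (1 : ℝ) := by
            apply sum_le_sum
            intro x _
            have := hf (Fin.cons b x) 0 a
            rwa [Fin.update_cons_zero] at this
        _ = (Fintype.card Ω : ℝ) ^ d := by rw [sum_const, card_univ, nsmul_eq_mul, mul_one, hcard]
    have hdiff2 : ∀ a, (mean (g a) - mean f) ^ 2 ≤ 1 := by
      intro a
      rw [sq_le_one_iff_abs_le_one, hmean]
      have h1 : mean (g a) - mean (fun a => mean (g a)) =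
          (∑ b, (mean (g a) - mean (g b))) / Fintype.card Ω := by
        rw [sum_sub_distrib, sum_const, card_univ, nsmul_eq_mul, mean]
        field_simp
        rw [mean]
        field_simp
      rw [h1, abs_div, abs_of_pos hpos, div_le_one hpos]
      calc |∑ b, (mean (g a) - mean (g b))| ≤ ∑ b, |mean (g a) - mean (g b)| :=
            abs_sum_le_sum_abs _ _
        _ ≤ ∑ _b : Ω, (1 : ℝ) := sum_le_sum (fun b _ => hdiff a b)
        _ = Fintype.card Ω := by simp
    rw [hsum]
    calc ∑ a, ∑ x, (f (Fin.cons a x) - mean f) ^ 2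
        = ∑ a, (∑ x, (g a x - mean (g a)) ^ 2 + Fintype.card (Fin d → Ω) *
            (mean (g a) - mean f) ^ 2) := by
          apply sum_congr rfl
          intro a _
          exact sum_sq_shift (g a) (mean f)
      _ ≤ ∑ _a : Ω, (d * (Fintype.card Ω : ℝ) ^ d + (Fintype.card Ω : ℝ) ^ d * 1) := by
          apply sum_le_sum
          intro a _
          rw [hcard]
          exact add_le_add (hg a) (mul_le_mul_of_nonneg_left (hdiff2 a) (by positivity))
      _ = ((d + 1 : ℕ) : ℝ) * (Fintype.card Ω : ℝ) ^ (d + 1) := by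
          rw [sum_const, card_univ, nsmul_eq_mul]
          push_cast
          ring

end variance

section dist

variable {Ω : Type} [Fintype Ω] [Nonempty Ω] [DecidableEq Ω]

/-- the distance to a set -/
noncomputable def dset {d : ℕ} (A : Finset (Fin d → Ω)) (hA : A.Nonempty) (y : Fin d → Ω) : ℕ :=
  A.inf' hA (fun x => hammingDist x y)

theorem dset_update {d : ℕ} (A : Finset (Fin d → Ω)) (hA : A.Nonempty) (y : Fin d → Ω)
    (i : Fin d) (v : Ω) : dset A hA (Function.update y i v) ≤ dset A hA y + 1 := by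
  classical
  obtain ⟨x, hx, hx2⟩ := A.exists_mem_eq_inf' hA (fun x => hammingDist x y)
  have h1 : dset A hA (Function.update y i v) ≤ hammingDist x (Function.update y i v) :=
    A.inf'_le _ hx
  have h2 := hammingDist_triangle x y (Function.update y i v)
  have h3 : hammingDist y (Function.update y i v) ≤ 1 := by
    unfold hammingDist
    have : (univ.filter (fun j => y j ≠ Function.update y i v j)) ⊆ {i} := by
      intro j hj
      rw [mem_filter] at hj
      rw [mem_singleton]
      by_contra hne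
      exact hj.2 (by rw [Function.update_of_ne hne])
    exact (card_le_card this).trans (by simp)
  have h4 : dset A hA y = hammingDist x y := hx2
  omega

theorem dset_lip {d : ℕ} (A : Finset (Fin d → Ω)) (hA : A.Nonempty) (y : Fin d → Ω)
    (i : Fin d) (v : Ω) : |(dset A hA (Function.update y i v) : ℝ) - dset A hA y| ≤ 1 := by
  have h1 := dset_update A hA y i v
  have h2 := dset_update A hA (Function.update y i v) i (y i)
  rw [Function.update_idem, Function.update_eq_self] at h2
  rw [abs_le]
  have h3 : (dset A hA (Function.update y i v) : ℝ) ≤ dset A hA y + 1 := by exact_mod_cast h1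
  have h4 : (dset A hA y : ℝ) ≤ dset A hA (Function.update y i v) + 1 := by exact_mod_cast h2
  constructor <;> linarith

/-- concentration: few points are far from a dense set -/
theorem far_card {d : ℕ} (A : Finset (Fin d → Ω)) (hA : A.Nonempty) (δ : ℝ) (hδ : 0 < δ)
    (hAδ : δ * (Fintype.card Ω : ℝ) ^ d ≤ A.card) (r : ℝ) (hr : 0 < r) (s : ℝ)
    (hs : Real.sqrt (d / δ) + r ≤ s) :
    ((univ.filter (fun y => s < dset A hA y)).card : ℝ) * r ^ 2 ≤ d * (Fintype.card Ω : ℝ) ^ d := by
  classical
  set f : (Fin d → Ω) → ℝ := fun y => dset A hA y with hf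
  have hvar := variance_le d f (fun x i v => dset_lip A hA x i v)
  have hpos : (0 : ℝ) < (Fintype.card Ω : ℝ) ^ d := by
    have : 0 < Fintype.card Ω := Fintype.card_pos
    positivity
  have hmean0 : 0 ≤ mean f := by
    unfold mean
    apply div_nonneg (sum_nonneg (fun x _ => Nat.cast_nonneg _)) (Nat.cast_nonneg _)
  -- the mean is small
  have hmean : mean f ≤ Real.sqrt (d / δ) := by
    apply Real.le_sqrt_of_sq_le
    rw [le_div_iff₀ hδ]
    have h1 : (A.card : ℝ) * mean f ^ 2 ≤ d * (Fintype.card Ω : ℝ) ^ d := by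
      refine le_trans ?_ hvar
      calc (A.card : ℝ) * mean f ^ 2 = ∑ _x ∈ A, mean f ^ 2 := by rw [sum_const, nsmul_eq_mul]
        _ = ∑ x ∈ A, (f x - mean f) ^ 2 := by
            apply sum_congr rfl
            intro x hx
            have h0 : dset A hA x = 0 := by
              have : dset A hA x ≤ hammingDist x x := A.inf'_le _ hx
              simpa using this
            have : f x = 0 := by rw [hf]; simp [h0]
            rw [this]; ring
        _ ≤ ∑ x, (f x - mean f) ^ 2 :=
            sum_le_sum_of_subset_of_nonneg (subset_univ _) (fun _ _ _ => sq_nonneg _)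
    have h2 : δ * (Fintype.card Ω : ℝ) ^ d * mean f ^ 2 ≤ d * (Fintype.card Ω : ℝ) ^ d :=
      (mul_le_mul_of_nonneg_right hAδ (sq_nonneg _)).trans h1
    have h3 : (mean f ^ 2 * δ) * (Fintype.card Ω : ℝ) ^ d ≤ d * (Fintype.card Ω : ℝ) ^ d := by
      linarith
    exact le_of_mul_le_mul_right h3 hpos
  refine le_trans ?_ hvar
  calc ((univ.filter (fun y => s < dset A hA y)).card : ℝ) * r ^ 2
      = ∑ _y ∈ univ.filter (fun y => s < dset A hA y), r ^ 2 := by rw [sum_const, nsmul_eq_mul]
    _ ≤ ∑ y ∈ univ.filter (fun y => s < dset A hA y), (f y - mean f) ^ 2 := by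
        apply sum_le_sum
        intro y hy
        rw [mem_filter] at hy
        have h1 : s < f y := hy.2
        apply pow_le_pow_left₀ hr.le
        linarith
    _ ≤ _ := sum_le_sum_of_subset_of_nonneg (subset_univ _) (fun _ _ _ => sq_nonneg _)

end dist

/-- the graph of near-constant differences -/
def ncGraph (q d t : ℕ) [NeZero q] (hdt : t < d) : SimpleGraph (Fin d → ZMod q) where
  Adj x y := ∃ c : ZMod q, c ≠ 0 ∧ (univ.filter (fun i => y i - x i ≠ c)).card ≤ t
  symm := ⟨fun x y h => by
    obtain ⟨c, hc, h⟩ := h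
    refine ⟨-c, by simpa using hc, ?_⟩
    have : (univ.filter (fun i => x i - y i ≠ -c)) = univ.filter (fun i => y i - x i ≠ c) := by
      apply filter_congr
      intro i _
      rw [not_iff_not]
      constructor
      · intro h; rw [← neg_sub, h, neg_neg]
      · intro h; rw [← neg_sub, h]
    rw [this]; exact h⟩
  loopless := ⟨fun x h => by
    obtain ⟨c, hc, h⟩ := h
    have : (univ.filter (fun i : Fin d => x i - x i ≠ c)) = univ := by
      apply filter_true_of_mem
      intro i _
      rw [sub_self]; exact hc.symm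
    rw [this, card_univ, Fintype.card_fin] at h
    omega⟩

theorem nc_local (q d t k : ℕ) [NeZero q] (hdt : t < d) (hk : k * k * t < d)
    (W : Finset (Fin d → ZMod q)) (hW : W.card ≤ k) :
    ∃ i : Fin d, ∀ u ∈ W, ∀ v ∈ W, (ncGraph q d t hdt).Adj u v → u i ≠ v i := by
  classical
  by_contra hcon
  push Not at hcon
  choose u hu v hv hadj heq using hcon
  -- each bad coordinate belongs to the exceptional set of some adjacent pair
  let Ex : (Fin d → ZMod q) × (Fin d → ZMod q) → Finset (Fin d) := fun x =>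
    if h : (ncGraph q d t hdt).Adj x.1 x.2 then
      univ.filter (fun i => x.2 i - x.1 i ≠ h.choose) else ∅
  have h1 : (univ : Finset (Fin d)) ⊆ (W ×ˢ W).biUnion Ex := by
    intro i _
    rw [mem_biUnion]
    refine ⟨(u i, v i), mem_product.mpr ⟨hu i, hv i⟩, ?_⟩
    simp only [Ex]
    rw [dif_pos (hadj i), mem_filter]
    refine ⟨mem_univ _, ?_⟩
    rw [heq i, sub_self]
    exact ((hadj i).choose_spec.1).symm
  have h2 := (card_le_card h1).trans card_biUnion_le
  have h3 : ∀ x ∈ W ×ˢ W, (Ex x).card ≤ t := by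
    intro x _
    simp only [Ex]
    split_ifs with h
    · exact h.choose_spec.2
    · simp
  have h4 := h2.trans (sum_le_sum h3)
  rw [card_univ, Fintype.card_fin, sum_const, smul_eq_mul, card_product] at h4
  have h5 : W.card * W.card * t ≤ k * k * t := Nat.mul_le_mul_right _ (Nat.mul_le_mul hW hW)
  omega

theorem nc_dense (q d s : ℕ) [NeZero q] (hdt : 2 * s < d) (δ : ℝ) (hδ : 0 < δ)
    (hs : Real.sqrt (d / δ) + Real.sqrt ((q + 1) * d) ≤ s)
    (A : Finset (Fin d → ZMod q)) (hA : δ * Fintype.card (Fin d → ZMod q) ≤ A.card) :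
    ∃ x : ZMod q → (Fin d → ZMod q), (∀ c, x c ∈ A) ∧
      ∀ c c', c ≠ c' → (ncGraph q d (2 * s) hdt).Adj (x c) (x c') := by
  classical
  have hq : (0 : ℝ) < q := by
    have := NeZero.pos q
    exact_mod_cast this
  have hd : (0 : ℝ) < d := by
    have : 0 < d := by omega
    exact_mod_cast this
  have hcard : (Fintype.card (Fin d → ZMod q) : ℝ) = (Fintype.card (ZMod q) : ℝ) ^ d := by simp
  have hpos : (0 : ℝ) < (Fintype.card (ZMod q) : ℝ) ^ d := by
    rw [ZMod.card]; positivity
  rw [hcard] at hA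
  have hAne : A.Nonempty := by
    rw [← card_pos]
    have : (0 : ℝ) < A.card := lt_of_lt_of_le (by positivity) hA
    exact_mod_cast this
  have hr : 0 < Real.sqrt ((q + 1) * d) := Real.sqrt_pos.mpr (by positivity)
  have hfar := far_card A hAne δ hδ hA _ hr s hs
  rw [Real.sq_sqrt (by positivity)] at hfar
  set Bad := univ.filter (fun y => (s : ℝ) < dset A hAne y) with hBad
  have hBad2 : (Bad.card : ℝ) * (q + 1) ≤ (Fintype.card (ZMod q) : ℝ) ^ d := by
    have : (Bad.card : ℝ) * (q + 1) * d ≤ (Fintype.card (ZMod q) : ℝ) ^ d * d := by linarith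
    exact le_of_mul_le_mul_right this hd
  -- translates
  obtain ⟨y, hy⟩ : ∃ y : Fin d → ZMod q, ∀ c : ZMod q, (fun i => y i + c) ∉ Bad := by
    by_contra hcon
    push Not at hcon
    choose c hc using hcon
    have h1 : (univ : Finset (Fin d → ZMod q)) ⊆ (univ : Finset (ZMod q)).biUnion
        (fun c => Bad.image (fun y i => y i - c)) := by
      intro y _
      rw [mem_biUnion]
      refine ⟨c y, mem_univ _, ?_⟩
      rw [mem_image]
      exact ⟨_, hc y, by ext i; simp⟩
    have h2 := (card_le_card h1).trans card_biUnion_le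
    have h3 : ∑ c : ZMod q, (Bad.image (fun (y : Fin d → ZMod q) i => y i - c)).card ≤
        q * Bad.card := by
      calc _ ≤ ∑ _c : ZMod q, Bad.card := sum_le_sum (fun c _ => card_image_le)
        _ = q * Bad.card := by rw [sum_const, card_univ, ZMod.card, smul_eq_mul]
    have h4 := h2.trans h3
    rw [card_univ] at h4
    have h5 : (Fintype.card (Fin d → ZMod q) : ℝ) ≤ q * Bad.card := by exact_mod_cast h4
    rw [hcard] at h5
    have h6 : (0 : ℝ) ≤ Bad.card := Nat.cast_nonneg _
    have h7 : (Bad.card : ℝ) = 0 := by nlinarith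
    rw [h7] at h5
    linarith
  have hx : ∀ c : ZMod q, ∃ x ∈ A, hammingDist x (fun i => y i + c) ≤ s := by
    intro c
    have h1 := hy c
    rw [hBad, mem_filter] at h1
    push Not at h1
    have h2 := h1 (mem_univ _)
    obtain ⟨x, hx, hx2⟩ := A.exists_mem_eq_inf' hAne (fun x => hammingDist x (fun i => y i + c))
    refine ⟨x, hx, ?_⟩
    have h3 : dset A hAne (fun i => y i + c) = hammingDist x (fun i => y i + c) := hx2
    rw [← h3]
    exact_mod_cast h2
  choose x hx1 hx2 using hx
  refine ⟨x, hx1, ?_⟩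
  intro c c' hcc
  refine ⟨c' - c, sub_ne_zero.mpr hcc.symm, ?_⟩
  have h1 : (univ.filter (fun i => x c' i - x c i ≠ c' - c)) ⊆
      (univ.filter (fun i => x c i ≠ y i + c)) ∪ (univ.filter (fun i => x c' i ≠ y i + c')) := by
    intro i hi
    rw [mem_filter] at hi
    rw [mem_union, mem_filter, mem_filter]
    by_contra hcon
    push Not at hcon
    apply hi.2
    rw [hcon.1 (mem_univ _), hcon.2 (mem_univ _)]
    ring
  have h2 := (card_le_card h1).trans (card_union_le _ _)
  have h3 : (univ.filter (fun i => x c i ≠ y i + c)).card ≤ s := hx2 c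
  have h4 : (univ.filter (fun i => x c' i ≠ y i + c')).card ≤ s := hx2 c'
  omega

theorem exists_gamma (q k : ℕ) (hq : 1 ≤ q) (δ : ℝ) (hδ : 0 < δ) :
    ∃ (Γ : Type) (_ : Fintype Γ) (_ : DecidableEq Γ) (E : SimpleGraph Γ), Nonempty Γ ∧
      (∀ W : Finset Γ, W.card ≤ k → ∃ c : Γ → Fin q, ∀ u ∈ W, ∀ v ∈ W, E.Adj u v → c u ≠ c v) ∧
      (∀ A : Finset Γ, δ * Fintype.card Γ ≤ A.card → ∃ x : Fin q → Γ, (∀ c, x c ∈ A) ∧
        ∀ c c', c ≠ c' → E.Adj (x c) (x c')) := by
  classical
  haveI : NeZero q := ⟨by omega⟩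
  set c0 : ℝ := 1 / Real.sqrt δ + Real.sqrt (q + 1) with hc0
  have hc0pos : 0 ≤ c0 := by positivity
  obtain ⟨m, hm⟩ := exists_nat_gt (2 * (k * k + 1 : ℝ) * (c0 + 2))
  have hmpos : (0 : ℝ) < m := lt_trans (by positivity) hm
  have hm1 : (1 : ℝ) ≤ m := by
    have : 0 < m := by exact_mod_cast hmpos
    exact_mod_cast this
  set d := m ^ 2 with hd
  set s := ⌈(m : ℝ) * c0⌉₊ with hs
  have hs1 : (s : ℝ) < m * c0 + 1 := Nat.ceil_lt_add_one (by positivity)
  have hs2 : (m : ℝ) * c0 ≤ s := Nat.le_ceil _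
  have hkey : ((k * k + 1 : ℕ) : ℝ) * ((2 * s : ℕ) : ℝ) < (d : ℝ) := by
    push_cast [hd]
    have h1 : (s : ℝ) ≤ m * (c0 + 1) := by nlinarith
    have h2 : ((k : ℝ) * k + 1) * (2 * s) ≤ (k * k + 1) * (2 * (m * (c0 + 1))) := by
      apply mul_le_mul_of_nonneg_left _ (by positivity)
      linarith
    have h3 : ((k : ℝ) * k + 1) * (2 * (m * (c0 + 1))) ≤ m * (2 * (k * k + 1 : ℝ) * (c0 + 2)) := by
      have : (0 : ℝ) ≤ ((k : ℝ) * k + 1) * (2 * m) := by positivity
      nlinarith
    have h4 : (m : ℝ) * (2 * (k * k + 1 : ℝ) * (c0 + 2)) < m * m :=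
      mul_lt_mul_of_pos_left hm hmpos
    nlinarith
  have hkey2 : (k * k + 1) * (2 * s) < d := by exact_mod_cast hkey
  have hdt : 2 * s < d := by nlinarith [Nat.zero_le (k * k * (2 * s))]
  have hkd : k * k * (2 * s) < d := by nlinarith
  refine ⟨Fin d → ZMod q, inferInstance, inferInstance, ncGraph q d (2 * s) hdt, ⟨fun _ => 0⟩,
    ?_, ?_⟩
  · intro W hW
    obtain ⟨i, hi⟩ := nc_local q d (2 * s) k hdt hkd W hW
    refine ⟨fun u => (ZMod.finEquiv q).symm (u i), ?_⟩
    intro u hu v hv huv h
    exact hi u hu v hv huv ((ZMod.finEquiv q).symm.injective h)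
  · intro A hA
    have hsqrt : Real.sqrt ((d : ℝ) / δ) + Real.sqrt ((q + 1) * d) ≤ s := by
      refine le_trans (le_of_eq ?_) hs2
      rw [hd]
      push_cast
      rw [Real.sqrt_div (by positivity), Real.sqrt_sq hmpos.le, Real.sqrt_mul (by positivity),
        Real.sqrt_sq hmpos.le, hc0]
      ring
    obtain ⟨x, hx1, hx2⟩ := nc_dense q d s hdt δ hδ hsqrt A hA
    refine ⟨fun c => x (ZMod.finEquiv q c), fun c => hx1 _, ?_⟩
    intro c c' hcc
    exact hx2 _ _ (fun h => hcc ((ZMod.finEquiv q).injective h))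

end Pool.Agent.H62.Sat
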