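import Pool.Agent.H62.Sat.Final3
import Pool.Agent.H62.Sat.Gamma

set_option autoImplicit false

/-! The constants exist, and the upper bound holds with high probability. -/

namespace Pool.Agent.H62.Sat

open Filter Topology Pool.Agent.W166.Gnp

theorem exists_cs (p : ℝ) (h0 : 0 < p) (h1 : p < 1) (e : ℝ) (he : 0 < e) (he1 : e ≤ 1 / 10)
    (k q : ℕ) (hk : 1 ≤ k) (hq : 1 ≤ q) :
    ∃ (c : Cs) (Γ : Type) (_ : Fintype Γ) (_ : DecidableEq Γ) (E : SimpleGraph Γ),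
      Nonempty Γ ∧ c.OK ∧ c.p = p ∧ c.e = e ∧ c.k = k ∧ c.q = q ∧ Fintype.card Γ = c.g ∧
      c.l1 = Fintype.card (LI (Fin c.k1) (Fin c.k2) q k) ∧
      InterMP c.δ1 (Fin c.k1) c.k c.M1 c.δ1' ∧ InterP c.ε2 c.k c.M2 c.δ2 ∧
      (∀ W : Finset Γ, W.card ≤ k → ∃ d : Γ → Fin q, ∀ u ∈ W, ∀ v ∈ W, E.Adj u v → d u ≠ d v) ∧
      (∀ A : Finset Γ, c.δΓ * Fintype.card Γ ≤ A.card → ∃ x : Fin q → Γ, (∀ c, x c ∈ A) ∧
        ∀ c c', c ≠ c' → E.Adj (x c) (x c')) := by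
  have h1p : 0 < 1 - p := by linarith
  obtain ⟨ℓ, hℓ⟩ : ∃ ℓ, ℓ = Real.log (1 / (1 - p)) := ⟨_, rfl⟩
  obtain ⟨lp, hlp⟩ : ∃ lp, lp = Real.log (1 / p) := ⟨_, rfl⟩
  have hℓ0 : 0 < ℓ := by
    rw [hℓ]; apply Real.log_pos
    rw [lt_div_iff₀ h1p]; linarith
  have hlp0 : 0 < lp := by
    rw [hlp]; apply Real.log_pos
    rw [lt_div_iff₀ h0]; linarith
  -- k1
  obtain ⟨k1, hk1⟩ := exists_nat_gt (16 * (1 + 3 / 2 * e) * lp / (p * ℓ))
  have hk1pos : (0 : ℝ) < k1 := lt_trans (by positivity) hk1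
  have hk1' : 1 ≤ k1 := by
    have : 0 < k1 := by exact_mod_cast hk1pos
    omega
  rw [div_lt_iff₀ (by positivity)] at hk1
  obtain ⟨ζ, hζ⟩ : ∃ ζ, ζ = (1 + 3 / 2 * e) / (p * ℓ * k1) := ⟨_, rfl⟩
  have hζ0 : 0 < ζ := by rw [hζ]; positivity
  -- x
  obtain ⟨x, hx⟩ : ∃ x, x = ((1 - p) ^ (1 - e / 8) - (1 - p)) / p := ⟨_, rfl⟩
  have hx0 : 0 < x := by
    rw [hx]
    apply div_pos _ h0
    have : (1 - p) ^ (1 : ℝ) < (1 - p) ^ (1 - e / 8) :=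
      Real.rpow_lt_rpow_of_exponent_gt h1p (by linarith) (by linarith)
    rw [Real.rpow_one] at this
    linarith
  have hx1 : x ≤ 1 := by
    rw [hx, div_le_one h0]
    have : (1 - p) ^ (1 - e / 8) ≤ 1 := Real.rpow_le_one h1p.le (by linarith) (by linarith)
    linarith
  have hx2 : Real.log (p * x + (1 - p)) = -((1 - e / 8) * ℓ) := by
    have e1 : p * x + (1 - p) = (1 - p) ^ (1 - e / 8) := by
      rw [hx]; field_simp; ring
    rw [e1, Real.log_rpow h1p, hℓ, one_div, Real.log_inv]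
    ring
  have hlx : 0 ≤ Real.log (1 / x) := by
    apply Real.log_nonneg
    rw [le_div_iff₀ hx0]; linarith
  -- δ1
  obtain ⟨δ1, hδ1⟩ : ∃ δ1, δ1 = min ((1 - e / 4) * p)
    (e / 2 * (p * ℓ) / ((1 + 3 / 2 * e) * (Real.log (1 / x) + 1))) := ⟨_, rfl⟩
  have hδ10 : 0 < δ1 := by
    rw [hδ1]
    apply lt_min
    · apply mul_pos _ h0; linarith
    · positivity
  have hδ1b : δ1 * (1 + 3 / 2 * e) * Real.log (1 / x) ≤ e / 2 * (p * ℓ) := by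
    have e1 : δ1 ≤ e / 2 * (p * ℓ) / ((1 + 3 / 2 * e) * (Real.log (1 / x) + 1)) := by
      rw [hδ1]; exact min_le_right _ _
    rw [le_div_iff₀ (by positivity)] at e1
    have e2 : δ1 * (1 + 3 / 2 * e) * Real.log (1 / x) ≤
        δ1 * ((1 + 3 / 2 * e) * (Real.log (1 / x) + 1)) := by
      have : 0 ≤ δ1 * (1 + 3 / 2 * e) := by positivity
      nlinarith
    linarith
  obtain ⟨M1, δ1', hδ1', hI1⟩ := exists_InterMP δ1 hδ10 (Fin k1) k
  -- k2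
  obtain ⟨k2, hk2⟩ := exists_nat_gt (4 * (2 * k + 1) / (p ^ k * ζ))
  rw [div_lt_iff₀ (by positivity)] at hk2
  -- CL
  have hpk : p ^ k < 1 := pow_lt_one₀ h0.le h1 (by omega)
  have hpk0 : 0 < p ^ k := pow_pos h0 _
  have hlk : 0 < -Real.log (1 - p ^ k) := by
    have := Real.log_neg (x := 1 - p ^ k) (by linarith) (by linarith)
    linarith
  obtain ⟨CL, hCL⟩ : ∃ CL, CL = 1 / (-Real.log (1 - p ^ k)) := ⟨_, rfl⟩
  have hCL0 : 0 < CL := by rw [hCL]; positivity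
  obtain ⟨Wc, hWc⟩ : ∃ Wc : ℝ, Wc = k2 * ζ + k * (CL + 1) + 1 := ⟨_, rfl⟩
  have hWc0 : 0 < Wc := by rw [hWc]; positivity
  obtain ⟨ε2, hε2⟩ : ∃ ε2, ε2 = e / (ℓ * Wc) := ⟨_, rfl⟩
  have hε20 : 0 < ε2 := by rw [hε2]; positivity
  obtain ⟨M2, δ2, hδ2, _, hI2⟩ := inter_lemma ε2 hε20 k
  obtain ⟨δΓ, hδΓ⟩ : ∃ δΓ, δΓ = min (δ1' / 32) (min (δ2 / 32) (p ^ k / 32)) := ⟨_, rfl⟩
  have hδΓ0 : 0 < δΓ := by
    rw [hδΓ]
    exact lt_min (by positivity) (lt_min (by positivity) (by positivity))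
  obtain ⟨Γ, iΓ, dΓ, E, hne, hE1, hE2⟩ := exists_gamma q k hq δΓ hδΓ0
  obtain ⟨e1, he1'⟩ : ∃ e1, e1 = e / (6 * (ℓ * Wc)) := ⟨_, rfl⟩
  have he10 : 0 < e1 := by rw [he1']; positivity
  obtain ⟨l1, hl1⟩ : ∃ l1, l1 = Fintype.card (LI (Fin k1) (Fin k2) q k) := ⟨_, rfl⟩
  have hpl : 0 < p ^ l1 := pow_pos h0 _
  have hpl1 : p ^ l1 ≤ 1 := pow_le_one₀ h0.le h1.le
  obtain ⟨T0, hT0⟩ := exists_pow_lt_of_lt_one (show 0 < e1 / 6 by positivity)
    (show 1 - p ^ l1 < 1 by linarith)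
  refine ⟨⟨p, e, ζ, x, δ1, δ1', ε2, δ2, δΓ, CL, e1,
    min e1 (p ^ (l1 + k1 * (q * k)) * (1 / (8 * (T0 + 1))) / 4),
    k, q, k1, k2, Fintype.card Γ, T0, M1, M2, l1⟩, Γ, iΓ, dΓ, E, hne, ?_, rfl, rfl, rfl, rfl,
    rfl, hl1, hI1, hI2, hE1, hE2⟩
  have hW : Cs.Wc ⟨p, e, ζ, x, δ1, δ1', ε2, δ2, δΓ, CL, e1,
    min e1 (p ^ (l1 + k1 * (q * k)) * (1 / (8 * (T0 + 1))) / 4),
    k, q, k1, k2, Fintype.card Γ, T0, M1, M2, l1⟩ = Wc := hWc.symm
  have hL : Cs.ell ⟨p, e, ζ, x, δ1, δ1', ε2, δ2, δΓ, CL, e1,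
    min e1 (p ^ (l1 + k1 * (q * k)) * (1 / (8 * (T0 + 1))) / 4),
    k, q, k1, k2, Fintype.card Γ, T0, M1, M2, l1⟩ = ℓ := hℓ.symm
  constructor
  · exact h0
  · exact h1
  · exact he
  · exact he1
  · exact hk
  · exact hk1'
  · exact Fintype.card_pos
  · exact hζ0
  · rw [hL]
    show ζ * (p * ℓ * k1) = 1 + 3 / 2 * e
    rw [hζ]; field_simp
  · show ζ * Real.log (1 / p) ≤ 1 / 16
    rw [← hlp, hζ, div_mul_eq_mul_div, div_le_div_iff₀ (by positivity) (by norm_num)]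
    linarith
  · exact hx0
  · exact hx1
  · rw [hL]; exact hx2
  · exact hδ10
  · show δ1 ≤ (1 - e / 4) * p
    rw [hδ1]; exact min_le_left _ _
  · rw [hL]; exact hδ1b
  · exact hδ1'
  · exact hδ2
  · exact hδΓ0
  · show δΓ ≤ δ1' / 32
    rw [hδΓ]; exact min_le_left _ _
  · show δΓ ≤ δ2 / 32
    rw [hδΓ]; exact (min_le_right _ _).trans (min_le_left _ _)
  · show δΓ ≤ p ^ k / 32
    rw [hδΓ]; exact (min_le_right _ _).trans (min_le_right _ _)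
  · show (2 * k + 1 : ℝ) ≤ p ^ k / 4 * (k2 * ζ)
    linarith
  · exact hCL0
  · show 1 ≤ CL * -Real.log (1 - p ^ k)
    rw [hCL, div_mul_cancel₀ _ hlk.ne']
  · exact hε20
  · rw [hL, hW]
    show ε2 * (ℓ * Wc) = e
    rw [hε2]; field_simp
  · exact he10
  · rw [hL, hW]
    show e1 * (6 * (ℓ * Wc)) = e
    rw [he1']; field_simp
  · show 3 * (1 - p ^ l1) ^ T0 ≤ e1 / 2
    linarith
  · exact lt_min he10 (by positivity)
  · exact min_le_left _ _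
  · exact min_le_right _ _

open Classical in
theorem upper_whp (p : ℝ) (h0 : 0 < p) (h1 : p < 1) (k q : ℕ) (hk : 1 ≤ k) (hq : 1 ≤ q)
    (F : SimpleGraph (Fin k))
    (htri : ∀ u v : Fin k, F.Adj u v → ∃ w : Fin k, F.Adj u w ∧ F.Adj v w)
    (hF1 : ¬ F.Colorable (q + 1)) (hF2 : F.Colorable (q + 2)) (e : ℝ) (he : 0 < e)
    (he1 : e ≤ 1 / 10) :
    ∃ f : ℕ → ℝ, Tendsto f atTop (𝓝 0) ∧ ∀ᶠ n : ℕ in atTop,
      Pr (allE n) p (fun E => ¬ ∃ H : SimpleGraph (Fin n), H ≤ gr E ∧ ¬ F.IsContained H ∧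
        (∀ u v, (gr E).Adj u v → ¬ H.Adj u v →
          F.IsContained (H ⊔ SimpleGraph.fromEdgeSet {s(u, v)})) ∧
        (H.edgeSet.ncard : ℝ) ≤ (1 + 6 * e) * (n * Real.logb (1 / (1 - p)) n)) ≤ f n := by
  obtain ⟨c, Γ, iΓ, dΓ, E0, hne, hc, hp, hce, hck, hcq, hg, hl1, hI1, hI2, hE1, hE2⟩ :=
    exists_cs p h0 h1 e he he1 k q hk hq
  subst hp hce hck hcq
  refine ⟨c.fail, hc.fail_lim, ?_⟩
  filter_upwards [hc.parOK Γ hg hI1 hI2, hc.edges_le, hc.rest_le, eventually_gt_atTop 0]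
    with n hpar hedge hrest hn
  have hn0 : (0 : ℝ) < n := by exact_mod_cast hn
  have hrest' : c.frest n ≤ n := by
    have : (c.frest n : ℝ) ≤ n := by linarith
    exact_mod_cast this
  obtain ⟨reg, r1, r2, r3, r4, r5⟩ := exists_reg n (Fin c.k1) (Fin c.k2) (Fin c.T0)
    (Fin (c.fTL n)) Γ (c.fN n) (c.fB n) (Cs.fb2 n) (n - c.frest n) (by
      simp only [Fintype.card_fin, hg]
      unfold Cs.frest at hrest' ⊢
      omega)
  have : Nonempty (Fin (c.fTL n)) := ⟨⟨0, Nat.succ_pos _⟩⟩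
  have : Nonempty (Fin c.k1) := ⟨⟨0, hc.k10⟩⟩
  have hfail := typ_fail (k := c.k) (q := c.q) (c := c.par n) (reg := reg) h0.le h1.le
    (show 0 ≤ c.e / 2 by linarith) (show c.e / 2 ≤ 1 by linarith)
    (show 0 ≤ c.e / 4 by linarith) (show c.e / 4 ≤ 1 by linarith) hc.x0 hc.x1 hn0
    (c.fB n) (Cs.fb2 n) (n - c.frest n) r1 r2 r3 r4 r5
  simp only [Fintype.card_fin, hg] at hfail
  rw [← hl1] at hfail
  refine le_trans (Pr_mono h0.le h1.le ?_) hfail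
  intro E hE hnot hTyp
  apply hnot
  have hlam : (Finset.univ.filter (fun v => ∃ σ, reg v = Reg.lam σ)).card ≤
      c.fTL n * Cs.fb2 n := by
    calc (Finset.univ.filter (fun v => ∃ σ, reg v = Reg.lam σ)).card
        ≤ ((Finset.univ : Finset (Fin (c.fTL n))).biUnion
            (fun σ => Finset.univ.filter (fun v => reg v = Reg.lam σ))).card := by
          apply Finset.card_le_card
          intro v hv
          simp only [Finset.mem_filter, Finset.mem_univ, true_and, Finset.mem_biUnion] at hv ⊢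
          exact hv
      _ ≤ ∑ σ : Fin (c.fTL n), (Finset.univ.filter (fun v => reg v = Reg.lam σ)).card :=
          Finset.card_biUnion_le
      _ = c.fTL n * Cs.fb2 n := by
          rw [Finset.sum_congr rfl (fun σ _ => r4 σ), Finset.sum_const, Finset.card_univ,
            Fintype.card_fin, smul_eq_mul]
  obtain ⟨H, hH1, hH2, hH3, hH4⟩ := hTyp.upper hpar E0 hE1 hE2 r1 r2 (by convert hlam)
    F htri hF1 hF2
  refine ⟨H, hH1, hH2, hH3, hH4.trans (le_trans (le_of_eq ?_) hedge)⟩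
  unfold Cs.edges
  simp only [Fintype.card_fin, Fintype.card_prod, Fintype.card_sum, hg]
  rfl

end Pool.Agent.H62.Sat
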