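import Mathlib

set_option autoImplicit false

/-! The deterministic part of the lower bound. -/

namespace Pool.Agent.H62.Sat

open Finset Classical

variable {V : Type}

/-- an edge whose addition creates `F` has a common neighbour -/
theorem exists_common {k : ℕ} (F : SimpleGraph (Fin k))
    (htri : ∀ u v : Fin k, F.Adj u v → ∃ w : Fin k, F.Adj u w ∧ F.Adj v w)
    (H : SimpleGraph V) (hfree : ¬ F.IsContained H) (u v : V)
    (hc : F.IsContained (H ⊔ SimpleGraph.fromEdgeSet {s(u, v)})) :
    ∃ w, H.Adj u w ∧ H.Adj v w := by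
  obtain ⟨φ, hφ, hinj⟩ : ∃ φ : Fin k → V, (∀ {f g}, F.Adj f g →
      (H ⊔ SimpleGraph.fromEdgeSet {s(u, v)}).Adj (φ f) (φ g)) ∧ Function.Injective φ := by
    obtain ⟨φ⟩ := hc
    exact ⟨φ, fun h => φ.toHom.map_adj h, φ.injective⟩
  have h1 : ∃ f g, F.Adj f g ∧ s(φ f, φ g) = s(u, v) := by
    by_contra hcon
    push Not at hcon
    apply hfree
    refine ⟨⟨⟨φ, ?_⟩, hinj⟩⟩
    intro f g hfg
    rcases hφ hfg with h | h
    · exact h
    · rw [SimpleGraph.fromEdgeSet_adj, Set.mem_singleton_iff] at h
      exact absurd h.1 (hcon f g hfg)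
  obtain ⟨f, g, hfg, he⟩ := h1
  obtain ⟨w, hw1, hw2⟩ := htri f g hfg
  have key : ∀ a, F.Adj a w → (a = f ∨ a = g) → H.Adj (φ a) (φ w) := by
    intro a haw ha
    rcases hφ haw with h | h
    · exact h
    · exfalso
      rw [SimpleGraph.fromEdgeSet_adj, Set.mem_singleton_iff, ← he, Sym2.eq_iff] at h
      rcases h.1 with ⟨_, h3⟩ | ⟨_, h3⟩
      · exact hw2.ne (hinj h3).symm
      · exact hw1.ne (hinj h3).symm
  have k1 := key f hw1 (Or.inl rfl)
  have k2 := key g hw2 (Or.inr rfl)
  rw [Sym2.eq_iff] at he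
  rcases he with ⟨h3, h4⟩ | ⟨h3, h4⟩
  · exact ⟨φ w, h3 ▸ k1, h4 ▸ k2⟩
  · exact ⟨φ w, h4 ▸ k2, h3 ▸ k1⟩

theorem lower_det [Fintype V] (G H : SimpleGraph V) (hle : H ≤ G)
    (hcom : ∀ u v, G.Adj u v → ¬ H.Adj u v → ∃ w, H.Adj u w ∧ H.Adj v w)
    (M b h : ℕ) (hE : ∀ v, ∀ D : Finset V, v ∉ D → D.card ≤ M →
      b ≤ (univ.filter (fun u => u ≠ v ∧ u ∉ D ∧ G.Adj u v ∧ ∀ d ∈ D, ¬ G.Adj u d)).card)
    (hb : h + h * h ≤ b) (hh : 1 ≤ h) :
    Fintype.card V * h * (M + 1) ≤ H.edgeSet.ncard * (h + 2 * (M + 1)) := by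
  set m := H.edgeFinset.card with hm
  have hmn : H.edgeSet.ncard = m := by
    rw [hm, ← Set.ncard_coe_finset, SimpleGraph.coe_edgeFinset]
  rw [hmn]
  set heavy := univ.filter (fun w => h ≤ H.degree w) with hheavy
  set light := univ.filter (fun w => ¬ h ≤ H.degree w) with hlight
  have hsum : heavy.card * h ≤ 2 * m := by
    rw [hm, ← SimpleGraph.sum_degrees_eq_twice_card_edges]
    calc heavy.card * h = ∑ _w ∈ heavy, h := by rw [sum_const, smul_eq_mul]
      _ ≤ ∑ w ∈ heavy, H.degree w := sum_le_sum (fun w hw => (mem_filter.mp hw).2)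
      _ ≤ ∑ w, H.degree w := sum_le_sum_of_subset (subset_univ _)
  have hcard : Fintype.card V = heavy.card + light.card := by
    rw [hheavy, hlight, card_filter_add_card_filter_not, card_univ]
  have hlightdeg : ∀ v ∈ light, M + 1 ≤ ((H.neighborFinset v).filter (fun w => w ∈ heavy)).card := by
    intro v hv
    by_contra hcon
    push Not at hcon
    set D := (H.neighborFinset v).filter (fun w => w ∈ heavy) with hD
    have hvD : v ∉ D := by
      rw [hD, mem_filter, SimpleGraph.mem_neighborFinset]
      exact fun h => h.1.ne rfl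
    have h1 := hE v D hvD (by omega)
    have h2 : (univ.filter (fun u => u ≠ v ∧ u ∉ D ∧ G.Adj u v ∧ ∀ d ∈ D, ¬ G.Adj u d)) ⊆
        H.neighborFinset v ∪ ((H.neighborFinset v).filter (fun w => w ∉ heavy)).biUnion
          (fun w => H.neighborFinset w) := by
      intro u hu
      rw [mem_filter] at hu
      obtain ⟨_, hu1, hu2, hu3, hu4⟩ := hu
      rw [mem_union, mem_biUnion]
      by_cases hadj : H.Adj u v
      · left
        rw [SimpleGraph.mem_neighborFinset]; exact hadj.symm
      · right
        obtain ⟨w, hw1, hw2⟩ := hcom u v hu3 hadj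
        refine ⟨w, ?_, by rw [SimpleGraph.mem_neighborFinset]; exact hw1.symm⟩
        rw [mem_filter, SimpleGraph.mem_neighborFinset]
        refine ⟨hw2, fun hwh => ?_⟩
        exact hu4 w (by rw [hD, mem_filter, SimpleGraph.mem_neighborFinset]; exact ⟨hw2, hwh⟩)
          (hle hw1)
    have h3 := (card_le_card h2).trans (card_union_le _ _)
    have hvl : H.degree v ≤ h - 1 := by
      rw [hlight, mem_filter] at hv
      omega
    have h4 : (((H.neighborFinset v).filter (fun w => w ∉ heavy)).biUnion
          (fun w => H.neighborFinset w)).card ≤ (h - 1) * (h - 1) := by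
      refine card_biUnion_le.trans ?_
      calc ∑ w ∈ (H.neighborFinset v).filter (fun w => w ∉ heavy), (H.neighborFinset w).card
          ≤ ∑ _w ∈ (H.neighborFinset v).filter (fun w => w ∉ heavy), (h - 1) := by
            apply sum_le_sum
            intro w hw
            rw [mem_filter, hheavy, mem_filter] at hw
            have := hw.2
            push Not at this
            have h5 := this (mem_univ _)
            rw [SimpleGraph.card_neighborFinset_eq_degree]
            omega
        _ = ((H.neighborFinset v).filter (fun w => w ∉ heavy)).card * (h - 1) := by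
            rw [sum_const, smul_eq_mul]
        _ ≤ (h - 1) * (h - 1) := by
            apply Nat.mul_le_mul_right
            refine (card_filter_le _ _).trans ?_
            rw [SimpleGraph.card_neighborFinset_eq_degree]
            exact hvl
    rw [SimpleGraph.card_neighborFinset_eq_degree] at h3
    have h6 : (h - 1) * (h - 1) ≤ h * h := Nat.mul_le_mul (by omega) (by omega)
    omega
  have hcount : light.card * (M + 1) ≤ m := by
    have h1 : ∑ v ∈ light, ((H.neighborFinset v).filter (fun w => w ∈ heavy)).card ≤ m := by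
      rw [← card_sigma]
      rw [hm]
      refine card_le_card_of_injOn (fun x => s(x.1, x.2)) ?_ ?_
      · rintro ⟨v, w⟩ hx
        rw [mem_coe, mem_sigma] at hx
        rw [mem_coe, SimpleGraph.mem_edgeFinset, SimpleGraph.mem_edgeSet]
        have h2 := (mem_filter.mp hx.2).1
        rwa [SimpleGraph.mem_neighborFinset] at h2
      · rintro ⟨v, w⟩ hx ⟨v', w'⟩ hx' he
        rw [mem_coe, mem_sigma] at hx hx'
        simp only at he hx hx'
        rw [Sym2.eq_iff] at he
        rcases he with ⟨rfl, rfl⟩ | ⟨rfl, rfl⟩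
        · rfl
        · exfalso
          have h2 := hx.1
          have h3 := (mem_filter.mp hx'.2).2
          rw [hlight, mem_filter] at h2
          rw [hheavy, mem_filter] at h3
          exact h2.2 h3.2
    refine le_trans ?_ h1
    calc light.card * (M + 1) = ∑ _v ∈ light, (M + 1) := by rw [sum_const, smul_eq_mul]
      _ ≤ _ := sum_le_sum hlightdeg
  calc Fintype.card V * h * (M + 1) = (heavy.card * h) * (M + 1) + h * (light.card * (M + 1)) := by
        rw [hcard]; ring
    _ ≤ (2 * m) * (M + 1) + h * m := Nat.add_le_add (Nat.mul_le_mul_right _ hsum)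
        (Nat.mul_le_mul_left _ hcount)
    _ = m * (h + 2 * (M + 1)) := by ring

end Pool.Agent.H62.Sat
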