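import Pool.Agent.H62.Sat.Final4
import Pool.Agent.H62.Sat.Lower

set_option autoImplicit false

/-! The lower bound holds with high probability. -/

namespace Pool.Agent.H62.Sat

open Filter Topology Classical Pool.Agent.W166.Gnp

theorem lower_whp (p : ℝ) (h0 : 0 < p) (h1 : p < 1) (k : ℕ) (F : SimpleGraph (Fin k))
    (htri : ∀ u v : Fin k, F.Adj u v → ∃ w : Fin k, F.Adj u w ∧ F.Adj v w) (e : ℝ) (he : 0 < e)
    (he1 : e ≤ 1 / 2) :
    ∃ f : ℕ → ℝ, Tendsto f atTop (𝓝 0) ∧ ∀ᶠ n : ℕ in atTop,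
      Pr (allE n) p (fun E => ¬ ∀ H : SimpleGraph (Fin n), H ≤ gr E → ¬ F.IsContained H →
        (∀ u v, (gr E).Adj u v → ¬ H.Adj u v →
          F.IsContained (H ⊔ SimpleGraph.fromEdgeSet {s(u, v)})) →
        (1 - 2 * e) * (n * Real.logb (1 / (1 - p)) n) ≤ (H.edgeSet.ncard : ℝ)) ≤ f n := by
  have h1p : 0 < 1 - p := by linarith
  obtain ⟨ℓ, hℓ⟩ : ∃ ℓ, ℓ = Real.log (1 / (1 - p)) := ⟨_, rfl⟩
  have hℓ0 : 0 < ℓ := by
    rw [hℓ]; apply Real.log_pos
    rw [lt_div_iff₀ h1p]; linarith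
  set M : ℕ → ℕ := fun n => ⌊(1 - e) * (Real.log n / ℓ)⌋₊ with hM
  set b : ℕ → ℕ := fun n => ⌈(n : ℝ) ^ (e / 2)⌉₊ with hb
  set h : ℕ → ℕ := fun n => ⌊(n : ℝ) ^ (e / 5)⌋₊ with hh
  have hMle : ∀ n : ℕ, (M n : ℝ) ≤ (1 - e) * (Real.log n / ℓ) := fun n =>
    Nat.floor_le (mul_nonneg (by linarith) (div_nonneg (Real.log_natCast_nonneg n) hℓ0.le))
  have hMle' : ∀ n : ℕ, (M n : ℝ) ≤ Real.log n / ℓ := fun n => by
    have := hMle n
    have h2 : 0 ≤ Real.log n / ℓ := div_nonneg (Real.log_natCast_nonneg n) hℓ0.le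
    nlinarith
  have hMge : ∀ n : ℕ, (1 - e) * (Real.log n / ℓ) ≤ (M n : ℝ) + 1 := fun n =>
    (Nat.lt_floor_add_one _).le
  have hble : ∀ n : ℕ, (b n : ℝ) ≤ (n : ℝ) ^ (e / 2) + 1 := fun n =>
    (Nat.ceil_lt_add_one (by positivity)).le
  have hbge : ∀ n : ℕ, (n : ℝ) ^ (e / 2) ≤ (b n : ℝ) := fun n => Nat.le_ceil _
  have hhle : ∀ n : ℕ, (h n : ℝ) ≤ (n : ℝ) ^ (e / 5) := fun n => Nat.floor_le (by positivity)
  have hhge : ∀ n : ℕ, (n : ℝ) ^ (e / 5) - 1 ≤ (h n : ℝ) := fun n => by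
    have : (n : ℝ) ^ (e / 5) < h n + 1 := Nat.lt_floor_add_one _
    linarith
  refine ⟨fun n => ((n : ℝ) + 1) ^ (M n) * (n * (2 ^ (b n) *
        Real.exp (-(p * (1 - p) ^ (M n) * ((n : ℝ) - 1 - M n) / 2)))), ?_, ?_⟩
  · -- the limit
    refine lim_exp (X := fun n => M n * Real.log ((n : ℝ) + 1) + (Real.log n + (b n * Real.log 2 -
      p * (1 - p) ^ (M n) * ((n : ℝ) - 1 - M n) / 2))) (Eventually.of_forall fun n => by positivity)
      ?_ (lim_bot (c := 1) (C := 1) one_pos ?_)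
    · filter_upwards [eventually_gt_atTop 0] with n hn
      have hn' : (0 : ℝ) < n := by exact_mod_cast hn
      have e1 : ((n : ℝ) + 1) ^ (M n) = Real.exp (M n * Real.log ((n : ℝ) + 1)) := by
        rw [Real.exp_nat_mul, Real.exp_log (by positivity)]
      have e2 : (2 : ℝ) ^ (b n) = Real.exp (b n * Real.log 2) := by
        rw [Real.exp_nat_mul, Real.exp_log (by positivity)]
      rw [e1, e2, Real.exp_add, Real.exp_add, Real.exp_log hn', Real.exp_sub, Real.exp_neg]
      apply le_of_eq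
      rfl
    · filter_upwards [ev_log 1, ev_log_succ, ev_log_pow (4 * (2 / ℓ + 2) / (p / 4)) 2 he,
        ev_rpow (4 / (p / 4)) (a := e / 2) (b := e) (by linarith),
        ev_log_n (4 * (1 / ℓ)) 1, ev_n 4] with n g1 g2 g3 g4 g5 g6
      have hn' : (0 : ℝ) < n := by linarith
      rw [pow_one] at g5
      -- the power
      have hpow : (n : ℝ) ^ (-(1 - e)) ≤ (1 - p) ^ (M n) := by
        have e1 : (1 - p) ^ (M n) = Real.exp (-(M n * ℓ)) := by
          rw [hℓ, one_div, Real.log_inv, mul_neg, neg_neg, Real.exp_nat_mul, Real.exp_log h1p]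
        rw [e1, Real.rpow_def_of_pos hn']
        apply Real.exp_le_exp.mpr
        have e2 := mul_le_mul_of_nonneg_right (hMle n) hℓ0.le
        have e3 : (1 - e) * (Real.log n / ℓ) * ℓ = (1 - e) * Real.log n := by field_simp
        linarith
      have hW : (n : ℝ) / 2 ≤ (n : ℝ) - 1 - M n := by
        have := hMle' n
        have e2 : Real.log n / ℓ = 1 / ℓ * Real.log n := by ring
        linarith
      have hprod : (n : ℝ) ^ (-(1 - e)) * ((n : ℝ) / 2) ≤ (1 - p) ^ (M n) * ((n : ℝ) - 1 - M n) :=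
        mul_le_mul hpow hW (by positivity) (by positivity)
      have hrp : (n : ℝ) ^ (-(1 - e)) * (n : ℝ) = (n : ℝ) ^ e := by
        conv_lhs => rw [← Real.rpow_one (n : ℝ), ← Real.rpow_mul hn'.le, ← Real.rpow_add hn']
        congr 1
        ring
      have e4 : (M n : ℝ) * Real.log ((n : ℝ) + 1) ≤ (Real.log n / ℓ) * (2 * Real.log n) :=
        mul_le_mul (hMle' n) g2 (Real.log_nonneg (by linarith)) (by positivity)
      have e5 : (b n : ℝ) * Real.log 2 ≤ ((n : ℝ) ^ (e / 2) + 1) * 1 :=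
        mul_le_mul (hble n) log2_le (Real.log_nonneg (by norm_num)) (by positivity)
      have e6 : 4 * (2 / ℓ + 2) * Real.log n ^ 2 ≤ p / 4 * (n : ℝ) ^ e := by
        have := mul_le_mul_of_nonneg_left g3 (by positivity : 0 ≤ p / 4)
        have e7 : p / 4 * (4 * (2 / ℓ + 2) / (p / 4) * Real.log n ^ 2) =
          4 * (2 / ℓ + 2) * Real.log n ^ 2 := by field_simp
        linarith
      have e7 : 4 * (n : ℝ) ^ (e / 2) ≤ p / 4 * (n : ℝ) ^ e := by
        have := mul_le_mul_of_nonneg_left g4 (by positivity : 0 ≤ p / 4)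
        have e7 : p / 4 * (4 / (p / 4) * (n : ℝ) ^ (e / 2)) = 4 * (n : ℝ) ^ (e / 2) := by
          field_simp
        linarith
      have e8 : p * (1 - p) ^ (M n) * ((n : ℝ) - 1 - M n) / 2 ≥ p / 4 * (n : ℝ) ^ e := by
        have := mul_le_mul_of_nonneg_left hprod h0.le
        rw [← hrp]
        linarith
      have e9 : (Real.log n / ℓ) * (2 * Real.log n) = 2 / ℓ * Real.log n ^ 2 := by ring
      have e10 : Real.log n ≤ Real.log n ^ 2 := by nlinarith
      have e11 : 0 ≤ 2 / ℓ * Real.log n ^ 2 := by positivity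
      have e12 : 4 * (2 / ℓ + 2) * Real.log n ^ 2 = 4 * (2 / ℓ * Real.log n ^ 2) +
        8 * Real.log n ^ 2 := by ring
      have e13 : 0 ≤ (n : ℝ) ^ e := by positivity
      linarith
  · filter_upwards [ev_rpow 2 (a := 2 * (e / 5)) (b := e / 2) (by linarith),
      ev_rpow 2 (a := 0) (b := e / 5) (by linarith),
      ev_log_pow ((2 / ℓ + 2 + e) / e) 1 (a := e / 5) (by linarith), ev_log 1,
      eventually_gt_atTop 0] with n g1 g2 g3 g4 g5
    have hn' : (0 : ℝ) < n := by exact_mod_cast g5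
    rw [Real.rpow_zero, mul_one] at g2
    rw [pow_one] at g3
    have hh1 : 1 ≤ h n := by
      have h2 : (1 : ℝ) ≤ h n := by have := hhge n; linarith
      exact_mod_cast h2
    have hhb : h n + h n * h n ≤ b n := by
      have h2 : (1 : ℝ) ≤ h n := by exact_mod_cast hh1
      have h3 : (h n : ℝ) * h n ≤ (n : ℝ) ^ (2 * (e / 5)) := by
        have e1 : (n : ℝ) ^ (2 * (e / 5)) = (n : ℝ) ^ (e / 5) * (n : ℝ) ^ (e / 5) := by
          rw [← Real.rpow_add hn']; congr 1; ring
        rw [e1]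
        exact mul_le_mul (hhle n) (hhle n) (Nat.cast_nonneg _) (by positivity)
      have h4 : (h n : ℝ) ≤ h n * h n := by nlinarith
      have h5 : ((h n + h n * h n : ℕ) : ℝ) ≤ b n := by
        push_cast
        have := hbge n
        linarith
      exact_mod_cast h5
    refine le_trans (Pr_mono h0.le h1.le ?_) (lone_all h0.le h1.le (M n) (b n))
    intro E hE hnot
    by_contra hcon
    apply hnot
    intro H hle hfree hsat
    have hcom : ∀ u v, (gr E).Adj u v → ¬ H.Adj u v → ∃ w, H.Adj u w ∧ H.Adj v w :=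
      fun u v huv hH => exists_common F htri H hfree u v (hsat u v huv hH)
    have hdet := lower_det (gr E) H hle hcom (M n) (b n) (h n) (by
      intro v D hvD hDM
      by_contra hlt
      push Not at hlt
      apply hcon
      refine ⟨D, hDM, v, hvD, lt_of_le_of_lt (Finset.card_le_card ?_) hlt⟩
      intro u hu
      simp only [Finset.mem_filter, Finset.mem_univ, true_and] at hu ⊢
      obtain ⟨a1, a2, a3, a4⟩ := hu
      refine ⟨a1, a2, (gr_adj hE).mpr a3, fun d hd hadj => ?_⟩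
      exact a4 d hd ((gr_adj hE).mp hadj)) hhb hh1
    rw [Fintype.card_fin] at hdet
    have hdet' : (n : ℝ) * h n * (M n + 1) ≤ (H.edgeSet.ncard : ℝ) * (h n + 2 * (M n + 1)) := by
      exact_mod_cast hdet
    have hlogb : Real.logb (1 / (1 - p)) n = Real.log n / ℓ := by rw [hℓ]; rfl
    rw [hlogb]
    set m : ℝ := (H.edgeSet.ncard : ℝ) with hm
    have hm0 : 0 ≤ m := Nat.cast_nonneg _
    -- comparison
    have c1 : (1 - e) * ((h n : ℝ) + 2 * (M n + 1)) ≤ h n := by
      have e1 : (2 / ℓ + 2 + e) * Real.log n ≤ e * (n : ℝ) ^ (e / 5) := by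
        have := mul_le_mul_of_nonneg_left g3 he.le
        have e7 : e * ((2 / ℓ + 2 + e) / e * Real.log n) = (2 / ℓ + 2 + e) * Real.log n := by
          field_simp
        linarith
      have e2 := mul_le_mul_of_nonneg_left (hhge n) he.le
      have e3 := hMle' n
      have e4 : Real.log n / ℓ = 1 / ℓ * Real.log n := by ring
      have e5 : 2 / ℓ * Real.log n = 2 * (Real.log n / ℓ) := by ring
      have e6 : (0 : ℝ) ≤ M n := Nat.cast_nonneg _
      nlinarith
    have hhpos : (0 : ℝ) < h n := by exact_mod_cast hh1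
    have c2 : (1 - e) * ((n : ℝ) * (M n + 1)) ≤ m := by
      have e1 := mul_le_mul_of_nonneg_left hdet' (by linarith : 0 ≤ 1 - e)
      have e2 := mul_le_mul_of_nonneg_left c1 hm0
      have e3 : (1 - e) * ((n : ℝ) * (M n + 1)) * h n ≤ m * h n := by linarith
      exact le_of_mul_le_mul_right e3 hhpos
    have c3 := mul_le_mul_of_nonneg_left (hMge n) (by
      have : 0 ≤ 1 - e := by linarith
      positivity : 0 ≤ (1 - e) * (n : ℝ))
    have c4 : (1 - 2 * e) * ((n : ℝ) * (Real.log n / ℓ)) ≤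
        (1 - e) * (n : ℝ) * ((1 - e) * (Real.log n / ℓ)) := by
      have e1 : (1 - e) * (n : ℝ) * ((1 - e) * (Real.log n / ℓ)) =
        (1 - 2 * e + e ^ 2) * ((n : ℝ) * (Real.log n / ℓ)) := by ring
      rw [e1]
      apply mul_le_mul_of_nonneg_right _ (by positivity)
      nlinarith
    linarith

end Pool.Agent.H62.Sat
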