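import Pool.Agent.H62.Sat.Asym
import Pool.Agent.H62.Sat.Fail

set_option autoImplicit false

/-! The failure probabilities tend to zero. -/

namespace Pool.Agent.H62.Sat

open Filter Topology

theorem fR_eq (p : ℝ) (n M b : ℕ) (W : ℝ) : fR p n M b W =
    Real.exp (M * Real.log ((n : ℝ) + 1) + b * Real.log 2 - p ^ M * (W - M) / 2) := by
  unfold fR
  have h1 : ((n : ℝ) + 1) ^ M = Real.exp (M * Real.log ((n : ℝ) + 1)) := by
    rw [Real.exp_nat_mul, Real.exp_log (by positivity)]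
  have h2 : (2 : ℝ) ^ b = Real.exp (b * Real.log 2) := by
    rw [Real.exp_nat_mul, Real.exp_log (by positivity)]
  rw [h1, h2, ← Real.exp_add, ← Real.exp_add]
  congr 1
  ring

theorem fT_eq (p : ℝ) {n : ℕ} (hn : 0 < n) (m l K : ℕ) : fT p n m l K =
    Real.exp ((m * l : ℕ) * Real.log n - K * Real.log 4 + 3 * (1 - p ^ l) ^ m * n) := by
  unfold fT
  have hn' : (0 : ℝ) < n := by exact_mod_cast hn
  have h1 : (n : ℝ) ^ (m * l) = Real.exp ((m * l : ℕ) * Real.log n) := by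
    rw [Real.exp_nat_mul, Real.exp_log hn']
  have h2 : (1 / 4 : ℝ) ^ K = Real.exp (-(K * Real.log 4)) := by
    rw [Real.exp_neg, Real.exp_nat_mul, Real.exp_log (by positivity), one_div, inv_pow]
  rw [h1, h2, ← Real.exp_add, ← Real.exp_add]
  congr 1
  ring

theorem log2_le : Real.log 2 ≤ 1 := by
  have := Real.log_le_sub_one_of_pos (x := 2) (by norm_num)
  linarith

theorem log4_ge : 1 ≤ Real.log 4 := by
  rw [Real.le_log_iff_exp_le (by norm_num)]
  have := Real.exp_one_lt_d9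
  linarith

theorem lim_fR {p : ℝ} (M b : ℕ → ℕ) (W : ℕ → ℝ) {C c : ℝ} (hc : 0 < c)
    (h : ∀ᶠ n : ℕ in atTop, M n * Real.log ((n : ℝ) + 1) + b n * Real.log 2 -
      p ^ (M n) * (W n - M n) / 2 ≤ C - c * Real.log n) :
    Tendsto (fun n => fR p n (M n) (b n) (W n)) atTop (𝓝 0) := by
  refine lim_exp (Eventually.of_forall fun n => ?_) (Eventually.of_forall fun n => ?_)
    (lim_bot hc h)
  · rw [fR_eq]; positivity
  · rw [fR_eq]

theorem lim_fT {p : ℝ} (m l K : ℕ → ℕ) {C c : ℝ} (hc : 0 < c)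
    (h : ∀ᶠ n : ℕ in atTop, (m n * l n : ℕ) * Real.log n - K n * Real.log 4 +
      3 * (1 - p ^ (l n)) ^ (m n) * n ≤ C - c * Real.log n) :
    Tendsto (fun n => fT p n (m n) (l n) (K n)) atTop (𝓝 0) := by
  refine lim_exp ?_ ?_ (lim_bot hc h)
  · filter_upwards [eventually_gt_atTop 0] with n hn
    rw [fT_eq p hn]; positivity
  · filter_upwards [eventually_gt_atTop 0] with n hn
    rw [fT_eq p hn]

/-- degrees -/
theorem lim_deg {c : ℝ} (hc : 0 < c) :
    Tendsto (fun n : ℕ => (n : ℝ) * Real.exp (-(c * ((n : ℝ) - 1)))) atTop (𝓝 0) := by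
  refine lim_exp (X := fun n => Real.log n - c * ((n : ℝ) - 1))
    (Eventually.of_forall fun n => by positivity) ?_ (lim_bot (c := 1) (C := c) one_pos ?_)
  · filter_upwards [eventually_gt_atTop 0] with n hn
    have hn' : (0 : ℝ) < n := by exact_mod_cast hn
    rw [Real.exp_sub, Real.exp_log hn', Real.exp_neg, div_eq_mul_inv]
  · filter_upwards [ev_log_n (2 / c) 1] with n hn
    rw [pow_one] at hn
    have : 2 / c * Real.log n * c ≤ n * c := mul_le_mul_of_nonneg_right hn hc.le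
    have h2 : 2 / c * Real.log n * c = 2 * Real.log n := by field_simp
    linarith

/-- common neighbourhoods in the pool -/
theorem lim_common {p a : ℝ} (h0 : 0 < p) (h1 : p < 1) (ha : 0 ≤ a)
    (hap : a * Real.log (1 / p) ≤ 1 / 8)
    (s0 s1 : ℕ → ℕ) (P : ℕ → ℝ) (hs0 : ∀ᶠ n : ℕ in atTop, (s0 n : ℝ) ≤ a * Real.log n)
    (hs1 : ∀ᶠ n : ℕ in atTop, (s1 n : ℝ) ≤ Real.sqrt n + 2)
    (hP : ∀ᶠ n : ℕ in atTop, (n : ℝ) / 2 ≤ P n) :
    Tendsto (fun n => fR p n (s0 n) (s1 n) (P n)) atTop (𝓝 0) := by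
  have hlp : 0 < Real.log (1 / p) := by
    apply Real.log_pos
    rw [lt_div_iff₀ h0]; linarith
  refine lim_fR (C := 0) (c := 1) s0 s1 P one_pos ?_
  filter_upwards [hs0, hs1, hP, ev_log_succ, ev_log 1, ev_log_sqrt (2 * a) 2, ev_log_sqrt 1 1,
    ev_rpow 40 (a := 1 / 2) (b := 7 / 8) (by norm_num), eventually_gt_atTop 0,
    ev_log_n (4 * a) 1, ev_n 4] with n g1 g2 g3 g4 g5 g6 g7 g8 g9 g10 g11
  have hn : (0 : ℝ) < n := by exact_mod_cast g9
  have hs : 1 ≤ Real.sqrt n := by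
    rw [Real.one_le_sqrt]; linarith
  rw [← Real.sqrt_eq_rpow] at g8
  rw [pow_one] at g7 g10
  -- the power of `p`
  have hpow : (n : ℝ) ^ (-(1 / 8) : ℝ) ≤ p ^ (s0 n) := by
    have e1 : p ^ (s0 n) = Real.exp (-(s0 n * Real.log (1 / p))) := by
      rw [one_div, Real.log_inv, mul_neg, neg_neg, Real.exp_nat_mul, Real.exp_log h0]
    rw [e1, Real.rpow_def_of_pos hn]
    apply Real.exp_le_exp.mpr
    have e2 : (s0 n : ℝ) * Real.log (1 / p) ≤ a * Real.log n * Real.log (1 / p) :=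
      mul_le_mul_of_nonneg_right g1 hlp.le
    have e3 : a * Real.log (1 / p) * Real.log n ≤ 1 / 8 * Real.log n :=
      mul_le_mul_of_nonneg_right hap (by linarith)
    linarith
  have hW : (n : ℝ) / 4 ≤ P n - s0 n := by linarith
  have hprod : (n : ℝ) ^ (-(1 / 8) : ℝ) * ((n : ℝ) / 4) ≤ p ^ (s0 n) * (P n - s0 n) :=
    mul_le_mul hpow hW (by positivity) (by positivity)
  have hrp : (n : ℝ) ^ (-(1 / 8) : ℝ) * (n : ℝ) = (n : ℝ) ^ (7 / 8 : ℝ) := by
    conv_lhs => rw [← Real.rpow_one (n : ℝ), ← Real.rpow_mul hn.le, ← Real.rpow_add hn]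
    norm_num
  have e4 : (s0 n : ℝ) * Real.log ((n : ℝ) + 1) ≤ a * Real.log n * (2 * Real.log n) :=
    mul_le_mul g1 g4 (Real.log_nonneg (by linarith)) (by positivity)
  have e5 : (s1 n : ℝ) * Real.log 2 ≤ (Real.sqrt n + 2) * 1 :=
    mul_le_mul g2 log2_le (Real.log_nonneg (by norm_num)) (by positivity)
  nlinarith

/-- richness with a constant number of vertices, linear size -/
theorem lim_richM {p : ℝ} (h0 : 0 < p) (h1 : p < 1) (M k : ℕ) (e3 β : ℝ) (hβ : 0 < β)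
    (he : e3 ≤ p ^ M * β / 4) (b : ℕ → ℕ) (W : ℕ → ℝ)
    (hb : ∀ᶠ n : ℕ in atTop, (b n : ℝ) ≤ e3 * n + k) (hW : ∀ᶠ n : ℕ in atTop, β * n ≤ W n) :
    Tendsto (fun n => fR p n M (b n) (W n)) atTop (𝓝 0) := by
  have hpM : 0 < p ^ M := by positivity
  refine lim_fR (C := k + M) (c := 1) (fun _ => M) b W one_pos ?_
  filter_upwards [hb, hW, ev_log_succ, ev_log 1,
    ev_log_n ((2 * M + 1) / (p ^ M * β / 4)) 1] with n g1 g2 g3 g4 g5
  rw [pow_one] at g5
  have hq : 0 < p ^ M * β / 4 := by positivity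
  have e1 : (2 * M + 1) * Real.log n ≤ (p ^ M * β / 4) * n := by
    have := mul_le_mul_of_nonneg_right g5 hq.le
    have h2 : (2 * M + 1) / (p ^ M * β / 4) * Real.log n * (p ^ M * β / 4) =
      (2 * M + 1) * Real.log n := by field_simp
    linarith
  have e2 : (M : ℝ) * Real.log ((n : ℝ) + 1) ≤ M * (2 * Real.log n) :=
    mul_le_mul_of_nonneg_left g3 (Nat.cast_nonneg _)
  have hb0 : (0 : ℝ) ≤ b n := Nat.cast_nonneg _
  have e3' : (b n : ℝ) * Real.log 2 ≤ (e3 * n + k) * 1 :=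
    mul_le_mul g1 log2_le (Real.log_nonneg (by norm_num)) (hb0.trans g1)
  have e4 : p ^ M * (β * n) ≤ p ^ M * W n := mul_le_mul_of_nonneg_left g2 hpM.le
  have e5 : p ^ M * M ≤ M := by
    have := pow_le_one₀ h0.le h1.le (n := M)
    nlinarith [(Nat.cast_nonneg M : (0 : ℝ) ≤ M)]
  have e6 : e3 * n ≤ p ^ M * β / 4 * n := mul_le_mul_of_nonneg_right he (Nat.cast_nonneg _)
  have e7 : p ^ M * (W n - M) = p ^ M * W n - p ^ M * M := by ring
  rw [e7]
  linarith

/-- richness with a constant number of vertices, size at least `√n`, with a factor -/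
theorem lim_richL {p : ℝ} (h0 : 0 < p) (h1 : p < 1) (M k : ℕ) (W : ℕ → ℝ) (t : ℕ → ℕ)
    (ht : ∀ᶠ n : ℕ in atTop, (t n : ℝ) ≤ n)
    (hW : ∀ᶠ n : ℕ in atTop, Real.sqrt n ≤ W n) :
    Tendsto (fun n => (t n : ℝ) * fR p n M k (W n)) atTop (𝓝 0) := by
  have hpM : 0 < p ^ M := by positivity
  refine lim_exp (X := fun n => Real.log n + (M * Real.log ((n : ℝ) + 1) + k * Real.log 2 -
    p ^ M * (W n - M) / 2)) (Eventually.of_forall fun n => ?_) ?_
    (lim_bot (c := 1) (C := k + M) one_pos ?_)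
  · rw [fR_eq]; positivity
  · filter_upwards [ht, eventually_gt_atTop 0] with n hn h2
    have hn' : (0 : ℝ) < n := by exact_mod_cast h2
    rw [fR_eq, Real.exp_add, Real.exp_log hn']
    exact mul_le_mul_of_nonneg_right hn (Real.exp_pos _).le
  · filter_upwards [hW, ev_log_succ, ev_log 1,
      ev_log_sqrt ((2 * M + 2) / (p ^ M / 2)) 1] with n g2 g3 g4 g5
    rw [pow_one] at g5
    have hq : 0 < p ^ M / 2 := by positivity
    have e1 : (2 * M + 2) * Real.log n ≤ (p ^ M / 2) * Real.sqrt n := by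
      have := mul_le_mul_of_nonneg_right g5 hq.le
      have h2 : (2 * M + 2) / (p ^ M / 2) * Real.log n * (p ^ M / 2) =
        (2 * M + 2) * Real.log n := by field_simp
      linarith
    have e2 : (M : ℝ) * Real.log ((n : ℝ) + 1) ≤ M * (2 * Real.log n) :=
      mul_le_mul_of_nonneg_left g3 (Nat.cast_nonneg _)
    have e3' : (k : ℝ) * Real.log 2 ≤ k * 1 :=
      mul_le_mul_of_nonneg_left log2_le (Nat.cast_nonneg _)
    have e4 : p ^ M * Real.sqrt n ≤ p ^ M * W n := mul_le_mul_of_nonneg_left g2 hpM.le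
    have e5 : p ^ M * M ≤ M := by
      have := pow_le_one₀ h0.le h1.le (n := M)
      nlinarith [(Nat.cast_nonneg M : (0 : ℝ) ≤ M)]
    have e7 : p ^ M * (W n - M) = p ^ M * W n - p ^ M * M := by ring
    rw [e7]
    linarith

/-- common neighbourhoods in the second part -/
theorem lim_P2 {p : ℝ} (h0 : 0 < p) (h1 : p < 1) (k : ℕ) (b : ℕ → ℕ) (W : ℕ → ℝ) (C w : ℝ)
    (hb : ∀ᶠ n : ℕ in atTop, (b n : ℝ) ≤ p ^ k / 4 * W n + C)
    (hw : 2 * k + 1 ≤ p ^ k / 4 * w)
    (hW : ∀ᶠ n : ℕ in atTop, w * Real.log n - C ≤ W n) :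
    Tendsto (fun n => fR p n k (b n) (W n)) atTop (𝓝 0) := by
  have hpk : 0 < p ^ k := by positivity
  refine lim_fR (C := C + k + p ^ k / 4 * C) (c := 1) (fun _ => k) b W one_pos ?_
  filter_upwards [hb, hW, ev_log_succ, ev_log 1] with n g1 g2 g3 g4
  have e2 : (k : ℝ) * Real.log ((n : ℝ) + 1) ≤ k * (2 * Real.log n) :=
    mul_le_mul_of_nonneg_left g3 (Nat.cast_nonneg _)
  have hb0 : (0 : ℝ) ≤ b n := Nat.cast_nonneg _
  have e3' : (b n : ℝ) * Real.log 2 ≤ (p ^ k / 4 * W n + C) * 1 :=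
    mul_le_mul g1 log2_le (Real.log_nonneg (by norm_num)) (hb0.trans g1)
  have e5 : p ^ k * k ≤ k := by
    have := pow_le_one₀ h0.le h1.le (n := k)
    nlinarith [(Nat.cast_nonneg k : (0 : ℝ) ≤ k)]
  have e6 : p ^ k / 4 * (w * Real.log n - C) ≤ p ^ k / 4 * W n :=
    mul_le_mul_of_nonneg_left g2 (by positivity)
  have e8 : (2 * k + 1) * Real.log n ≤ p ^ k / 4 * w * Real.log n :=
    mul_le_mul_of_nonneg_right hw (by linarith)
  have e7 : p ^ k * (W n - k) = p ^ k * W n - p ^ k * k := by ring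
  rw [e7]
  nlinarith

/-- vertices without type, first kind -/
theorem lim_typM {p : ℝ} (m l : ℕ) (e1 : ℝ) (he1 : 0 < e1)
    (hg : 3 * (1 - p ^ l) ^ m ≤ e1 / 2) (K : ℕ → ℕ)
    (hK : ∀ᶠ n : ℕ in atTop, e1 * n ≤ K n) :
    Tendsto (fun n => fT p n m l (K n)) atTop (𝓝 0) := by
  refine lim_fT (C := 0) (c := 1) (fun _ => m) (fun _ => l) K one_pos ?_
  filter_upwards [hK, ev_log 1, ev_log_n ((m * l + 1) / (e1 / 2)) 1] with n g1 g2 g3
  rw [pow_one] at g3
  have e1' : (m * l + 1) * Real.log n ≤ (e1 / 2) * n := by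
    have := mul_le_mul_of_nonneg_right g3 (by positivity : 0 ≤ e1 / 2)
    have h2 : (m * l + 1) / (e1 / 2) * Real.log n * (e1 / 2) = (m * l + 1) * Real.log n := by
      field_simp
    linarith
  have e2 : (K n : ℝ) * 1 ≤ K n * Real.log 4 :=
    mul_le_mul_of_nonneg_left log4_ge (Nat.cast_nonneg _)
  have e3 : 3 * (1 - p ^ l) ^ m * n ≤ e1 / 2 * n :=
    mul_le_mul_of_nonneg_right hg (Nat.cast_nonneg _)
  push_cast
  nlinarith

/-- vertices without type, second kind -/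
theorem lim_typL {p : ℝ} (l : ℕ) (CL : ℝ) (m K : ℕ → ℕ)
    (hm : ∀ᶠ n : ℕ in atTop, (m n : ℝ) ≤ CL * Real.log n + 2)
    (hg : ∀ᶠ n : ℕ in atTop, (1 - p ^ l) ^ (m n) * n ≤ 1)
    (hK : ∀ᶠ n : ℕ in atTop, Real.sqrt n ≤ K n) :
    Tendsto (fun n => fT p n (m n) l (K n)) atTop (𝓝 0) := by
  refine lim_fT (C := 3) (c := 1) m (fun _ => l) K one_pos ?_
  filter_upwards [hm, hg, hK, ev_log 1, ev_log_sqrt ((CL + 2) * l + 1) 2] with n g1 g2 g3 g4 g5
  have e2 : (K n : ℝ) * 1 ≤ K n * Real.log 4 :=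
    mul_le_mul_of_nonneg_left log4_ge (Nat.cast_nonneg _)
  have e1 : (m n : ℝ) * l * Real.log n ≤ ((CL + 2) * Real.log n) * l * Real.log n := by
    apply mul_le_mul_of_nonneg_right _ (by linarith)
    apply mul_le_mul_of_nonneg_right _ (Nat.cast_nonneg _)
    nlinarith
  have e4 : Real.log n ≤ Real.log n ^ 2 := by nlinarith
  push_cast
  nlinarith

/-- normal vertices -/
theorem lim_nrm {c e3 : ℝ} (hc : 0 < c) (he3 : 0 < e3) (cI : ℕ) (N K : ℕ → ℕ)
    (hN : Tendsto (fun n => (N n : ℝ)) atTop atTop)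
    (hK : ∀ᶠ n : ℕ in atTop, e3 * n ≤ K n) :
    Tendsto (fun n : ℕ => (1 / 4 : ℝ) ^ (K n) *
      Real.exp (3 * (cI * Real.exp (-(c * N n))) * n)) atTop (𝓝 0) := by
  have hlim : Tendsto (fun n => 3 * ((cI : ℝ) * Real.exp (-(c * N n)))) atTop (𝓝 0) := by
    have h1 : Tendsto (fun n => Real.exp (-(c * N n))) atTop (𝓝 0) := by
      apply Real.tendsto_exp_atBot.comp
      apply tendsto_neg_atTop_atBot.comp
      exact hN.const_mul_atTop hc
    have h2 := (h1.const_mul (cI : ℝ)).const_mul 3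
    simpa using h2
  have hev := hlim.eventually_le_const (show (0 : ℝ) < e3 / 2 by positivity)
  refine lim_exp (X := fun n => -(K n * Real.log 4) +
    3 * (cI * Real.exp (-(c * N n))) * n) (Eventually.of_forall fun n => by positivity)
    (Eventually.of_forall fun n => ?_) (lim_bot (c := 1) (C := 0) one_pos ?_)
  · have h2 : (1 / 4 : ℝ) ^ (K n) = Real.exp (-(K n * Real.log 4)) := by
      rw [Real.exp_neg, Real.exp_nat_mul, Real.exp_log (by positivity), one_div, inv_pow]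
    rw [h2, ← Real.exp_add]
  · filter_upwards [hK, hev, ev_log_n (1 / (e3 / 2)) 1] with n g1 g2 g3
    rw [pow_one] at g3
    have e1 : Real.log n ≤ (e3 / 2) * n := by
      have := mul_le_mul_of_nonneg_right g3 (by positivity : 0 ≤ e3 / 2)
      have h2 : 1 / (e3 / 2) * Real.log n * (e3 / 2) = Real.log n := by field_simp
      linarith
    have e2 : (K n : ℝ) * 1 ≤ K n * Real.log 4 :=
      mul_le_mul_of_nonneg_left log4_ge (Nat.cast_nonneg _)
    have e3' := mul_le_mul_of_nonneg_right g2 (Nat.cast_nonneg n : (0 : ℝ) ≤ n)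
    linarith

/-- density inside a class -/
theorem lim_dens {p c C : ℝ} (h0 : 0 < p) (hc : 0 < c) (a : ℝ) (N m1 : ℕ → ℕ)
    (hN : ∀ᶠ n : ℕ in atTop, (N n : ℝ) ≤ C * Real.log n)
    (hm : ∀ᶠ n : ℕ in atTop, c * Real.log n ≤ m1 n) :
    Tendsto (fun n : ℕ => a * (4 ^ (N n) * Real.exp (-(p / 8 * (m1 n : ℝ) ^ 2)))) atTop (𝓝 0) := by
  have h : Tendsto (fun n : ℕ => ((4 : ℝ) ^ (N n) * Real.exp (-(p / 8 * (m1 n : ℝ) ^ 2)))) atTop
      (𝓝 0) := by
    refine lim_exp (X := fun n => N n * Real.log 4 - p / 8 * (m1 n : ℝ) ^ 2)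
      (Eventually.of_forall fun n => by positivity)
      (Eventually.of_forall fun n => ?_) (lim_bot (c := 1) (C := 0) one_pos ?_)
    · have h2 : (4 : ℝ) ^ (N n) = Real.exp (N n * Real.log 4) := by
        rw [Real.exp_nat_mul, Real.exp_log (by positivity)]
      rw [h2, ← Real.exp_add, sub_eq_add_neg]
    · filter_upwards [hN, hm, ev_log ((|C| * Real.log 4 + 1) / (p / 8 * c ^ 2)), ev_log 1]
        with n g1 g2 g3 g4
      have hq : 0 < p / 8 * c ^ 2 := by positivity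
      have hl4 : 0 ≤ Real.log 4 := by linarith [log4_ge]
      have e1 : |C| * Real.log 4 + 1 ≤ p / 8 * c ^ 2 * Real.log n := by
        have := mul_le_mul_of_nonneg_right g3 hq.le
        have h2 : (|C| * Real.log 4 + 1) / (p / 8 * c ^ 2) * (p / 8 * c ^ 2) =
          |C| * Real.log 4 + 1 := by field_simp
        linarith
      have e2 : (|C| * Real.log 4 + 1) * Real.log n ≤ p / 8 * c ^ 2 * Real.log n * Real.log n :=
        mul_le_mul_of_nonneg_right e1 (by linarith)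
      have e3 : (N n : ℝ) * Real.log 4 ≤ |C| * Real.log n * Real.log 4 := by
        apply mul_le_mul_of_nonneg_right _ hl4
        refine g1.trans (mul_le_mul_of_nonneg_right (le_abs_self C) (by linarith))
      have e4 : (c * Real.log n) ^ 2 ≤ (m1 n : ℝ) ^ 2 :=
        pow_le_pow_left₀ (by positivity) g2 2
      have e5 := mul_le_mul_of_nonneg_left e4 (by positivity : 0 ≤ p / 8)
      nlinarith
  have := h.const_mul a
  simpa using this

/-- bad pairs -/
theorem lim_pair {p x e C : ℝ} (he : 0 < e) (Kf : ℕ → ℝ) (mt : ℕ → ℕ)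
    (hb : 0 < p * x + (1 - p))
    (h : ∀ᶠ n : ℕ in atTop, Kf n * Real.log (1 / x) + mt n * Real.log (p * x + (1 - p)) ≤
      C - (1 + e) * Real.log n) :
    Tendsto (fun n : ℕ => (n : ℝ) ^ 2 * (Real.exp (Kf n * Real.log (1 / x)) *
      (p * x + (1 - p)) ^ (mt n)) / (n : ℝ)) atTop (𝓝 0) := by
  refine lim_exp (X := fun n => Real.log n + (Kf n * Real.log (1 / x) +
    mt n * Real.log (p * x + (1 - p)))) (Eventually.of_forall fun n => by positivity) ?_
    (lim_bot (c := e) (C := C) he ?_)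
  · filter_upwards [eventually_gt_atTop 0] with n hn
    have hn' : (0 : ℝ) < n := by exact_mod_cast hn
    rw [Real.exp_add, Real.exp_log hn', Real.exp_add, Real.exp_nat_mul, Real.exp_log hb]
    apply le_of_eq
    field_simp
  · filter_upwards [h] with n hn
    linarith

end Pool.Agent.H62.Sat
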