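import Pool.Agent.H62.Sat.Final5
import Pool.Graph.R_seed8.W166.Gnp.Transfer

set_option autoImplicit false

/-! The saturation number of a random graph. -/

namespace Pool.Agent.H62.Sat

open Filter Topology Classical Pool.Agent.W166.Gnp

/-- a graph with an edge all of whose edges are in triangles has chromatic number at least three -/
theorem exists_q {k : ℕ} (F : SimpleGraph (Fin k)) (hne : F.edgeSet.Nonempty)
    (htri : ∀ u v : Fin k, F.Adj u v → ∃ w : Fin k, F.Adj u w ∧ F.Adj v w) :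
    ∃ q : ℕ, 1 ≤ q ∧ 1 ≤ k ∧ ¬ F.Colorable (q + 1) ∧ F.Colorable (q + 2) := by
  obtain ⟨s, hs⟩ := hne
  induction s with
  | _ u v =>
    rw [SimpleGraph.mem_edgeSet] at hs
    obtain ⟨w, hw1, hw2⟩ := htri u v hs
    have hcol : ∃ m, F.Colorable m := ⟨k, by
      have := F.colorable_of_fintype
      rwa [Fintype.card_fin] at this⟩
    have h2 : ¬ F.Colorable 2 := by
      rintro ⟨f⟩
      have e1 := f.valid hs
      have e2 := f.valid hw1
      have e3 := f.valid hw2
      have a1 := (f u).2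
      have a2 := (f v).2
      have a3 := (f w).2
      rw [Ne, Fin.ext_iff] at e1 e2 e3
      omega
    obtain ⟨m, hm1, hm2⟩ : ∃ m, F.Colorable m ∧ ∀ m' < m, ¬ F.Colorable m' :=
      ⟨Nat.find hcol, Nat.find_spec hcol, fun m' h => Nat.find_min hcol h⟩
    have hm3 : 3 ≤ m := by
      by_contra hcon
      exact h2 (hm1.mono (by omega))
    refine ⟨m - 2, by omega, ?_, hm2 _ (by omega), ?_⟩
    · have := u.pos; omega
    · have : m - 2 + 2 = m := by omega
      rwa [this]

theorem whp (p : ℝ) (h0 : 0 < p) (h1 : p < 1) (k : ℕ) (F : SimpleGraph (Fin k))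
    (hne : F.edgeSet.Nonempty)
    (htri : ∀ u v : Fin k, F.Adj u v → ∃ w : Fin k, F.Adj u w ∧ F.Adj v w) (ε : ℝ) (hε : 0 < ε)
    (hε1 : ε ≤ 1 / 2) :
    Tendsto (fun n : ℕ => Pr (allE n) p (fun E =>
      (∃ H : SimpleGraph (Fin n),
          (H ≤ gr E ∧ ¬ F.IsContained H ∧
            ∀ u v : Fin n, (gr E).Adj u v → ¬ H.Adj u v →
              F.IsContained (H ⊔ SimpleGraph.fromEdgeSet {s(u, v)})) ∧
          (H.edgeSet.ncard : ℝ) ≤ (1 + ε) * ((n : ℝ) * Real.logb (1 / (1 - p)) (n : ℝ))) ∧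
      (∀ H : SimpleGraph (Fin n),
          (H ≤ gr E ∧ ¬ F.IsContained H ∧
            ∀ u v : Fin n, (gr E).Adj u v → ¬ H.Adj u v →
              F.IsContained (H ⊔ SimpleGraph.fromEdgeSet {s(u, v)})) →
          (1 - ε) * ((n : ℝ) * Real.logb (1 / (1 - p)) (n : ℝ)) ≤ (H.edgeSet.ncard : ℝ))))
      atTop (𝓝 1) := by
  obtain ⟨q, hq, hk, hF1, hF2⟩ := exists_q F hne htri
  obtain ⟨f1, hf1, hf1'⟩ := upper_whp p h0 h1 k q hk hq F htri hF1 hF2 (ε / 16) (by linarith)
    (by linarith)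
  obtain ⟨f2, hf2, hf2'⟩ := lower_whp p h0 h1 k F htri (ε / 2) (by linarith) (by linarith)
  have hlim : Tendsto (fun n => 1 - (f1 n + f2 n)) atTop (𝓝 1) := by
    have := (hf1.add hf2).const_sub 1
    simpa using this
  refine tendsto_of_tendsto_of_tendsto_of_le_of_le' hlim tendsto_const_nhds ?_
    (Eventually.of_forall fun n => Pr_le_one h0.le h1.le _)
  filter_upwards [hf1', hf2', ev_log 0] with n g1 g2 g3
  have hL : 0 ≤ (n : ℝ) * Real.logb (1 / (1 - p)) n := by
    apply mul_nonneg (Nat.cast_nonneg _)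
    apply div_nonneg g3
    apply Real.log_nonneg
    rw [le_div_iff₀ (by linarith)]
    linarith
  have hor := Pr_or_le h0.le h1.le (E := allE n)
    (fun E => ¬ ∃ H : SimpleGraph (Fin n), H ≤ gr E ∧ ¬ F.IsContained H ∧
        (∀ u v, (gr E).Adj u v → ¬ H.Adj u v →
          F.IsContained (H ⊔ SimpleGraph.fromEdgeSet {s(u, v)})) ∧
        (H.edgeSet.ncard : ℝ) ≤ (1 + 6 * (ε / 16)) * (n * Real.logb (1 / (1 - p)) n))
    (fun E => ¬ ∀ H : SimpleGraph (Fin n), H ≤ gr E → ¬ F.IsContained H →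
        (∀ u v, (gr E).Adj u v → ¬ H.Adj u v →
          F.IsContained (H ⊔ SimpleGraph.fromEdgeSet {s(u, v)})) →
        (1 - 2 * (ε / 2)) * (n * Real.logb (1 / (1 - p)) n) ≤ (H.edgeSet.ncard : ℝ))
  have hnot := Pr_not (E := allE n) (p := p) (fun E =>
      (∃ H : SimpleGraph (Fin n),
          (H ≤ gr E ∧ ¬ F.IsContained H ∧
            ∀ u v : Fin n, (gr E).Adj u v → ¬ H.Adj u v →
              F.IsContained (H ⊔ SimpleGraph.fromEdgeSet {s(u, v)})) ∧
          (H.edgeSet.ncard : ℝ) ≤ (1 + ε) * ((n : ℝ) * Real.logb (1 / (1 - p)) (n : ℝ))) ∧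
      (∀ H : SimpleGraph (Fin n),
          (H ≤ gr E ∧ ¬ F.IsContained H ∧
            ∀ u v : Fin n, (gr E).Adj u v → ¬ H.Adj u v →
              F.IsContained (H ⊔ SimpleGraph.fromEdgeSet {s(u, v)})) →
          (1 - ε) * ((n : ℝ) * Real.logb (1 / (1 - p)) (n : ℝ)) ≤ (H.edgeSet.ncard : ℝ)))
  have hmono := Pr_mono h0.le h1.le (E := allE n) (A := fun E => ¬ ((∃ H : SimpleGraph (Fin n),
          (H ≤ gr E ∧ ¬ F.IsContained H ∧
            ∀ u v : Fin n, (gr E).Adj u v → ¬ H.Adj u v →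
              F.IsContained (H ⊔ SimpleGraph.fromEdgeSet {s(u, v)})) ∧
          (H.edgeSet.ncard : ℝ) ≤ (1 + ε) * ((n : ℝ) * Real.logb (1 / (1 - p)) (n : ℝ))) ∧
      (∀ H : SimpleGraph (Fin n),
          (H ≤ gr E ∧ ¬ F.IsContained H ∧
            ∀ u v : Fin n, (gr E).Adj u v → ¬ H.Adj u v →
              F.IsContained (H ⊔ SimpleGraph.fromEdgeSet {s(u, v)})) →
          (1 - ε) * ((n : ℝ) * Real.logb (1 / (1 - p)) (n : ℝ)) ≤ (H.edgeSet.ncard : ℝ))))
    (B := fun E => (¬ ∃ H : SimpleGraph (Fin n), H ≤ gr E ∧ ¬ F.IsContained H ∧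
        (∀ u v, (gr E).Adj u v → ¬ H.Adj u v →
          F.IsContained (H ⊔ SimpleGraph.fromEdgeSet {s(u, v)})) ∧
        (H.edgeSet.ncard : ℝ) ≤ (1 + 6 * (ε / 16)) * (n * Real.logb (1 / (1 - p)) n)) ∨
      (¬ ∀ H : SimpleGraph (Fin n), H ≤ gr E → ¬ F.IsContained H →
        (∀ u v, (gr E).Adj u v → ¬ H.Adj u v →
          F.IsContained (H ⊔ SimpleGraph.fromEdgeSet {s(u, v)})) →
        (1 - 2 * (ε / 2)) * (n * Real.logb (1 / (1 - p)) n) ≤ (H.edgeSet.ncard : ℝ)))
    (by
      intro E hE hno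
      by_contra hcon
      rw [not_or, not_not, not_not] at hcon
      apply hno
      obtain ⟨⟨H, a1, a2, a3, a4⟩, b⟩ := hcon
      refine ⟨⟨H, ⟨a1, a2, a3⟩, a4.trans ?_⟩, ?_⟩
      · apply mul_le_mul_of_nonneg_right _ hL
        linarith
      · rintro H' ⟨c1, c2, c3⟩
        have := b H' c1 c2 c3
        refine le_trans (le_of_eq ?_) this
        congr 1
        ring)
  rw [hnot] at hmono
  linarith

theorem main_thm (p : ℝ) (h0 : 0 < p) (h1 : p < 1) (k : ℕ) (F : SimpleGraph (Fin k))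
    (hne : F.edgeSet.Nonempty)
    (htri : ∀ u v : Fin k, F.Adj u v → ∃ w : Fin k, F.Adj u w ∧ F.Adj v w) (ε : ℝ) (hε : 0 < ε) :
    Filter.Tendsto
          (fun n : ℕ =>
            ∑ G ∈ (Finset.univ : Finset (SimpleGraph (Fin n))).filter
                (fun G : SimpleGraph (Fin n) =>
                  (∃ H : SimpleGraph (Fin n),
                      (H ≤ G ∧ ¬ F.IsContained H ∧
                        ∀ u v : Fin n, G.Adj u v → ¬ H.Adj u v →
                          F.IsContained (H ⊔ SimpleGraph.fromEdgeSet {s(u, v)})) ∧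
                      (H.edgeSet.ncard : ℝ) ≤ (1 + ε) * ((n : ℝ) * Real.logb (1 / (1 - p)) (n : ℝ))) ∧
                  (∀ H : SimpleGraph (Fin n),
                      (H ≤ G ∧ ¬ F.IsContained H ∧
                        ∀ u v : Fin n, G.Adj u v → ¬ H.Adj u v →
                          F.IsContained (H ⊔ SimpleGraph.fromEdgeSet {s(u, v)})) →
                      (1 - ε) * ((n : ℝ) * Real.logb (1 / (1 - p)) (n : ℝ)) ≤ (H.edgeSet.ncard : ℝ))),
              p ^ G.edgeSet.ncard * (1 - p) ^ (n.choose 2 - G.edgeSet.ncard))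
          Filter.atTop (nhds 1) := by
  have hw := whp p h0 h1 k F hne htri (min ε (1 / 2)) (lt_min hε (by norm_num)) (min_le_right _ _)
  refine tendsto_of_tendsto_of_tendsto_of_le_of_le' hw tendsto_const_nhds ?_ ?_
  · filter_upwards [ev_log 0] with n g3
    have hL : 0 ≤ (n : ℝ) * Real.logb (1 / (1 - p)) n := by
      apply mul_nonneg (Nat.cast_nonneg _)
      apply div_nonneg g3
      apply Real.log_nonneg
      rw [le_div_iff₀ (by linarith)]
      linarith
    rw [Finset.sum_filter, sum_eq_Pr]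
    apply Pr_mono h0.le h1.le
    rintro E _ ⟨⟨H, a1, a2⟩, b⟩
    refine ⟨⟨H, a1, a2.trans ?_⟩, fun H' h' => le_trans ?_ (b H' h')⟩
    · apply mul_le_mul_of_nonneg_right _ hL
      have := min_le_left ε (1 / 2)
      linarith
    · apply mul_le_mul_of_nonneg_right _ hL
      have := min_le_left ε (1 / 2)
      linarith
  · refine Eventually.of_forall fun n => ?_
    rw [Finset.sum_filter, sum_eq_Pr]
    exact Pr_le_one h0.le h1.le _

end Pool.Agent.H62.Sat
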