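import Mathlib

set_option autoImplicit false

/-! The finite label graph that describes the copies of `F` in the initial graph. -/

namespace Pool.Agent.H62.Sat

/-- labels -/
inductive Lab (I T L : Type) (q k : ℕ) : Type
  | a1 (i : I) (c : Fin q) : Lab I T L q k
  | a2 (c : Fin q) : Lab I T L q k
  | y (τ : T) (c : Fin q) : Lab I T L q k
  | bM (τ : T) : Lab I T L q k
  | bL (σ : L) : Lab I T L q k
  | xM (τ : T) (i : I) (u : Fin k) : Lab I T L q k
  | xL (σ : L) (u : Fin k) : Lab I T L q k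

variable {I T L : Type} {q k : ℕ}

/-- one-sided adjacency of labels -/
def M1 (sM : T × I → ℕ) (sL : L → ℕ) : Lab I T L q k → Lab I T L q k → Prop
  | .a1 i c, .a1 i' c' => i = i' ∧ c ≠ c'
  | .a1 _ _, .bM _ => True
  | .a1 _ _, .bL _ => True
  | .a1 i _, .xM _ i' _ => i = i'
  | .a2 c, .a2 c' => c ≠ c'
  | .a2 _, .bL _ => True
  | .a2 _, .xL _ _ => True
  | .y τ c, .y τ' c' => τ = τ' ∧ c ≠ c'
  | .y τ _, .bM τ' => τ = τ'
  | .y _ _, .xL _ _ => True
  | .xM τ i u, .bM τ' => τ = τ' ∧ (u : ℕ) < sM (τ, i)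
  | .xL σ u, .bL σ' => σ = σ' ∧ (u : ℕ) < sL σ
  | _, _ => False

/-- adjacency of labels -/
def MM (sM : T × I → ℕ) (sL : L → ℕ) (a b : Lab I T L q k) : Prop :=
  M1 sM sL a b ∨ M1 sM sL b a

/-- the labels of single vertices -/
def isX : Lab I T L q k → Prop
  | .xM _ _ _ => True
  | .xL _ _ => True
  | _ => False

/-- admissible maps from `F` to the label graph -/
structure IsHom (F : SimpleGraph (Fin k)) (sM : T × I → ℕ) (sL : L → ℕ)
    (ψ : Fin k → Lab I T L q k) : Prop where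
  adj : ∀ f g, F.Adj f g → MM sM sL (ψ f) (ψ g)
  inj : ∀ f g, ψ f = ψ g → isX (ψ f) → f = g

theorem exists_max {ι : Type} [Fintype ι] [DecidableEq ι] (P : (ι → ℕ) → Prop) (K : ℕ)
    (h0 : P 0) (hK : ∀ s, P s → ∀ i, s i < K) :
    ∃ s, P s ∧ ∀ i, ¬ P (Function.update s i (s i + 1)) := by
  by_contra hcon
  push Not at hcon
  have key : ∀ m : ℕ, ∃ s, P s ∧ ∑ i, s i = m := by
    intro m
    induction m with
    | zero => exact ⟨0, h0, by simp⟩
    | succ m ih =>
      obtain ⟨s, hs, hsm⟩ := ih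
      obtain ⟨i, hi⟩ := hcon s hs
      refine ⟨_, hi, ?_⟩
      rw [Finset.sum_update_of_mem (Finset.mem_univ i)]
      have : ∑ x, s x = s i + ∑ x ∈ Finset.univ \ {i}, s x := by
        rw [← Finset.sum_sdiff (Finset.subset_univ {i})]
        simp [add_comm]
      omega
  obtain ⟨s, hs, hsm⟩ := key (K * Fintype.card ι + 1)
  have : ∑ i, s i ≤ ∑ _i : ι, K := Finset.sum_le_sum (fun i _ => (hK s hs i).le)
  rw [Finset.sum_const, Finset.card_univ, smul_eq_mul] at this
  have h2 := mul_comm K (Fintype.card ι)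
  omega

/-- colouring of the label graph without hub edges -/
def labCol : Lab I T L q k → Fin (q + 1)
  | .a1 _ c => c.castSucc
  | .a2 c => c.castSucc
  | .y _ c => c.castSucc
  | .bM _ => Fin.last q
  | .bL _ => Fin.last q
  | .xM _ _ _ => Fin.last q
  | .xL _ _ => Fin.last q

theorem labCol_ne (a b : Lab I T L q k) (h : MM 0 0 a b) : labCol a ≠ labCol b := by
  rcases h with h | h <;> cases a <;> cases b <;>
    simp_all [M1, labCol, Fin.ext_iff, (Fin.is_lt _).ne, (Fin.is_lt _).ne'] <;>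
    first | omega | (intro h'; exact absurd h'.symm h.2) | skip

theorem not_hom_zero (F : SimpleGraph (Fin k)) (hF : ¬ F.Colorable (q + 1)) :
    ¬ ∃ ψ : Fin k → Lab I T L q k, IsHom F 0 0 ψ := by
  rintro ⟨ψ, hψ⟩
  apply hF
  exact ⟨SimpleGraph.Coloring.mk (fun f => labCol (ψ f)) (fun {f g} h =>
    labCol_ne _ _ (hψ.adj f g h))⟩

/-- the colour classes of `F` mapped to a full hub of the second kind -/
theorem lt_sL (F : SimpleGraph (Fin k)) (hF : F.Colorable (q + 2)) (sL : L → ℕ)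
    (h : ¬ ∃ ψ : Fin k → Lab I T L q k, IsHom F 0 sL ψ) (σ : L) : sL σ < k := by
  by_contra hk
  push Not at hk
  apply h
  obtain ⟨col⟩ := hF
  refine ⟨fun f => if hc : (col f : ℕ) < q then Lab.a2 ⟨col f, hc⟩ else
    if (col f : ℕ) = q then Lab.xL σ f else Lab.bL σ, ?_, ?_⟩
  · intro f g hfg
    have hne : (col f : ℕ) ≠ col g := fun h => col.valid hfg (Fin.ext h)
    have hf := (col f).is_lt
    have hg := (col g).is_lt
    have hfk := f.is_lt
    have hgk := g.is_lt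
    beta_reduce
    split_ifs with h1 h2 h3 h4 h5 h6 h7 <;> simp [MM, M1] <;> omega
  · intro f g
    beta_reduce
    split_ifs <;> simp [isX]

theorem lt_sM (F : SimpleGraph (Fin k)) (hF : F.Colorable (q + 2)) (sM : T × I → ℕ) (sL : L → ℕ)
    (h : ¬ ∃ ψ : Fin k → Lab I T L q k, IsHom F sM sL ψ) (τ : T × I) : sM τ < k := by
  by_contra hk
  push Not at hk
  apply h
  obtain ⟨col⟩ := hF
  refine ⟨fun f => if hc : (col f : ℕ) < q then Lab.a1 τ.2 ⟨col f, hc⟩ else
    if (col f : ℕ) = q then Lab.xM τ.1 τ.2 f else Lab.bM τ.1, ?_, ?_⟩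
  · intro f g hfg
    have hne : (col f : ℕ) ≠ col g := fun h => col.valid hfg (Fin.ext h)
    have hf := (col f).is_lt
    have hg := (col g).is_lt
    have hfk := f.is_lt
    have hgk := g.is_lt
    beta_reduce
    split_ifs with h1 h2 h3 h4 h5 h6 h7 <;> simp [MM, M1] <;> omega
  · intro f g
    beta_reduce
    split_ifs <;> simp [isX]

variable [Fintype I] [Fintype T] [Fintype L] [DecidableEq I] [DecidableEq T] [DecidableEq L]

/-- the maximal parameters -/
theorem exists_params (F : SimpleGraph (Fin k)) (hF : ¬ F.Colorable (q + 1))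
    (hF2 : F.Colorable (q + 2)) :
    ∃ (sM : T × I → ℕ) (sL : L → ℕ),
      (¬ ∃ ψ : Fin k → Lab I T L q k, IsHom F sM sL ψ) ∧
      (∀ σ, ∃ ψ : Fin k → Lab I T L q k, IsHom F 0 (Function.update sL σ (sL σ + 1)) ψ) ∧
      (∀ τ, ∃ ψ : Fin k → Lab I T L q k, IsHom F (Function.update sM τ (sM τ + 1)) sL ψ) := by
  obtain ⟨sL, h1, h2⟩ := exists_max
    (fun s : L → ℕ => ¬ ∃ ψ : Fin k → Lab I T L q k, IsHom F 0 s ψ) k (not_hom_zero F hF)
    (fun s hs σ => lt_sL F hF2 s hs σ)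
  obtain ⟨sM, h3, h4⟩ := exists_max
    (fun s : T × I → ℕ => ¬ ∃ ψ : Fin k → Lab I T L q k, IsHom F s sL ψ) k h1
    (fun s hs σ => lt_sM F hF2 s sL hs σ)
  exact ⟨sM, sL, h3, fun σ => not_not.mp (h2 σ), fun τ => not_not.mp (h4 τ)⟩

end Pool.Agent.H62.Sat
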