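import Pool.Graph.R_seed8.W166.Gnp.Row
import Pool.Graph.R_seed8.W166.Gnp.Transfer

set_option autoImplicit false

/-! Probability estimates for the random graph. -/

namespace Pool.Agent.H62.Sat

open Finset Classical Pool.Agent.W166.Gnp

section general

variable {α : Type} [DecidableEq α]

theorem Pr_eq_set {E S0 : Finset α} (h : S0 ⊆ E) (p : ℝ) :
    Pr E p (fun S => S = S0) = p ^ S0.card * (1 - p) ^ (E.card - S0.card) := by
  unfold Pr Ex
  rw [sum_eq_single S0]
  · simp
  · intro S _ hne
    beta_reduce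
    rw [if_neg hne, mul_zero]
  · intro hn
    exact absurd (mem_powerset.mpr h) hn

theorem Ex_pow_card {E Z : Finset α} (hZ : Z ⊆ E) (p x : ℝ) :
    Ex E p (fun S => x ^ (S ∩ Z).card) = (p * x + (1 - p)) ^ Z.card := by
  rw [Ex_marg (E1 := Z) hZ]
  · unfold Ex
    rw [← Finset.sum_pow_mul_eq_add_pow]
    apply sum_congr rfl
    intro S hS
    rw [mem_powerset] at hS
    beta_reduce
    rw [inter_eq_left.mpr hS, mul_pow]
    ring
  · intro S _
    rw [inter_assoc, inter_self]

/-- upper tail for the number of elements of a given subset -/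
theorem card_upper {E Z : Finset α} (hZ : Z ⊆ E) {p : ℝ} (h0 : 0 ≤ p) (h1 : p ≤ 1) {ε : ℝ}
    (he : 0 ≤ ε) (he1 : ε ≤ 1) :
    Pr E p (fun S => (1 + 2 * ε) * (p * Z.card) ≤ ((S ∩ Z).card : ℝ)) ≤
      Real.exp (-(ε ^ 2 * (p * Z.card))) := by
  have hp : 0 ≤ p * (Z.card : ℝ) := mul_nonneg h0 (Nat.cast_nonneg _)
  calc Pr E p (fun S => (1 + 2 * ε) * (p * Z.card) ≤ ((S ∩ Z).card : ℝ))
      ≤ Ex E p (fun S => Real.exp (-(ε * ((1 + 2 * ε) * (p * Z.card)))) *
          Real.exp ε ^ (S ∩ Z).card) := by
        apply Pr_le_Ex h0 h1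
        · intro S _; positivity
        · intro S _ hS
          rw [← Real.exp_nat_mul, ← Real.exp_add]
          apply Real.one_le_exp
          nlinarith
    _ = Real.exp (-(ε * ((1 + 2 * ε) * (p * Z.card)))) * (p * Real.exp ε + (1 - p)) ^ Z.card := by
        rw [Ex_smul, Ex_pow_card hZ]
    _ ≤ Real.exp (-(ε * ((1 + 2 * ε) * (p * Z.card)))) *
          Real.exp (p * (ε + ε ^ 2)) ^ Z.card := by
        apply mul_le_mul_of_nonneg_left _ (Real.exp_pos _).le
        apply pow_le_pow_left₀
        · have := Real.exp_pos ε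
          have : 0 ≤ p * Real.exp ε := by positivity
          linarith
        · have h2 : Real.exp ε ≤ 1 + ε + ε ^ 2 := by
            have := Real.abs_exp_sub_one_sub_id_le (x := ε) (by rw [abs_of_nonneg he]; exact he1)
            have h3 := le_abs_self (Real.exp ε - 1 - ε)
            linarith
          have h3 := Real.add_one_le_exp (p * (ε + ε ^ 2))
          nlinarith
    _ = Real.exp (-(ε ^ 2 * (p * Z.card))) := by
        rw [← Real.exp_nat_mul, ← Real.exp_add]
        congr 1
        ring

/-- the probability that few elements of a given subset are taken -/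
theorem card_few {E Z : Finset α} (hZ : Z ⊆ E) {p : ℝ} (h0 : 0 ≤ p) (h1 : p ≤ 1) {x : ℝ}
    (hx : 0 < x) (hx1 : x ≤ 1) (K : ℝ) :
    Pr E p (fun S => ((S ∩ Z).card : ℝ) < K) ≤
      Real.exp (K * Real.log (1 / x)) * (p * x + (1 - p)) ^ Z.card := by
  calc Pr E p (fun S => ((S ∩ Z).card : ℝ) < K)
      ≤ Ex E p (fun S => Real.exp (K * Real.log (1 / x)) * x ^ (S ∩ Z).card) := by
        apply Pr_le_Ex h0 h1
        · intro S _; positivity
        · intro S _ hS
          have h2 : x ^ (S ∩ Z).card = Real.exp (-(((S ∩ Z).card : ℝ) * Real.log (1 / x))) := by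
            rw [one_div, Real.log_inv]
            rw [mul_neg, neg_neg, Real.exp_nat_mul, Real.exp_log hx]
          rw [h2, ← Real.exp_add]
          apply Real.one_le_exp
          have h3 : 0 ≤ Real.log (1 / x) := by
            apply Real.log_nonneg
            rw [le_div_iff₀ hx]; linarith
          nlinarith
    _ = _ := by rw [Ex_smul, Ex_pow_card hZ]

end general

section graph

variable {n : ℕ} {p : ℝ}

theorem row_sub_allE {t : Fin n} {Z : Finset (Fin n)} (h : t ∉ Z) : row t Z ⊆ allE n := by
  intro e he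
  rw [mem_row] at he
  obtain ⟨a, ha, rfl⟩ := he
  rw [mem_allE]
  rintro rfl
  exact h ha

theorem row_subset_iff {t : Fin n} {Z : Finset (Fin n)} {S : Finset (Sym2 (Fin n))} :
    row t Z ⊆ S ↔ ∀ z ∈ Z, s(t, z) ∈ S := by
  constructor
  · intro h z hz
    exact h (mem_row.mpr ⟨z, hz, rfl⟩)
  · intro h e he
    rw [mem_row] at he
    obtain ⟨a, ha, rfl⟩ := he
    exact h a ha

/-- many common neighbours -/
theorem rich_prob (h0 : 0 ≤ p) (h1 : p ≤ 1) (W Z : Finset (Fin n)) (hWZ : Disjoint W Z) (b : ℕ) :
    Pr (allE n) p (fun S => (W.filter (fun t => ∀ z ∈ Z, s(t, z) ∈ S)).card < b) ≤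
      2 ^ b * Real.exp (-(p ^ Z.card * W.card / 2)) := by
  have hW : ∀ t ∈ W, t ∉ Z := fun t ht => disjoint_left.mp hWZ ht
  have h := lower_tail (E := allE n) h0 h1 W (fun t => row t Z)
    (fun t ht => row_sub_allE (hW t ht))
    (fun t ht t' ht' hne => row_disjoint hne (hW t ht))
    (fun t S => row t Z ⊆ S) (p ^ Z.card)
    (fun t ht => by rw [Pr_superset subset_rfl, card_row]) b
  refine le_trans (le_of_eq ?_) h
  congr 1
  funext S
  have : (W.filter (fun t => ∀ z ∈ Z, s(t, z) ∈ S)).card =
      cnt W (fun t => row t Z) (fun t S => row t Z ⊆ S) S := by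
    unfold cnt
    congr 1
    ext t
    simp only [mem_filter]
    apply and_congr_right
    intro _
    rw [subset_inter_iff, row_subset_iff]
    simp
  rw [this]

/-- few vertices without type -/
theorem typ_prob (h0 : 0 ≤ p) (h1 : p ≤ 1) {ι : Type} [Fintype ι] (W : Finset (Fin n))
    (Z : ι → Finset (Fin n)) (hZ : ∀ a b, a ≠ b → Disjoint (Z a) (Z b))
    (hWZ : ∀ a, Disjoint W (Z a)) (l : ℕ) (hl : ∀ a, (Z a).card = l) (K : ℕ) :
    Pr (allE n) p (fun S => K ≤ (W.filter (fun t => ∀ a, ∃ z ∈ Z a, s(t, z) ∉ S)).card) ≤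
      (1 / 4) ^ K * Real.exp (3 * (1 - p ^ l) ^ (Fintype.card ι) * W.card) := by
  set U := (univ : Finset ι).biUnion Z with hU
  have hW : ∀ t ∈ W, t ∉ U := by
    intro t ht h
    rw [hU, mem_biUnion] at h
    obtain ⟨a, _, ha⟩ := h
    exact disjoint_left.mp (hWZ a) ht ha
  have hZU : ∀ a, Z a ⊆ U := fun a => subset_biUnion_of_mem Z (mem_univ a)
  have h := upper_tail (E := allE n) h0 h1 W (fun t => row t U)
    (fun t ht => row_sub_allE (hW t ht))
    (fun t ht t' ht' hne => row_disjoint hne (hW t ht))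
    (fun t S => ∀ a ∈ (univ : Finset ι), ¬ row t (Z a) ⊆ S ∩ row t (Z a))
    ((1 - p ^ l) ^ (Fintype.card ι))
    (fun t ht => by
      have h2 := Pr_forall (E := row t U) p (univ : Finset ι) (fun a => row t (Z a))
        (fun a _ => row_mono t (hZU a)) (fun a _ b _ hab => row_disjoint' t (hZ a b hab))
        (fun a S => ¬ row t (Z a) ⊆ S)
      refine le_of_eq (h2.trans ?_)
      rw [prod_congr rfl (g := fun _ => (1 - p ^ l))]
      · rw [prod_const, card_univ]
      · intro a _
        rw [Pr_not, Pr_superset subset_rfl, card_row, hl]) K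
  refine le_trans (le_of_eq ?_) h
  congr 1
  funext S
  have : (W.filter (fun t => ∀ a, ∃ z ∈ Z a, s(t, z) ∉ S)).card =
      cnt W (fun t => row t U)
        (fun t S => ∀ a ∈ (univ : Finset ι), ¬ row t (Z a) ⊆ S ∩ row t (Z a)) S := by
    unfold cnt
    congr 1
    ext t
    simp only [mem_filter]
    apply and_congr_right
    intro _
    constructor
    · intro h a _ hsub
      obtain ⟨z, hz, hz2⟩ := h a
      apply hz2
      have := hsub (mem_row.mpr ⟨z, hz, rfl⟩)
      rw [mem_inter, mem_inter] at this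
      exact this.1.1
    · intro h a
      by_contra hcon
      push Not at hcon
      apply h a (mem_univ a)
      intro e he
      rw [mem_inter, mem_inter]
      refine ⟨⟨?_, row_mono t (hZU a) he⟩, he⟩
      rw [mem_row] at he
      obtain ⟨z, hz, rfl⟩ := he
      exact hcon z hz
  rw [this]

/-- many neighbours of `v` outside the neighbourhood of `D` -/
theorem lone_prob (h0 : 0 ≤ p) (h1 : p ≤ 1) (v : Fin n) (D : Finset (Fin n)) (hv : v ∉ D) (b : ℕ) :
    Pr (allE n) p (fun S => (univ.filter (fun u => u ≠ v ∧ u ∉ D ∧ s(u, v) ∈ S ∧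
      ∀ d ∈ D, s(u, d) ∉ S)).card < b) ≤
      2 ^ b * Real.exp (-(p * (1 - p) ^ D.card * ((n : ℝ) - 1 - D.card) / 2)) := by
  set W : Finset (Fin n) := univ.filter (fun u => u ∉ insert v D) with hW
  have h := lower_tail (E := allE n) h0 h1 W (fun t => row t (insert v D))
    (fun t ht => row_sub_allE (mem_filter.mp ht).2)
    (fun t ht t' ht' hne => row_disjoint hne (mem_filter.mp ht).2)
    (fun t S => S = {s(t, v)}) (p * (1 - p) ^ D.card)
    (fun t ht => by
      rw [Pr_eq_set, card_row, card_singleton, card_insert_of_notMem hv]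
      · simp
      · rw [singleton_subset_iff, mem_row]
        exact ⟨v, mem_insert_self _ _, rfl⟩) b
  have hWc : (W.card : ℝ) = (n : ℝ) - 1 - D.card := by
    have h2 : W.card + (insert v D).card = n := by
      rw [hW, filter_not, filter_mem_eq_inter, univ_inter, card_sdiff_of_subset (subset_univ _),
        card_univ, Fintype.card_fin]
      have : (insert v D).card ≤ n := by
        have := card_le_univ (insert v D)
        rwa [Fintype.card_fin] at this
      omega
    rw [card_insert_of_notMem hv] at h2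
    have h3 : (W.card : ℝ) + (D.card + 1) = n := by exact_mod_cast h2
    linarith
  rw [hWc] at h
  refine le_trans (le_of_eq ?_) h
  congr 1
  funext S
  have : (univ.filter (fun u => u ≠ v ∧ u ∉ D ∧ s(u, v) ∈ S ∧
      ∀ d ∈ D, s(u, d) ∉ S)).card =
      cnt W (fun t => row t (insert v D)) (fun t S => S = {s(t, v)}) S := by
    unfold cnt
    congr 1
    ext u
    simp only [mem_filter, hW, mem_insert]
    constructor
    · rintro ⟨_, h2, h3, h4, h5⟩
      refine ⟨⟨mem_univ _, by tauto⟩, ?_⟩
      ext e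
      rw [mem_inter, mem_row, mem_singleton]
      constructor
      · rintro ⟨h6, a, ha, rfl⟩
        rw [mem_insert] at ha
        rcases ha with rfl | ha
        · rfl
        · exact absurd h6 (h5 a ha)
      · rintro rfl
        exact ⟨h4, v, mem_insert_self _ _, rfl⟩
    · rintro ⟨⟨_, h2⟩, h3⟩
      have h4 : s(u, v) ∈ S ∩ row u (insert v D) := by rw [h3]; exact mem_singleton_self _
      refine ⟨mem_univ _, by tauto, by tauto, (mem_inter.mp h4).1, ?_⟩
      intro d hd hS
      have h5 : s(u, d) ∈ S ∩ row u (insert v D) :=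
        mem_inter.mpr ⟨hS, mem_row.mpr ⟨d, mem_insert_of_mem hd, rfl⟩⟩
      rw [h3, mem_singleton] at h5
      have h6 := row_inj u h5
      subst h6
      exact hv hd
  rw [this]

theorem card_small_sets (n M : ℕ) :
    ((univ : Finset (Finset (Fin n))).filter (fun S => S.card ≤ M)).card ≤ (n + 1) ^ M := by
  induction M with
  | zero =>
    have : ((univ : Finset (Finset (Fin n))).filter (fun S => S.card ≤ 0)) ⊆ {∅} := by
      intro S hS
      rw [mem_filter] at hS
      rw [mem_singleton]
      exact card_eq_zero.mp (by omega)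
    exact (card_le_card this).trans (by simp)
  | succ M ih =>
    have h1 : ((univ : Finset (Finset (Fin n))).filter (fun S => S.card ≤ M + 1)) ⊆
        (((univ : Finset (Finset (Fin n))).filter (fun S => S.card ≤ M)) ×ˢ
          (univ : Finset (Option (Fin n)))).image
            (fun x => match x.2 with
              | none => x.1
              | some a => insert a x.1) := by
      intro S hS
      rw [mem_filter] at hS
      rw [mem_image]
      rcases S.eq_empty_or_nonempty with rfl | ⟨a, ha⟩
      · exact ⟨(∅, none), by simp, rfl⟩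
      · refine ⟨(S.erase a, some a), ?_, ?_⟩
        · rw [mem_product, mem_filter]
          refine ⟨⟨mem_univ _, ?_⟩, mem_univ _⟩
          have := card_erase_of_mem ha
          simp only
          omega
        · simp only
          exact insert_erase ha
    refine (card_le_card h1).trans (card_image_le.trans ?_)
    rw [card_product, card_univ, Fintype.card_option, Fintype.card_fin, pow_succ]
    exact Nat.mul_le_mul_right _ ih

/-- union bound over small sets -/
theorem Pr_small_sets (h0 : 0 ≤ p) (h1 : p ≤ 1) (M : ℕ) (A : Finset (Fin n) →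
    Finset (Sym2 (Fin n)) → Prop) (x : ℝ)
    (hA : ∀ S : Finset (Fin n), S.card ≤ M → Pr (allE n) p (A S) ≤ x) :
    Pr (allE n) p (fun E => ∃ S : Finset (Fin n), S.card ≤ M ∧ A S E) ≤ ((n : ℝ) + 1) ^ M * x := by
  have hx : 0 ≤ x := (Pr_nonneg h0 h1 _).trans (hA ∅ (by simp))
  calc Pr (allE n) p (fun E => ∃ S : Finset (Fin n), S.card ≤ M ∧ A S E)
      ≤ Pr (allE n) p (fun E => ∃ S ∈ (univ : Finset (Finset (Fin n))).filter
          (fun S => S.card ≤ M), A S E) := by
        apply Pr_mono h0 h1
        rintro E _ ⟨S, h2, h3⟩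
        exact ⟨S, mem_filter.mpr ⟨mem_univ _, h2⟩, h3⟩
    _ ≤ ∑ S ∈ (univ : Finset (Finset (Fin n))).filter (fun S => S.card ≤ M),
          Pr (allE n) p (A S) := Pr_exists_le h0 h1 _ _
    _ ≤ ∑ _S ∈ (univ : Finset (Finset (Fin n))).filter (fun S => S.card ≤ M), x :=
        sum_le_sum (fun S hS => hA S (mem_filter.mp hS).2)
    _ = (((univ : Finset (Finset (Fin n))).filter (fun S => S.card ≤ M)).card : ℝ) * x := by
        rw [sum_const, nsmul_eq_mul]
    _ ≤ _ := by
        apply mul_le_mul_of_nonneg_right _ hx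
        exact_mod_cast card_small_sets n M

end graph

end Pool.Agent.H62.Sat
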