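import Pool.Agent.H62.Sat.Prob

set_option autoImplicit false

/-! Probability estimates for the random graph, second part. -/

namespace Pool.Agent.H62.Sat

open Finset Classical Pool.Agent.W166.Gnp

variable {n : ℕ} {p : ℝ}

/-- degrees -/
theorem deg_prob (h0 : 0 ≤ p) (h1 : p ≤ 1) {ε : ℝ} (he : 0 ≤ ε) (he1 : ε ≤ 1) :
    Pr (allE n) p (fun S => ∃ a : Fin n, (1 + 2 * ε) * (p * ((n : ℝ) - 1)) ≤
      ((univ.filter (fun v => v ≠ a ∧ s(a, v) ∈ S)).card : ℝ)) ≤
      n * Real.exp (-(ε ^ 2 * (p * ((n : ℝ) - 1)))) := by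
  calc Pr (allE n) p (fun S => ∃ a : Fin n, (1 + 2 * ε) * (p * ((n : ℝ) - 1)) ≤
      ((univ.filter (fun v => v ≠ a ∧ s(a, v) ∈ S)).card : ℝ))
      ≤ Pr (allE n) p (fun S => ∃ a ∈ (univ : Finset (Fin n)), (1 + 2 * ε) * (p * ((n : ℝ) - 1)) ≤
      ((univ.filter (fun v => v ≠ a ∧ s(a, v) ∈ S)).card : ℝ)) := by
        apply Pr_mono h0 h1
        rintro S _ ⟨a, ha⟩
        exact ⟨a, mem_univ _, ha⟩
    _ ≤ ∑ a ∈ (univ : Finset (Fin n)), Pr (allE n) p (fun S => (1 + 2 * ε) * (p * ((n : ℝ) - 1)) ≤
      ((univ.filter (fun v => v ≠ a ∧ s(a, v) ∈ S)).card : ℝ)) := Pr_exists_le h0 h1 _ _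
    _ ≤ ∑ _a ∈ (univ : Finset (Fin n)), Real.exp (-(ε ^ 2 * (p * ((n : ℝ) - 1)))) := by
        apply sum_le_sum
        intro a _
        have h2 : (row a (univ.erase a)).card = n - 1 := by
          rw [card_row, card_erase_of_mem (mem_univ _), card_univ, Fintype.card_fin]
        have hn : 1 ≤ n := by
          have := a.2; omega
        have h3 : ((row a (univ.erase a)).card : ℝ) = (n : ℝ) - 1 := by
          rw [h2]; push_cast [hn]; ring
        have h := card_upper (E := allE n) (Z := row a (univ.erase a))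
          (row_sub_allE (by simp)) h0 h1 he he1
        rw [h3] at h
        refine le_trans (le_of_eq ?_) h
        congr 1
        funext S
        rw [card_inter_row]
        congr 3
        ext v
        simp [and_comm]
    _ = n * Real.exp (-(ε ^ 2 * (p * ((n : ℝ) - 1)))) := by
        rw [sum_const, card_univ, Fintype.card_fin, nsmul_eq_mul]

/-- the number of vertices with few neighbours in a class -/
theorem nrm_prob (h0 : 0 ≤ p) (h1 : p ≤ 1) {ε : ℝ} (he : 0 ≤ ε) (he1 : ε ≤ 1)
    {I : Type} [Fintype I] (C : I → Finset (Fin n)) (N : ℕ) (hN : ∀ i, (C i).card = N) (K : ℕ) :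
    Pr (allE n) p (fun S => K ≤ (univ.filter (fun t => (∀ i, t ∉ C i) ∧
      ¬ ∀ i, (1 - ε) * (p * N) ≤ (((C i).filter (fun x => s(t, x) ∈ S)).card : ℝ))).card) ≤
      (1 / 4) ^ K * Real.exp (3 * (Fintype.card I * Real.exp (-(ε ^ 2 / 2 * (p * N)))) * n) := by
  set U := (univ : Finset I).biUnion C with hU
  set W : Finset (Fin n) := univ.filter (fun t => t ∉ U) with hW
  have hCU : ∀ i, C i ⊆ U := fun i => subset_biUnion_of_mem C (mem_univ i)
  have hWU : ∀ t ∈ W, t ∉ U := fun t ht => (mem_filter.mp ht).2
  have h := upper_tail (E := allE n) h0 h1 W (fun t => row t U)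
    (fun t ht => row_sub_allE (hWU t ht))
    (fun t ht t' ht' hne => row_disjoint hne (hWU t ht))
    (fun t S => ∃ i ∈ (univ : Finset I),
      ((S ∩ row t (C i)).card : ℝ) ≤ (1 - ε) * (p * (row t (C i)).card))
    (Fintype.card I * Real.exp (-(ε ^ 2 / 2 * (p * N))))
    (fun t ht => by
      refine (Pr_exists_le h0 h1 _ _).trans ?_
      calc ∑ i ∈ (univ : Finset I), Pr (row t U) p
            (fun S => ((S ∩ row t (C i)).card : ℝ) ≤ (1 - ε) * (p * (row t (C i)).card))
          ≤ ∑ _i ∈ (univ : Finset I), Real.exp (-(ε ^ 2 / 2 * (p * N))) := by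
            apply sum_le_sum
            intro i _
            have h2 := card_lower (E := row t U) (Z := row t (C i)) (row_mono t (hCU i)) h0 h1 he he1
            rw [card_row, hN] at h2
            rw [card_row, hN]
            exact h2
        _ = _ := by rw [sum_const, card_univ, nsmul_eq_mul]) K
  have hexp : (1 / 4 : ℝ) ^ K * Real.exp (3 * (Fintype.card I *
      Real.exp (-(ε ^ 2 / 2 * (p * N)))) * W.card) ≤
      (1 / 4) ^ K * Real.exp (3 * (Fintype.card I * Real.exp (-(ε ^ 2 / 2 * (p * N)))) * n) := by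
    apply mul_le_mul_of_nonneg_left _ (by positivity)
    apply Real.exp_le_exp.mpr
    apply mul_le_mul_of_nonneg_left _ (by positivity)
    have := card_le_univ W
    rw [Fintype.card_fin] at this
    exact_mod_cast this
  refine le_trans ?_ (h.trans hexp)
  apply Pr_mono h0 h1
  intro S _ hS
  refine hS.trans ?_
  unfold cnt
  apply card_le_card
  intro t ht
  simp only [mem_filter, mem_univ, true_and] at ht
  simp only [mem_filter, hW, mem_univ, true_and]
  refine ⟨?_, ?_⟩
  · rw [hU, mem_biUnion]
    rintro ⟨i, _, hi⟩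
    exact ht.1 i hi
  · obtain ⟨_, h3⟩ := ht
    push Not at h3
    obtain ⟨i, hi⟩ := h3
    refine ⟨i, ?_⟩
    rw [inter_row_row S t (hCU i), card_inter_row, card_row, hN]
    exact hi.le

/-- a pair with a small common neighbourhood -/
theorem pair_prob (h0 : 0 ≤ p) (h1 : p ≤ 1) {x : ℝ} (hx : 0 < x) (hx1 : x ≤ 1)
    (A : Finset (Fin n)) (z t : Fin n) (hzt : z ≠ t) (hz : z ∉ A) (ht : t ∉ A) (m0 : ℕ) (K : ℝ) :
    Pr (allE n) p (fun S => m0 ≤ (A.filter (fun y => s(t, y) ∈ S)).card ∧
      ((A.filter (fun y => s(z, y) ∈ S ∧ s(t, y) ∈ S)).card : ℝ) < K) ≤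
      Real.exp (K * Real.log (1 / x)) * (p * x + (1 - p)) ^ m0 := by
  have hd : Disjoint (row t A) (row z A) := row_disjoint hzt.symm ht
  set B := Real.exp (K * Real.log (1 / x)) * (p * x + (1 - p)) ^ m0 with hB
  have hB0 : 0 ≤ B := by
    have : 0 ≤ p * x + (1 - p) := by
      have : 0 ≤ p * x := by positivity
      linarith
    positivity
  have hb1 : p * x + (1 - p) ≤ 1 := by nlinarith
  have hb0 : 0 ≤ p * x + (1 - p) := by
    have : 0 ≤ p * x := by positivity
    linarith
  unfold Pr
  rw [Ex_marg (E1 := row t A ∪ row z A) (union_subset (row_sub_allE ht) (row_sub_allE hz)),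
    Ex_union hd]
  · calc _ ≤ Ex (row t A) p (fun _ => B) := by
          apply Ex_mono h0 h1
          intro S1 hS1
          -- the neighbours of `t`
          set D := A.filter (fun y => s(t, y) ∈ S1) with hD
          have hst : ∀ T : Finset (Sym2 (Fin n)), T ⊆ row z A → ∀ y ∈ A,
              (s(t, y) ∈ S1 ∪ T ↔ s(t, y) ∈ S1) := by
            intro T hT y hy
            rw [mem_union]
            constructor
            · rintro (h | h)
              · exact h
              · exfalso
                exact disjoint_left.mp hd (mem_row.mpr ⟨y, hy, rfl⟩) (hT h)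
            · exact Or.inl
          have hsz : ∀ T : Finset (Sym2 (Fin n)), T ⊆ row z A → ∀ y ∈ A,
              (s(z, y) ∈ S1 ∪ T ↔ s(z, y) ∈ T) := by
            intro T hT y hy
            rw [mem_union]
            constructor
            · rintro (h | h)
              · exfalso
                exact disjoint_left.mp hd (hS1 h) (mem_row.mpr ⟨y, hy, rfl⟩)
              · exact h
            · exact Or.inr
          by_cases hm : m0 ≤ D.card
          · calc _ ≤ Pr (row z A) p (fun T => ((T ∩ row z D).card : ℝ) < K) := by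
                  unfold Pr
                  apply Ex_mono h0 h1
                  intro T hT
                  split_ifs with h2 h3 h3
                  · exact le_rfl
                  · exfalso
                    apply h3
                    refine lt_of_le_of_lt ?_ h2.2
                    rw [card_inter_row]
                    have : D.filter (fun a => s(z, a) ∈ T) ⊆
                        A.filter (fun y => s(z, y) ∈ S1 ∪ T ∧ s(t, y) ∈ S1 ∪ T) := by
                      intro y hy
                      rw [mem_filter, hD, mem_filter] at hy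
                      rw [mem_filter, hsz T hT y hy.1.1, hst T hT y hy.1.1]
                      exact ⟨hy.1.1, hy.2, hy.1.2⟩
                    exact_mod_cast card_le_card this
                  · norm_num
                  · exact le_rfl
              _ ≤ Real.exp (K * Real.log (1 / x)) * (p * x + (1 - p)) ^ (row z D).card :=
                  card_few (row_mono z (filter_subset _ _)) h0 h1 hx hx1 K
              _ ≤ B := by
                  rw [hB, card_row]
                  apply mul_le_mul_of_nonneg_left _ (Real.exp_pos _).le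
                  exact pow_le_pow_of_le_one hb0 hb1 hm
          · calc _ ≤ Ex (row z A) p (fun _ => 0) := by
                  apply Ex_mono h0 h1
                  intro T hT
                  rw [if_neg]
                  rintro ⟨h2, _⟩
                  apply hm
                  refine h2.trans (card_le_card ?_)
                  intro y hy
                  rw [mem_filter] at hy
                  rw [hD, mem_filter]
                  exact ⟨hy.1, (hst T hT y hy.1).mp hy.2⟩
              _ = 0 := Ex_const _ _ _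
              _ ≤ B := hB0
      _ = B := Ex_const _ _ _
  · intro S _
    have e1 : A.filter (fun y => s(t, y) ∈ S ∩ (row t A ∪ row z A)) =
        A.filter (fun y => s(t, y) ∈ S) := by
      ext y
      rw [mem_filter, mem_filter, mem_inter, mem_union]
      constructor
      · rintro ⟨h2, h3, _⟩; exact ⟨h2, h3⟩
      · rintro ⟨h2, h3⟩; exact ⟨h2, h3, Or.inl (mem_row.mpr ⟨y, h2, rfl⟩)⟩
    have e2 : A.filter (fun y => s(z, y) ∈ S ∩ (row t A ∪ row z A) ∧
        s(t, y) ∈ S ∩ (row t A ∪ row z A)) = A.filter (fun y => s(z, y) ∈ S ∧ s(t, y) ∈ S) := by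
      ext y
      rw [mem_filter, mem_filter, mem_inter, mem_inter, mem_union, mem_union]
      constructor
      · rintro ⟨h2, ⟨h3, _⟩, h4, _⟩; exact ⟨h2, h3, h4⟩
      · rintro ⟨h2, h3, h4⟩
        exact ⟨h2, ⟨h3, Or.inr (mem_row.mpr ⟨y, h2, rfl⟩)⟩, h4, Or.inl (mem_row.mpr ⟨y, h2, rfl⟩)⟩
    beta_reduce
    rw [e1, e2]

/-- the number of bad pairs -/
theorem pairs_prob (h0 : 0 ≤ p) (h1 : p ≤ 1) {x : ℝ} (hx : 0 < x) (hx1 : x ≤ 1)
    (A : Finset (Fin n)) (m0 : ℕ) (K Q : ℝ) (hQ : 0 < Q) :
    Pr (allE n) p (fun S => Q < (((univ : Finset (Fin n × Fin n)).filter (fun y => y.1 ≠ y.2 ∧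
      y.1 ∉ A ∧ y.2 ∉ A ∧ m0 ≤ (A.filter (fun w => s(y.2, w) ∈ S)).card ∧
      ((A.filter (fun w => s(y.1, w) ∈ S ∧ s(y.2, w) ∈ S)).card : ℝ) < K)).card : ℝ)) ≤
      (n : ℝ) ^ 2 * (Real.exp (K * Real.log (1 / x)) * (p * x + (1 - p)) ^ m0) / Q := by
  set B := Real.exp (K * Real.log (1 / x)) * (p * x + (1 - p)) ^ m0 with hB
  have hb0 : 0 ≤ p * x + (1 - p) := by
    have : 0 ≤ p * x := by positivity
    linarith
  have hB0 : 0 ≤ B := by positivity
  let Ev : Fin n × Fin n → Finset (Sym2 (Fin n)) → Prop := fun y S => y.1 ≠ y.2 ∧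
      y.1 ∉ A ∧ y.2 ∉ A ∧ m0 ≤ (A.filter (fun w => s(y.2, w) ∈ S)).card ∧
      ((A.filter (fun w => s(y.1, w) ∈ S ∧ s(y.2, w) ∈ S)).card : ℝ) < K
  calc _ ≤ Ex (allE n) p (fun S => (1 / Q) * ∑ y ∈ (univ : Finset (Fin n × Fin n)),
          (if Ev y S then (1 : ℝ) else 0)) := by
        apply Pr_le_Ex h0 h1
        · intro S _
          apply mul_nonneg (by positivity)
          apply sum_nonneg
          intro y _
          split_ifs <;> norm_num
        · intro S _ hS
          rw [← sum_filter, sum_const, nsmul_eq_mul, mul_one, one_div, ← div_eq_inv_mul,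
            one_le_div hQ]
          exact hS.le
    _ = (1 / Q) * ∑ y ∈ (univ : Finset (Fin n × Fin n)), Pr (allE n) p (Ev y) := by
        rw [Ex_smul, Ex_sum]
        congr 1
        apply sum_congr rfl
        intro y _
        unfold Pr
        apply Ex_congr
        intro S _
        congr
    _ ≤ (1 / Q) * ∑ _y ∈ (univ : Finset (Fin n × Fin n)), B := by
        apply mul_le_mul_of_nonneg_left _ (by positivity)
        apply sum_le_sum
        intro y _
        by_cases hy : y.1 ≠ y.2 ∧ y.1 ∉ A ∧ y.2 ∉ A
        · refine le_trans ?_ (pair_prob h0 h1 hx hx1 A y.1 y.2 hy.1 hy.2.1 hy.2.2 m0 K)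
          apply Pr_mono h0 h1
          intro S _ hS
          exact hS.2.2.2
        · refine le_trans ?_ hB0
          calc Pr (allE n) p (Ev y) ≤ Pr (allE n) p (fun _ => False) := by
                apply Pr_mono h0 h1
                intro S _ hS
                exact hy ⟨hS.1, hS.2.1, hS.2.2.1⟩
            _ = 0 := by unfold Pr; simp [Ex_const]
    _ = (n : ℝ) ^ 2 * B / Q := by
        rw [sum_const, card_univ, Fintype.card_prod, Fintype.card_fin, nsmul_eq_mul]
        push_cast
        ring

/-- density between disjoint subsets of a class -/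
theorem dens_prob (h0 : 0 ≤ p) (h1 : p ≤ 1) (C : Finset (Fin n)) (m1 : ℕ) :
    Pr (allE n) p (fun S => ∃ Y Y' : Finset (Fin n), Y ⊆ C ∧ Y' ⊆ C ∧ Disjoint Y Y' ∧
      m1 ≤ Y.card ∧ m1 ≤ Y'.card ∧
      ∀ v ∈ Y', ((Y.filter (fun x => s(v, x) ∈ S)).card : ℝ) < p / 2 * Y.card) ≤
      4 ^ C.card * Real.exp (-(p / 8 * m1 ^ 2)) := by
  calc _ ≤ Pr (allE n) p (fun S => ∃ P ∈ (C.powerset ×ˢ C.powerset).filter
        (fun P => Disjoint P.1 P.2 ∧ m1 ≤ P.1.card ∧ m1 ≤ P.2.card),
        ∀ v ∈ P.2, ((S ∩ row v P.1).card : ℝ) ≤ (1 - 1 / 2) * (p * (row v P.1).card)) := by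
        apply Pr_mono h0 h1
        rintro S _ ⟨Y, Y', h2, h3, h4, h5, h6, h7⟩
        refine ⟨(Y, Y'), ?_, ?_⟩
        · rw [mem_filter, mem_product, mem_powerset, mem_powerset]
          exact ⟨⟨h2, h3⟩, h4, h5, h6⟩
        · intro v hv
          have := h7 v hv
          simp only
          rw [card_inter_row, card_row]
          linarith
    _ ≤ ∑ P ∈ (C.powerset ×ˢ C.powerset).filter
        (fun P => Disjoint P.1 P.2 ∧ m1 ≤ P.1.card ∧ m1 ≤ P.2.card),
        Pr (allE n) p (fun S => ∀ v ∈ P.2,
          ((S ∩ row v P.1).card : ℝ) ≤ (1 - 1 / 2) * (p * (row v P.1).card)) :=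
        Pr_exists_le h0 h1 _ _
    _ ≤ ∑ _P ∈ (C.powerset ×ˢ C.powerset).filter
        (fun P => Disjoint P.1 P.2 ∧ m1 ≤ P.1.card ∧ m1 ≤ P.2.card),
        Real.exp (-(p / 8 * m1 ^ 2)) := by
        apply sum_le_sum
        rintro ⟨Y, Y'⟩ hP
        rw [mem_filter, mem_product, mem_powerset, mem_powerset] at hP
        simp only at hP ⊢
        obtain ⟨⟨h2, h3⟩, h4, h5, h6⟩ := hP
        have hd : ∀ v ∈ Y', v ∉ Y := fun v hv hv' => disjoint_left.mp h4 hv' hv
        have h := Pr_forall (E := allE n) p Y' (fun v => row v Y)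
          (fun v hv => row_sub_allE (hd v hv))
          (fun v hv v' hv' hne => row_disjoint hne (hd v hv))
          (fun v S => (S.card : ℝ) ≤ (1 - 1 / 2) * (p * (row v Y).card))
        rw [h]
        calc ∏ v ∈ Y', Pr (row v Y) p (fun S => (S.card : ℝ) ≤ (1 - 1 / 2) * (p * (row v Y).card))
            ≤ ∏ _v ∈ Y', Real.exp (-(p / 8 * m1)) := by
              apply prod_le_prod
              · intro v _; exact Pr_nonneg h0 h1 _
              · intro v _
                have h7 := card_lower (E := row v Y) (Z := row v Y) subset_rfl h0 h1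
                  (ε := 1 / 2) (by norm_num) (by norm_num)
                refine le_trans ?_ (h7.trans ?_)
                · apply Pr_mono h0 h1
                  intro S hS h8
                  rwa [inter_eq_left.mpr hS]
                · apply Real.exp_le_exp.mpr
                  rw [card_row]
                  have h9 : (m1 : ℝ) ≤ Y.card := by exact_mod_cast h5
                  have := mul_le_mul_of_nonneg_left h9 h0
                  nlinarith
          _ = Real.exp (-(p / 8 * m1 * Y'.card)) := by
              rw [prod_const, ← Real.exp_nat_mul]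
              congr 1
              ring
          _ ≤ Real.exp (-(p / 8 * m1 ^ 2)) := by
              apply Real.exp_le_exp.mpr
              have h9 : (m1 : ℝ) ≤ Y'.card := by exact_mod_cast h6
              have h10 : 0 ≤ p / 8 * m1 := by positivity
              have := mul_le_mul_of_nonneg_left h9 h10
              nlinarith
    _ ≤ _ := by
        rw [sum_const, nsmul_eq_mul]
        apply mul_le_mul_of_nonneg_right _ (Real.exp_pos _).le
        have h2 : ((C.powerset ×ˢ C.powerset).filter
          (fun P => Disjoint P.1 P.2 ∧ m1 ≤ P.1.card ∧ m1 ≤ P.2.card)).card ≤ 4 ^ C.card := by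
          refine (card_filter_le _ _).trans ?_
          rw [card_product, card_powerset, ← mul_pow]
          norm_num
        exact_mod_cast h2

end Pool.Agent.H62.Sat
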