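import Pool.Agent.H62.Sat.Upper

set_option autoImplicit false

/-! Existence of the regions. -/

namespace Pool.Agent.H62.Sat

open Finset Classical

/-- the sum type of all regions with their elements -/
abbrev XT (I J T L Γ : Type) (N' B Λ P : ℕ) : Type :=
  ((I × Γ) × Fin N') ⊕ (((J × Γ) × Fin N') ⊕ ((T × Fin B) ⊕ ((L × Fin Λ) ⊕ Fin P)))

/-- the region of an element -/
def rX {I J T L Γ : Type} {N' B Λ P : ℕ} : XT I J T L Γ N' B Λ P → Reg I J T L Γ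
  | Sum.inl a => .c1 a.1.1 a.1.2
  | Sum.inr (Sum.inl a) => .c2 a.1.1 a.1.2
  | Sum.inr (Sum.inr (Sum.inl a)) => .bet a.1
  | Sum.inr (Sum.inr (Sum.inr (Sum.inl a))) => .lam a.1
  | Sum.inr (Sum.inr (Sum.inr (Sum.inr _))) => .pool

theorem fiber_card {n M : ℕ} {X R : Type} (e : Fin n ≃ X) (r : X → R) (x : R) (f : Fin M → X)
    (hf : Function.Injective f) (h : ∀ y, r y = x ↔ ∃ m, f m = y) :
    (univ.filter (fun v => r (e v) = x)).card = M := by
  have h1 : univ.filter (fun v => r (e v) = x) = univ.image (e.symm ∘ f) := by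
    ext v
    simp only [mem_filter, mem_univ, true_and, mem_image, Function.comp]
    rw [h]
    constructor
    · rintro ⟨m, hm⟩; exact ⟨m, by rw [hm, Equiv.symm_apply_apply]⟩
    · rintro ⟨m, hm⟩; exact ⟨m, by rw [← hm, Equiv.apply_symm_apply]⟩
  rw [h1, card_image_of_injective _ (e.symm.injective.comp hf), card_univ, Fintype.card_fin]

/-- existence of the regions -/
theorem exists_reg (n : ℕ) (I J T L Γ : Type) [Fintype I] [Fintype J] [Fintype T] [Fintype L]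
    [Fintype Γ] (N' B Λ P : ℕ)
    (hn : Fintype.card I * Fintype.card Γ * N' + (Fintype.card J * Fintype.card Γ * N' +
      (Fintype.card T * B + (Fintype.card L * Λ + P))) = n) :
    ∃ reg : Fin n → Reg I J T L Γ,
      (∀ i γ, (univ.filter (fun v => reg v = .c1 i γ)).card = N') ∧
      (∀ i γ, (univ.filter (fun v => reg v = .c2 i γ)).card = N') ∧
      (∀ τ, (univ.filter (fun v => reg v = .bet τ)).card = B) ∧
      (∀ τ, (univ.filter (fun v => reg v = .lam τ)).card = Λ) ∧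
      (univ.filter (fun v => reg v = .pool)).card = P := by
  have hX : Fintype.card (Fin n) = Fintype.card (XT I J T L Γ N' B Λ P) := by
    simp only [XT, Fintype.card_sum, Fintype.card_prod, Fintype.card_fin]
    exact hn.symm
  obtain ⟨e⟩ := Fintype.card_eq.mp hX
  refine ⟨fun v => rX (e v), ?_, ?_, ?_, ?_, ?_⟩
  · intro i γ
    refine fiber_card e rX _ (fun m => Sum.inl ((i, γ), m)) (fun a b h => ?_) ?_
    · simpa using h
    · rintro (⟨⟨i', γ'⟩, m⟩ | ⟨⟨i', γ'⟩, m⟩ | ⟨τ, m⟩ | ⟨σ, m⟩ | m) <;> simp [rX, eq_comm]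
  · intro i γ
    refine fiber_card e rX _ (fun m => Sum.inr (Sum.inl ((i, γ), m))) (fun a b h => ?_) ?_
    · simpa using h
    · rintro (⟨⟨i', γ'⟩, m⟩ | ⟨⟨i', γ'⟩, m⟩ | ⟨τ, m⟩ | ⟨σ, m⟩ | m) <;> simp [rX, eq_comm]
  · intro τ
    refine fiber_card e rX _ (fun m => Sum.inr (Sum.inr (Sum.inl (τ, m)))) (fun a b h => ?_) ?_
    · simpa using h
    · rintro (⟨⟨i', γ'⟩, m⟩ | ⟨⟨i', γ'⟩, m⟩ | ⟨τ, m⟩ | ⟨σ, m⟩ | m) <;> simp [rX, eq_comm]
  · intro τ
    refine fiber_card e rX _ (fun m => Sum.inr (Sum.inr (Sum.inr (Sum.inl (τ, m)))))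
      (fun a b h => ?_) ?_
    · simpa using h
    · rintro (⟨⟨i', γ'⟩, m⟩ | ⟨⟨i', γ'⟩, m⟩ | ⟨τ, m⟩ | ⟨σ, m⟩ | m) <;> simp [rX, eq_comm]
  · refine fiber_card e rX _ (fun m => Sum.inr (Sum.inr (Sum.inr (Sum.inr m))))
      (fun a b h => ?_) ?_
    · simpa using h
    · rintro (⟨⟨i', γ'⟩, m⟩ | ⟨⟨i', γ'⟩, m⟩ | ⟨τ, m⟩ | ⟨σ, m⟩ | m) <;> simp [rX]

end Pool.Agent.H62.Sat
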