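import Pool.Agent.H62.Sat.Model

set_option autoImplicit false

/-! The initial graph. -/

namespace Pool.Agent.H62.Sat

/-- positions of the vertices -/
inductive Pos (I J T L : Type) (q k : ℕ) : Type
  | a1 (i : I) : Pos I J T L q k
  | a2 (j : J) : Pos I J T L q k
  | y (τ : T) (c : Fin q) (m : Fin k) : Pos I J T L q k
  | xM (τ : T) (i : I) (u : Fin k) : Pos I J T L q k
  | x2 (τ : T) (j : J) (u : Fin k) : Pos I J T L q k
  | xL (σ : L) (u : Fin k) : Pos I J T L q k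
  | bM (τ : T) : Pos I J T L q k
  | bL (o : Option L) : Pos I J T L q k

variable {V I J T L : Type} {q k : ℕ}

/-- one-sided adjacency of positions -/
def P1 (sM : T × I → ℕ) (sL : L → ℕ) : Pos I J T L q k → Pos I J T L q k → Prop
  | .a1 _, .bM _ => True
  | .a1 _, .bL _ => True
  | .a1 i, .xM _ i' _ => i = i'
  | .a2 _, .bL _ => True
  | .a2 _, .xL _ _ => True
  | .a2 j, .x2 _ j' _ => j = j'
  | .y τ c _, .y τ' c' _ => τ = τ' ∧ c ≠ c'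
  | .y τ _ _, .bM τ' => τ = τ'
  | .y _ _ _, .xL _ _ => True
  | .xM τ i u, .bM τ' => τ = τ' ∧ (u : ℕ) < sM (τ, i)
  | .xL σ u, .bL (some σ') => σ = σ' ∧ (u : ℕ) < sL σ
  | .x2 τ _ _, .bM τ' => τ = τ'
  | _, _ => False

/-- a complete `q`-partite graph with parts of size `k` of `R` inside `W` -/
def KQ (q k : ℕ) (R : SimpleGraph V) (W : Finset V) : Prop :=
  ∃ r : Fin q → Fin k → V, (∀ c m, r c m ∈ W) ∧
    (∀ c m c' m', r c m = r c' m' → c = c' ∧ m = m') ∧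
    ∀ c m c' m', c ≠ c' → R.Adj (r c m) (r c' m')

/-- all the data of the construction -/
structure Setup (V I J T L : Type) (q k : ℕ) where
  G : SimpleGraph V
  R : SimpleGraph V
  pos : V → Pos I J T L q k
  Y : T → Fin q → Fin k → V
  XM : T → I → Fin k → V
  X2 : T → J → Fin k → V
  XL : L → Fin k → V
  pos_Y : ∀ v τ c m, pos v = .y τ c m ↔ v = Y τ c m
  pos_XM : ∀ v τ i u, pos v = .xM τ i u ↔ v = XM τ i u
  pos_X2 : ∀ v τ j u, pos v = .x2 τ j u ↔ v = X2 τ j u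
  pos_XL : ∀ v σ u, pos v = .xL σ u ↔ v = XL σ u
  R_le : R ≤ G
  R_cls : ∀ u v, R.Adj u v → (∃ i, pos u = .a1 i ∧ pos v = .a1 i) ∨
    (∃ j, pos u = .a2 j ∧ pos v = .a2 j)
  R_col : ∀ W : Finset V, W.card ≤ k → ∃ c : V → Fin q,
    ∀ u ∈ W, ∀ v ∈ W, R.Adj u v → c u ≠ c v
  /-- the threshold for large subsets of a class -/
  m0 : ℕ
  R_rich1 : ∀ i (W : Finset V), (∀ v ∈ W, pos v = .a1 i) → m0 ≤ W.card → KQ q k R W
  R_rich2 : ∀ j (W : Finset V), (∀ v ∈ W, pos v = .a2 j) → m0 ≤ W.card → KQ q k R W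
  G_XM_a1 : ∀ τ i u v, pos v = .a1 i → G.Adj (XM τ i u) v
  G_XM_bM : ∀ τ i u v, pos v = .bM τ → G.Adj (XM τ i u) v
  G_X2_a2 : ∀ τ j u v, pos v = .a2 j → G.Adj (X2 τ j u) v
  G_X2_bM : ∀ τ j u v, pos v = .bM τ → G.Adj (X2 τ j u) v
  G_Y_Y : ∀ τ c m c' m', c ≠ c' → G.Adj (Y τ c m) (Y τ c' m')
  G_Y_bM : ∀ τ c m v, pos v = .bM τ → G.Adj (Y τ c m) v
  G_Y_XL : ∀ τ c m σ u, G.Adj (Y τ c m) (XL σ u)
  G_XL_bL : ∀ σ u v, pos v = .bL (some σ) → G.Adj (XL σ u) v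
  P2 : ∀ S : Finset V, S.card ≤ k → (∀ s ∈ S, ∀ j, pos s ≠ .a2 j) →
    ∃ j, ∃ W : Finset V, (∀ v ∈ W, pos v = .a2 j ∧ ∀ s ∈ S, G.Adj s v) ∧ m0 ≤ W.card
  /-- the number of vertices that a rich class can see -/
  K3 : ℕ
  richM : ∀ τ (S : Finset V) (z : V), S.card ≤ K3 → (∀ s ∈ S, ∃ i, pos s = .a1 i) →
    ∃ b : Fin k → V, Function.Injective b ∧
      ∀ m, pos (b m) = .bM τ ∧ b m ≠ z ∧ ∀ s ∈ S, G.Adj s (b m)
  richL : ∀ σ (S : Finset V) (z : V), S.card ≤ K3 → (∀ s ∈ S, ∃ i, pos s = .a1 i) →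
    ∃ b : Fin k → V, Function.Injective b ∧
      ∀ m, pos (b m) = .bL (some σ) ∧ b m ≠ z ∧ ∀ s ∈ S, G.Adj s (b m)

namespace Setup

variable (D : Setup V I J T L q k) (sM : T × I → ℕ) (sL : L → ℕ)

/-- the initial graph -/
def H0 : SimpleGraph V where
  Adj u v := D.R.Adj u v ∨
    (D.G.Adj u v ∧ (P1 sM sL (D.pos u) (D.pos v) ∨ P1 sM sL (D.pos v) (D.pos u)))
  symm := ⟨fun u v h => by
    rcases h with h | ⟨h, h2⟩
    · exact Or.inl h.symm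
    · exact Or.inr ⟨h.symm, h2.symm⟩⟩
  loopless := ⟨fun u h => by
    rcases h with h | ⟨h, _⟩
    · exact h.ne rfl
    · exact h.ne rfl⟩

theorem H0_le : D.H0 sM sL ≤ D.G := by
  intro u v h
  rcases h with h | ⟨h, _⟩
  · exact D.R_le h
  · exact h

variable {D sM sL}

theorem H0_of_R {u v : V} (h : D.R.Adj u v) : (D.H0 sM sL).Adj u v := Or.inl h

theorem H0_of_P {u v : V} (h : D.G.Adj u v) (h2 : P1 sM sL (D.pos u) (D.pos v)) :
    (D.H0 sM sL).Adj u v := Or.inr ⟨h, Or.inl h2⟩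

theorem H0_of_P' {u v : V} (h : D.G.Adj u v) (h2 : P1 sM sL (D.pos v) (D.pos u)) :
    (D.H0 sM sL).Adj u v := Or.inr ⟨h, Or.inr h2⟩

end Setup

/-- the label of a position -/
def posLab (σ0 : L) : Pos I J T L q k → Fin q → Lab I T L q k
  | .a1 i, c => .a1 i c
  | .a2 _, c => .a2 c
  | .y τ c _, _ => .y τ c
  | .xM τ i u, _ => .xM τ i u
  | .x2 _ _ _, _ => .bL σ0
  | .xL σ u, _ => .xL σ u
  | .bM τ, _ => .bM τ
  | .bL none, _ => .bL σ0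
  | .bL (some σ), _ => .bL σ

theorem P1_M1 (σ0 : L) (sM : T × I → ℕ) (sL : L → ℕ) (a b : Pos I J T L q k) (c c' : Fin q)
    (h : P1 sM sL a b) (hx : ∀ τ j u τ', ¬ (a = .x2 τ j u ∧ b = .bM τ')) :
    MM sM sL (posLab σ0 a c) (posLab σ0 b c') := by
  rcases a with i | j | ⟨τ, c1, m⟩ | ⟨τ, i, u⟩ | ⟨τ, j, u⟩ | ⟨σ, u⟩ | τ | (_ | σ) <;>
    rcases b with i' | j' | ⟨τ', c1', m'⟩ | ⟨τ', i', u'⟩ | ⟨τ', j', u'⟩ | ⟨σ', u'⟩ | τ' | (_ | σ') <;>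
    first
    | exact h.elim
    | exact Or.inl h
    | exact (hx _ _ _ _ ⟨rfl, rfl⟩).elim
    | exact Or.inl trivial

theorem isX_pos (σ0 : L) (a : Pos I J T L q k) (c : Fin q) (h : isX (posLab σ0 a c)) :
    (∃ τ i u, a = .xM τ i u) ∨ (∃ σ u, a = .xL σ u) := by
  rcases a with i | j | ⟨τ, c1, m⟩ | ⟨τ, i, u⟩ | ⟨τ, j, u⟩ | ⟨σ, u⟩ | τ | (_ | σ) <;>
    simp_all [posLab, isX]

theorem pos_of_xM (σ0 : L) (b : Pos I J T L q k) (c : Fin q) (τ : T) (i : I) (u : Fin k)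
    (h : .xM τ i u = posLab σ0 b c) : b = .xM τ i u := by
  rcases b with i | j | ⟨τ, c1, m⟩ | ⟨τ, i, u⟩ | ⟨τ, j, u⟩ | ⟨σ, u⟩ | τ | (_ | σ) <;>
    simp_all [posLab]

theorem pos_of_xL (σ0 : L) (b : Pos I J T L q k) (c : Fin q) (σ : L) (u : Fin k)
    (h : .xL σ u = posLab σ0 b c) : b = .xL σ u := by
  rcases b with i | j | ⟨τ, c1, m⟩ | ⟨τ, i, u⟩ | ⟨τ, j, u⟩ | ⟨σ, u⟩ | τ | (_ | σ) <;>
    simp_all [posLab]

theorem no_tri (sM : T × I → ℕ) (sL : L → ℕ) (a b c : Pos I J T L q k)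
    (h1 : P1 sM sL a c ∨ P1 sM sL c a) (h2 : P1 sM sL b c ∨ P1 sM sL c b)
    (τ τ' : T) (j : J) (u : Fin k) (ha : a = .x2 τ j u) (hb : b = .bM τ') : False := by
  subst ha hb
  cases c <;> simp_all [P1]

namespace Setup

variable (D : Setup V I J T L q k) (sM : T × I → ℕ) (sL : L → ℕ)

theorem H0_R_pos {u v : V} (h : (D.H0 sM sL).Adj u v)
    (hu : (∀ i, D.pos u ≠ .a1 i) ∧ (∀ j, D.pos u ≠ .a2 j)) :
    P1 sM sL (D.pos u) (D.pos v) ∨ P1 sM sL (D.pos v) (D.pos u) := by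
  rcases h with h | ⟨_, h⟩
  · rcases D.R_cls u v h with ⟨i, hi, _⟩ | ⟨j, hj, _⟩
    · exact absurd hi (hu.1 i)
    · exact absurd hj (hu.2 j)
  · exact h

theorem H0_free [Nonempty L] (F : SimpleGraph (Fin k))
    (htri : ∀ u v : Fin k, F.Adj u v → ∃ w : Fin k, F.Adj u w ∧ F.Adj v w)
    (hno : ¬ ∃ ψ : Fin k → Lab I T L q k, IsHom F sM sL ψ) :
    ¬ F.IsContained (D.H0 sM sL) := by
  classical
  rintro ⟨φ⟩
  apply hno
  obtain ⟨σ0⟩ := ‹Nonempty L›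
  have hφ : ∀ {f g}, F.Adj f g → (D.H0 sM sL).Adj (φ f) (φ g) := fun h => φ.toHom.map_adj h
  have hinj : Function.Injective φ := φ.injective
  obtain ⟨c, hc⟩ := D.R_col (Finset.univ.image φ) (Finset.card_image_le.trans (by simp))
  refine ⟨fun f => posLab σ0 (D.pos (φ f)) (c (φ f)), ?_, ?_⟩
  · intro f g hfg
    have h0 := hφ hfg
    have hnx : ∀ f g, F.Adj f g → ∀ τ j u τ', ¬ (D.pos (φ f) = .x2 τ j u ∧
        D.pos (φ g) = .bM τ') := by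
      rintro f g hfg τ j u τ' ⟨h1, h2⟩
      obtain ⟨w, hw1, hw2⟩ := htri f g hfg
      have e1 := D.H0_R_pos sM sL (hφ hw1) (by rw [h1]; simp)
      have e2 := D.H0_R_pos sM sL (hφ hw2) (by rw [h2]; simp)
      exact no_tri sM sL _ _ _ e1 e2 τ τ' j u h1 h2
    rcases h0 with h | ⟨_, h | h⟩
    · have hne := hc (φ f) (Finset.mem_image_of_mem _ (Finset.mem_univ _)) (φ g)
        (Finset.mem_image_of_mem _ (Finset.mem_univ _)) h
      rcases D.R_cls _ _ h with ⟨i, h1, h2⟩ | ⟨j, h1, h2⟩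
      · simp only [h1, h2, posLab]
        exact Or.inl ⟨rfl, hne⟩
      · simp only [h1, h2, posLab]
        exact Or.inl hne
    · exact P1_M1 σ0 sM sL _ _ _ _ h (hnx f g hfg)
    · exact (P1_M1 σ0 sM sL _ _ _ _ h (hnx g f hfg.symm)).symm
  · intro f g hfg hx
    apply hinj
    rcases isX_pos σ0 _ _ hx with ⟨τ, i, u, h1⟩ | ⟨σ, u, h1⟩
    · rw [h1] at hfg
      have h2 := pos_of_xM σ0 _ _ τ i u hfg
      rw [(D.pos_XM _ _ _ _).mp h1, (D.pos_XM _ _ _ _).mp h2]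
    · rw [h1] at hfg
      have h2 := pos_of_xL σ0 _ _ σ u hfg
      rw [(D.pos_XL _ _ _).mp h1, (D.pos_XL _ _ _).mp h2]

end Setup

end Pool.Agent.H62.Sat
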