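import Pool.Agent.H62.Sat.Setup

set_option autoImplicit false

/-! Stars and dense pairs force a copy of `F`. -/

namespace Pool.Agent.H62.Sat

open Finset

variable {V I J T L : Type} {q k : ℕ}

/-- a complete multipartite configuration contains `F` -/
theorem contained_of_parts (F : SimpleGraph (Fin k)) (hF : F.Colorable (q + 2))
    (H : SimpleGraph V) (r : Fin q → Fin k → V) (x b : Fin k → V)
    (hr : ∀ c m c' m', r c m = r c' m' → c = c' ∧ m = m')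
    (hx : Function.Injective x) (hb : Function.Injective b)
    (hrr : ∀ c m c' m', c ≠ c' → H.Adj (r c m) (r c' m'))
    (hrx : ∀ c m m', H.Adj (r c m) (x m')) (hrb : ∀ c m m', H.Adj (r c m) (b m'))
    (hxb : ∀ m m', H.Adj (x m) (b m')) : F.IsContained H := by
  obtain ⟨col⟩ := hF
  let φ : Fin k → V := fun f => if hc : (col f : ℕ) < q then r ⟨col f, hc⟩ f else
    if (col f : ℕ) = q then x f else b f
  have key : ∀ f, (∃ c : Fin q, (c : ℕ) = col f ∧ φ f = r c f) ∨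
      ((col f : ℕ) = q ∧ φ f = x f) ∨ ((col f : ℕ) = q + 1 ∧ φ f = b f) := by
    intro f
    have hf := (col f).is_lt
    simp only [φ]
    by_cases h1 : (col f : ℕ) < q
    · left; exact ⟨⟨col f, h1⟩, rfl, by rw [dif_pos h1]⟩
    · right
      rw [dif_neg h1]
      by_cases h2 : (col f : ℕ) = q
      · left; exact ⟨h2, by rw [if_pos h2]⟩
      · right; exact ⟨by omega, by rw [if_neg h2]⟩
  refine ⟨⟨⟨φ, ?_⟩, ?_⟩⟩
  · intro f g hfg
    have hne : (col f : ℕ) ≠ col g := fun h => col.valid hfg (Fin.ext h)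
    rcases key f with ⟨c, h1, h2⟩ | ⟨h1, h2⟩ | ⟨h1, h2⟩ <;>
      rcases key g with ⟨c', h3, h4⟩ | ⟨h3, h4⟩ | ⟨h3, h4⟩ <;> rw [h2, h4]
    · exact hrr _ _ _ _ (fun h => hne (by rw [← h1, ← h3, h]))
    · exact hrx _ _ _
    · exact hrb _ _ _
    · exact (hrx _ _ _).symm
    · omega
    · exact hxb _ _
    · exact (hrb _ _ _).symm
    · exact (hxb _ _).symm
    · omega
  · intro f g hfg
    change φ f = φ g at hfg
    rcases key f with ⟨c, h1, h2⟩ | ⟨h1, h2⟩ | ⟨h1, h2⟩ <;>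
      rcases key g with ⟨c', h3, h4⟩ | ⟨h3, h4⟩ | ⟨h3, h4⟩ <;> rw [h2, h4] at hfg
    · exact (hr _ _ _ _ hfg).2
    · exact absurd hfg (hrx _ _ _).ne
    · exact absurd hfg (hrb _ _ _).ne
    · exact absurd hfg (hrx _ _ _).symm.ne
    · exact hx hfg
    · exact absurd hfg (hxb _ _).ne
    · exact absurd hfg (hrb _ _ _).symm.ne
    · exact absurd hfg (hxb _ _).symm.ne
    · exact hb hfg

section
variable (D : Setup V I J T L q k) (sM : T × I → ℕ) (sL : L → ℕ) (F : SimpleGraph (Fin k))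
  (H : SimpleGraph V)

theorem ctrl_XL (hF : F.Colorable (q + 2)) (hH : D.H0 sM sL ≤ H) (τ : T) (w b : Fin k → V)
    (hw : Function.Injective w) (hb : Function.Injective b)
    (hwp : ∀ m, ∃ σ u, D.pos (w m) = .xL σ u) (hbp : ∀ m, D.pos (b m) = .bM τ)
    (hadj : ∀ m m', H.Adj (w m) (b m')) : F.IsContained H := by
  have pY : ∀ c m, D.pos (D.Y τ c m) = .y τ c m := fun c m => (D.pos_Y _ _ _ _).mpr rfl
  refine contained_of_parts F hF H (D.Y τ) w b ?_ hw hb ?_ ?_ ?_ hadj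
  · intro c m c' m' h
    have h1 := pY c m
    rw [h, pY c' m'] at h1
    simp only [Pos.y.injEq, true_and] at h1
    exact ⟨h1.1.symm, h1.2.symm⟩
  · intro c m c' m' h
    apply hH
    apply Setup.H0_of_P (D.G_Y_Y τ c m c' m' h)
    rw [pY, pY]
    exact ⟨rfl, h⟩
  · intro c m m'
    apply hH
    obtain ⟨σ, u, h⟩ := hwp m'
    rw [(D.pos_XL _ _ _).mp h]
    apply Setup.H0_of_P (D.G_Y_XL τ c m σ u)
    rw [pY, (D.pos_XL _ _ _).mpr rfl]
    trivial
  · intro c m m'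
    apply hH
    apply Setup.H0_of_P (D.G_Y_bM τ c m _ (hbp m'))
    rw [pY, hbp]
    rfl

theorem ctrl_A2 (hF : F.Colorable (q + 2)) (hH : D.H0 sM sL ≤ H) (τ : T) (j : J) (b : Fin k → V)
    (hb : Function.Injective b) (hbp : ∀ m, D.pos (b m) = .bM τ) (W : Finset V)
    (hW : ∀ v ∈ W, D.pos v = .a2 j ∧ ∀ m, H.Adj v (b m)) (hWc : D.m0 ≤ W.card) :
    F.IsContained H := by
  obtain ⟨r, hr1, hr2, hr3⟩ := D.R_rich2 j W (fun v hv => (hW v hv).1) hWc
  have pX : ∀ u, D.pos (D.X2 τ j u) = .x2 τ j u := fun u => (D.pos_X2 _ _ _ _).mpr rfl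
  refine contained_of_parts F hF H r (D.X2 τ j) b hr2 ?_ hb ?_ ?_ ?_ ?_
  · intro u u' h
    have h1 := pX u
    rw [h, pX u'] at h1
    simp only [Pos.x2.injEq, true_and] at h1
    exact h1.symm
  · intro c m c' m' h
    exact hH (Setup.H0_of_R (hr3 c m c' m' h))
  · intro c m m'
    have h1 := (hW _ (hr1 c m)).1
    apply hH
    apply Setup.H0_of_P (D.G_X2_a2 τ j m' _ h1).symm
    rw [h1, pX]
    rfl
  · intro c m m'
    exact (hW _ (hr1 c m)).2 m'
  · intro m m'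
    apply hH
    apply Setup.H0_of_P (D.G_X2_bM τ j m _ (hbp m'))
    rw [pX, hbp]
    rfl

end

/-- remapping of the labels -/
def remap (σ0 : L) : Lab I T L q k → Lab I T L q k
  | .a1 _ c => .a2 c
  | .a2 c => .a2 c
  | .y _ c => .a2 c
  | .bM _ => .bL σ0
  | .bL σ => .bL σ
  | .xM _ _ _ => .bL σ0
  | .xL σ u => .xL σ u

theorem remap_M1 (σ0 : L) (sL : L → ℕ) (a b : Lab I T L q k) (h : M1 0 sL a b) :
    M1 0 sL (remap σ0 a) (remap σ0 b) := by
  cases a <;> cases b <;> simp_all [M1, remap]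
  obtain ⟨rfl, h⟩ := h
  exact h

theorem remap_MM (σ0 : L) (sL : L → ℕ) (a b : Lab I T L q k) (h : MM 0 sL a b) :
    MM 0 sL (remap σ0 a) (remap σ0 b) :=
  h.imp (remap_M1 σ0 sL a b) (remap_M1 σ0 sL b a)

theorem remap_cases (σ0 : L) (a : Lab I T L q k) :
    (∃ c, remap σ0 a = .a2 c) ∨ (∃ σ, remap σ0 a = .bL σ) ∨
      (∃ σ u, remap σ0 a = .xL σ u ∧ a = .xL σ u) := by
  cases a <;> simp [remap]

section
variable [DecidableEq L]
variable (D : Setup V I J T L q k) (sM : T × I → ℕ) (sL : L → ℕ) (F : SimpleGraph (Fin k))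
  (H : SimpleGraph V)

theorem Lstar (hH : D.H0 sM sL ≤ H) (σ : L) (ψ : Fin k → Lab I T L q k)
    (hψ : IsHom F 0 (Function.update sL σ (sL σ + 1)) ψ) (z : V) (hz : ∃ o, D.pos z = .bL o)
    (t : Fin k → V) (ht : Function.Injective t) (htp : ∀ m, D.pos (t m) = .bL (some σ))
    (hzt : ∀ m, H.Adj z (t m)) : F.IsContained H := by
  classical
  -- the vertices for the labels `bL`
  have hbl : ∀ σ', ∃ b : Fin k → V, Function.Injective b ∧
      (∀ m, D.pos (b m) = .bL (some σ') ∧ b m ≠ z) ∧ (σ' = σ → b = t) := by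
    intro σ'
    by_cases h : σ' = σ
    · subst h
      exact ⟨t, ht, fun m => ⟨htp m, (hzt m).ne.symm⟩, fun _ => rfl⟩
    · obtain ⟨b, hb1, hb2⟩ := D.richL σ' ∅ z (by simp) (by simp)
      exact ⟨b, hb1, fun m => ⟨(hb2 m).1, (hb2 m).2.1⟩, fun h' => absurd h' h⟩
  choose bl hbl1 hbl2 hbl3 using hbl
  -- the kinds of the labels
  have kind : ∀ f, (∃ c, remap σ (ψ f) = .a2 c) ∨ (∃ σ', remap σ (ψ f) = .bL σ') ∨
      (∃ σ' u, remap σ (ψ f) = .xL σ' u ∧ ψ f = .xL σ' u) := fun f => remap_cases σ (ψ f)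
  -- the vertices that are not in `A2`
  have hφ0 : ∀ f, ∃ v, ((∃ o, D.pos v = .bL o) ∨ (∃ σ u, D.pos v = .xL σ u)) ∧
      (∀ σ', remap σ (ψ f) = .bL σ' → v = bl σ' f) ∧
      (∀ σ' u, remap σ (ψ f) = .xL σ' u → ¬ (σ' = σ ∧ (u : ℕ) = sL σ) → v = D.XL σ' u) ∧
      (∀ σ' u, remap σ (ψ f) = .xL σ' u → (σ' = σ ∧ (u : ℕ) = sL σ) → v = z) := by
    intro f
    rcases kind f with ⟨c, h⟩ | ⟨σ', h⟩ | ⟨σ', u, h, _⟩
    · refine ⟨z, Or.inl hz, ?_, ?_, ?_⟩ <;> simp [h]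
    · refine ⟨bl σ' f, Or.inl ⟨_, (hbl2 σ' f).1⟩, ?_, ?_, ?_⟩
      · intro σ'' h'
        rw [h] at h'
        simp only [Lab.bL.injEq] at h'
        rw [h']
      · simp [h]
      · simp [h]
    · by_cases hc : σ' = σ ∧ (u : ℕ) = sL σ
      · refine ⟨z, Or.inl hz, ?_, ?_, ?_⟩
        · simp [h]
        · intro σ'' u' h' h2
          rw [h] at h'
          simp only [Lab.xL.injEq] at h'
          obtain ⟨rfl, rfl⟩ := h'
          exact absurd hc h2
        · intros; rfl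
      · refine ⟨D.XL σ' u, Or.inr ⟨σ', u, (D.pos_XL _ _ _).mpr rfl⟩, ?_, ?_, ?_⟩
        · simp [h]
        · intro σ'' u' h' h2
          rw [h] at h'
          simp only [Lab.xL.injEq] at h'
          rw [h'.1, h'.2]
        · intro σ'' u' h' h2
          rw [h] at h'
          simp only [Lab.xL.injEq] at h'
          obtain ⟨rfl, rfl⟩ := h'
          exact absurd h2 hc
  choose φ0 hφp hφbL hφxL hφz using hφ0
  obtain ⟨j, W, hW, hWc⟩ := D.P2 (univ.image φ0) (card_image_le.trans (by simp)) (by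
    intro s hs j
    rw [mem_image] at hs
    obtain ⟨f, _, rfl⟩ := hs
    rcases hφp f with ⟨o, ho⟩ | ⟨σ', u, ho⟩ <;> simp [ho])
  obtain ⟨r, hr1, hr2, hr3⟩ := D.R_rich2 j W (fun v hv => (hW v hv).1) hWc
  have hφ : ∀ f, ∃ v, (∀ c, remap σ (ψ f) = .a2 c → v = r c f) ∧
      ((∀ c, remap σ (ψ f) ≠ .a2 c) → v = φ0 f) := by
    intro f
    by_cases h : ∃ c, remap σ (ψ f) = .a2 c
    · obtain ⟨c, hc⟩ := h
      refine ⟨r c f, ?_, ?_⟩
      · intro c' hc'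
        rw [hc] at hc'
        simp only [Lab.a2.injEq] at hc'
        rw [hc']
      · intro h; exact absurd hc (h c)
    · push Not at h
      exact ⟨φ0 f, fun c hc => absurd hc (h c), fun _ => rfl⟩
  choose φ hφ1 hφ2 using hφ
  -- the four possibilities for a vertex
  have key : ∀ f, (∃ c, remap σ (ψ f) = .a2 c ∧ φ f = r c f) ∨
      (∃ σ', remap σ (ψ f) = .bL σ' ∧ φ f = bl σ' f) ∨
      (∃ σ' u, remap σ (ψ f) = .xL σ' u ∧ ψ f = .xL σ' u ∧ ¬ (σ' = σ ∧ (u : ℕ) = sL σ) ∧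
        φ f = D.XL σ' u) ∨
      (∃ u, remap σ (ψ f) = .xL σ u ∧ ψ f = .xL σ u ∧ (u : ℕ) = sL σ ∧ φ f = z) := by
    intro f
    rcases kind f with ⟨c, h⟩ | ⟨σ', h⟩ | ⟨σ', u, h, h'⟩
    · exact Or.inl ⟨c, h, hφ1 f c h⟩
    · refine Or.inr (Or.inl ⟨σ', h, ?_⟩)
      rw [hφ2 f (by simp [h])]
      exact hφbL f σ' h
    · by_cases hc : σ' = σ ∧ (u : ℕ) = sL σ
      · obtain ⟨rfl, hc2⟩ := hc
        refine Or.inr (Or.inr (Or.inr ⟨u, h, h', hc2, ?_⟩))
        rw [hφ2 f (by simp [h])]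
        exact hφz f σ' u h ⟨rfl, hc2⟩
      · refine Or.inr (Or.inr (Or.inl ⟨σ', u, h, h', hc, ?_⟩))
        rw [hφ2 f (by simp [h])]
        exact hφxL f σ' u h hc
  have a2adj : ∀ c f g, (∀ c, remap σ (ψ g) ≠ .a2 c) → H.Adj (r c f) (φ g) := by
    intro c f g hg
    rw [hφ2 g hg]
    have h1 := hW _ (hr1 c f)
    have h2 := h1.2 (φ0 g) (mem_image_of_mem _ (mem_univ _))
    apply hH
    apply Setup.H0_of_P h2.symm
    rw [h1.1]
    rcases hφp g with ⟨o, ho⟩ | ⟨σ', u, ho⟩ <;> rw [ho] <;> trivial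
  have hM1 : ∀ f g, M1 0 (Function.update sL σ (sL σ + 1)) (remap σ (ψ f)) (remap σ (ψ g)) →
      H.Adj (φ f) (φ g) := by
    intro f g h
    rcases key f with ⟨c, h1, h2⟩ | ⟨σ1, h1, h2⟩ | ⟨σ1, u1, h1, h1', hn, h2⟩ | ⟨u1, h1, h1', hn, h2⟩
    · rcases key g with ⟨c', h3, h4⟩ | ⟨σ2, h3, h4⟩ | ⟨σ2, u2, h3, h3', hn2, h4⟩ |
        ⟨u2, h3, h3', hn2, h4⟩
      · rw [h1, h3] at h
        rw [h2, h4]
        exact hH (Setup.H0_of_R (hr3 _ _ _ _ h))
      · rw [h2]; exact a2adj c f g (by simp [h3])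
      · rw [h2]; exact a2adj c f g (by simp [h3])
      · rw [h2]; exact a2adj c f g (by simp [h3])
    · rw [h1] at h
      exact h.elim
    · rcases key g with ⟨c', h3, h4⟩ | ⟨σ2, h3, h4⟩ | ⟨σ2, u2, h3, h3', hn2, h4⟩ |
        ⟨u2, h3, h3', hn2, h4⟩
      · rw [h1, h3] at h; exact h.elim
      · rw [h1, h3] at h
        obtain ⟨rfl, hu⟩ := h
        rw [h2, h4]
        apply hH
        apply Setup.H0_of_P (D.G_XL_bL σ1 u1 _ (hbl2 σ1 g).1)
        rw [(D.pos_XL _ _ _).mpr rfl, (hbl2 σ1 g).1]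
        refine ⟨rfl, ?_⟩
        by_cases hs : σ1 = σ
        · subst hs
          rw [Function.update_self] at hu
          have : (u1 : ℕ) ≠ sL σ1 := fun h => hn ⟨rfl, h⟩
          omega
        · rwa [Function.update_of_ne hs] at hu
      · rw [h1, h3] at h; exact h.elim
      · rw [h1, h3] at h; exact h.elim
    · rcases key g with ⟨c', h3, h4⟩ | ⟨σ2, h3, h4⟩ | ⟨σ2, u2, h3, h3', hn2, h4⟩ |
        ⟨u2, h3, h3', hn2, h4⟩
      · rw [h1, h3] at h; exact h.elim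
      · rw [h1, h3] at h
        obtain ⟨rfl, hu⟩ := h
        rw [h2, h4, hbl3 σ rfl]
        exact hzt g
      · rw [h1, h3] at h; exact h.elim
      · rw [h1, h3] at h; exact h.elim
  refine ⟨⟨⟨φ, ?_⟩, ?_⟩⟩
  · intro f g hfg
    rcases remap_MM σ _ _ _ (hψ.adj f g hfg) with h | h
    · exact hM1 f g h
    · exact (hM1 g f h).symm
  · have pr : ∀ c f, D.pos (r c f) = .a2 j := fun c f => (hW _ (hr1 c f)).1
    have pb : ∀ σ' f, D.pos (bl σ' f) = .bL (some σ') := fun σ' f => (hbl2 σ' f).1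
    have pX : ∀ σ' u, D.pos (D.XL σ' u) = .xL σ' u := fun σ' u => (D.pos_XL _ _ _).mpr rfl
    obtain ⟨o, ho⟩ := hz
    intro f g hfg
    change φ f = φ g at hfg
    have hp : D.pos (φ f) = D.pos (φ g) := by rw [hfg]
    rcases key f with ⟨c, h1, h2⟩ | ⟨σ1, h1, h2⟩ | ⟨σ1, u1, h1, h1', hn, h2⟩ | ⟨u1, h1, h1', hn, h2⟩ <;>
      rcases key g with ⟨c', h3, h4⟩ | ⟨σ2, h3, h4⟩ | ⟨σ2, u2, h3, h3', hn2, h4⟩ |
        ⟨u2, h3, h3', hn2, h4⟩ <;> rw [h2, h4] at hp hfg <;>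
        simp only [pr, pb, pX, ho, reduceCtorEq] at hp
    · exact (hr2 _ _ _ _ hfg).2
    · simp only [Pos.bL.injEq, Option.some.injEq] at hp
      subst hp
      exact hbl1 _ hfg
    · exact absurd hfg (hbl2 _ _).2
    · simp only [Pos.xL.injEq] at hp
      obtain ⟨rfl, rfl⟩ := hp
      exact hψ.inj f g (by rw [h1', h3']) (by rw [h1']; trivial)
    · exact absurd hfg.symm (hbl2 _ _).2
    · exact hψ.inj f g (by rw [h1', h3']; congr 1; exact Fin.ext (by omega)) (by rw [h1']; trivial)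

end

end Pool.Agent.H62.Sat
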