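import Pool.Agent.H62.Sat.Star

set_option autoImplicit false

/-! Stars of the first kind force a copy of `F`. -/

namespace Pool.Agent.H62.Sat

open Finset

variable {V I J T L : Type} {q k : ℕ}

section
variable [DecidableEq L] [DecidableEq T] [DecidableEq I] [Fintype I]
variable (D : Setup V I J T L q k) (sM : T × I → ℕ) (sL : L → ℕ) (F : SimpleGraph (Fin k))
  (H : SimpleGraph V)

theorem Mstar (hH : D.H0 sM sL ≤ H) (hK : Fintype.card I * (q * k) ≤ D.K3) (τ : T) (i : I)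
    (ψ : Fin k → Lab I T L q k)
    (hψ : IsHom F (Function.update sM (τ, i) (sM (τ, i) + 1)) sL ψ) (z : V)
    (hz : (∃ τ', D.pos z = .bM τ') ∨ (∃ o, D.pos z = .bL o))
    (t : Fin k → V) (ht : Function.Injective t) (htp : ∀ m, D.pos (t m) = .bM τ)
    (hzt : ∀ m, H.Adj z (t m)) (W : I → Finset V)
    (hW : ∀ i', ∀ v ∈ W i', D.pos v = .a1 i' ∧ ∀ m, D.G.Adj v (t m))
    (hWz : ∀ v ∈ W i, D.G.Adj v z) (hWc : ∀ i', D.m0 ≤ (W i').card) : F.IsContained H := by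
  classical
  have hR := fun i' => D.R_rich1 i' (W i') (fun v hv => (hW i' v hv).1) (hWc i')
  choose r1 hr1 hr1i hr1a using hR
  -- all vertices of `A1` that may be used
  obtain ⟨S, hS⟩ : ∃ S : Finset V, S = univ.image
      (fun x : I × (Fin q × Fin k) => r1 x.1 x.2.1 x.2.2) := ⟨_, rfl⟩
  have hSc : S.card ≤ D.K3 := by
    rw [hS]
    refine card_image_le.trans (le_trans (le_of_eq ?_) hK)
    simp [Fintype.card_prod]
  have hSm : ∀ i' c m, r1 i' c m ∈ S := fun i' c m => by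
    rw [hS]; exact mem_image_of_mem (fun x : I × (Fin q × Fin k) => r1 x.1 x.2.1 x.2.2)
      (mem_univ (i', c, m))
  have hSp : ∀ s ∈ S, ∃ i', D.pos s = .a1 i' := by
    intro s hs
    rw [hS, mem_image] at hs
    obtain ⟨x, _, rfl⟩ := hs
    exact ⟨x.1, (hW _ _ (hr1 _ _ _)).1⟩
  have hbm : ∀ τ', ∃ b : Fin k → V, Function.Injective b ∧
      (∀ m, D.pos (b m) = .bM τ' ∧ b m ≠ z ∧ ∀ i' c m', D.G.Adj (r1 i' c m') (b m)) ∧
      (τ' = τ → b = t) := by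
    intro τ'
    by_cases h : τ' = τ
    · subst h
      exact ⟨t, ht, fun m => ⟨htp m, (hzt m).ne.symm, fun i' c m' => (hW _ _ (hr1 i' c m')).2 m⟩,
        fun _ => rfl⟩
    · obtain ⟨b, hb1, hb2⟩ := D.richM τ' S z hSc hSp
      exact ⟨b, hb1, fun m => ⟨(hb2 m).1, (hb2 m).2.1, fun i' c m' => (hb2 m).2.2 _ (hSm _ _ _)⟩,
        fun h' => absurd h' h⟩
  choose bm hbm1 hbm2 hbm3 using hbm
  have hbl : ∀ σ', ∃ b : Fin k → V, Function.Injective b ∧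
      (∀ m, D.pos (b m) = .bL (some σ') ∧ b m ≠ z ∧ ∀ i' c m', D.G.Adj (r1 i' c m') (b m)) := by
    intro σ'
    obtain ⟨b, hb1, hb2⟩ := D.richL σ' S z hSc hSp
    exact ⟨b, hb1, fun m => ⟨(hb2 m).1, (hb2 m).2.1, fun i' c m' => (hb2 m).2.2 _ (hSm _ _ _)⟩⟩
  choose bl hbl1 hbl2 using hbl
  -- the neighbours of the `A2` vertices
  have hφ0 : ∀ f, ∃ v, (∀ j, D.pos v ≠ .a2 j) ∧ (∀ σ', ψ f = .bL σ' → v = bl σ' f) ∧
      (∀ σ' u, ψ f = .xL σ' u → v = D.XL σ' u) := by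
    intro f
    have hzj : ∀ j, D.pos z ≠ .a2 j := by
      intro j; rcases hz with ⟨_, hz⟩ | ⟨_, hz⟩ <;> simp [hz]
    rcases h : ψ f with ⟨i', c⟩ | c | ⟨τ', c⟩ | τ' | σ' | ⟨τ', i', u⟩ | ⟨σ', u⟩
    · exact ⟨z, hzj, by simp, by simp⟩
    · exact ⟨z, hzj, by simp, by simp⟩
    · exact ⟨z, hzj, by simp, by simp⟩
    · exact ⟨z, hzj, by simp, by simp⟩
    · refine ⟨bl σ' f, ?_, ?_, ?_⟩
      · intro j; rw [(hbl2 σ' f).1]; simp
      · intro σ'' h'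
        simp only [Lab.bL.injEq] at h'
        rw [h']
      · simp
    · exact ⟨z, hzj, by simp, by simp⟩
    · refine ⟨D.XL σ' u, ?_, ?_, ?_⟩
      · intro j; rw [(D.pos_XL _ _ _).mpr rfl]; simp
      · simp
      · intro σ'' u' h'
        simp only [Lab.xL.injEq] at h'
        rw [h'.1, h'.2]
  choose φ0 hφp hφbL hφxL using hφ0
  obtain ⟨j, W2, hW2, hW2c⟩ := D.P2 (univ.image φ0) (card_image_le.trans (by simp)) (by
    intro s hs j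
    rw [mem_image] at hs
    obtain ⟨f, _, rfl⟩ := hs
    exact hφp f j)
  obtain ⟨r2, hr2, hr2i, hr2a⟩ := D.R_rich2 j W2 (fun v hv => (hW2 v hv).1) hW2c
  -- the map
  obtain ⟨φ, key⟩ : ∃ φ : Fin k → V, ∀ f,
      (∃ i' c, ψ f = .a1 i' c ∧ φ f = r1 i' c f) ∨
      (∃ c, ψ f = .a2 c ∧ φ f = r2 c f) ∨
      (∃ τ' c, ψ f = .y τ' c ∧ φ f = D.Y τ' c f) ∨
      (∃ τ', ψ f = .bM τ' ∧ φ f = bm τ' f) ∨
      (∃ σ', ψ f = .bL σ' ∧ φ f = bl σ' f) ∨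
      (∃ τ' i' u, ψ f = .xM τ' i' u ∧ ¬ ((τ', i') = (τ, i) ∧ (u : ℕ) = sM (τ, i)) ∧
        φ f = D.XM τ' i' u) ∨
      (∃ u, ψ f = .xM τ i u ∧ (u : ℕ) = sM (τ, i) ∧ φ f = z) ∨
      (∃ σ' u, ψ f = .xL σ' u ∧ φ f = D.XL σ' u) := by
    have h1 : ∀ f, ∃ v,
      (∃ i' c, ψ f = .a1 i' c ∧ v = r1 i' c f) ∨
      (∃ c, ψ f = .a2 c ∧ v = r2 c f) ∨
      (∃ τ' c, ψ f = .y τ' c ∧ v = D.Y τ' c f) ∨
      (∃ τ', ψ f = .bM τ' ∧ v = bm τ' f) ∨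
      (∃ σ', ψ f = .bL σ' ∧ v = bl σ' f) ∨
      (∃ τ' i' u, ψ f = .xM τ' i' u ∧ ¬ ((τ', i') = (τ, i) ∧ (u : ℕ) = sM (τ, i)) ∧
        v = D.XM τ' i' u) ∨
      (∃ u, ψ f = .xM τ i u ∧ (u : ℕ) = sM (τ, i) ∧ v = z) ∨
      (∃ σ' u, ψ f = .xL σ' u ∧ v = D.XL σ' u) := by
      intro f
      rcases h : ψ f with ⟨i', c⟩ | c | ⟨τ', c⟩ | τ' | σ' | ⟨τ', i', u⟩ | ⟨σ', u⟩
      · exact ⟨_, Or.inl ⟨i', c, rfl, rfl⟩⟩
      · exact ⟨_, Or.inr (Or.inl ⟨c, rfl, rfl⟩)⟩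
      · exact ⟨_, Or.inr (Or.inr (Or.inl ⟨τ', c, rfl, rfl⟩))⟩
      · exact ⟨_, Or.inr (Or.inr (Or.inr (Or.inl ⟨τ', rfl, rfl⟩)))⟩
      · exact ⟨_, Or.inr (Or.inr (Or.inr (Or.inr (Or.inl ⟨σ', rfl, rfl⟩))))⟩
      · by_cases hc : (τ', i') = (τ, i) ∧ (u : ℕ) = sM (τ, i)
        · obtain ⟨hc1, hc2⟩ := hc
          simp only [Prod.mk.injEq] at hc1
          obtain ⟨rfl, rfl⟩ := hc1
          exact ⟨z, Or.inr (Or.inr (Or.inr (Or.inr (Or.inr (Or.inr (Or.inl ⟨u, rfl, hc2, rfl⟩))))))⟩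
        · exact ⟨_, Or.inr (Or.inr (Or.inr (Or.inr (Or.inr (Or.inl ⟨τ', i', u, rfl, hc, rfl⟩)))))⟩
      · exact ⟨_, Or.inr (Or.inr (Or.inr (Or.inr (Or.inr (Or.inr (Or.inr ⟨σ', u, rfl, rfl⟩))))))⟩
    exact ⟨fun f => (h1 f).choose, fun f => (h1 f).choose_spec⟩
  have pr1 : ∀ i' c f, D.pos (r1 i' c f) = .a1 i' := fun i' c f => (hW _ _ (hr1 i' c f)).1
  have pr2 : ∀ c f, D.pos (r2 c f) = .a2 j := fun c f => (hW2 _ (hr2 c f)).1
  have pY : ∀ τ' c f, D.pos (D.Y τ' c f) = .y τ' c f := fun _ _ _ => (D.pos_Y _ _ _ _).mpr rfl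
  have pbm : ∀ τ' f, D.pos (bm τ' f) = .bM τ' := fun σ' f => (hbm2 σ' f).1
  have pbl : ∀ σ' f, D.pos (bl σ' f) = .bL (some σ') := fun σ' f => (hbl2 σ' f).1
  have pXM : ∀ τ' i' u, D.pos (D.XM τ' i' u) = .xM τ' i' u := fun _ _ _ => (D.pos_XM _ _ _ _).mpr rfl
  have pXL : ∀ σ' u, D.pos (D.XL σ' u) = .xL σ' u := fun σ' u => (D.pos_XL _ _ _).mpr rfl
  have hM1 : ∀ f g, M1 (Function.update sM (τ, i) (sM (τ, i) + 1)) sL (ψ f) (ψ g) →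
      H.Adj (φ f) (φ g) := by
    intro f g h
    rcases key f with ⟨i1, c1, h1, h2⟩ | ⟨c1, h1, h2⟩ | ⟨τ1, c1, h1, h2⟩ | ⟨τ1, h1, h2⟩ |
      ⟨σ1, h1, h2⟩ | ⟨τ1, i1, u1, h1, hn1, h2⟩ | ⟨u1, h1, hn1, h2⟩ | ⟨σ1, u1, h1, h2⟩
    · rcases key g with ⟨i3, c3, h3, h4⟩ | ⟨c3, h3, h4⟩ | ⟨τ3, c3, h3, h4⟩ | ⟨τ3, h3, h4⟩ |
        ⟨σ3, h3, h4⟩ | ⟨τ3, i3, u3, h3, hn3, h4⟩ | ⟨u3, h3, hn3, h4⟩ | ⟨σ3, u3, h3, h4⟩ <;>
        rw [h1, h3] at h <;> rw [h2, h4]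
      · obtain ⟨rfl, h⟩ := h
        exact hH (Setup.H0_of_R (hr1a _ _ _ _ _ h))
      · exact h.elim
      · exact h.elim
      · apply hH
        apply Setup.H0_of_P ((hbm2 τ3 g).2.2 _ _ _)
        rw [pr1, pbm]; trivial
      · apply hH
        apply Setup.H0_of_P ((hbl2 σ3 g).2.2 _ _ _)
        rw [pr1, pbl]; trivial
      · obtain rfl : i1 = i3 := h
        apply hH
        apply Setup.H0_of_P (D.G_XM_a1 τ3 i1 u3 _ (pr1 i1 c1 f)).symm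
        rw [pr1, pXM]; rfl
      · obtain rfl : i1 = i := h
        apply hH
        apply Setup.H0_of_P (hWz _ (hr1 i1 c1 f))
        rw [pr1]
        rcases hz with ⟨_, hz⟩ | ⟨_, hz⟩ <;> rw [hz] <;> trivial
      · exact h.elim
    · rcases key g with ⟨i3, c3, h3, h4⟩ | ⟨c3, h3, h4⟩ | ⟨τ3, c3, h3, h4⟩ | ⟨τ3, h3, h4⟩ |
        ⟨σ3, h3, h4⟩ | ⟨τ3, i3, u3, h3, hn3, h4⟩ | ⟨u3, h3, hn3, h4⟩ | ⟨σ3, u3, h3, h4⟩ <;>
        rw [h1, h3] at h <;> rw [h2, h4]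
      · exact h.elim
      · exact hH (Setup.H0_of_R (hr2a _ _ _ _ h))
      · exact h.elim
      · exact h.elim
      · apply hH
        have h5 := (hW2 _ (hr2 c1 f)).2 (φ0 g) (mem_image_of_mem _ (mem_univ _))
        rw [hφbL g σ3 h3] at h5
        apply Setup.H0_of_P h5.symm
        rw [pr2, pbl]; trivial
      · exact h.elim
      · exact h.elim
      · apply hH
        have h5 := (hW2 _ (hr2 c1 f)).2 (φ0 g) (mem_image_of_mem _ (mem_univ _))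
        rw [hφxL g σ3 u3 h3] at h5
        apply Setup.H0_of_P h5.symm
        rw [pr2, pXL]; trivial
    · rcases key g with ⟨i3, c3, h3, h4⟩ | ⟨c3, h3, h4⟩ | ⟨τ3, c3, h3, h4⟩ | ⟨τ3, h3, h4⟩ |
        ⟨σ3, h3, h4⟩ | ⟨τ3, i3, u3, h3, hn3, h4⟩ | ⟨u3, h3, hn3, h4⟩ | ⟨σ3, u3, h3, h4⟩ <;>
        rw [h1, h3] at h <;> rw [h2, h4]
      · exact h.elim
      · exact h.elim
      · obtain ⟨rfl, h⟩ := h
        apply hH
        apply Setup.H0_of_P (D.G_Y_Y τ1 c1 f c3 g h)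
        rw [pY, pY]
        exact ⟨rfl, h⟩
      · obtain rfl : τ1 = τ3 := h
        apply hH
        apply Setup.H0_of_P (D.G_Y_bM τ1 c1 f _ (pbm τ1 g))
        rw [pY, pbm]; rfl
      · exact h.elim
      · exact h.elim
      · exact h.elim
      · apply hH
        apply Setup.H0_of_P (D.G_Y_XL τ1 c1 f σ3 u3)
        rw [pY, pXL]; trivial
    · rw [h1] at h; exact h.elim
    · rw [h1] at h; exact h.elim
    · rcases key g with ⟨i3, c3, h3, h4⟩ | ⟨c3, h3, h4⟩ | ⟨τ3, c3, h3, h4⟩ | ⟨τ3, h3, h4⟩ |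
        ⟨σ3, h3, h4⟩ | ⟨τ3, i3, u3, h3, hn3, h4⟩ | ⟨u3, h3, hn3, h4⟩ | ⟨σ3, u3, h3, h4⟩ <;>
        rw [h1, h3] at h <;> rw [h2, h4]
      · exact h.elim
      · exact h.elim
      · exact h.elim
      · obtain ⟨rfl, hu⟩ := h
        apply hH
        apply Setup.H0_of_P (D.G_XM_bM τ1 i1 u1 _ (pbm τ1 g))
        rw [pXM, pbm]
        refine ⟨rfl, ?_⟩
        by_cases hs : (τ1, i1) = (τ, i)
        · rw [hs, Function.update_self] at hu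
          have : (u1 : ℕ) ≠ sM (τ, i) := fun h => hn1 ⟨hs, h⟩
          rw [hs]
          omega
        · rwa [Function.update_of_ne hs] at hu
      · exact h.elim
      · exact h.elim
      · exact h.elim
      · exact h.elim
    · rcases key g with ⟨i3, c3, h3, h4⟩ | ⟨c3, h3, h4⟩ | ⟨τ3, c3, h3, h4⟩ | ⟨τ3, h3, h4⟩ |
        ⟨σ3, h3, h4⟩ | ⟨τ3, i3, u3, h3, hn3, h4⟩ | ⟨u3, h3, hn3, h4⟩ | ⟨σ3, u3, h3, h4⟩ <;>
        rw [h1, h3] at h <;> rw [h2, h4]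
      · exact h.elim
      · exact h.elim
      · exact h.elim
      · obtain ⟨rfl, hu⟩ := h
        rw [hbm3 τ rfl]
        exact hzt g
      · exact h.elim
      · exact h.elim
      · exact h.elim
      · exact h.elim
    · rcases key g with ⟨i3, c3, h3, h4⟩ | ⟨c3, h3, h4⟩ | ⟨τ3, c3, h3, h4⟩ | ⟨τ3, h3, h4⟩ |
        ⟨σ3, h3, h4⟩ | ⟨τ3, i3, u3, h3, hn3, h4⟩ | ⟨u3, h3, hn3, h4⟩ | ⟨σ3, u3, h3, h4⟩ <;>
        rw [h1, h3] at h <;> rw [h2, h4]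
      · exact h.elim
      · exact h.elim
      · exact h.elim
      · exact h.elim
      · obtain ⟨rfl, hu⟩ := h
        apply hH
        apply Setup.H0_of_P (D.G_XL_bL σ1 u1 _ (pbl σ1 g))
        rw [pXL, pbl]
        exact ⟨rfl, hu⟩
      · exact h.elim
      · exact h.elim
      · exact h.elim
  refine ⟨⟨⟨φ, ?_⟩, ?_⟩⟩
  · intro f g hfg
    rcases hψ.adj f g hfg with h | h
    · exact hM1 f g h
    · exact (hM1 g f h).symm
  · intro f g hfg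
    change φ f = φ g at hfg
    have hp : D.pos (φ f) = D.pos (φ g) := by rw [hfg]
    have hzp : ∀ a : Pos I J T L q k, D.pos z = a → (∃ τ', a = .bM τ') ∨ (∃ o, a = .bL o) := by
      rintro a rfl; exact hz
    rcases key f with ⟨i1, c1, h1, h2⟩ | ⟨c1, h1, h2⟩ | ⟨τ1, c1, h1, h2⟩ | ⟨τ1, h1, h2⟩ |
      ⟨σ1, h1, h2⟩ | ⟨τ1, i1, u1, h1, hn1, h2⟩ | ⟨u1, h1, hn1, h2⟩ | ⟨σ1, u1, h1, h2⟩ <;>
    rcases key g with ⟨i3, c3, h3, h4⟩ | ⟨c3, h3, h4⟩ | ⟨τ3, c3, h3, h4⟩ | ⟨τ3, h3, h4⟩ |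
      ⟨σ3, h3, h4⟩ | ⟨τ3, i3, u3, h3, hn3, h4⟩ | ⟨u3, h3, hn3, h4⟩ | ⟨σ3, u3, h3, h4⟩ <;>
    rw [h2, h4] at hp hfg <;>
    first
    | (simp only [pr1, pr2, pY, pbm, pbl, pXM, pXL, reduceCtorEq] at hp; done)
    | (exfalso; simp only [pr1, pr2, pY, pbm, pbl, pXM, pXL] at hp; have h5 := hzp _ hp; simp at h5; done)
    | (exfalso; simp only [pr1, pr2, pY, pbm, pbl, pXM, pXL] at hp; have h5 := hzp _ hp.symm; simp at h5; done)
    | (exact absurd hfg (hbm2 _ _).2.1)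
    | (exact absurd hfg.symm (hbm2 _ _).2.1)
    | (exact absurd hfg (hbl2 _ _).2.1)
    | (exact absurd hfg.symm (hbl2 _ _).2.1)
    | skip
    · simp only [pr1, Pos.a1.injEq] at hp
      subst hp
      exact (hr1i _ _ _ _ _ hfg).2
    · exact (hr2i _ _ _ _ hfg).2
    · simp only [pY, Pos.y.injEq] at hp
      exact hp.2.2
    · simp only [pbm, Pos.bM.injEq] at hp
      subst hp
      exact hbm1 _ hfg
    · simp only [pbl, Pos.bL.injEq, Option.some.injEq] at hp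
      subst hp
      exact hbl1 _ hfg
    · simp only [pXM, Pos.xM.injEq] at hp
      obtain ⟨rfl, rfl, rfl⟩ := hp
      exact hψ.inj f g (by rw [h1, h3]) (by rw [h1]; trivial)
    · exact hψ.inj f g (by rw [h1, h3]; congr 1; exact Fin.ext (by omega)) (by rw [h1]; trivial)
    · simp only [pXL, Pos.xL.injEq] at hp
      obtain ⟨rfl, rfl⟩ := hp
      exact hψ.inj f g (by rw [h1, h3]) (by rw [h1]; trivial)

end

end Pool.Agent.H62.Sat
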