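import Pool.Agent.H62.Sat.Build2

set_option autoImplicit false

/-! A good graph has a sparse saturated subgraph. -/

namespace Pool.Agent.H62.Sat

open Finset Classical

theorem saturate {V : Type} [Finite V] {k : ℕ} (F : SimpleGraph (Fin k)) (G H0 : SimpleGraph V)
    (h0 : H0 ≤ G) (hfree : ¬ F.IsContained H0) :
    ∃ H : SimpleGraph V, H0 ≤ H ∧ H ≤ G ∧ ¬ F.IsContained H ∧
      ∀ u v, G.Adj u v → ¬ H.Adj u v →
        F.IsContained (H ⊔ SimpleGraph.fromEdgeSet {s(u, v)}) := by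
  have hfin : (Set.univ : Set (SimpleGraph V)).Finite := Set.finite_univ
  obtain ⟨H, hH, hmax⟩ := (hfin.subset (Set.subset_univ {H | H0 ≤ H ∧ H ≤ G ∧
    ¬ F.IsContained H})).exists_maximal ⟨H0, le_rfl, h0, hfree⟩
  refine ⟨H, hH.1, hH.2.1, hH.2.2, ?_⟩
  intro u v huv hnot
  by_contra hcon
  have hle : H ≤ H ⊔ SimpleGraph.fromEdgeSet {s(u, v)} := le_sup_left
  have hG : H ⊔ SimpleGraph.fromEdgeSet {s(u, v)} ≤ G := by
    apply sup_le hH.2.1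
    intro a b hab
    rw [SimpleGraph.fromEdgeSet_adj, Set.mem_singleton_iff, Sym2.eq_iff] at hab
    rcases hab.1 with ⟨rfl, rfl⟩ | ⟨rfl, rfl⟩
    · exact huv
    · exact huv.symm
  have := hmax ⟨hH.1.trans hle, hG, hcon⟩ hle
  apply hnot
  apply this
  right
  rw [SimpleGraph.fromEdgeSet_adj]
  exact ⟨rfl, huv.ne⟩

variable {V I J T L Γ : Type} [Fintype V] [Fintype I] [Fintype J] [Fintype T] [Fintype L]
  [Fintype Γ] {q k : ℕ}

theorem Good.upper [Nonempty Γ] [Nonempty L] (D : Good V I J T L Γ q k) (h1 : 1 ≤ D.s1)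
    (F : SimpleGraph (Fin k))
    (htri : ∀ u v : Fin k, F.Adj u v → ∃ w : Fin k, F.Adj u w ∧ F.Adj v w)
    (hF1 : ¬ F.Colorable (q + 1)) (hF2 : F.Colorable (q + 2))
    (hK : Fintype.card I * (q * k) ≤ D.K3)
    (N : ℕ) (hN : N = Fintype.card Γ * D.N')
    (δ1 : ℝ) (M1 : ℕ) (δ1' : ℝ)
    (hI1 : InterMP δ1 I k M1 δ1') (hm1 : (D.m0 : ℝ) ≤ δ1' * N)
    (hnorm : ∀ v, D.nrm v → ∀ i,
      δ1 * N ≤ (((C1 D.reg i).filter (fun x => D.G.Adj v x)).card : ℝ))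
    (Q : ℝ) (hQ : (((univ : Finset (V × V)).filter (fun x => x.1 ≠ x.2 ∧
      (∀ i γ, D.reg x.1 ≠ .c1 i γ) ∧ (∀ i γ, D.reg x.2 ≠ .c1 i γ) ∧ D.nrm x.2 ∧
      ¬ ∃ i, δ1 * N ≤ (((C1 D.reg i).filter (fun y => D.G.Adj x.1 y ∧
        D.G.Adj x.2 y)).card : ℝ))).card : ℝ) ≤ Q)
    (ε2 : ℝ) (hε2 : 0 ≤ ε2) (M2 : ℕ) (δ2 : ℝ) (hI2 : InterP ε2 k M2 δ2)
    (hm2 : (D.m0 : ℝ) ≤ δ2 * N) (hm3 : (k : ℝ) ≤ δ2 * (Fintype.card L * k : ℕ))
    (degb : ℝ) (hdeg : ∑ a ∈ univ.filter (fun v => ∃ i γ, D.reg v = .c1 i γ),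
      ((univ.filter (fun v => D.G.Adj a v)).card : ℝ) ≤ degb) :
    ∃ H : SimpleGraph V, H ≤ D.G ∧ ¬ F.IsContained H ∧
      (∀ u v, D.G.Adj u v → ¬ H.Adj u v →
        F.IsContained (H ⊔ SimpleGraph.fromEdgeSet {s(u, v)})) ∧
      (H.edgeSet.ncard : ℝ) ≤ degb +
        (Fintype.card (T × Fin q × Fin k) +
          Fintype.card ((T × I × Fin k) ⊕ (T × J × Fin k)) : ℕ) * (Fintype.card V : ℝ) +
        (Fintype.card J * N + Fintype.card L * k : ℕ) *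
          ((Fintype.card J * N + Fintype.card L * k : ℕ) + (D.b1 + D.b3 + D.b4 : ℕ) : ℝ) +
        (Fintype.card J * (Fintype.card V * (ε2 * N) + Fintype.card T * M2 * N)) +
        (Fintype.card V * (ε2 * (Fintype.card L * k : ℕ)) +
          Fintype.card T * M2 * (Fintype.card L * k : ℕ)) +
        (Fintype.card V * (Fintype.card T * (Fintype.card I * M1)) + Q) +
        (D.b1 + D.b3 + D.b4 : ℕ) * (Fintype.card L * k : ℝ) +
        (D.b2 : ℝ) ^ 2 := by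
  obtain ⟨S, hSG, hSm, hSK, hc1, hc2, hn, hB, hk0, hk1, hk2, hk3, hk5, hk6⟩ := D.exists_setup h1
  obtain ⟨sM, sL, hno, hψL, hψM⟩ := exists_params (I := I) (T := T) (L := L) F hF1 hF2
  obtain ⟨H, hH0, hHG, hfree, hsat⟩ := saturate F S.G (S.H0 sM sL) (S.H0_le sM sL)
    (S.H0_free sM sL F htri hno)
  refine ⟨H, hSG ▸ hHG, hfree, hSG ▸ hsat, ?_⟩
  have hmain := count_main S sM sL F H hF2 hH0 hHG hfree (by rw [hSK]; exact hK) hψM hψL N
    (by intro i; rw [hc1, D.card_C1, hN]) (by intro j; rw [hc2, D.card_C2, hN]) δ1 M1 δ1' hI1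
    (by rw [hSm]; exact hm1)
    (by
      intro τ v hv i
      rw [hc1, hSG]
      exact hnorm v (hn τ v hv) i) Q
    (by
      refine le_trans ?_ hQ
      have : ((univ : Finset (V × V)).filter (fun x => x.1 ≠ x.2 ∧ 4 ≤ kd (S.pos x.1) ∧
        kd (S.pos x.2) = 4 ∧ ¬ S.Rob δ1 N x.1 x.2)) ⊆ ((univ : Finset (V × V)).filter
        (fun x => x.1 ≠ x.2 ∧
        (∀ i γ, D.reg x.1 ≠ .c1 i γ) ∧ (∀ i γ, D.reg x.2 ≠ .c1 i γ) ∧ D.nrm x.2 ∧
        ¬ ∃ i, δ1 * N ≤ (((C1 D.reg i).filter (fun y => D.G.Adj x.1 y ∧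
        D.G.Adj x.2 y)).card : ℝ))) := by
        intro x hx
        rw [mem_filter] at hx ⊢
        obtain ⟨_, h2, h3, h4, h5⟩ := hx
        obtain ⟨τ, hτ⟩ := kd_bM h4
        refine ⟨mem_univ _, h2, hB _ h3, hB _ (by rw [h4]), hn τ _ hτ, ?_⟩
        intro h6
        apply h5
        obtain ⟨i, hi⟩ := h6
        refine ⟨i, ?_⟩
        rw [hc1, hSG]
        exact hi
      exact_mod_cast card_le_card this) ε2 hε2 M2 δ2 hI2 (by rw [hSm]; exact hm2)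
    (by rw [hk3]; exact hm3)
  refine hmain.trans ?_
  rw [hk0, hk3, hSG]
  have e1 : ((S.kset (fun x => x = 1)).card : ℝ) ≤ (Fintype.card J * N : ℕ) := by
    rw [hN]; exact_mod_cast hk1
  have e2 : ((S.kset (fun x => x = 2)).card : ℝ) ≤ (Fintype.card (T × Fin q × Fin k) +
          Fintype.card ((T × I × Fin k) ⊕ (T × J × Fin k)) : ℕ) := by exact_mod_cast hk2
  have e5 : ((S.kset (fun x => 5 ≤ x)).card : ℝ) ≤ (D.b1 + D.b3 + D.b4 : ℕ) := by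
    exact_mod_cast hk5
  have e6 : ((S.kset (fun x => x = 6)).card : ℝ) ≤ D.b2 := by exact_mod_cast hk6
  have e7 : ((S.kset (fun x => x = 1)).card + (Fintype.card L * k : ℕ) : ℝ) ≤
      (Fintype.card J * N + Fintype.card L * k : ℕ) := by
    push_cast at e1 ⊢
    linarith
  have hL : (0 : ℝ) ≤ (Fintype.card L * k : ℝ) := by positivity
  have t1 := mul_le_mul_of_nonneg_right e2 (Nat.cast_nonneg (Fintype.card V) : (0 : ℝ) ≤ _)
  have t2 : ((S.kset (fun x => x = 1)).card + (Fintype.card L * k : ℕ) : ℝ) *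
      ((S.kset (fun x => x = 1)).card + (Fintype.card L * k : ℕ) +
        (S.kset (fun x => 5 ≤ x)).card : ℝ) ≤ (Fintype.card J * N + Fintype.card L * k : ℕ) *
      ((Fintype.card J * N + Fintype.card L * k : ℕ) + (D.b1 + D.b3 + D.b4 : ℕ) : ℝ) := by
    apply mul_le_mul e7 (add_le_add e7 e5) (by positivity) (Nat.cast_nonneg _)
  have t3 := mul_le_mul_of_nonneg_right e5 hL
  have t4 : ((S.kset (fun x => x = 6)).card : ℝ) ^ 2 ≤ (D.b2 : ℝ) ^ 2 :=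
    pow_le_pow_left₀ (Nat.cast_nonneg _) e6 2
  linarith

end Pool.Agent.H62.Sat
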